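import Pool.Agent.Run7.h687.Full.Mix2

set_option autoImplicit false

namespace Run7.h687.Full
open Run7.h687.Lamp

section
variable {S : RowSys} {C : RCfg S} {q : ℤ × K}
  (hu : ∀ h g, C.up (h + q.1) (tf q g) = C.up h g)
  (hd : ∀ h g, C.dn (h + q.1) (tf q g) = C.dn h g)
include hu hd

lemma reg_tr (h : ℤ) (g : K) : C.Reg (h + q.1) (tf q g) ↔ C.Reg h g := by
  unfold RCfg.Reg
  rw [hu, hd]

lemma DT_tr (D : ℕ) : ∀ (h : ℤ) (g : K), C.DT (h + q.1) (tf q g) D ↔ C.DT h g D := by
  induction D with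
  | zero => intro h g; exact Iff.rfl
  | succ D ih =>
    intro h g
    simp only [RCfg.DT]
    rw [tf_fl, show h + q.1 - 1 = h - 1 + q.1 by ring, ih, ih, reg_tr hu hd, reg_tr hu hd]

lemma UT_tr (D : ℕ) : ∀ (h : ℤ) (g : K), C.UT (h + q.1) (tf q g) D ↔ C.UT h g D := by
  induction D with
  | zero => intro h g; exact Iff.rfl
  | succ D ih =>
    intro h g
    simp only [RCfg.UT]
    rw [tf_fl, show h + q.1 + 1 = h + 1 + q.1 by ring, ih, ih, reg_tr hu hd, reg_tr hu hd]

lemma cb_tr {lo hi : ℤ} {f : K} (H : C.CB lo hi f) : C.CB (lo + q.1) (hi + q.1) (tf q f) := by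
  refine ⟨by have := H.1; omega, fun g o => ?_⟩
  obtain ⟨g, rfl⟩ := tf_surj q g
  obtain ⟨h1, h2, h3, h4⟩ := H.2 g (off_tf.mp o)
  rw [show hi + q.1 - 1 - (lo + q.1) = hi - 1 - lo by ring,
    show hi + q.1 - 1 = hi - 1 + q.1 by ring, hu, hd, UT_tr hu hd, DT_tr hu hd]
  exact ⟨h1, h2, h3, h4⟩

lemma in_tr {h : ℤ} {g : K} (H : (C.rgn none none).In h g) :
    (C.rgn none none).In (h + q.1) (tf q g) :=
  ⟨fun D => (DT_tr hu hd D h g).mpr (H.1 D), fun D => (UT_tr hu hd D h g).mpr (H.2 D)⟩

end

/-- no vertical periods -/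
theorem aperC {x : Cfg} (hx : Rules x) {q : ℤ × K} (hq : 0 < q.1)
    (hu : ∀ h g, x.up (h + q.1) (tf q g) = x.up h g)
    (hd : ∀ h g, x.dn (h + q.1) (tf q g) = x.dn h g) : False := by
  classical
  set C := toR x hx with hC
  have hu' : ∀ h g, C.up (h + q.1) (tf q g) = C.up h g := fun h g => congrArg rd (hu h g)
  have hd' : ∀ h g, C.dn (h + q.1) (tf q g) = C.dn h g := fun h g => congrArg rd (hd h g)
  have hβ := betaC hx
  by_cases hroot : ∃ k g, (C.rgn none none).In k g
  · obtain ⟨k0, g0, hk⟩ := hroot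
    set R := C.rgn none none with hR
    have lv : ∀ h, Lv R h := lvZ hk
    obtain ⟨n, H, hI⟩ := ix_Z (hx := hx) hk
    obtain ⟨ρ, St⟩ := (wsOf R n H).str_Z hI
    have hrow : ∀ h, rr R (h + q.1) = rr R h := by
      intro h
      obtain ⟨g, hg⟩ := lv h
      rw [← rr_up hg, ← rr_up (in_tr hu' hd' hg), hu]
    have hst : ∀ h, n (h + 1 + q.1) - n (h + q.1) = n (h + 1) - n h := by
      intro h
      have e1 := H.st' h
      have e2 := H.st' (h + q.1)
      have e3 := hrow (h + 1)
      rw [show h + q.1 + 1 = h + 1 + q.1 by ring] at e2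
      rw [e3] at e2
      linarith
    have hN : ∀ h, n (h + q.1) = n h + (n q.1 - n 0) := by
      intro h
      induction h using Int.induction_on with
      | zero => rw [zero_add]; ring
      | succ i ih => have := hst i; omega
      | pred i ih => have := hst (-(i : ℤ) - 1); rw [sub_add_cancel] at this; omega
    have hN0 : n q.1 - n 0 ≠ 0 := by
      intro h0
      have e1 : ∀ j : ℕ, n (q.1 * j) = n 0 := by
        intro j
        induction j with
        | zero => simp
        | succ j ih =>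
          have := hN (q.1 * j)
          push_cast
          rw [mul_add, mul_one]
          omega
      obtain ⟨p, p1, p2, p3⟩ := hI (n 0 + 1)
      have hp : p ≤ q.1 * (p.toNat : ℤ) := by
        rcases le_total p 0 with h | h
        · have : p.toNat = 0 := by omega
          rw [this]; simpa using h
        · have : (p.toNat : ℤ) = p := by omega
          rw [this]
          nlinarith
      have e2 := H.mono hp
      rw [e1] at e2
      omega
    obtain ⟨j, hj⟩ := St.aper hI hN0
    apply hj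
    obtain ⟨p, p1, p2, p3⟩ := hI j
    have hnt : rr R p ≠ .top := rr_lv_ne_top (lv p)
    have hnb : rr R p ≠ .bot := rr_lv_ne_bot (lv (p - 1))
    have hrl : (rr R p).rl = true := by
      rcases p2 with h | h | h
      · exact h
      · exact absurd h hnt
      · exact absurd h hnb
    obtain ⟨s, t, hst'⟩ := rl_iff hrl
    have e1 := H.ty (Or.inl (lv p)) hst'
    have e2 := H.ty (h := p + q.1) (Or.inl (lv _)) (by rw [hrow]; exact hst')
    rw [hN] at e2
    rw [p3] at e1 e2
    show tyOf R n _ = tyOf R n _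
    rw [e1, e2]
  · have fin : ∀ h f, ∃ D U, C.DT h f D ∧ ¬ C.DT h f (D + 1) ∧ C.UT h f U ∧ ¬ C.UT h f (U + 1) := by
      intro h f
      rcases C.DT_tri h f with hd | ⟨D, hd1, hd2⟩
      · rcases C.UT_tri h f with hu | ⟨U, hu1, hu2⟩
        · exact absurd ⟨h, f, hd, hu⟩ hroot
        · exfalso
          have hb := C.top_of hu1 hu2 hd f (fun _ _ => rfl)
          exact hroot ⟨_, f, hβ.2 _ _ hb.1 (by
            rw [show h + 1 + (U : ℤ) - 1 = h + U by ring]; exact hb.2)⟩
      · rcases C.UT_tri h f with hu | ⟨U, hu1, hu2⟩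
        · exfalso
          have hb := C.bottom_of hd1 hd2 hu f (fun _ _ => rfl)
          exact hroot ⟨_, f, hβ.1 _ _ hb.1 hb.2⟩
        · exact ⟨D, U, hd1, hd2, hu1, hu2⟩
    have grow : ∀ k : ℕ, ∃ lo hi, lo ≤ -(k : ℤ) ∧ (k : ℤ) < hi ∧ C.CB lo hi 0 := by
      intro k
      induction k with
      | zero =>
        obtain ⟨D, U, a, b, c, d⟩ := fin 0 0
        exact ⟨_, _, by push_cast; omega, by push_cast; omega, C.closed_of a b c d⟩
      | succ k ih =>
        obtain ⟨lo, hi, h1, h2, h3⟩ := ih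
        obtain ⟨b1, b2, b3, b4⟩ := h3.2 0 (Off.refl _ _ _)
        have hlt := h3.1
        have hu := C.hostUp _ lo 0 b1 b3
        obtain ⟨D, U, a, b, c, d⟩ := fin (lo - 1) 0
        have hU : (hi - 1 - lo).toNat + 2 ≤ U := by
          by_contra hc
          exact d (C.UT_le (by omega) hu)
        exact ⟨_, _, by push_cast; omega, by push_cast; omega, C.closed_of a b c d⟩
    obtain ⟨B, B0, hB⟩ := exists_bound q.2 0
    obtain ⟨lo, hi, h1, h2, h3⟩ := grow (B + q.1).toNat
    have h4 : C.CB (lo + q.1) (hi + q.1) 0 := by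
      apply C.cb_inv (cb_tr hu' hd' h3)
      have t0 : tf q 0 = q.2 := by unfold tf; rw [sh_zero, add_zero]
      rw [t0]
      intro i hi'
      exact hB i (by omega)
    obtain ⟨-, -, -, b4⟩ := h3.2 0 (Off.refl _ _ _)
    exact C.cb_not_DT h4 (h := hi - 1) (by omega) (by omega) (Off.refl _ _ _)
      (C.DT_le (by omega) b4)

/-- no vertical periods in the subshift -/
theorem SX_aper {z : (ℤ × K) → Dat × Dat} (hz : z ∈ SX.X) {q : ℤ × K}
    (hq : ∀ p, z (lm q p) = z p) : q.1 = 0 := by
  rw [mem_SX] at hz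
  have key : ∀ q : ℤ × K, (∀ p, z (lm q p) = z p) → ¬ 0 < q.1 := by
    intro q hq h0
    refine aperC hz h0 (fun h g => ?_) (fun h g => ?_)
    · have := hq (h, g)
      rw [lm_tf] at this
      exact congrArg Prod.snd this
    · have := hq (h, g)
      rw [lm_tf] at this
      exact congrArg Prod.fst this
  have h1 := key q hq
  have h2 := key (li q) (fun p => by
    have := hq (lm (li q) p)
    rw [← lm_assoc, lm_li, zero_lm] at this
    exact this.symm)
  have h3 : (li q).1 = -q.1 := rfl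
  rw [h3] at h2
  omega

end Run7.h687.Full
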