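import Pool.Agent.Run7.h687.Full.Cases

set_option autoImplicit false

namespace Run7.h687.Full
open Run7.h687.Lamp

lemma tw_all_zero {j : ℤ} (h : ∀ m, tw m ∣ j) : j = 0 := by
  by_contra hne
  obtain ⟨b, hb⟩ := Ex.exists hne
  exact hb.2 (h (b + 1))

section
variable {x : Cfg} {hx : Rules x}

/-- indices strictly increase at indexed rows -/
lemma IxF.lt {R : Rgn (toR x hx)} {n : ℤ → ℤ} (H : IxF R n) {p q : ℤ} (hpq : p < q)
    (hq : (rr R q).idx) : n p < n q := by
  have e1 := H.mono (show p ≤ q - 1 by omega)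
  have e2 := H.st (q - 1)
  rw [sub_add_cancel] at e2
  rcases e2 with e2 | e2
  · omega
  · exact absurd hq e2.2

/-- wires of index pairs above a hole bottom -/
lemma hole_ws_L {R : Rgn (toR x hx)} {n : ℤ → ℤ} (H : IxF R n) {lo : ℤ} {f : K}
    (host : R.In (lo - 1) f) (hbt : (x.up lo f).row = .bot) {u : ℕ}
    (hu : (toR x hx).UT lo f u) {k : ℤ} (hk : n (lo - 1) < k) {q : ℤ} (hq : Dm R q)
    (hqi : (rr R q).idx) (hqk : n q = k) (hqr : rr R q ≠ .top) (hle : q ≤ lo + u) :
    ∃ c, (wsOf R n H).W (n (lo - 1)) k c ∧ c.isL = false := by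
  have hlt : lo - 1 < q := by
    by_contra hc
    have := H.mono (show q ≤ lo - 1 by omega)
    omega
  have hdm : Dm R (lo - 1) := Or.inl ⟨f, host⟩
  obtain ⟨-, ⟨g0, hg0⟩⟩ := dm_lv hdm hq hlt
  have hqrl : (x.dn q g0).row.rl = true := by
    rcases idx_end hg0 hqi with h | h
    · exact h
    · exact absurd (by rw [← rr_dn hg0]; exact h) hqr
  have e : lo - 1 + 1 = lo := by ring
  obtain ⟨z, W, hz⟩ := wire_holeL (p := lo - 1) (q := q) host (by rw [e]; exact hbt)
    (u := u) (by rw [e]; exact hu) hlt (by omega) hg0 hqrl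
  have hP := (elem_bot (hx.e lo f) hbt).1.row
  have hreal : (x.up (lo - 1) f).row.rl = true := by
    have := (toR x hx).nx (lo - 1) f
    rw [e] at this
    exact RS.nxR' _ _ this hP
  exact ⟨_, ⟨lo - 1, q, z, hlt, hdm, hq, by rw [← rr_up host]; exact Or.inl hreal, hqi, rfl, hqk,
    W, rfl⟩, hz⟩

/-- wires of index pairs below a hole top -/
lemma hole_ws_G {R : Rgn (toR x hx)} {n : ℤ → ℤ} (H : IxF R n) {m : ℤ} {f : K}
    (host : R.In m f) (htp : (x.dn m f).row = .top) {d : ℕ}
    (hd : (toR x hx).DT (m - 1) f d) {k : ℤ} (hk : k < n (m + 1)) {p : ℤ} (hp : Dm R p)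
    (hpi : (rr R p).idx) (hpk : n p = k) (hpr : rr R p ≠ .bot) (hle : m - 1 - d < p) :
    ∃ c, (wsOf R n H).W k (n (m + 1)) c ∧ c.isG = false := by
  have hM := (elem_top (hx.e m f) htp).2.row
  have hreal : (x.dn (m + 1) f).row.rl = true := RS.nxM _ _ ((toR x hx).nx m f) hM
  have hidx : (rr R (m + 1)).idx := by
    have e2 : (x.dn (m + 1) f).row = rr R (m + 1) := R.dn_row host
    rw [← e2]; exact Or.inl hreal
  have hlt : p < m + 1 := by
    by_contra hc
    have := H.mono (show m + 1 ≤ p by omega)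
    omega
  have hpm : p < m := by
    rcases eq_or_lt_of_le (show p ≤ m by omega) with h | h
    · subst h
      exfalso
      have hrow : rr R p = (x.up p f).row := (rr_up host).symm
      rw [hrow] at hpi
      rcases hpi with h1 | h1 | h1
      · exact (RS.rlM _ h1).1 hM
      · rw [h1] at hM; simp [Row.isM] at hM
      · rw [h1] at hM; simp [Row.isM] at hM
    · exact h
  have hdm : Dm R (m + 1) := Or.inr ⟨f, by rw [add_sub_cancel_right]; exact host⟩
  obtain ⟨⟨g0, hg0⟩, -⟩ := dm_lv hp hdm hlt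
  have hprl : (x.up p g0).row.rl = true := by
    rcases idx_start hg0 hpi with h | h
    · exact h
    · exact absurd (by rw [← rr_up hg0]; exact h) hpr
  obtain ⟨z, W, hz⟩ := wire_holeG htp host hd hle hpm hg0 hprl
  exact ⟨_, ⟨p, m + 1, z, hlt, hp, hdm, hpi, hidx, hpk, rfl, W, rfl⟩, hz⟩

theorem beta {lo : ℤ} {f : K} (hbt : (x.up lo f).row = .bot) (hu : ∀ U, (toR x hx).UT lo f U) :
    (∀ D, (toR x hx).DT (lo - 1) f D) ∧ ∀ U, (toR x hx).UT (lo - 1) f U := by
  set C := toR x hx with hC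
  have hU : ∀ U, C.UT (lo - 1) f U := by
    intro U
    exact C.UT_le (show U ≤ U + 2 by omega) (C.hostUp U lo f hbt (hu U))
  refine ⟨?_, hU⟩
  by_contra hcon
  push Not at hcon
  obtain ⟨D, hD1, hD2⟩ : ∃ D, C.DT (lo - 1) f D ∧ ¬ C.DT (lo - 1) f (D + 1) := by
    by_contra hc
    push Not at hc
    obtain ⟨D0, hD0⟩ := hcon
    apply hD0
    clear hD0
    induction D0 with
    | zero => trivial
    | succ D ih => exact hc D ih
  set R := C.rgn (some (lo - 1 - D, f)) none with hR
  have hin : R.In (lo - 1) f := by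
    refine ⟨?_, hU⟩
    refine ⟨by omega, ?_, ?_, fun _ _ => rfl⟩
    · rw [show lo - 1 - (lo - 1 - (D : ℤ)) = D by ring, Int.toNat_natCast]; exact hD1
    · rw [show lo - 1 - (lo - 1 - (D : ℤ)) = D by ring, Int.toNat_natCast]; exact hD2
  obtain ⟨n, H, n0, hbot, hlv, hI, hW⟩ := ix_U hin
  have S := WS.str_up _ hI hW
  have hP := (elem_bot (hx.e lo f) hbt).1.row
  have hreal : (x.up (lo - 1) f).row.rl = true := by
    have := C.nx (lo - 1) f
    rw [sub_add_cancel] at this
    exact RS.nxR' _ _ this hP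
  have hpos : 0 < n (lo - 1) := by
    have hne : lo - 1 - D ≠ lo - 1 := by
      intro h
      have hb2 : rr R (lo - 1 - D) = .bot := hbot
      have hb3 : rr R (lo - 1) = .bot := by rw [← h]; exact hb2
      rw [← rr_up (x := x) (hx := hx) hin] at hb3
      rw [hb3] at hreal
      simp [Row.rl] at hreal
    have := H.lt (p := lo - 1 - D) (q := lo - 1) (by omega) (by
      have e := rr_up (x := x) (hx := hx) hin
      rw [← e]; exact Or.inl hreal)
    omega
  have hall := S.infUp (j := n (lo - 1)) ((hI _).mpr hpos.le) (fun k hk => (hI k).mpr (by omega)) (by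
    intro k hk
    obtain ⟨q, q1, q2, q3⟩ := (hI k).mpr (by omega)
    have hlt : lo - 1 < q := by
      by_contra hc
      have := H.mono (show q ≤ lo - 1 by omega)
      omega
    exact hole_ws_L H hin hbt (hu (q - lo).toNat) hk q1 q2 q3
      (rr_lv_ne_top (hlv q (by omega))) (by omega))
  simp only [sub_zero] at hall
  have := tw_all_zero hall
  omega

theorem beta' {m : ℤ} {f : K} (htp : (x.dn m f).row = .top)
    (hd : ∀ D, (toR x hx).DT (m - 1) f D) :
    (∀ D, (toR x hx).DT m f D) ∧ ∀ U, (toR x hx).UT m f U := by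
  set C := toR x hx with hC
  have hD : ∀ D, C.DT m f D := by
    intro D
    have := C.hostDn D (m - 1) f (by rw [sub_add_cancel]; exact htp) (hd D)
    rw [sub_add_cancel] at this
    exact C.DT_le (show D ≤ D + 2 by omega) this
  refine ⟨hD, ?_⟩
  by_contra hcon
  push Not at hcon
  obtain ⟨D, hD1, hD2⟩ : ∃ D, C.UT m f D ∧ ¬ C.UT m f (D + 1) := by
    by_contra hc
    push Not at hc
    obtain ⟨D0, hD0⟩ := hcon
    apply hD0
    clear hD0
    induction D0 with
    | zero => trivial
    | succ D ih => exact hc D ih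
  set R := C.rgn none (some (m + 1 + D, f)) with hR
  have hin : R.In m f := by
    refine ⟨hD, ?_⟩
    refine ⟨by omega, ?_, ?_, fun _ _ => rfl⟩
    · rw [show m + 1 + (D : ℤ) - 1 - m = D by ring, Int.toNat_natCast]; exact hD1
    · rw [show m + 1 + (D : ℤ) - 1 - m = D by ring, Int.toNat_natCast]; exact hD2
  obtain ⟨n, H, n0, htop, hlv, hI, hW⟩ := ix_D hin
  have S := WS.str_dn _ hI hW
  have hM := (elem_top (hx.e m f) htp).2.row
  have hreal : (x.dn (m + 1) f).row.rl = true := RS.nxM _ _ (C.nx m f) hM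
  have hrow : (x.dn (m + 1) f).row = rr R (m + 1) := R.dn_row hin
  have hneg : n (m + 1) < 0 := by
    have hne : m + 1 + D ≠ m + 1 := by
      intro h
      have hb2 : rr R (m + 1 + D) = .top := htop
      have hb3 : rr R (m + 1) = .top := by rw [← h]; exact hb2
      rw [← hrow] at hb3
      rw [hb3] at hreal
      simp [Row.rl] at hreal
    have := H.lt (p := m + 1) (q := m + 1 + D) (by omega) (by
      rw [htop]; exact Or.inr (Or.inl rfl))
    omega
  have hall := S.infDn (i := n (m + 1)) ((hI _).mpr hneg.le) (fun k hk => (hI k).mpr (by omega)) (by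
    intro k hk
    obtain ⟨p, p1, p2, p3⟩ := (hI k).mpr (by omega)
    have hlt : p < m + 1 := by
      by_contra hc
      have := H.mono (show m + 1 ≤ p by omega)
      omega
    exact hole_ws_G H hin htp (hd (m - p).toNat) hk p1 p2 p3
      (rr_lv_ne_bot (hlv (p - 1) (by omega))) (by omega))
  simp only [sub_zero] at hall
  have := tw_all_zero hall
  omega

/-- index pair of a finite hole -/
theorem hole_pair {R : Rgn (toR x hx)} {n : ℤ → ℤ} (H : IxF R n) {ρ : ℕ → ℤ}
    (S : (wsOf R n H).Str ρ) {lo hi : ℤ} {f : K} (hlh : lo < hi) (host1 : R.In (lo - 1) f)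
    (host2 : R.In hi f) (hbt : (x.up lo f).row = .bot) (htp : (x.dn hi f).row = .top)
    (hu : (toR x hx).UT lo f (hi - 1 - lo).toNat) (hd : (toR x hx).DT (hi - 1) f (hi - 1 - lo).toNat) :
    ∃ s, n (hi + 1) = n (lo - 1) + tw s ∧ tw s ∣ n (lo - 1) - ρ s := by
  have hP := (elem_bot (hx.e lo f) hbt).1.row
  have hM := (elem_top (hx.e hi f) htp).2.row
  have hreal1 : (x.up (lo - 1) f).row.rl = true := by
    have := (toR x hx).nx (lo - 1) f
    rw [sub_add_cancel] at this
    exact RS.nxR' _ _ this hP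
  have hreal2 : (x.dn (hi + 1) f).row.rl = true := RS.nxM _ _ ((toR x hx).nx hi f) hM
  have hrow2 : (x.dn (hi + 1) f).row = rr R (hi + 1) := R.dn_row host2
  have hi1 : (rr R (lo - 1)).idx := by rw [← rr_up host1]; exact Or.inl hreal1
  have hi2 : (rr R (hi + 1)).idx := by rw [← hrow2]; exact Or.inl hreal2
  have d1 : Dm R (lo - 1) := Or.inl ⟨f, host1⟩
  have d2 : Dm R (hi + 1) := Or.inr ⟨f, by rw [add_sub_cancel_right]; exact host2⟩
  have hrlo : rr R lo = (x.dn lo f).row := (rr_dn host1).symm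
  have hrhi : rr R hi = (x.up hi f).row := (rr_up host2).symm
  have notidx1 : ¬ (rr R lo).idx := by
    rw [hrlo]
    rintro (h | h | h)
    · exact (RS.rlM _ h).2 hP
    · rw [h] at hP; simp [Row.isP] at hP
    · rw [h] at hP; simp [Row.isP] at hP
  have notidx2 : ¬ (rr R hi).idx := by
    rw [hrhi]
    rintro (h | h | h)
    · exact (RS.rlM _ h).1 hM
    · rw [h] at hM; simp [Row.isM] at hM
    · rw [h] at hM; simp [Row.isM] at hM
  refine S.hole ⟨_, d1, hi1, rfl⟩ ⟨_, d2, hi2, rfl⟩ (H.lt (by omega) hi2) ?_ ?_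
  · intro k hk1 hk2
    obtain ⟨q, q1, q2, q3, q4⟩ := H.ivt (show lo - 1 ≤ hi + 1 by omega) hk1 hk2.le
    have hq2 : q < hi := by
      rcases lt_trichotomy q hi with h | h | h
      · exact h
      · subst h; exact absurd q4 notidx2
      · have : q = hi + 1 := by omega
        subst this; omega
    have hdq : Dm R q := dm_mid d1 d2 q1.le (by omega)
    refine hole_ws_L H host1 hbt hu hk1 hdq q4 q3 ?_ (by omega)
    have := (dm_lv hdq d2 (by omega)).1
    exact rr_lv_ne_top this
  · intro k hk1 hk2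
    obtain ⟨q, q1, q2, q3, q4⟩ := H.ivt (show lo - 1 ≤ hi + 1 by omega) hk1 hk2.le
    have hq1 : lo < q := by
      rcases lt_trichotomy q lo with h | h | h
      · omega
      · subst h; exact absurd q4 notidx1
      · exact h
    have hq2 : q < hi + 1 := by
      by_contra h
      have := H.mono (show hi + 1 ≤ q by omega)
      omega
    have hdq : Dm R q := dm_mid d1 d2 (by omega) (by omega)
    refine hole_ws_G H host2 htp hd hk2 hdq q4 q3 ?_ (by omega)
    have := (dm_lv d1 hdq (by omega)).2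
    exact rr_lv_ne_bot this

/-- index of an infinite upward hole -/
theorem hole_up {R : Rgn (toR x hx)} {n : ℤ → ℤ} (H : IxF R n) {ρ : ℕ → ℤ}
    (S : (wsOf R n H).Str ρ) (hI : ∀ k, (wsOf R n H).I k) {lo : ℤ} {f : K}
    (hlv : ∀ h, Lv R h) (host1 : R.In (lo - 1) f) (hbt : (x.up lo f).row = .bot)
    (hu : ∀ U, (toR x hx).UT lo f U) : ∀ m, tw m ∣ n (lo - 1) - ρ m := by
  refine S.infUp (hI _) (fun k _ => hI k) ?_
  intro k hk
  obtain ⟨q, q1, q2, q3⟩ := hI k
  have hlt : lo - 1 < q := by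
    by_contra hc
    have := H.mono (show q ≤ lo - 1 by omega)
    omega
  exact hole_ws_L H host1 hbt (hu (q - lo).toNat) hk q1 q2 q3 (rr_lv_ne_top (hlv q)) (by omega)

/-- index of an infinite downward hole -/
theorem hole_dn {R : Rgn (toR x hx)} {n : ℤ → ℤ} (H : IxF R n) {ρ : ℕ → ℤ}
    (S : (wsOf R n H).Str ρ) (hI : ∀ k, (wsOf R n H).I k) {m : ℤ} {f : K}
    (hlv : ∀ h, Lv R h) (host1 : R.In m f) (htp : (x.dn m f).row = .top)
    (hd : ∀ D, (toR x hx).DT (m - 1) f D) : ∀ l, tw l ∣ n (m + 1) - ρ l := by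
  refine S.infDn (hI _) (fun k _ => hI k) ?_
  intro k hk
  obtain ⟨p, p1, p2, p3⟩ := hI k
  have hlt : p < m + 1 := by
    by_contra hc
    have := H.mono (show m + 1 ≤ p by omega)
    omega
  exact hole_ws_G H host1 htp (hd (m - p).toNat) hk p1 p2 p3 (rr_lv_ne_bot (hlv (p - 1))) (by omega)

end

end Run7.h687.Full
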