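import Pool.Agent.Run7.h687.Full.Rigid6

set_option autoImplicit false

namespace Run7.h687.Full
open Run7.h687.Lamp

/-- the concrete row system -/
def RS : RowSys where
  ρ := Row
  Ix := Row × Row
  dec := inferInstance
  Nx := Nx
  bt r := r = .bot
  tp r := r = .top
  rl r := r.rl = true
  P r := r.isP = true
  M r := r.isM = true
  k1 := k1
  k2 := k2
  nxM x y h h1 := by cases h <;> simp_all [Row.rl, Row.isM]
  nxM' x y h h1 := by cases h <;> simp_all [Row.rl, Row.isM]
  nxR x y h h1 := by cases h <;> simp_all [Row.rl, Row.isP]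
  nxR' x y h h1 := by cases h <;> simp_all [Row.rl, Row.isP]
  detR x y y' h h1 h2 := by
    cases h <;> simp_all [Row.rl]
    cases h1; rfl
  detR' x x' y h h1 h2 := by
    cases h <;> simp_all [Row.rl]
    generalize hs : (Row.R _ _) = r at h1
    cases h1 <;> simp_all
  k1i x y y' h0 h h1 h2 := by
    simp only [Bool.not_eq_true] at h0
    unfold k1 at h2
    rw [h0] at h2
    simpa using h2
  k1R x y x' y' h1 h2 h3 h4 h := by
    unfold k1 at h
    have e1 : x.isM = false := by cases x <;> simp_all [Row.rl, Row.isM]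
    have e2 : x'.isM = false := by cases x' <;> simp_all [Row.rl, Row.isM]
    rw [e1, e2] at h
    simp at h
    exact h.1
  k1M x y x' y' h1 h2 h3 h4 h := by
    unfold k1 at h
    have e2 : x'.isM = false := by cases x' <;> simp_all [Row.rl, Row.isM]
    rw [h1, e2] at h
    simp at h
    rw [← h.1] at h3
    exact absurd h3 (by decide)
  k1MM x y x' y' h1 h2 := by
    unfold k1
    rw [h1, h2]
    rfl
  k2i x x' y h0 h h1 h2 := by
    simp only [Bool.not_eq_true] at h0
    unfold k2 at h2
    rw [h0] at h2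
    simpa using h2
  k2R x y x' y' h1 h2 h3 h4 h := by
    unfold k2 at h
    have e1 : y.isP = false := by cases y <;> simp_all [Row.rl, Row.isP]
    have e2 : y'.isP = false := by cases y' <;> simp_all [Row.rl, Row.isP]
    rw [e1, e2] at h
    simp at h
    exact h.2
  k2P x y x' y' h1 h2 h3 h4 h := by
    unfold k2 at h
    have e2 : y'.isP = false := by cases y' <;> simp_all [Row.rl, Row.isP]
    rw [h1, e2] at h
    simp at h
    rw [← h.2] at h3
    exact absurd h3 (by decide)
  k2PP x y x' y' h1 h2 := by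
    unfold k2
    rw [h1, h2]
    rfl
  btM x h := by subst h; decide
  tpM x h := by subst h; decide
  rlM x h := by cases x <;> simp_all [Row.rl, Row.isP, Row.isM]
  MP x h := by cases x <;> simp_all [Row.isP, Row.isM]

/-- rigid data of an element -/
def rd (d : Dat) : RD RS := ⟨d.row, d.a, d.b, d.A, d.B⟩

section
variable {x : Cfg}

/-- the wire rule in oriented form -/
lemma wr_of_T {h : ℤ} {f g : K} (hx : x.T h f) (hg : g = f ∨ g = fl h f) (ha : (x.up h f).a = false)
    (hb : (x.dn (h + 1) g).b = false) :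
    Wr (x.up h f) (x.up h (fl h f)) (x.dn (h + 1) g) (x.dn (h + 1) (fl h g)) := by
  obtain ⟨h1, h2⟩ := hx
  rcases hg with rfl | rfl
  · simp only [ha, hb, if_false, Bool.false_eq_true] at h2
    exact h2
  · have hb' : (x.dn (h + 1) f).b = true := by
      have := h1.b2
      rw [hb] at this
      revert this
      cases (x.dn (h + 1) f).b <;> simp
    simp only [ha, hb', if_false, Bool.false_eq_true, if_true] at h2
    rw [fl_fl]
    exact h2

lemma T_fl {h : ℤ} {f : K} (hx : x.T h f) : x.T h (fl h f) := by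
  obtain ⟨h1, h2⟩ := hx
  unfold Cfg.T Tet
  rw [fl_fl]
  have ha : ∀ b : Bool, (!b) = true ↔ ¬ b = true := by decide
  have r1 := h1.row1
  have r2 := h1.row2
  refine ⟨⟨h1.row1.symm, h1.row2.symm, ?_, ?_, h1.b1.symm, h1.B1.symm, ?_, h1.a2.symm, h1.A2.symm,
    ?_, ?_, ?_, ?_⟩, ?_⟩
  · rw [r1, r2]; exact h1.nx
  · rw [h1.a1]; simp
  · rw [h1.b2]; simp
  · rw [h1.A4, h1.A2, r1, r2]
  · rw [h1.A3, h1.A2, r1, r2]
  · rw [h1.B4, h1.B1, r1, r2]
  · rw [h1.B3, h1.B1, r1, r2]
  · rw [h1.a1, h1.b2]
    revert h2
    cases (x.up h f).a <;> cases (x.dn (h + 1) f).b <;> exact id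

lemma elem_bot {d u : Dat} (h : Elem d u) (hu : u.row = .bot) : HBd d ∧ HBu u := by
  rcases h with h | h | h
  · exact absurd (h.row ▸ hu) h.nb
  · exact h
  · have := h.2.row
    rw [hu] at this
    exact absurd this (by decide)

lemma elem_top {d u : Dat} (h : Elem d u) (hd : d.row = .top) : HTd d ∧ HTu u := by
  rcases h with h | h | h
  · exact absurd hd h.nt
  · have := h.1.row
    rw [hd] at this
    exact absurd this (by decide)
  · exact h

lemma elem_reg {d u : Dat} (h : Elem d u) (h1 : d.b = false) (h2 : u.a = false) : ElR d u := by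
  rcases h with h | h | h
  · exact h
  · have := h.1.b; rw [h1] at this; exact absurd this (by decide)
  · have := h.2.a; rw [h2] at this; exact absurd this (by decide)

/-- the rigid configuration -/
def toR (x : Cfg) (hx : Rules x) : RCfg RS where
  up h f := rd (x.up h f)
  dn h f := rd (x.dn h f)
  row1 h f := (hx.t h f).1.row1
  a1 h f := (hx.t h f).1.a1
  b1 h f := (hx.t h f).1.b1
  B1 h f := (hx.t h f).1.B1
  row2 h f := (hx.t h f).1.row2
  b2 h f := (hx.t h f).1.b2
  a2 h f := (hx.t h f).1.a2
  A2 h f := (hx.t h f).1.A2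
  nx h f := (hx.t h f).1.nx
  A3 h f := (hx.t h f).1.A3
  B3 h f := (hx.t h f).1.B3
  el h f := by
    rcases hx.e h f with h1 | h1 | h1
    · left
      refine ⟨?_, ?_, ?_⟩
      · unfold rd; rw [h1.row, h1.a, h1.b, h1.A, h1.B]
      · show ¬ ((x.up h f).row = .bot)
        rw [h1.row]; exact h1.nb
      · show ¬ ((x.up h f).row = .top)
        rw [h1.row]; exact h1.nt
    · right; left
      exact ⟨h1.1.row, h1.1.b, h1.2.row⟩
    · right; right
      exact ⟨h1.1.row, h1.2.row, h1.2.a⟩
  hb h f hh := by
    obtain ⟨h1, h2⟩ := elem_bot (hx.e (h + 1) f) hh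
    have hT := hx.t h f
    -- choose the bottom with `a = false`
    have key : ∀ g : K, (x.up h g).a = false → (g = f ∨ g = fl h f) → (x.up h g).b = true := by
      intro g ha hg
      have hb : (x.dn (h + 1) (fl h f)).b = false := by
        rw [hT.1.b2, h1.b]; rfl
      have hgg : fl h f = g ∨ fl h f = fl h g := by
        rcases hg with rfl | rfl
        · right; rfl
        · left; rfl
      have := (wr_of_T (hx.t h g) hgg ha hb).hl1
      rw [fl_fl] at this
      exact (this h1.hl).1
    show (x.up h f).b = true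
    by_cases ha : (x.up h f).a = false
    · exact key f ha (Or.inl rfl)
    · have := key (fl h f) (by rw [hT.1.a1]; simpa using ha) (Or.inr rfl)
      rw [hT.1.b1] at this
      exact this
  ht h f hh := by
    obtain ⟨h1, h2⟩ := elem_top (hx.e h f) hh
    have hT := hx.t h f
    have ha : (x.up h (fl h f)).a = false := by rw [hT.1.a1, h2.a]; rfl
    show (x.dn (h + 1) f).a = true
    by_cases hb : (x.dn (h + 1) f).b = false
    · have := (wr_of_T (g := f) (hx.t h (fl h f)) (Or.inr (fl_fl h f).symm) ha hb).hl2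
      rw [fl_fl] at this
      exact this h2.hl
    · have hb' : (x.dn (h + 1) (fl h f)).b = false := by
        rw [hT.1.b2]; simpa using hb
      have := (wr_of_T (g := fl h f) (hx.t h (fl h f)) (Or.inl rfl) ha hb').hl2
      rw [fl_fl] at this
      rw [← hT.1.a2]
      exact this h2.hl
  pm h f hh := hx.pm h f hh
  pp h f hh := hx.pp h f hh
  bb h f hh := (elem_bot (hx.e h f) hh).2.b
  ta h f hh := (elem_top (hx.e h f) hh).1.a
  w2 z h q h1 hW hb hr hbt htp := by
    have key : ∀ k : ℕ, h + 1 + k ≤ q → (x.dn (h + 1 + k) (z (h + 1 + k))).hb = true := by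
      intro k
      induction k with
      | zero =>
        intro hq
        obtain ⟨w1, w2, w3⟩ := hW h le_rfl (by omega)
        have := (wr_of_T (hx.t h (z h)) w1 w2 w3).hb
        simp only [Nat.cast_zero, add_zero]
        have hb' : (x.up h (z h)).b = true := hb
        have hr' : (x.up h (z h)).row.rl = true := hr
        rw [this, if_pos ⟨hb', Or.inl hr'⟩]
        exact (elem_bot (hx.e (h + 1) _) hbt).1.hl
      | succ k ih =>
        intro hq
        push_cast at hq
        have e : h + 1 + ((k + 1 : ℕ) : ℤ) = h + 1 + k + 1 := by push_cast; ring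
        rw [e]
        obtain ⟨w1, w2, w3⟩ := hW (h + 1 + k) (by omega) (by omega)
        obtain ⟨v1, v2, v3⟩ := hW (h + k) (by omega) (by omega)
        have e2 : h + k + 1 = h + 1 + k := by ring
        rw [e2] at v3
        have hel := elem_reg (hx.e (h + 1 + k) (z (h + 1 + k))) v3 w2
        have := (wr_of_T (hx.t (h + 1 + k) (z (h + 1 + k))) w1 w2 w3).hb
        have hbf : (x.up (h + 1 + k) (z (h + 1 + k))).b = false := by rw [hel.b]; exact v3
        rw [this, if_neg (by rw [hbf]; simp), (hel.w0 v3).1]
        exact ih (by omega)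
    obtain ⟨k, hk⟩ : ∃ k : ℕ, q = h + 1 + k := ⟨(q - h - 1).toNat, by omega⟩
    have h2 := key k (by omega)
    rw [← hk] at h2
    obtain ⟨w1, w2, w3⟩ := hW (q - 1) (by omega) (by omega)
    rw [sub_add_cancel] at w1 w3
    have hT := hx.t (q - 1) (z (q - 1))
    have := wr_of_T (g := z q) hT w1 w2 (by rw [sub_add_cancel]; exact w3)
    rw [sub_add_cancel] at this
    have h3 := (this.fin2 htp).2.2.1
    rw [h2] at h3
    exact absurd h3 (by decide)
  w3 z h q h1 hW ha hr htp hbt := by
    have key : ∀ k : ℕ, q + 1 + k ≤ h → (x.dn (q + 1 + k) (z (q + 1 + k))).fb = true := by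
      intro k
      induction k with
      | zero =>
        intro hq
        obtain ⟨w1, w2, w3⟩ := hW q le_rfl (by omega)
        have := (wr_of_T (hx.t q (z q)) w1 w2 w3).fb
        simp only [Nat.cast_zero, add_zero]
        rw [this]
        exact (elem_bot (hx.e q _) hbt).2.fb
      | succ k ih =>
        intro hq
        push_cast at hq
        have e : q + 1 + ((k + 1 : ℕ) : ℤ) = q + 1 + k + 1 := by push_cast; ring
        rw [e]
        obtain ⟨w1, w2, w3⟩ := hW (q + 1 + k) (by omega) (by omega)
        obtain ⟨v1, v2, v3⟩ := hW (q + k) (by omega) (by omega)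
        have e2 : q + k + 1 = q + 1 + k := by ring
        rw [e2] at v3
        have hel := elem_reg (hx.e (q + 1 + k) (z (q + 1 + k))) v3 w2
        have := (wr_of_T (hx.t (q + 1 + k) (z (q + 1 + k))) w1 w2 w3).fb
        rw [this, (hel.w0 v3).2.1]
        exact ih (by omega)
    obtain ⟨k, hk⟩ : ∃ k : ℕ, h = q + 1 + k := ⟨(h - q - 1).toNat, by omega⟩
    have h2 := key k (by omega)
    rw [← hk] at h2
    obtain ⟨w1, w2, w3⟩ := hW (h - 1) (by omega) (by omega)
    rw [sub_add_cancel] at w1 w3
    have hT := hx.t (h - 1) (z (h - 1))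
    have hw := wr_of_T (g := z h) hT w1 w2 (by rw [sub_add_cancel]; exact w3)
    rw [sub_add_cancel] at hw
    have hr' : (x.dn h (z h)).row.rl = true := hr
    obtain ⟨s, t, hst⟩ : ∃ s t, (x.dn h (z h)).row = .R s t := by
      revert hr'
      cases (x.dn h (z h)).row with
      | R s t => intro _; exact ⟨s, t, rfl⟩
      | _ => intro h; simp [Row.rl] at h
    have h3 := (hw.fin1 s t hst ha).2.2.2 (elem_top (hx.e (h - 1) _) htp).2.hl
    rw [h2] at h3
    exact absurd h3.1 (by decide)

end

end Run7.h687.Full
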