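import Pool.Agent.Run7.h687.Full.Index

set_option autoImplicit false

namespace Run7.h687.Full
open Run7.h687.Lamp

lemma exists_bound (g g' : K) : ∃ N : ℤ, 0 ≤ N ∧ ∀ i, (i < -N ∨ N ≤ i) → g i = g' i := by
  obtain ⟨r, hr⟩ := exists_win {((0 : ℤ), g), ((0 : ℤ), g')}
  have h1 := hr (0, g) (by simp)
  have h2 := hr (0, g') (by simp)
  refine ⟨r, by omega, fun i hi => ?_⟩
  rcases hi with hi | hi
  · rw [h1.2.2.1 i hi, h2.2.2.1 i hi]
  · rw [h1.2.2.2 i hi, h2.2.2.2 i hi]

namespace RCfg
variable {S : RowSys} (C : RCfg S)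

/-- lower end condition -/
def LoOK (L : Option (ℤ × K)) (h : ℤ) (g : K) : Prop :=
  match L with
  | none => ∀ D, C.DT h g D
  | some (lo, f0) => lo ≤ h ∧ C.DT h g (h - lo).toNat ∧ ¬ C.DT h g ((h - lo).toNat + 1) ∧
      ∀ i < lo, g i = f0 i

/-- upper end condition -/
def UpOK (L : Option (ℤ × K)) (h : ℤ) (g : K) : Prop :=
  match L with
  | none => ∀ D, C.UT h g D
  | some (hi, f0) => h + 1 ≤ hi ∧ C.UT h g (hi - 1 - h).toNat ∧
      ¬ C.UT h g ((hi - 1 - h).toNat + 1) ∧ ∀ i ≥ hi, g i = f0 i

lemma LoOK_fl {L : Option (ℤ × K)} {h : ℤ} {g : K} : C.LoOK L h (fl h g) ↔ C.LoOK L h g := by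
  cases L with
  | none => simp only [LoOK, DT_fl]
  | some p =>
    obtain ⟨lo, f0⟩ := p
    simp only [LoOK, DT_fl]
    constructor
    · rintro ⟨a, b, c, d⟩
      exact ⟨a, b, c, fun i hi => by rw [← d i hi, fl_ne (by omega)]⟩
    · rintro ⟨a, b, c, d⟩
      exact ⟨a, b, c, fun i hi => by rw [← d i hi, fl_ne (by omega)]⟩

lemma UpOK_fl {L : Option (ℤ × K)} {h : ℤ} {g : K} : C.UpOK L h (fl h g) ↔ C.UpOK L h g := by
  cases L with
  | none => simp only [UpOK, UT_fl]
  | some p =>
    obtain ⟨lo, f0⟩ := p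
    simp only [UpOK, UT_fl]
    constructor
    · rintro ⟨a, b, c, d⟩
      exact ⟨a, b, c, fun i hi => by rw [← d i hi, fl_ne (by omega)]⟩
    · rintro ⟨a, b, c, d⟩
      exact ⟨a, b, c, fun i hi => by rw [← d i hi, fl_ne (by omega)]⟩

lemma LoOK_reg {L : Option (ℤ × K)} {h : ℤ} {g : K} (r : C.Reg h g) :
    C.LoOK L h g ↔ C.LoOK L (h - 1) g := by
  have key : ∀ k, C.DT h g (k + 1) ↔ C.DT (h - 1) g k :=
    fun k => ⟨fun d => C.DT_pred false d r, fun d => C.DT_step r d⟩
  cases L with
  | none =>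
    simp only [LoOK]
    constructor
    · intro H D; exact (key D).mp (H _)
    · intro H D
      cases D with
      | zero => trivial
      | succ D => exact (key D).mpr (H _)
  | some p =>
    obtain ⟨lo, f0⟩ := p
    simp only [LoOK]
    constructor
    · rintro ⟨a, b, c, d⟩
      have hne : h ≠ lo := by
        rintro rfl
        apply c
        rw [sub_self]
        exact (key 0).mpr trivial
      have e : (h - lo).toNat = (h - 1 - lo).toNat + 1 := by omega
      rw [e, key] at b c
      exact ⟨by omega, b, c, d⟩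
    · rintro ⟨a, b, c, d⟩
      have e : (h - lo).toNat = (h - 1 - lo).toNat + 1 := by omega
      rw [e, key, key]
      exact ⟨by omega, b, c, d⟩

lemma UpOK_reg {L : Option (ℤ × K)} {h : ℤ} {g : K} (r : C.Reg h g) :
    C.UpOK L h g ↔ C.UpOK L (h - 1) g := by
  have key : ∀ k, C.UT (h - 1) g (k + 1) ↔ C.UT h g k := by
    intro k
    constructor
    · intro d
      have := C.UT_pred (h := h - 1) (g := g) false d (by rw [sub_add_cancel]; exact r)
      rw [sub_add_cancel] at this
      exact this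
    · intro d; exact C.UT_step' r d
  cases L with
  | none =>
    simp only [UpOK]
    constructor
    · intro H D
      cases D with
      | zero => trivial
      | succ D => exact (key D).mpr (H _)
    · intro H D; exact (key D).mp (H _)
  | some p =>
    obtain ⟨hi, f0⟩ := p
    simp only [UpOK]
    constructor
    · rintro ⟨a, b, c, d⟩
      have e : (hi - 1 - (h - 1)).toNat = (hi - 1 - h).toNat + 1 := by omega
      rw [e, key, key]
      exact ⟨by omega, b, c, d⟩
    · rintro ⟨a, b, c, d⟩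
      have hne : h ≠ hi := by
        rintro rfl
        apply c
        rw [show h - 1 - (h - 1) = 0 by ring]
        exact (key 0).mpr trivial
      have e : (hi - 1 - (h - 1)).toNat = (hi - 1 - h).toNat + 1 := by omega
      rw [e, key] at b c
      exact ⟨by omega, b, c, d⟩

lemma LoOK_core {L : Option (ℤ × K)} {h : ℤ} {g g' : K} (h1 : C.LoOK L h g) (h2 : C.LoOK L h g') :
    ∃ D : ℕ, (∀ i < h - D, g i = g' i) ∧ C.DT h g D ∧ C.DT h g' D := by
  cases L with
  | none =>
    obtain ⟨N, hN0, hN⟩ := exists_bound g g'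
    exact ⟨(h + N).toNat, fun i hi => hN i (by omega), h1 _, h2 _⟩
  | some p =>
    obtain ⟨lo, f0⟩ := p
    obtain ⟨a, b, c, d⟩ := h1
    obtain ⟨a', b', c', d'⟩ := h2
    exact ⟨(h - lo).toNat, fun i hi => by rw [d i (by omega), d' i (by omega)], b, b'⟩

lemma UpOK_core {L : Option (ℤ × K)} {h : ℤ} {g g' : K} (h1 : C.UpOK L h g) (h2 : C.UpOK L h g') :
    ∃ D : ℕ, (∀ i ≥ h + 1 + D, g i = g' i) ∧ C.UT h g D ∧ C.UT h g' D := by
  cases L with
  | none =>
    obtain ⟨N, hN0, hN⟩ := exists_bound g g'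
    exact ⟨(N - h).toNat, fun i hi => hN i (by omega), h1 _, h2 _⟩
  | some p =>
    obtain ⟨lo, f0⟩ := p
    obtain ⟨a, b, c, d⟩ := h1
    obtain ⟨a', b', c', d'⟩ := h2
    exact ⟨(lo - 1 - h).toNat, fun i hi => by rw [d i (by omega), d' i (by omega)], b, b'⟩

/-- the region with given ends -/
def rgn (L U : Option (ℤ × K)) : Rgn C where
  In h g := C.LoOK L h g ∧ C.UpOK U h g
  fl' h g := by rw [C.LoOK_fl, C.UpOK_fl]
  reg h g r := by rw [C.LoOK_reg r, C.UpOK_reg r]
  core := by
    rintro h g g' ⟨a1, a2⟩ ⟨b1, b2⟩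
    obtain ⟨D, d1, d2, d3⟩ := C.LoOK_core a1 b1
    obtain ⟨U, u1, u2, u3⟩ := C.UpOK_core a2 b2
    exact ⟨D, U, fun i hi => by
      rcases hi with hi | hi
      · exact d1 i hi
      · exact u1 i hi, d2, d3, u2, u3⟩
  coreU := by
    rintro h g g' ⟨a1, a2⟩ ⟨b1, b2⟩ hd
    obtain ⟨U, u1, u2, u3⟩ := C.UpOK_core a2 b2
    exact ⟨U, fun i hi => by
      rcases hi with hi | hi
      · exact hd i (by omega)
      · exact u1 i hi, u2, u3⟩
  coreD := by
    rintro h g g' ⟨a1, a2⟩ ⟨b1, b2⟩ hd
    obtain ⟨D, d1, d2, d3⟩ := C.LoOK_core a1 b1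
    exact ⟨D, fun i hi => by
      rcases hi with hi | hi
      · exact d1 i hi
      · exact hd i hi, d2, d3⟩
  up1 := by
    rintro h g g' ⟨a1, a2⟩ ⟨b1, b2⟩
    apply C.nt_of_UT (D := 0)
    cases U with
    | none => exact a2 _
    | some p =>
      obtain ⟨hi, f0⟩ := p
      obtain ⟨a, b, c, d⟩ := a2
      obtain ⟨a', b', c', d'⟩ := b2
      exact C.UT_le (by omega) b
  dn1 := by
    rintro h g g' ⟨a1, a2⟩ ⟨b1, b2⟩
    apply C.nb_of_DT (D := 0)
    cases L with
    | none => exact a1 _
    | some p =>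
      obtain ⟨hi, f0⟩ := p
      obtain ⟨a, b, c, d⟩ := a1
      obtain ⟨a', b', c', d'⟩ := b1
      exact C.DT_le (by omega) b
  lev := by
    rintro p q i g g' ⟨a1, a2⟩ ⟨b1, b2⟩ h1 h2
    obtain ⟨k, rfl⟩ : ∃ k : ℕ, i = p + k := ⟨(i - p).toNat, by omega⟩
    clear h1
    induction k with
    | zero => exact ⟨g, by simpa using ⟨a1, a2⟩⟩
    | succ k ih =>
      push_cast at h2 ⊢
      obtain ⟨g1, c1, c2⟩ := ih (by omega)
      have hu : C.UT (p + k) g1 1 := by
        cases U with
        | none => exact c2 _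
        | some p =>
          obtain ⟨hi, f0⟩ := p
          obtain ⟨a, b, c, d⟩ := c2
          obtain ⟨a', b', c', d'⟩ := b2
          exact C.UT_le (by omega) b
      rw [UT_succ] at hu
      obtain ⟨x, rx, -⟩ := hu
      refine ⟨flx (p + k) x g1, ?_⟩
      rw [← add_assoc, C.LoOK_reg rx, C.UpOK_reg rx, add_sub_cancel_right]
      cases x
      · exact ⟨c1, c2⟩
      · show C.LoOK L (p + k) (fl (p + k) g1) ∧ C.UpOK U (p + k) (fl (p + k) g1)
        rw [C.LoOK_fl, C.UpOK_fl]
        exact ⟨c1, c2⟩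

end RCfg

section
variable {x : Cfg} {hx : Rules x} (R : Rgn (toR x hx))

open Classical in
theorem exists_IxF {h0 v : ℤ} (h1 : Dm R h0) (hv : (rr R h0).par = true ↔ (2 : ℤ) ∣ v) :
    ∃ n, IxF R n ∧ n h0 = v := by
  obtain ⟨n, n0, hn⟩ := exists_count (fun h => (rr R h).idx) h0 v
  refine ⟨n, ⟨?_, ?_⟩, n0⟩
  · intro h
    rw [hn]
    by_cases hh : (rr R (h + 1)).idx
    · left; rw [if_pos hh]; exact ⟨rfl, hh⟩
    · right; rw [if_neg hh]; exact ⟨by ring, hh⟩
  · have stp : ∀ h, Lv R h → (((rr R h).par = true ↔ (2 : ℤ) ∣ n h) ↔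
        ((rr R (h + 1)).par = true ↔ (2 : ℤ) ∣ n (h + 1))) := by
      intro h hl
      have h2 := (rr_nx hl).par
      rw [hn h]
      by_cases hh : (rr R (h + 1)).idx
      · rw [if_pos hh]
        simp only [hh, decide_true, Bool.xor_true] at h2
        rw [h2]
        cases (rr R h).par <;> simp <;> omega
      · rw [if_neg hh]
        simp only [hh, decide_false, Bool.xor_false] at h2
        rw [h2, add_zero]
    intro h hd
    rcases le_total h0 h with hle | hle
    · obtain ⟨k, rfl⟩ : ∃ k : ℕ, h = h0 + k := ⟨(h - h0).toNat, by omega⟩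
      clear hle
      induction k with
      | zero => simpa [n0] using hv
      | succ k ih =>
        push_cast at hd ⊢
        rw [← add_assoc] at hd ⊢
        have hd' := dm_mid h1 hd (show h0 ≤ h0 + (k : ℤ) by omega) (by omega)
        have hl := (dm_lv hd' hd (by omega)).1
        exact (stp _ hl).mp (ih hd')
    · obtain ⟨k, rfl⟩ : ∃ k : ℕ, h = h0 - k := ⟨(h0 - h).toNat, by omega⟩
      clear hle
      induction k with
      | zero => simpa [n0] using hv
      | succ k ih =>
        push_cast at hd ⊢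
        have hd' := dm_mid hd h1 (show h0 - ((k : ℤ) + 1) ≤ h0 - k by omega) (by omega)
        have hl := (dm_lv hd hd' (by omega)).1
        have e : h0 - (k : ℤ) = h0 - ((k : ℤ) + 1) + 1 := by ring
        rw [stp _ hl, ← e]
        exact ih hd'

end

/-- index functions: both ends infinite -/
theorem ix_Z {x : Cfg} {hx : Rules x} {g : K} {h : ℤ} (hg : ((toR x hx).rgn none none).In h g) :
    ∃ n, ∃ H : IxF ((toR x hx).rgn none none) n, ∀ k, (wsOf _ n H).I k := by
  classical
  set R := (toR x hx).rgn none none with hR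
  have lvall : ∀ h, Lv R h := by
    have up : ∀ h, Lv R h → Lv R (h + 1) := by
      rintro h ⟨g, hg⟩
      have := hg.2 1
      rw [RCfg.UT_succ] at this
      obtain ⟨y, ry, -⟩ := this
      exact ⟨_, (R.reg _ _ ry).mpr (by rw [add_sub_cancel_right, R.flx']; exact hg)⟩
    have dn : ∀ h, Lv R h → Lv R (h - 1) := by
      rintro h ⟨g, hg⟩
      have := hg.1 1
      rw [RCfg.DT_succ] at this
      obtain ⟨y, ry, -⟩ := this
      exact ⟨_, (R.reg _ _ ry).mp (by rw [R.flx']; exact hg)⟩
    intro h'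
    have : ∀ k : ℕ, Lv R (h + k) ∧ Lv R (h - k) := by
      intro k
      induction k with
      | zero =>
        have : Lv R h := ⟨g, hg⟩
        simp only [Nat.cast_zero, add_zero, sub_zero]
        exact ⟨this, this⟩
      | succ k ih =>
        push_cast
        rw [← add_assoc, ← sub_sub]
        exact ⟨up _ ih.1, dn _ ih.2⟩
    rcases le_total h h' with h1 | h1
    · have := (this (h' - h).toNat).1
      rwa [show h + ((h' - h).toNat : ℤ) = h' by omega] at this
    · have := (this (h - h').toNat).2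
      rwa [show h - ((h - h').toNat : ℤ) = h' by omega] at this
  obtain ⟨n, H, -⟩ := exists_IxF R (h0 := h) (v := if (rr R h).par then 0 else 1)
    (Or.inl (lvall h)) (by cases (rr R h).par <;> simp)
  refine ⟨n, H, ?_⟩
  have hab : ∀ k : ℕ, ∃ p, k ≤ n p ∧ (∃ q, n q ≤ -k) := by
    have h1 : ∀ k : ℕ, ∃ p, n h + k ≤ n p := by
      intro k
      induction k with
      | zero => exact ⟨h, by simp⟩
      | succ k ih =>
        obtain ⟨p, hp⟩ := ih
        obtain ⟨q, q1, q2, q3, -⟩ := idx_above (lvall p)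
        refine ⟨q, ?_⟩
        have e1 := H.mono (show p ≤ q - 1 by omega)
        have e2 := H.st (q - 1)
        rw [sub_add_cancel] at e2
        rcases e2 with e2 | e2
        · push_cast; omega
        · exact absurd q3 e2.2
    have h2 : ∀ k : ℕ, ∃ p, n p ≤ n h - k := by
      intro k
      induction k with
      | zero => exact ⟨h, by simp⟩
      | succ k ih =>
        obtain ⟨p, hp⟩ := ih
        obtain ⟨q, q1, q2, q3, -⟩ := idx_below (lvall (p + 1 - 1))
        refine ⟨q - 1, ?_⟩
        have e1 := H.mono (show q ≤ p by omega)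
        have e2 := H.st (q - 1)
        rw [sub_add_cancel] at e2
        rcases e2 with e2 | e2
        · push_cast; omega
        · exact absurd q3 e2.2
    intro k
    obtain ⟨p, hp⟩ := h1 (k + (n h).natAbs)
    obtain ⟨q, hq⟩ := h2 (k + (n h).natAbs)
    rw [Nat.cast_add] at hp hq
    exact ⟨p, by omega, q, by omega⟩
  intro k
  obtain ⟨p, hp, q, hq⟩ := hab (k.natAbs + 1)
  rw [Nat.cast_add, Nat.cast_one] at hp hq
  have hqp : q ≤ p := by
    by_contra hc
    have := H.mono (show p ≤ q by omega)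
    omega
  obtain ⟨h', -, -, a3, a4⟩ := H.ivt hqp (k := k) (by omega) (by omega)
  exact ⟨h', Or.inl (lvall h'), a4, a3⟩

/-- index functions: lower end finite -/
theorem ix_U {x : Cfg} {hx : Rules x} {lo : ℤ} {f0 : K} {g : K} {h : ℤ}
    (hg : ((toR x hx).rgn (some (lo, f0)) none).In h g) :
    ∃ n, ∃ H : IxF ((toR x hx).rgn (some (lo, f0)) none) n, n lo = 0 ∧
      (rr ((toR x hx).rgn (some (lo, f0)) none) lo = .bot) ∧
      (∀ h, lo ≤ h → Lv ((toR x hx).rgn (some (lo, f0)) none) h) ∧
      (∀ k, (wsOf _ n H).I k ↔ 0 ≤ k) ∧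
      ∀ k c, 0 < k → (wsOf _ n H).W 0 k c → c.isL = false := by
  classical
  set R := (toR x hx).rgn (some (lo, f0)) none with hR
  have lvlo : Lv R lo := by
    have hge : lo ≤ h := hg.1.1
    have hall : ∀ k : ℕ, lo ≤ h - k → Lv R (h - k) := by
      intro k
      induction k with
      | zero => intro _; exact ⟨g, by simpa using hg⟩
      | succ k ih =>
        intro hk
        push_cast at hk ⊢
        obtain ⟨g1, h1⟩ := ih (by omega)
        have hd : (toR x hx).DT (h - k) g1 1 := (toR x hx).DT_le (by omega) h1.1.2.1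
        rw [RCfg.DT_succ] at hd
        obtain ⟨y, ry, -⟩ := hd
        rw [← sub_sub]
        exact ⟨_, (R.reg _ _ ry).mp (by rw [R.flx']; exact h1)⟩
    have := hall (h - lo).toNat (by omega)
    rwa [show h - ((h - lo).toNat : ℤ) = lo by omega] at this
  have lvall : ∀ h, lo ≤ h → Lv R h := by
    intro h' hh'
    have : ∀ k : ℕ, Lv R (lo + k) := by
      intro k
      induction k with
      | zero => simpa using lvlo
      | succ k ih =>
        obtain ⟨g1, h1⟩ := ih
        have := h1.2 1
        rw [RCfg.UT_succ] at this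
        obtain ⟨y, ry, -⟩ := this
        push_cast
        rw [← add_assoc]
        exact ⟨_, (R.reg _ _ ry).mpr (by rw [add_sub_cancel_right, R.flx']; exact h1)⟩
    have := this (h' - lo).toNat
    rwa [show lo + ((h' - lo).toNat : ℤ) = h' by omega] at this
  have hbot : rr R lo = .bot := by
    obtain ⟨g1, h1⟩ := lvlo
    rw [← rr_up h1]
    by_contra hc
    have := h1.1.2.2.1
    rw [sub_self] at this
    exact this ((toR x hx).DT_one hc)
  obtain ⟨n, H, n0⟩ := exists_IxF R (h0 := lo) (v := 0) (Or.inl lvlo) (by rw [hbot]; simp [Row.par])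
  have hdm : ∀ p, Dm R p → lo ≤ p := by
    rintro p (⟨g1, h1⟩ | ⟨g1, h1⟩)
    · exact h1.1.1
    · have := h1.1.1; omega
  refine ⟨n, H, n0, hbot, lvall, ?_, ?_⟩
  · intro k
    constructor
    · rintro ⟨p, p1, p2, p3⟩
      have := H.mono (hdm p p1)
      omega
    · intro hk
      rcases eq_or_lt_of_le hk with h1 | h1
      · exact ⟨lo, Or.inl lvlo, by rw [hbot]; exact Or.inr (Or.inr rfl), by omega⟩
      · have hup : ∀ k : ℕ, ∃ p, lo ≤ p ∧ (k : ℤ) ≤ n p := by
          intro k
          induction k with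
          | zero => exact ⟨lo, le_rfl, by simp [n0]⟩
          | succ k ih =>
            obtain ⟨p, p0, hp⟩ := ih
            obtain ⟨q, q1, q2, q3, -⟩ := idx_above (lvall p p0)
            refine ⟨q, by omega, ?_⟩
            have e1 := H.mono (show p ≤ q - 1 by omega)
            have e2 := H.st (q - 1)
            rw [sub_add_cancel] at e2
            rcases e2 with e2 | e2
            · push_cast; omega
            · exact absurd q3 e2.2
        obtain ⟨p, p0, hp⟩ := hup k.toNat
        obtain ⟨h', a1, a2, a3, a4⟩ := H.ivt p0 (k := k) (by omega) (by omega)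
        exact ⟨h', Or.inl (lvall h' (by omega)), a4, a3⟩
  · rintro k c hk ⟨p, q, z, hpq, p1, q1, p2, q2, p3, q3, W, hc⟩
    have hp : p = lo := H.uniq p2 (by rw [hbot]; exact Or.inr (Or.inr rfl)) (by omega)
    subst hp
    rw [← hc]
    refine wire_bot W hpq (by rw [rr_up (W.In p le_rfl hpq)]; exact hbot) ?_
    rcases idx_end (wire_In_end W hpq) q2 with h5 | h5
    · exact h5
    · exfalso
      have := (wire_In_end W hpq).2 1
      have := (toR x hx).nt_of_UT this
      rw [sub_add_cancel] at this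
      exact this h5

/-- index functions: upper end finite -/
theorem ix_D {x : Cfg} {hx : Rules x} {hi : ℤ} {f0 : K} {g : K} {h : ℤ}
    (hg : ((toR x hx).rgn none (some (hi, f0))).In h g) :
    ∃ n, ∃ H : IxF ((toR x hx).rgn none (some (hi, f0))) n, n hi = 0 ∧
      (rr ((toR x hx).rgn none (some (hi, f0))) hi = .top) ∧
      (∀ h, h < hi → Lv ((toR x hx).rgn none (some (hi, f0))) h) ∧
      (∀ k, (wsOf _ n H).I k ↔ k ≤ 0) ∧
      ∀ k c, k < 0 → (wsOf _ n H).W k 0 c → c.isG = false := by
  classical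
  set R := (toR x hx).rgn none (some (hi, f0)) with hR
  have lvhi : Lv R (hi - 1) := by
    have hge : h + 1 ≤ hi := hg.2.1
    have hall : ∀ k : ℕ, h + k + 1 ≤ hi → Lv R (h + k) := by
      intro k
      induction k with
      | zero => intro _; exact ⟨g, by simpa using hg⟩
      | succ k ih =>
        intro hk
        push_cast at hk ⊢
        obtain ⟨g1, h1⟩ := ih (by omega)
        have hd : (toR x hx).UT (h + k) g1 1 := (toR x hx).UT_le (by omega) h1.2.2.1
        rw [RCfg.UT_succ] at hd
        obtain ⟨y, ry, -⟩ := hd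
        rw [← add_assoc]
        exact ⟨_, (R.reg _ _ ry).mpr (by rw [add_sub_cancel_right, R.flx']; exact h1)⟩
    have := hall (hi - 1 - h).toNat (by omega)
    rwa [show h + ((hi - 1 - h).toNat : ℤ) = hi - 1 by omega] at this
  have lvall : ∀ h, h < hi → Lv R h := by
    intro h' hh'
    have : ∀ k : ℕ, Lv R (hi - 1 - k) := by
      intro k
      induction k with
      | zero => simpa using lvhi
      | succ k ih =>
        obtain ⟨g1, h1⟩ := ih
        have := h1.1 1
        rw [RCfg.DT_succ] at this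
        obtain ⟨y, ry, -⟩ := this
        push_cast
        rw [← sub_sub]
        exact ⟨_, (R.reg _ _ ry).mp (by rw [R.flx']; exact h1)⟩
    have := this (hi - 1 - h').toNat
    rwa [show hi - 1 - ((hi - 1 - h').toNat : ℤ) = h' by omega] at this
  have htop : rr R hi = .top := by
    obtain ⟨g1, h1⟩ := lvhi
    rw [← rr_dn h1]
    by_contra hc
    have := h1.2.2.2.1
    rw [sub_self] at this
    exact this ((toR x hx).UT_one (by rw [sub_add_cancel]; exact hc))
  obtain ⟨n, H, n0⟩ := exists_IxF R (h0 := hi) (v := 0) (Or.inr lvhi) (by rw [htop]; simp [Row.par])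
  have hdm : ∀ p, Dm R p → p ≤ hi := by
    rintro p (⟨g1, h1⟩ | ⟨g1, h1⟩)
    · have := h1.2.1; omega
    · have := h1.2.1; omega
  refine ⟨n, H, n0, htop, lvall, ?_, ?_⟩
  · intro k
    constructor
    · rintro ⟨p, p1, p2, p3⟩
      have := H.mono (hdm p p1)
      omega
    · intro hk
      have hdn : ∀ k : ℕ, ∃ p, p ≤ hi ∧ n p ≤ -(k : ℤ) := by
        intro k
        induction k with
        | zero => exact ⟨hi, le_rfl, by simp [n0]⟩
        | succ k ih =>
          obtain ⟨p, p0, hp⟩ := ih
          obtain ⟨q, q1, q2, q3, -⟩ := idx_below (p := p) (lvall (p - 1) (by omega))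
          refine ⟨q - 1, by omega, ?_⟩
          have e1 := H.mono (show q ≤ p by omega)
          have e2 := H.st (q - 1)
          rw [sub_add_cancel] at e2
          rcases e2 with e2 | e2
          · push_cast; omega
          · exact absurd q3 e2.2
      rcases eq_or_lt_of_le hk with h1 | h1
      · exact ⟨hi, Or.inr lvhi, by rw [htop]; exact Or.inr (Or.inl rfl), by omega⟩
      · obtain ⟨p, p0, hp⟩ := hdn ((-k).toNat + 1)
        obtain ⟨h', a1, a2, a3, a4⟩ := H.ivt p0 (k := k) (by push_cast at hp; omega) (by omega)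
        refine ⟨h', ?_, a4, a3⟩
        rcases eq_or_lt_of_le a2 with h5 | h5
        · subst h5; exact Or.inr lvhi
        · exact Or.inl (lvall h' h5)
  · rintro k c hk ⟨p, q, z, hpq, p1, q1, p2, q2, p3, q3, W, hc⟩
    have hq : q = hi := H.uniq q2 (by rw [htop]; exact Or.inr (Or.inl rfl)) (by omega)
    subst hq
    rw [← hc]
    refine wire_top W hpq ?_ (by rw [rr_dn (wire_In_end W hpq)]; exact htop)
    rcases idx_start (W.In p le_rfl hpq) p2 with h5 | h5
    · exact h5
    · exfalso
      have := (W.In p le_rfl hpq).1 1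
      exact (toR x hx).nb_of_DT this h5

end Run7.h687.Full
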