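import Pool.Agent.Run7.h687.Full.Over
import Pool.Agent.Run7.h687.Full.Cases

set_option autoImplicit false

namespace Run7.h687.Full
open Run7.h687.Lamp

lemma decide_fl {h : ℤ} {f fW : K} : decide ((fl h f) h = fW h) = !decide (f h = fW h) := by
  rw [fl_same]
  generalize f h = a
  generalize fW h = b
  revert a b
  decide

lemma reg_of_elr {x : Cfg} {hx : Rules x} {h : ℤ} {f : K} (H : ElR (x.dn h f) (x.up h f)) :
    (toR x hx).Reg h f := by
  refine ⟨?_, ?_, ?_⟩
  · show rd (x.up h f) = rd (x.dn h f)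
    unfold rd
    rw [H.row, H.a, H.b, H.A, H.B]
  · show ¬ (x.up h f).row = .bot
    rw [H.row]; exact H.nb
  · show ¬ (x.up h f).row = .top
    rw [H.row]; exact H.nt

section
variable {x : Cfg} {hx : Rules x} (R : Rgn (toR x hx))

/-- inputs for the transplant -/
structure WOK (lo hi : ℤ) (r : ℤ → Row) (n : ℤ → ℤ) (M : ℕ) (h0 h1 : ℤ) (fW : K)
    (Hol : ℤ → ℤ → K → Prop) : Prop where
  frm : Frm lo hi r n M
  l0 : lo ≤ h0
  l01 : h0 < h1
  l1 : h1 ≤ hi
  rows : ∀ h, h0 - 1 ≤ h → h ≤ h1 + 1 → lo ≤ h → h ≤ hi → Dm R h → r h = rr R h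
  cL : h0 = lo ∨ (lo < h0 - 1 ∧ (r (h0 - 1)).rl = false ∧ (r h0).rl = false)
  cU : h1 = hi ∨ (h1 + 1 < hi ∧ (r h1).rl = false ∧ (r (h1 + 1)).rl = false)
  hols : Hols lo hi r Hol
  ix : ∀ l u g, Hol l u g → ∃ s, n (u + 1) = n (l - 1) + tw s ∧ tw s ∣ n (l - 1)
  lower : ∀ l u g, Hol l u g → (l < h0 ∧ ∀ i < l, g i = fW i) ∨
    (h0 < l ∧ l ≤ h1 ∧ R.In (l - 1) g ∧ (x.up l g).row = .bot)
  upper : ∀ l u g, Hol l u g → (h1 < u ∧ ∀ i ≥ u, g i = fW i) ∨
    (h0 ≤ u ∧ u < h1 ∧ R.In u g ∧ (x.dn u g).row = .top)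
  status : ∀ h g, h0 - 1 ≤ h → h ≤ h1 → lo ≤ h → h < hi → Off h0 h1 g fW → ¬ InH Hol h g → R.In h g

/-- visible T1 classes -/
def vis1 (h : ℤ) (f : K) : Prop := ∃ g, R.In h g ∧ ∀ i ≥ h, g i = f i

/-- visible T2 classes -/
def vis2 (h : ℤ) (f : K) : Prop := ∃ g, R.In (h - 1) g ∧ ∀ i < h, g i = f i

open Classical in
/-- transplanted labels -/
noncomputable def aL (hi h0 h1 : ℤ) (fW : K) (h : ℤ) (f : K) : Bool :=
  if h = hi then true
  else if H : (h0 ≤ h ∧ h ≤ h1) ∧ vis1 R h f then (x.up h H.2.choose).a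
  else decide (f h = fW h)

open Classical in
/-- transplanted labels -/
noncomputable def bL (lo h0 h1 : ℤ) (fW : K) (h : ℤ) (f : K) : Bool :=
  if h = lo then true
  else if H : (h0 ≤ h ∧ h ≤ h1) ∧ vis2 R h f then (x.dn h H.2.choose).b
  else decide (f (h - 1) = fW (h - 1))

variable {R}

lemma al_spec {hi h0 h1 : ℤ} {fW : K} {h : ℤ} {f g : K} (hh : h ≠ hi) (a1 : h0 ≤ h) (a2 : h ≤ h1)
    (hg : R.In h g) (hgf : ∀ i ≥ h, g i = f i) : aL R hi h0 h1 fW h f = (x.up h g).a := by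
  unfold aL
  have H : (h0 ≤ h ∧ h ≤ h1) ∧ vis1 R h f := ⟨⟨a1, a2⟩, g, hg, hgf⟩
  rw [if_neg hh, dif_pos H]
  obtain ⟨c1, c2⟩ := H.2.choose_spec
  exact (R.a_eq c1 hg (fun i hi' => by rw [c2 i hi', hgf i hi'])).1

lemma al_out {hi h0 h1 : ℤ} {fW : K} {h : ℤ} {f : K} (hh : h ≠ hi) (a1 : ¬ (h0 ≤ h ∧ h ≤ h1)) :
    aL R hi h0 h1 fW h f = decide (f h = fW h) := by
  unfold aL
  rw [if_neg hh, dif_neg (fun H => a1 H.1)]

lemma al_inv {hi h0 h1 : ℤ} {fW : K} {h : ℤ} {f : K} (hh : h ≠ hi) (a1 : ¬ vis1 R h f) :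
    aL R hi h0 h1 fW h f = decide (f h = fW h) := by
  unfold aL
  rw [if_neg hh, dif_neg (fun H => a1 H.2)]

lemma bl_spec {lo h0 h1 : ℤ} {fW : K} {h : ℤ} {f g : K} (hh : h ≠ lo) (a1 : h0 ≤ h) (a2 : h ≤ h1)
    (hg : R.In (h - 1) g) (hgf : ∀ i < h, g i = f i) : bL R lo h0 h1 fW h f = (x.dn h g).b := by
  unfold bL
  have H : (h0 ≤ h ∧ h ≤ h1) ∧ vis2 R h f := ⟨⟨a1, a2⟩, g, hg, hgf⟩
  rw [if_neg hh, dif_pos H]
  obtain ⟨c1, c2⟩ := H.2.choose_spec
  have := (R.b_eq c1 hg (fun i hi' => by rw [c2 i (by omega), hgf i (by omega)])).1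
  rw [sub_add_cancel] at this
  exact this

lemma bl_out {lo h0 h1 : ℤ} {fW : K} {h : ℤ} {f : K} (hh : h ≠ lo) (a1 : ¬ (h0 ≤ h ∧ h ≤ h1)) :
    bL R lo h0 h1 fW h f = decide (f (h - 1) = fW (h - 1)) := by
  unfold bL
  rw [if_neg hh, dif_neg (fun H => a1 H.1)]

lemma bl_inv {lo h0 h1 : ℤ} {fW : K} {h : ℤ} {f : K} (hh : h ≠ lo) (a1 : ¬ vis2 R h f) :
    bL R lo h0 h1 fW h f = decide (f (h - 1) = fW (h - 1)) := by
  unfold bL
  rw [if_neg hh, dif_neg (fun H => a1 H.2)]

lemma vis1_dep {h : ℤ} {f f' : K} (hf : ∀ i ≥ h, f i = f' i) (H : vis1 R h f) : vis1 R h f' := by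
  obtain ⟨g, g1, g2⟩ := H
  exact ⟨g, g1, fun i hi => by rw [g2 i hi, hf i hi]⟩

lemma vis2_dep {h : ℤ} {f f' : K} (hf : ∀ i < h, f i = f' i) (H : vis2 R h f) : vis2 R h f' := by
  obtain ⟨g, g1, g2⟩ := H
  exact ⟨g, g1, fun i hi => by rw [g2 i hi, hf i hi]⟩

lemma fl_agree {h : ℤ} {g f : K} {P : ℤ → Prop} (H : ∀ i, P i → g i = f i) :
    ∀ i, P i → (fl h g) i = (fl h f) i := by
  intro i hi
  by_cases hh : i = h
  · subst hh; rw [fl_same, fl_same, H i hi]
  · rw [fl_ne hh, fl_ne hh, H i hi]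

/-- region tetrahedra through an `M` row -/
lemma in_flM {h : ℤ} {g : K} (hg : R.In h g) (hM : (x.up h g).row.isM = true) :
    R.In h (fl (h + 1) g) := by
  have h1 : ((toR x hx).dn (h + 1) g).row.rl = true := RS.nxM _ _ ((toR x hx).nx h g) hM
  have r1 : (toR x hx).Reg (h + 1) g := (toR x hx).reg_of_rl h1
  have i1 : R.In (h + 1) g := (R.reg _ _ r1).mpr (by rw [add_sub_cancel_right]; exact hg)
  have i2 : R.In (h + 1) (fl (h + 1) g) := (R.fl' _ _).mpr i1
  have r2 : (toR x hx).Reg (h + 1) (fl (h + 1) g) := (toR x hx).reg_of_rl' (by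
    rw [(toR x hx).row1, r1.1]; exact h1)
  have := (R.reg _ _ r2).mp i2
  rwa [add_sub_cancel_right] at this

/-- region tetrahedra through a `P` row -/
lemma in_flP {h : ℤ} {g : K} (hg : R.In (h - 1) g) (hP : (x.dn h g).row.isP = true) :
    R.In (h - 1) (fl (h - 2) g) := by
  have hn := (toR x hx).nx (h - 1) g
  rw [sub_add_cancel] at hn
  have h1 : ((toR x hx).up (h - 1) g).row.rl = true := RS.nxR' _ _ hn hP
  have r1 : (toR x hx).Reg (h - 1) g := (toR x hx).reg_of_rl' h1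
  have i1 : R.In (h - 2) g := by
    have := (R.reg _ _ r1).mp hg
    rwa [show h - 1 - 1 = h - 2 by ring] at this
  have i2 : R.In (h - 2) (fl (h - 2) g) := (R.fl' _ _).mpr i1
  have r2 : (toR x hx).Reg (h - 1) (fl (h - 2) g) := (toR x hx).reg_of_rl (by
    have := (toR x hx).row2 (h - 2) g
    rw [show h - 2 + 1 = h - 1 by ring] at this
    rw [this, ← r1.1]; exact h1)
  refine (R.reg _ _ r2).mpr ?_
  rw [show h - 1 - 1 = h - 2 by ring]
  exact i2

section
variable {lo hi : ℤ} {r : ℤ → Row} {n : ℤ → ℤ} {M : ℕ} {h0 h1 : ℤ} {fW : K}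
  {Hol : ℤ → ℤ → K → Prop} (O : WOK R lo hi r n M h0 h1 fW Hol)
include O

lemma wok_row {h : ℤ} {g : K} (a1 : h0 - 1 ≤ h) (a2 : h ≤ h1 + 1) (a3 : lo ≤ h) (a4 : h ≤ hi)
    (hg : R.In h g) : (x.up h g).row = r h := by
  rw [rr_up hg, O.rows h a1 a2 a3 a4 (Or.inl ⟨g, hg⟩)]

lemma wok_row' {h : ℤ} {g : K} (a1 : h0 - 1 ≤ h) (a2 : h ≤ h1 + 1) (a3 : lo ≤ h) (a4 : h ≤ hi)
    (hg : R.In (h - 1) g) : (x.dn h g).row = r h := by
  rw [rr_dn hg, O.rows h a1 a2 a3 a4 (Or.inr ⟨g, hg⟩)]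

lemma wok_lab : Lab lo hi r (aL R hi h0 h1 fW) (bL R lo h0 h1 fW) := by
  have hsg := O.frm.seg
  refine ⟨?_, ?_, ?_, ?_, ?_, ?_, ?_, ?_⟩
  · intro h f f' hf
    by_cases hh : h = hi
    · unfold aL; rw [if_pos hh, if_pos hh]
    by_cases hw : h0 ≤ h ∧ h ≤ h1
    · by_cases hv : vis1 R h f
      · obtain ⟨g, g1, g2⟩ := hv
        rw [al_spec hh hw.1 hw.2 g1 g2, al_spec hh hw.1 hw.2 g1 (fun i hi' => by rw [g2 i hi', hf i hi'])]
      · rw [al_inv hh hv, al_inv hh (fun hv' => hv (vis1_dep (fun i hi' => (hf i hi').symm) hv')),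
          hf h (le_refl h)]
    · rw [al_out hh hw, al_out hh hw, hf h (le_refl h)]
  · intro h f a1 a2
    have hh : h ≠ hi := by omega
    by_cases hw : h0 ≤ h ∧ h ≤ h1
    · by_cases hv : vis1 R h f
      · obtain ⟨g, g1, g2⟩ := hv
        rw [al_spec hh hw.1 hw.2 g1 g2, al_spec hh hw.1 hw.2 ((R.fl' _ _).mpr g1)
          (fl_agree (P := fun i => i ≥ h) g2)]
        exact (hx.t h g).1.a1
      · have hv' : ¬ vis1 R h (fl h f) := by
          rintro ⟨g, g1, g2⟩
          apply hv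
          refine ⟨fl h g, (R.fl' _ _).mpr g1, ?_⟩
          have := fl_agree (h := h) (P := fun i => i ≥ h) g2
          rwa [fl_fl] at this
        rw [al_inv hh hv, al_inv hh hv', decide_fl]
    · rw [al_out hh hw, al_out hh hw, decide_fl]
  · intro f
    unfold aL
    rw [if_pos rfl]
  · intro h f a1 a2 hM
    have hh : h ≠ hi := by omega
    by_cases hw : h0 ≤ h ∧ h ≤ h1
    · have key : ∀ f, vis1 R h f → ∃ g, R.In h g ∧ (∀ i ≥ h, g i = f i) ∧ R.In h (fl (h + 1) g) ∧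
          (x.up h (fl (h + 1) g)).a = (x.up h g).a := by
        rintro f ⟨g, g1, g2⟩
        have hM' : (x.up h g).row.isM = true := by
          rw [wok_row O (by omega) (by omega) a1 a2.le g1]; exact hM
        exact ⟨g, g1, g2, in_flM g1 hM', hx.pm h g hM'⟩
      by_cases hv : vis1 R h f
      · obtain ⟨g, g1, g2, g3, g4⟩ := key f hv
        rw [al_spec hh hw.1 hw.2 g1 g2, al_spec hh hw.1 hw.2 g3 (fl_agree (P := fun i => i ≥ h) g2)]
        exact g4
      · have hv' : ¬ vis1 R h (fl (h + 1) f) := by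
          intro hv'
          obtain ⟨g, g1, g2, g3, g4⟩ := key _ hv'
          apply hv
          refine ⟨fl (h + 1) g, g3, ?_⟩
          have := fl_agree (h := h + 1) (P := fun i => i ≥ h) g2
          rwa [fl_fl] at this
        rw [al_inv hh hv, al_inv hh hv', fl_ne (by omega)]
    · rw [al_out hh hw, al_out hh hw, fl_ne (by omega)]
  · intro h f f' hf
    by_cases hh : h = lo
    · unfold bL; rw [if_pos hh, if_pos hh]
    by_cases hw : h0 ≤ h ∧ h ≤ h1
    · by_cases hv : vis2 R h f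
      · obtain ⟨g, g1, g2⟩ := hv
        rw [bl_spec hh hw.1 hw.2 g1 g2, bl_spec hh hw.1 hw.2 g1 (fun i hi' => by rw [g2 i hi', hf i hi'])]
      · rw [bl_inv hh hv, bl_inv hh (fun hv' => hv (vis2_dep (fun i hi' => (hf i hi').symm) hv')),
          hf (h - 1) (by omega)]
    · rw [bl_out hh hw, bl_out hh hw, hf (h - 1) (by omega)]
  · intro h f a1 a2
    have hh : h ≠ lo := by omega
    by_cases hw : h0 ≤ h ∧ h ≤ h1
    · by_cases hv : vis2 R h f
      · obtain ⟨g, g1, g2⟩ := hv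
        rw [bl_spec hh hw.1 hw.2 g1 g2, bl_spec hh hw.1 hw.2 ((R.fl' _ _).mpr g1)
          (fl_agree (P := fun i => i < h) g2)]
        have := (hx.t (h - 1) g).1.b2
        rwa [sub_add_cancel] at this
      · have hv' : ¬ vis2 R h (fl (h - 1) f) := by
          rintro ⟨g, g1, g2⟩
          apply hv
          refine ⟨fl (h - 1) g, (R.fl' _ _).mpr g1, ?_⟩
          have := fl_agree (h := h - 1) (P := fun i => i < h) g2
          rwa [fl_fl] at this
        rw [bl_inv hh hv, bl_inv hh hv', decide_fl]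
    · rw [bl_out hh hw, bl_out hh hw, decide_fl]
  · intro f
    unfold bL
    rw [if_pos rfl]
  · intro h f a1 a2 hP
    have hh : h ≠ lo := by omega
    by_cases hw : h0 ≤ h ∧ h ≤ h1
    · have key : ∀ f, vis2 R h f → ∃ g, R.In (h - 1) g ∧ (∀ i < h, g i = f i) ∧
          R.In (h - 1) (fl (h - 2) g) ∧ (x.dn h (fl (h - 2) g)).b = (x.dn h g).b := by
        rintro f ⟨g, g1, g2⟩
        have hP' : (x.dn h g).row.isP = true := by
          rw [wok_row' O (by omega) (by omega) a1.le a2 g1]; exact hP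
        exact ⟨g, g1, g2, in_flP g1 hP', hx.pp h g hP'⟩
      by_cases hv : vis2 R h f
      · obtain ⟨g, g1, g2, g3, g4⟩ := key f hv
        rw [bl_spec hh hw.1 hw.2 g1 g2, bl_spec hh hw.1 hw.2 g3 (fl_agree (P := fun i => i < h) g2)]
        exact g4
      · have hv' : ¬ vis2 R h (fl (h - 2) f) := by
          intro hv'
          obtain ⟨g, g1, g2, g3, g4⟩ := key _ hv'
          apply hv
          refine ⟨fl (h - 2) g, g3, ?_⟩
          have := fl_agree (h := h - 2) (P := fun i => i < h) g2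
          rwa [fl_fl] at this
        rw [bl_inv hh hv, bl_inv hh hv', fl_ne (by omega)]
    · rw [bl_out hh hw, bl_out hh hw, fl_ne (by omega)]

lemma wok_rl1 {l u : ℤ} {g : K} (H : Hol l u g) : (r (l - 1)).rl = true := by
  have h1 := O.hols.lt l u g H
  have h2 := O.hols.rP l u g H
  have h3 := O.frm.seg.nx (l - 1) (by omega) (by omega)
  rw [sub_add_cancel] at h3
  exact RS.nxR' _ _ h3 h2

lemma wok_rl2 {l u : ℤ} {g : K} (H : Hol l u g) : (r (u + 1)).rl = true := by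
  have h1 := O.hols.lt l u g H
  have h2 := O.hols.rM l u g H
  exact RS.nxM _ _ (O.frm.seg.nx u (by omega) (by omega)) h2

lemma wok_cond (A0 B0 : Gp) :
    HCond ⟨lo, hi, r, n, aL R hi h0 h1 fW, bL R lo h0 h1 fW, A0, B0, Hol⟩ M := by
  have l0 := O.l0
  have l1 := O.l1
  refine ⟨O.frm, wok_lab O, O.hols, O.ix, ?_, ?_, ?_, ?_⟩
  · intro l u g H
    have hlt := O.hols.lt l u g H
    show bL R lo h0 h1 fW l g = true
    rcases O.lower l u g H with ⟨c1, c2⟩ | ⟨c1, c2, c3, c4⟩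
    · rw [bl_out (by omega) (by omega), c2 (l - 1) (by omega)]
      simp
    · rw [bl_spec (g := g) (by omega) (by omega) (by omega) c3 (fun _ _ => rfl)]
      exact (elem_bot (hx.e l g) c4).1.b
  · intro l u g H
    have hlt := O.hols.lt l u g H
    show bL R lo h0 h1 fW (l - 1) g = true
    by_cases hlo : l - 1 = lo
    · unfold bL; rw [if_pos hlo]
    rcases O.lower l u g H with ⟨c1, c2⟩ | ⟨c1, c2, c3, c4⟩
    · rw [bl_out hlo (by omega), c2 (l - 1 - 1) (by omega)]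
      simp
    · have hrl := wok_rl1 O H
      have hne : l - 1 ≠ h0 := by
        intro he
        rcases O.cL with c | c
        · omega
        · rw [he, c.2.2] at hrl; exact absurd hrl (by decide)
      have hrow : (x.up (l - 1) g).row.rl = true := by
        rw [wok_row O (by omega) (by omega) (by omega) (by omega) c3]; exact hrl
      have hreg : (toR x hx).Reg (l - 1) g := (toR x hx).reg_of_rl' hrow
      rw [bl_spec (g := g) hlo (by omega) (by omega) ((R.reg _ _ hreg).mp c3) (fun _ _ => rfl)]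
      have e1 : ((toR x hx).up (l - 1) g).b = ((toR x hx).dn (l - 1) g).b := congrArg RD.b hreg.1
      have e2 := (toR x hx).hb (l - 1) g (by rw [sub_add_cancel]; exact c4)
      rw [e1] at e2
      exact e2
  · intro l u g H
    have hlt := O.hols.lt l u g H
    show aL R hi h0 h1 fW u g = true
    rcases O.upper l u g H with ⟨c1, c2⟩ | ⟨c1, c2, c3, c4⟩
    · rw [al_out (by omega) (by omega), c2 u le_rfl]
      simp
    · rw [al_spec (g := g) (by omega) (by omega) (by omega) c3 (fun _ _ => rfl)]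
      exact (elem_top (hx.e u g) c4).2.a
  · intro l u g H
    have hlt := O.hols.lt l u g H
    show aL R hi h0 h1 fW (u + 1) g = true
    by_cases hhi : u + 1 = hi
    · unfold aL; rw [if_pos hhi]
    rcases O.upper l u g H with ⟨c1, c2⟩ | ⟨c1, c2, c3, c4⟩
    · rw [al_out hhi (by omega), c2 (u + 1) (by omega)]
      simp
    · have hM := (elem_top (hx.e u g) c4).2.row
      have hrow : ((toR x hx).dn (u + 1) g).row.rl = true := RS.nxM _ _ ((toR x hx).nx u g) hM
      have hreg : (toR x hx).Reg (u + 1) g := (toR x hx).reg_of_rl hrow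
      have i1 : R.In (u + 1) g := (R.reg _ _ hreg).mpr (by rw [add_sub_cancel_right]; exact c3)
      rw [al_spec (g := g) hhi (by omega) (by omega) i1 (fun _ _ => rfl)]
      have e1 : ((toR x hx).up (u + 1) g).a = ((toR x hx).dn (u + 1) g).a := congrArg RD.a hreg.1
      have e2 := (toR x hx).ht u g c4
      rw [← e1] at e2
      exact e2

lemma wok_reg0 (hne : h0 ≠ lo) {g : K} (hg : R.In (h0 - 1) g) : ElR (x.dn h0 g) (x.up h0 g) := by
  have l0 := O.l0
  have l1 := O.l1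
  have l01 := O.l01
  obtain ⟨c1, c2, c3⟩ : lo < h0 - 1 ∧ (r (h0 - 1)).rl = false ∧ (r h0).rl = false := by
    rcases O.cL with h | h
    · exact absurd h hne
    · exact h
  rcases hx.e h0 g with h | h | h
  · exact h
  · exfalso
    have hn := (toR x hx).nx (h0 - 1) g
    rw [sub_add_cancel] at hn
    have h5 : (x.up (h0 - 1) g).row.rl = true := RS.nxR' _ _ hn h.1.row
    rw [wok_row O (by omega) (by omega) (by omega) (by omega) hg, c2] at h5
    exact absurd h5 (by decide)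
  · exfalso
    have h5 := h.1.row
    rw [wok_row' O (by omega) (by omega) (by omega) (by omega) hg] at h5
    exact O.frm.seg.ne_top (by omega) (by omega) h5

lemma wok_reg1 (hne : h1 ≠ hi) {g : K} (hg : R.In h1 g) : ElR (x.dn h1 g) (x.up h1 g) := by
  have l0 := O.l0
  have l1 := O.l1
  have l01 := O.l01
  obtain ⟨c1, c2, c3⟩ : h1 + 1 < hi ∧ (r h1).rl = false ∧ (r (h1 + 1)).rl = false := by
    rcases O.cU with h | h
    · exact absurd h hne
    · exact h
  rcases hx.e h1 g with h | h | h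
  · exact h
  · exfalso
    have h5 := h.2.row
    rw [wok_row O (by omega) (by omega) (by omega) (by omega) hg] at h5
    exact O.frm.seg.ne_bot (by omega) (by omega) h5
  · exfalso
    have h5 : (x.dn (h1 + 1) g).row.rl = true := RS.nxM _ _ ((toR x hx).nx h1 g) h.2.row
    rw [wok_row' O (by omega) (by omega) (by omega) (by omega)
      (by rw [add_sub_cancel_right]; exact hg), c3] at h5
    exact absurd h5 (by decide)

end
end

lemma A_shift (P : HPar) (Z : Gp) {h : ℤ} (hh : h ≤ P.hi) : ∀ f,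
    ({ P with A0 := Z } : HPar).A h f = ({ P with A0 := 0 } : HPar).A h f + Z := by
  refine zdn (Q := fun h => ∀ f, ({ P with A0 := Z } : HPar).A h f =
    ({ P with A0 := 0 } : HPar).A h f + Z) ?_ ?_ h hh
  · intro f
    have e1 := HPar.A_hi ({ P with A0 := Z } : HPar) f
    have e2 := HPar.A_hi ({ P with A0 := 0 } : HPar) f
    simp only at e1 e2
    rw [e1, e2, zero_add]
  · intro k hk ih f
    have e1 := HPar.A_step ({ P with A0 := Z } : HPar) (h := k) hk f
    have e2 := HPar.A_step ({ P with A0 := 0 } : HPar) (h := k) hk f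
    simp only at e1 e2
    rw [e1, e2, ih f]
    abel

lemma B_shift (P : HPar) (Z : Gp) {h : ℤ} (hh : P.lo ≤ h) : ∀ f,
    ({ P with B0 := Z } : HPar).B h f = ({ P with B0 := 0 } : HPar).B h f + Z := by
  refine zup (Q := fun h => ∀ f, ({ P with B0 := Z } : HPar).B h f =
    ({ P with B0 := 0 } : HPar).B h f + Z) ?_ ?_ h hh
  · intro f
    have e1 := HPar.B_lo ({ P with B0 := Z } : HPar) f
    have e2 := HPar.B_lo ({ P with B0 := 0 } : HPar) f
    simp only at e1 e2
    rw [e1, e2, zero_add]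
  · intro k hk ih f
    have e1 := HPar.B_step ({ P with B0 := Z } : HPar) (h := k) hk f
    have e2 := HPar.B_step ({ P with B0 := 0 } : HPar) (h := k) hk f
    simp only at e1 e2
    rw [e1, e2, ih f]
    abel

end Run7.h687.Full
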