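import Pool.Agent.Run7.h687.Full.Core

set_option autoImplicit false

namespace Run7.h687.Full
open Run7.h687.Lamp

lemma A_indep (P : HPar) (Z : Gp) {h : ℤ} (hh : h ≤ P.hi) : ∀ f,
    ({ P with B0 := Z } : HPar).A h f = P.A h f := by
  refine zdn (Q := fun h => ∀ f, ({ P with B0 := Z } : HPar).A h f = P.A h f) ?_ ?_ h hh
  · intro f
    have e1 := HPar.A_hi ({ P with B0 := Z } : HPar) f
    have e2 := HPar.A_hi P f
    simp only at e1
    rw [e1, e2]
  · intro k hk ih f
    have e1 := HPar.A_step ({ P with B0 := Z } : HPar) (h := k) hk f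
    have e2 := HPar.A_step P (h := k) hk f
    simp only at e1
    rw [e1, e2, ih f]

lemma B_indep (P : HPar) (Z : Gp) {h : ℤ} (hh : P.lo ≤ h) : ∀ f,
    ({ P with A0 := Z } : HPar).B h f = P.B h f := by
  refine zup (Q := fun h => ∀ f, ({ P with A0 := Z } : HPar).B h f = P.B h f) ?_ ?_ h hh
  · intro f
    have e1 := HPar.B_lo ({ P with A0 := Z } : HPar) f
    have e2 := HPar.B_lo P f
    simp only at e1
    rw [e1, e2]
  · intro k hk ih f
    have e1 := HPar.B_step ({ P with A0 := Z } : HPar) (h := k) hk f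
    have e2 := HPar.B_step P (h := k) hk f
    simp only at e1
    rw [e1, e2, ih f]

section
variable {x : Cfg} {hx : Rules x} {R : Rgn (toR x hx)}
variable {lo hi : ℤ} {r : ℤ → Row} {n : ℤ → ℤ} {M : ℕ} {h0 h1 : ℤ} {fW : K}
  {Hol : ℤ → ℤ → K → Prop} (O : WOK R lo hi r n M h0 h1 fW Hol)

/-- the parameters of the transplanted host -/
noncomputable def wP (R : Rgn (toR x hx)) (lo hi : ℤ) (r : ℤ → Row) (n : ℤ → ℤ) (h0 h1 : ℤ) (fW : K)
    (Hol : ℤ → ℤ → K → Prop) (A0 B0 : Gp) : HPar :=
  ⟨lo, hi, r, n, aL R hi h0 h1 fW, bL R lo h0 h1 fW, A0, B0, Hol⟩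

include O

lemma exists_A0 : ∃ A0, ∀ B0 g, Off h0 h1 g fW → R.In (h1 - 1) g →
    (wP R lo hi r n h0 h1 fW Hol A0 B0).A h1 g = (x.dn h1 g).A := by
  have l1 := O.l1
  by_cases hex : ∃ g, Off h0 h1 g fW ∧ R.In (h1 - 1) g
  · obtain ⟨g0, o0, i0⟩ := hex
    refine ⟨(x.dn h1 g0).A - (wP R lo hi r n h0 h1 fW Hol 0 0).A h1 g0, fun B0 g o i => ?_⟩
    have e1 := A_shift (wP R lo hi r n h0 h1 fW Hol 0 B0)
      ((x.dn h1 g0).A - (wP R lo hi r n h0 h1 fW Hol 0 0).A h1 g0) (h := h1) l1 g
    have e2 : (wP R lo hi r n h0 h1 fW Hol 0 B0).A h1 g = (wP R lo hi r n h0 h1 fW Hol 0 0).A h1 g :=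
      A_indep (wP R lo hi r n h0 h1 fW Hol 0 0) B0 l1 g
    have e3 : (wP R lo hi r n h0 h1 fW Hol 0 0).A h1 g = (wP R lo hi r n h0 h1 fW Hol 0 0).A h1 g0 := by
      apply HPar.A_dep (wok_cond O 0 0) l1
      intro j hj
      rw [o j (Or.inr hj), o0 j (Or.inr hj)]
    have e4 : (x.dn h1 g).A = (x.dn h1 g0).A := by
      obtain ⟨y, hy⟩ := match_digit (h1 - 1) g g0
      have e5 := (R.a_eq ((R.flx' (h1 - 1) y g).mpr i) i0 (fun j hj => by
        by_cases hj' : j = h1 - 1
        · rw [hj']; exact hy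
        · rw [flx_ne hj', o j (Or.inr (by omega)), o0 j (Or.inr (by omega))])).2.2
      rw [sub_add_cancel] at e5
      have e6 := (toR x hx).Ax2 h1 g y
      rw [e6] at e5
      exact e5
    have e7 : (wP R lo hi r n h0 h1 fW Hol
        ((x.dn h1 g0).A - (wP R lo hi r n h0 h1 fW Hol 0 0).A h1 g0) B0).A h1 g =
        (wP R lo hi r n h0 h1 fW Hol 0 B0).A h1 g +
        ((x.dn h1 g0).A - (wP R lo hi r n h0 h1 fW Hol 0 0).A h1 g0) := e1
    rw [e7, e2, e3, e4]
    abel
  · exact ⟨0, fun B0 g o i => absurd ⟨g, o, i⟩ hex⟩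

lemma exists_B0 : ∃ B0, ∀ A0 g, Off h0 h1 g fW → R.In h0 g →
    (wP R lo hi r n h0 h1 fW Hol A0 B0).B h0 g = (x.up h0 g).B := by
  have l0 := O.l0
  by_cases hex : ∃ g, Off h0 h1 g fW ∧ R.In h0 g
  · obtain ⟨g0, o0, i0⟩ := hex
    refine ⟨(x.up h0 g0).B - (wP R lo hi r n h0 h1 fW Hol 0 0).B h0 g0, fun A0 g o i => ?_⟩
    have e1 := B_shift (wP R lo hi r n h0 h1 fW Hol A0 0)
      ((x.up h0 g0).B - (wP R lo hi r n h0 h1 fW Hol 0 0).B h0 g0) (h := h0) l0 g
    have e2 : (wP R lo hi r n h0 h1 fW Hol A0 0).B h0 g = (wP R lo hi r n h0 h1 fW Hol 0 0).B h0 g :=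
      B_indep (wP R lo hi r n h0 h1 fW Hol 0 0) A0 l0 g
    have e3 : (wP R lo hi r n h0 h1 fW Hol 0 0).B h0 g = (wP R lo hi r n h0 h1 fW Hol 0 0).B h0 g0 := by
      apply HPar.B_dep (wok_cond O 0 0) l0
      intro j hj
      rw [o j (Or.inl hj), o0 j (Or.inl hj)]
    have e4 : (x.up h0 g).B = (x.up h0 g0).B := by
      obtain ⟨y, hy⟩ := match_digit h0 g g0
      have e5 := (R.b_eq ((R.flx' h0 y g).mpr i) i0 (fun j hj => by
        by_cases hj' : j = h0
        · rw [hj']; exact hy
        · rw [flx_ne hj', o j (Or.inl (by omega)), o0 j (Or.inl (by omega))])).2.2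
      have e6 := (toR x hx).Bx h0 g y
      rw [e6] at e5
      exact e5
    have e7 : (wP R lo hi r n h0 h1 fW Hol A0
        ((x.up h0 g0).B - (wP R lo hi r n h0 h1 fW Hol 0 0).B h0 g0)).B h0 g =
        (wP R lo hi r n h0 h1 fW Hol A0 0).B h0 g +
        ((x.up h0 g0).B - (wP R lo hi r n h0 h1 fW Hol 0 0).B h0 g0) := e1
    rw [e7, e2, e3, e4]
    abel
  · exact ⟨0, fun B0 g o i => absurd ⟨g, o, i⟩ hex⟩

lemma wA {A0 B0 : Gp} (hA : ∀ g, Off h0 h1 g fW → R.In (h1 - 1) g →
    (wP R lo hi r n h0 h1 fW Hol A0 B0).A h1 g = (x.dn h1 g).A) :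
    ∀ h, h ≤ h1 - 1 → h0 - 1 ≤ h → lo ≤ h → ∀ g, Off h0 h1 g fW → R.In h g →
    (wP R lo hi r n h0 h1 fW Hol A0 B0).A (h + 1) g = (x.dn (h + 1) g).A := by
  have l0 := O.l0
  have l01 := O.l01
  have l1 := O.l1
  have hsg := O.frm.seg
  refine zdn ?_ ?_
  · intro _ _ g o i
    rw [sub_add_cancel]
    exact hA g o i
  · intro h hh ih b1 b2 g o i
    have hrow : (x.dn (h + 1) g).row = r (h + 1) :=
      wok_row' O (by omega) (by omega) (by omega) (by omega) (by rw [add_sub_cancel_right]; exact i)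
    obtain ⟨y, r1, i1, o1⟩ : ∃ y, (toR x hx).Reg (h + 1) (flx h y g) ∧ R.In (h + 1) (flx h y g) ∧
        Off h0 h1 (flx h y g) fW := by
      by_cases hc : h0 ≤ h
      · obtain ⟨y, -, r1, i1⟩ := R.exists_up i (by
          show ¬ ((x.dn (h + 1) g).row = .top)
          rw [hrow]
          exact hsg.ne_top (by omega) (by omega))
        exact ⟨y, r1, i1, Off.flx (by omega) (by omega) o y⟩
      · have hh0 : h = h0 - 1 := by omega
        subst hh0
        have hel := wok_reg0 O (by omega) i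
        have r1 : (toR x hx).Reg h0 g := reg_of_elr hel
        refine ⟨false, ?_, ?_, o⟩
        · rw [sub_add_cancel]; exact r1
        · rw [sub_add_cancel]; exact (R.reg _ _ r1).mpr i
    have hk1 := ih (by omega) (by omega) _ o1 i1
    have e1 : (x.dn (h + 1) (flx h y g)).A = (x.dn (h + 1) g).A := by
      have := (toR x hx).Ax2 (h + 1) g y
      rw [add_sub_cancel_right] at this
      exact this
    have e2 : (x.up (h + 1) (flx h y g)).A = (x.dn (h + 1) (flx h y g)).A := congrArg RD.A r1.1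
    have e3 := (hx.t (h + 1) (flx h y g)).1.A3
    rw [wok_row O (by omega) (by omega) (by omega) (by omega) i1,
      wok_row' O (by omega) (by omega) (by omega) (by omega) (h := h + 1 + 1)
        (by rw [add_sub_cancel_right]; exact i1)] at e3
    have e4 : aL R hi h0 h1 fW (h + 1) (flx h y g) = (x.up (h + 1) (flx h y g)).a :=
      al_spec (by omega) (by omega) (by omega) i1 (fun _ _ => rfl)
    have e5 := HPar.A_step (wP R lo hi r n h0 h1 fW Hol A0 B0) (h := h + 1)
      (show h + 1 < hi by omega) (flx h y g)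
    have e6 : (wP R lo hi r n h0 h1 fW Hol A0 B0).A (h + 1) (flx h y g) =
        (wP R lo hi r n h0 h1 fW Hol A0 B0).A (h + 1) g := by
      apply HPar.A_dep (wok_cond O A0 B0) (show h + 1 ≤ hi by omega)
      intro j hj
      exact flx_ne (by omega) _ _
    rw [← e6, e5, hk1, ← e1, ← e2, e3]
    show _ + (if aL R hi h0 h1 fW (h + 1) (flx h y g) then sgl (k1 (r (h + 1)) (r (h + 1 + 1))) else 0) = _
    rw [e4]

lemma wB {A0 B0 : Gp} (hB : ∀ g, Off h0 h1 g fW → R.In h0 g →
    (wP R lo hi r n h0 h1 fW Hol A0 B0).B h0 g = (x.up h0 g).B) :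
    ∀ h, h0 ≤ h → h ≤ h1 → h < hi → ∀ g, Off h0 h1 g fW → R.In h g →
    (wP R lo hi r n h0 h1 fW Hol A0 B0).B h g = (x.up h g).B := by
  have l0 := O.l0
  have l01 := O.l01
  have l1 := O.l1
  have hsg := O.frm.seg
  refine zup ?_ ?_
  · intro _ _ g o i
    exact hB g o i
  · intro h hh ih b1 b2 g o i
    have hrow : (x.up (h + 1) g).row = r (h + 1) :=
      wok_row O (by omega) (by omega) (by omega) (by omega) i
    obtain ⟨y, r1, i1, o1⟩ : ∃ y, (toR x hx).Reg (h + 1) (flx (h + 1) y g) ∧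
        R.In h (flx (h + 1) y g) ∧ Off h0 h1 (flx (h + 1) y g) fW := by
      by_cases hc : h + 1 < h1
      · obtain ⟨y, -, r1, i1⟩ := R.exists_dn i (by
          show ¬ ((x.up (h + 1) g).row = .bot)
          rw [hrow]
          exact hsg.ne_bot (by omega) (by omega))
        rw [add_sub_cancel_right] at i1
        exact ⟨y, r1, i1, Off.flx (by omega) (by omega) o y⟩
      · have hh0 : h + 1 = h1 := by omega
        have hel := wok_reg1 O (by omega) (g := g) (by rw [← hh0]; exact i)
        rw [← hh0] at hel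
        have r1 : (toR x hx).Reg (h + 1) g := reg_of_elr hel
        refine ⟨false, r1, ?_, o⟩
        have := (R.reg _ _ r1).mp i
        rwa [add_sub_cancel_right] at this
    have hk1 := ih (by omega) (by omega) _ o1 i1
    have e1 : (x.up (h + 1) (flx (h + 1) y g)).B = (x.up (h + 1) g).B := (toR x hx).Bx (h + 1) g y
    have e2 : (x.up (h + 1) (flx (h + 1) y g)).B = (x.dn (h + 1) (flx (h + 1) y g)).B :=
      congrArg RD.B r1.1
    have e3 := (hx.t h (flx (h + 1) y g)).1.B3
    rw [wok_row O (by omega) (by omega) (by omega) (by omega) i1,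
      wok_row' O (by omega) (by omega) (by omega) (by omega) (h := h + 1)
        (by rw [add_sub_cancel_right]; exact i1)] at e3
    have e4 : bL R lo h0 h1 fW (h + 1) (flx (h + 1) y g) = (x.dn (h + 1) (flx (h + 1) y g)).b :=
      bl_spec (by omega) (by omega) (by omega) (by rw [add_sub_cancel_right]; exact i1)
        (fun _ _ => rfl)
    have e5 := HPar.B_step (wP R lo hi r n h0 h1 fW Hol A0 B0) (h := h)
      (show lo ≤ h by omega) (flx (h + 1) y g)
    have e6 : (wP R lo hi r n h0 h1 fW Hol A0 B0).B (h + 1) (flx (h + 1) y g) =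
        (wP R lo hi r n h0 h1 fW Hol A0 B0).B (h + 1) g := by
      apply HPar.B_dep (wok_cond O A0 B0) (show lo ≤ h + 1 by omega)
      intro j hj
      exact flx_ne (by omega) _ _
    rw [← e6, e5, hk1, ← e1, e2, e3]
    show _ + (if bL R lo h0 h1 fW (h + 1) (flx (h + 1) y g) then sgl (k2 (r h) (r (h + 1))) else 0) = _
    rw [e4]

lemma wok_ov : ∃ A0 B0, OvOK x (wP R lo hi r n h0 h1 fW Hol A0 B0).cfg h0 h1 fW lo hi fW r Hol := by
  obtain ⟨A0, hA⟩ := exists_A0 O
  obtain ⟨B0, hB⟩ := exists_B0 O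
  refine ⟨A0, B0, ?_⟩
  have kA := wA O (hA B0)
  have kB := wB O (hB A0)
  have l0 := O.l0
  have l01 := O.l01
  have l1 := O.l1
  have hsg := O.frm.seg
  have HC := wok_cond O A0 B0
  have L := wok_lab O
  -- agreement of rigid data
  have rdU : ∀ h g, h0 ≤ h → h ≤ h1 → h < hi → Off h0 h1 g fW → R.In h g →
      rd (x.up h g) = rd ((wP R lo hi r n h0 h1 fW Hol A0 B0).cfg.up h g) := by
    intro h g a1 a2 a3 o i
    have hrow : (x.up h g).row = r h := wok_row O (by omega) (by omega) (by omega) (by omega) i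
    have ha : (x.up h g).a = aL R hi h0 h1 fW h g :=
      (al_spec (by omega) a1 a2 i (fun _ _ => rfl)).symm
    have hb : (x.up h g).b = bL R lo h0 h1 fW h g := by
      by_cases hlo : h = lo
      · subst hlo
        rw [L.b_lo g]
        exact (elem_bot (hx.e h g) (by rw [hrow]; exact O.frm.bot)).2.b
      · obtain ⟨y, -, r1, i1⟩ := R.exists_dn i (by
          show ¬ ((x.up h g).row = .bot)
          rw [hrow]
          exact hsg.ne_bot (by omega) (by omega))
        have e1 : (x.up h (flx h y g)).b = (x.up h g).b := (toR x hx).bx h g y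
        have e2 : (x.up h (flx h y g)).b = (x.dn h (flx h y g)).b := congrArg RD.b r1.1
        have e3 : bL R lo h0 h1 fW h (flx h y g) = (x.dn h (flx h y g)).b :=
          bl_spec hlo a1 a2 i1 (fun _ _ => rfl)
        have e4 : bL R lo h0 h1 fW h (flx h y g) = bL R lo h0 h1 fW h g :=
          L.b_dep h _ _ (fun j hj => flx_ne (by omega) _ _)
        rw [← e1, e2, ← e3, e4]
    have hAA : (x.up h g).A = (wP R lo hi r n h0 h1 fW Hol A0 B0).A h g := by
      by_cases hc : h < h1
      · have e1 := kA h (by omega) (by omega) (by omega) g o i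
        have e3 := (hx.t h g).1.A3
        rw [hrow, wok_row' O (by omega) (by omega) (by omega) (by omega) (h := h + 1)
          (by rw [add_sub_cancel_right]; exact i), ha] at e3
        rw [e3, HPar.A_step (wP R lo hi r n h0 h1 fW Hol A0 B0) (h := h) (show h < hi by omega), e1]
        rfl
      · have hh : h = h1 := by omega
        subst hh
        have hel := wok_reg1 O (by omega) i
        have r1 : (toR x hx).Reg h g := reg_of_elr hel
        have i1 := (R.reg _ _ r1).mp i
        have e1 := hA B0 g o i1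
        rw [e1]
        exact congrArg RD.A r1.1
    have hBB : (x.up h g).B = (wP R lo hi r n h0 h1 fW Hol A0 B0).B h g := (kB h a1 a2 a3 g o i).symm
    unfold rd
    rw [hrow, ha, hb, hAA, hBB]
    rfl
  have rdD : ∀ h g, h0 ≤ h → h ≤ h1 → lo < h → Off h0 h1 g fW → R.In (h - 1) g →
      rd (x.dn h g) = rd ((wP R lo hi r n h0 h1 fW Hol A0 B0).cfg.dn h g) := by
    intro h g a1 a2 a3 o i
    have hrow : (x.dn h g).row = r h := wok_row' O (by omega) (by omega) (by omega) (by omega) i
    have hb : (x.dn h g).b = bL R lo h0 h1 fW h g :=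
      (bl_spec (by omega) a1 a2 i (fun _ _ => rfl)).symm
    have ha : (x.dn h g).a = aL R hi h0 h1 fW h g := by
      by_cases hhi : h = hi
      · subst hhi
        rw [L.a_hi g]
        exact (elem_top (hx.e h g) (by rw [hrow]; exact O.frm.top)).1.a
      · obtain ⟨y, -, r1, i1⟩ := R.exists_up i (by
          rw [sub_add_cancel]
          show ¬ ((x.dn h g).row = .top)
          rw [hrow]
          exact hsg.ne_top (by omega) (by omega))
        rw [sub_add_cancel] at r1 i1
        have e1 : (x.dn h (flx (h - 1) y g)).a = (x.dn h g).a := (toR x hx).ax2 h g y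
        have e2 : (x.up h (flx (h - 1) y g)).a = (x.dn h (flx (h - 1) y g)).a := congrArg RD.a r1.1
        have e3 : aL R hi h0 h1 fW h (flx (h - 1) y g) = (x.up h (flx (h - 1) y g)).a :=
          al_spec hhi a1 a2 i1 (fun _ _ => rfl)
        have e4 : aL R hi h0 h1 fW h (flx (h - 1) y g) = aL R hi h0 h1 fW h g :=
          L.a_dep h _ _ (fun j hj => flx_ne (by omega) _ _)
        rw [← e1, ← e2, ← e3, e4]
    have hAA : (x.dn h g).A = (wP R lo hi r n h0 h1 fW Hol A0 B0).A h g := by
      have := kA (h - 1) (by omega) (by omega) (by omega) g o i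
      rw [sub_add_cancel] at this
      exact this.symm
    have hBB : (x.dn h g).B = (wP R lo hi r n h0 h1 fW Hol A0 B0).B h g := by
      by_cases hc : h0 < h
      · have e1 := kB (h - 1) (by omega) (by omega) (by omega) g o i
        have e3 := (hx.t (h - 1) g).1.B3
        rw [sub_add_cancel, wok_row O (by omega) (by omega) (by omega) (by omega) (h := h - 1) i,
          hrow, hb] at e3
        have e5 := HPar.B_step (wP R lo hi r n h0 h1 fW Hol A0 B0) (h := h - 1)
          (show lo ≤ h - 1 by omega) g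
        rw [sub_add_cancel] at e5
        rw [e3, e5, e1]
        rfl
      · have hh : h = h0 := by omega
        subst hh
        have hel := wok_reg0 O (by omega) i
        have r1 : (toR x hx).Reg h g := reg_of_elr hel
        have i1 := (R.reg _ _ r1).mpr i
        have e1 := hB A0 g o i1
        rw [e1]
        exact (congrArg RD.B r1.1).symm
    unfold rd
    rw [hrow, ha, hb, hAA, hBB]
    rfl
  refine ⟨HPar.host HC fW, hx, O.hols, l0, l01, l1, fun h a1 a2 => hsg.ne_bot a1 a2,
    fun h a1 a2 => hsg.ne_top a1 a2, O.cL, O.cU, ?_, ?_, ?_, ?_, ?_, ?_, ?_, ?_, ?_, ?_, ?_⟩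
  · intro h g a1 a2 a3 o hn
    exact rdU h g a1 a2 a3 o (O.status h g (by omega) (by omega) (by omega) (by omega) o hn)
  · intro h g a1 a2 a3 o hn
    exact rdD h g a1 a2 a3 o (O.status (h - 1) g (by omega) (by omega) (by omega) (by omega) o hn)
  · intro hne g o hn
    exact wok_reg0 O hne (O.status (h0 - 1) g (by omega) (by omega) (by omega) (by omega) o hn)
  · intro hne g o hn
    exact wok_reg1 O hne (O.status h1 g (by omega) (by omega) (by omega) (by omega) o hn)
  · intro hne g o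
    have hc : lo < h0 - 1 := by
      rcases O.cL with h | h
      · exact absurd h hne
      · exact h.1
    show bL R lo h0 h1 fW (h0 - 1) g = true
    rw [bl_out (by omega) (by omega)]
    have h5 := o (h0 - 1 - 1) (Or.inl (by omega))
    rw [gs_ne (by omega)] at h5
    rw [h5]
    simp
  · intro hne g o
    have hc : h1 + 1 < hi := by
      rcases O.cU with h | h
      · exact absurd h hne
      · exact h.1
    show aL R hi h0 h1 fW (h1 + 1) g = true
    rw [al_out (by omega) (by omega)]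
    have h5 := o (h1 + 1) (Or.inr (by omega))
    rw [gs_ne (by omega)] at h5
    rw [h5]
    simp
  · intro h g a1 a2 a3 a4 o n1 n2
    have i1 := O.status (h - 1) g (by omega) (by omega) (by omega) (by omega) o n1
    have i2 := O.status h g (by omega) (by omega) (by omega) (by omega) o n2
    rcases hx.e h g with h5 | h5 | h5
    · exact h5
    · exact absurd h5.2.row (R.dn1 h g g i2 i1)
    · have h6 := R.up1 (h - 1) g g i1 (by rw [sub_add_cancel]; exact i2)
      rw [sub_add_cancel] at h6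
      exact absurd h5.1.row h6
  · intro h g a1 a2 a3 a4 o n1 n2
    obtain ⟨l, u, b1, b2, b3⟩ := n2
    have hl : l = h := by
      by_contra hc
      exact n1 ⟨l, u, by omega, by omega, b3⟩
    subst hl
    rcases O.lower l u g b3 with ⟨c1, -⟩ | ⟨-, -, -, c4⟩
    · omega
    · exact (elem_bot (hx.e l g) c4).1
  · intro h g a1 a2 a3 a4 o n1 n2
    obtain ⟨l, u, b1, b2, b3⟩ := n1
    have hl : u = h := by
      by_contra hc
      exact n2 ⟨l, u, by omega, by omega, b3⟩
    subst hl
    rcases O.upper l u g b3 with ⟨c1, -⟩ | ⟨-, -, -, c4⟩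
    · omega
    · exact (elem_top (hx.e u g) c4).2
  · intro he g o
    have i1 := O.status h0 g (by omega) (by omega) (by omega) (by omega) o (by
      rintro ⟨l, u, b1, b2, b3⟩
      have := O.hols.lt l u g b3
      omega)
    have hrow : (x.up h0 g).row = r h0 := wok_row O (by omega) (by omega) (by omega) (by omega) i1
    rw [he, O.frm.bot] at hrow
    rw [he]
    exact (elem_bot (hx.e lo g) hrow).2
  · intro he g o
    have i1 := O.status (h1 - 1) g (by omega) (by omega) (by omega) (by omega) o (by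
      rintro ⟨l, u, b1, b2, b3⟩
      have := O.hols.lt l u g b3
      omega)
    have hrow : (x.dn h1 g).row = r h1 := wok_row' O (by omega) (by omega) (by omega) (by omega) i1
    rw [he, O.frm.top] at hrow
    rw [he]
    exact (elem_top (hx.e hi g) hrow).1

/-- The transplant theorem. -/
theorem core {Z : Cfg} (hZ : ∀ l u g, Hol l u g → CP l u g Z)
    (hZ1 : ∀ h g, h0 ≤ h → h ≤ h1 → h < hi → Off h0 h1 g fW → InH Hol h g → Z.up h g = x.up h g)
    (hZ2 : ∀ h g, h0 ≤ h → h ≤ h1 → lo < h → Off h0 h1 g fW → InH Hol (h - 1) g →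
      Z.dn h g = x.dn h g) :
    ∃ z, CP lo hi fW z ∧ (∀ h g, h0 ≤ h → h ≤ h1 → h < hi → Off h0 h1 g fW → z.up h g = x.up h g) ∧
      (∀ h g, h0 ≤ h → h ≤ h1 → lo < h → Off h0 h1 g fW → z.dn h g = x.dn h g) := by
  obtain ⟨A0, B0, OV⟩ := wok_ov O
  refine ⟨gl Hol (ov x (wP R lo hi r n h0 h1 fW Hol A0 B0).cfg h0 h1 fW) Z,
    glue O.hols (ov_host OV) hZ, ?_, ?_⟩
  · intro h g a1 a2 a3 o
    by_cases hh : InH Hol h g
    · rw [gl_up1 hh]
      exact hZ1 h g a1 a2 a3 o hh
    · rw [gl_up0 hh, ov_up_full ⟨a1, a2, o⟩]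
  · intro h g a1 a2 a3 o
    by_cases hh : InH Hol (h - 1) g
    · rw [gl_dn1 hh]
      exact hZ2 h g a1 a2 a3 o hh
    · rw [gl_dn0 hh, ov_dn_full ⟨a1, a2, o⟩]

end

end Run7.h687.Full
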