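import Pool.Agent.Run7.h687.Group

set_option autoImplicit false

namespace Run7.h687.Full
open Run7.h687.Lamp

/-- rows -/
inductive Row
  | bot : Row
  | top : Row
  | R : Bool → Bool → Row
  | P : Bool → Row
  | E : Fin 5 → Bool → Row
  | M : Bool → Row
  deriving DecidableEq

/-- real rows -/
def Row.rl : Row → Bool
  | .R _ _ => true
  | _ => false

/-- `P` rows -/
def Row.isP : Row → Bool
  | .P _ => true
  | _ => false

/-- `M` rows -/
def Row.isM : Row → Bool
  | .M _ => true
  | _ => false

/-- successor relation -/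
inductive Nx : Row → Row → Prop
  | b0 : Nx .bot (.E 0 true)
  | pe (s : Bool) : Nx (.P s) (.E 0 s)
  | pm (s : Bool) : Nx (.P s) (.M s)
  | ee (n m : Fin 5) (s : Bool) (h : m.val = n.val + 1) : Nx (.E n s) (.E m s)
  | em (n : Fin 5) (s : Bool) : Nx (.E n s) (.M s)
  | et (n : Fin 5) : Nx (.E n false) .top
  | mr (s t : Bool) : Nx (.M s) (.R (!s) t)
  | rp (s t : Bool) : Nx (.R s t) (.P s)

/-- contents -/
inductive Kap
  | L1 | G1 | L | G | S | X | N
  deriving DecidableEq

/-- of type L -/
def Kap.isL : Kap → Bool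
  | .L1 => true
  | .L => true
  | _ => false

/-- of type G -/
def Kap.isG : Kap → Bool
  | .G1 => true
  | .G => true
  | _ => false

/-- implications -/
def Imp (t : Bool) (c cE cS : Kap) : Prop :=
  (cE.isG = true → cS.isL = true → c = if t then .G else .L) ∧
  (cE = .L1 → cS = .G1 → c = .S) ∧
  (cE = .S → cS.isL = true → c = .X) ∧
  (cE.isG = true → cS = .X → c = .G ∨ c = .L ∨ c = .S) ∧
  ((c = .G ∨ c = .L ∨ c = .S) → ¬ (cE.isG = true ∧ cS.isG = true) ∧
    ¬ (cE.isL = true ∧ cS.isL = true) ∧ (cE.isL = true → cS.isG = true → c = .S))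

/-- potentials -/
abbrev Gp := Row × Row → ZMod 3

/-- index of the first potential -/
def k1 (x y : Row) : Row × Row := if x.isM then (.M true, .M true) else (x, y)

/-- index of the second potential -/
def k2 (x y : Row) : Row × Row := if y.isP then (.P true, .P true) else (x, y)

/-- indicator -/
def sgl {I : Type} [DecidableEq I] (k : I) : I → ZMod 3 := Pi.single k 1

/-- one side of the data of an element -/
structure Dat where
  row : Row
  a : Bool
  b : Bool
  A : Gp
  B : Gp
  c : Kap
  g : Kap
  fr : Bool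
  hb : Bool
  fb : Bool
  hl : Bool

/-- rigid part of the tetrahedral rule -/
structure Rg (p q r s : Dat) : Prop where
  row1 : q.row = p.row
  row2 : s.row = r.row
  nx : Nx p.row r.row
  a1 : q.a = !p.a
  b1 : q.b = p.b
  B1 : q.B = p.B
  b2 : s.b = !r.b
  a2 : s.a = r.a
  A2 : s.A = r.A
  A3 : p.A = r.A + if p.a then sgl (k1 p.row r.row) else 0
  A4 : q.A = r.A + if q.a then sgl (k1 p.row r.row) else 0
  B3 : r.B = p.B + if r.b then sgl (k2 p.row r.row) else 0
  B4 : s.B = p.B + if s.b then sgl (k2 p.row r.row) else 0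

/-- wire rule -/
structure Wr (e0 e1 t0 t1 : Dat) : Prop where
  c : t0.c = e0.c
  fb : t0.fb = e0.fb
  fr : t0.fr = e0.fr
  hb : t0.hb = (if e0.b = true ∧ (e0.row.rl = true ∨ e0.row = .bot) then t1.hl else e0.hb)
  hl1 : t1.hl = true → e0.b = true ∧ e0.row.rl = true
  hl2 : e1.hl = true → t0.a = true
  g : t0.row.rl = true → t0.g = t1.c
  imp : ∀ s t, e0.row = .R s t → e0.b = false → Imp t e0.c e1.c e0.g
  fin1 : ∀ s t, t0.row = .R s t → t0.a = true →
    (t0.fr = true → t0.c = if s then .L1 else .G1) ∧ (t0.hb = true → t0.c.isL = false) ∧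
    (t0.fb = true → t0.c.isL = false) ∧ (e1.hl = true → t0.fb = false ∧ t0.c.isG = false)
  fin2 : t0.row = .top → t0.a = true ∧ (t0.fr = true → t0.c = .L1) ∧ t0.hb = false ∧
    (t0.fb = true ∨ t0.c.isG = false)
  bb : e0.row = .bot → e0.b = true

/-- tetrahedral rule -/
def Tet (p q r s : Dat) : Prop :=
  Rg p q r s ∧ Wr (if p.a then q else p) (if p.a then p else q) (if r.b then s else r)
    (if r.b then r else s)

/-- regular element -/
structure ElR (d u : Dat) : Prop where
  row : u.row = d.row
  nb : d.row ≠ .bot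
  nt : d.row ≠ .top
  a : u.a = d.a
  b : u.b = d.b
  A : u.A = d.A
  B : u.B = d.B
  c : u.c = d.c
  g : u.g = d.g
  hl1 : d.hl = false
  hl2 : u.hl = false
  w0 : d.b = false → u.hb = d.hb ∧ u.fb = d.fb ∧ u.fr = (d.fr && !d.row.rl)
  w1 : d.b = true → d.row.rl = true → u.fr = true ∧ u.fb = false

/-- bottom of a hole, lower side -/
structure HBd (d : Dat) : Prop where
  hl : d.hl = true
  row : d.row.isP = true
  b : d.b = true

/-- bottom of a hole, upper side -/
structure HBu (u : Dat) : Prop where
  row : u.row = .bot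
  b : u.b = true
  fr : u.fr = true
  fb : u.fb = true
  hl : u.hl = false

/-- top of a hole, lower side -/
structure HTd (d : Dat) : Prop where
  row : d.row = .top
  a : d.a = true

/-- top of a hole, upper side -/
structure HTu (u : Dat) : Prop where
  hl : u.hl = true
  row : u.row.isM = true
  a : u.a = true

/-- element rule -/
def Elem (d u : Dat) : Prop := ElR d u ∨ (HBd d ∧ HBu u) ∨ (HTd d ∧ HTu u)

/-- parity rule for `M` -/
def ParM (u u' : Dat) : Prop := u.row.isM = true → u'.a = u.a

/-- parity rule for `P` -/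
def ParP (d d' : Dat) : Prop := d.row.isP = true → d'.b = d.b

/-- configurations -/
structure Cfg where
  up : ℤ → K → Dat
  dn : ℤ → K → Dat

/-- tetrahedral rule at a position -/
def Cfg.T (x : Cfg) (h : ℤ) (f : K) : Prop :=
  Tet (x.up h f) (x.up h (fl h f)) (x.dn (h + 1) f) (x.dn (h + 1) (fl h f))

/-- the rules -/
structure Rules (x : Cfg) : Prop where
  t : ∀ h f, x.T h f
  e : ∀ h f, Elem (x.dn h f) (x.up h f)
  pm : ∀ h f, ParM (x.up h f) (x.up h (fl (h + 1) f))
  pp : ∀ h f, ParP (x.dn h f) (x.dn h (fl (h - 2) f))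

/-- the subshift of finite type -/
noncomputable def SX : Sft (Dat × Dat) where
  F0 := by
    classical
    exact {(0, 0), (0, Finsupp.single 0 1), (1, 0), (1, Finsupp.single 0 1),
      (0, Finsupp.single 1 1), (0, Finsupp.single (-2) 1)}
  loc a := Tet (a (0, 0)).2 (a (0, Finsupp.single 0 1)).2 (a (1, 0)).1 (a (1, Finsupp.single 0 1)).1 ∧
    Elem (a (0, 0)).1 (a (0, 0)).2 ∧ ParM (a (0, 0)).2 (a (0, Finsupp.single 1 1)).2 ∧
    ParP (a (0, 0)).1 (a (0, Finsupp.single (-2) 1)).1
  loc_congr a b h := by
    classical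
    rw [h (0, 0) (by simp), h (0, Finsupp.single 0 1) (by simp), h (1, 0) (by simp),
      h (1, Finsupp.single 0 1) (by simp), h (0, Finsupp.single 1 1) (by simp),
      h (0, Finsupp.single (-2) 1) (by simp)]
    exact id

/-- configuration from a function -/
def toCfg (z : (ℤ × K) → Dat × Dat) : Cfg where
  up h f := (z (h, f)).2
  dn h f := (z (h, f)).1

/-- function from a configuration -/
def ofCfg (x : Cfg) : (ℤ × K) → Dat × Dat := fun p => (x.dn p.1 p.2, x.up p.1 p.2)

lemma toCfg_ofCfg (x : Cfg) : toCfg (ofCfg x) = x := rfl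

lemma ofCfg_toCfg (z : (ℤ × K) → Dat × Dat) : ofCfg (toCfg z) = z := rfl

lemma sh_single' (k l : ℤ) : sh k (Finsupp.single l 1 : K) = Finsupp.single (l + k) 1 := by
  have := sh_fl k l 0
  unfold fl at this
  simpa [sh_zero] using this

lemma mem_SX (z : (ℤ × K) → Dat × Dat) : z ∈ SX.X ↔ Rules (toCfg z) := by
  have e : ∀ (n : ℤ) (f : K), lm (n, f) (0, 0) = (n, f) ∧
      lm (n, f) (0, Finsupp.single 0 1) = (n, fl n f) ∧
      lm (n, f) (1, 0) = (n + 1, f) ∧ lm (n, f) (1, Finsupp.single 0 1) = (n + 1, fl n f) ∧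
      lm (n, f) (0, Finsupp.single 1 1) = (n, fl (n + 1) f) ∧
      lm (n, f) (0, Finsupp.single (-2) 1) = (n, fl (n - 2) f) := by
    intro n f
    unfold lm fl
    simp only [sh_zero, sh_single', add_zero, zero_add, true_and]
    refine ⟨?_, ?_⟩
    · rw [add_comm 1 n]
    · rw [show (-2 : ℤ) + n = n - 2 by ring]
  constructor
  · intro h
    have h' : ∀ n f, _ := fun n f => h (n, f)
    refine ⟨fun n f => ?_, fun n f => ?_, fun n f => ?_, fun n f => ?_⟩
    · have := (h' n f).1
      simp only [(e n f).1, (e n f).2.1, (e n f).2.2.1, (e n f).2.2.2.1] at this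
      exact this
    · have := (h' n f).2.1
      simp only [(e n f).1] at this
      exact this
    · have := (h' n f).2.2.1
      simp only [(e n f).1, (e n f).2.2.2.2.1] at this
      exact this
    · have := (h' n f).2.2.2
      simp only [(e n f).1, (e n f).2.2.2.2.2] at this
      exact this
  · rintro h ⟨n, f⟩
    refine ⟨?_, ?_, ?_, ?_⟩
    · simp only [(e n f).1, (e n f).2.1, (e n f).2.2.1, (e n f).2.2.2.1]
      exact h.t n f
    · simp only [(e n f).1]
      exact h.e n f
    · simp only [(e n f).1, (e n f).2.2.2.2.1]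
      exact h.pm n f
    · simp only [(e n f).1, (e n f).2.2.2.2.2]
      exact h.pp n f

instance : Finite Row := by
  let f : Row → ℕ ⊕ (Bool × Bool) ⊕ (Fin 5 × Bool) := fun r => match r with
    | .bot => .inl 0
    | .top => .inl 1
    | .R s t => .inr (.inl (s, t))
    | .P s => .inl (if s then 2 else 3)
    | .E n s => .inr (.inr (n, s))
    | .M s => .inl (if s then 4 else 5)
  let g : Row → Fin 6 ⊕ (Bool × Bool) ⊕ (Fin 5 × Bool) := fun r => match r with
    | .bot => .inl 0
    | .top => .inl 1
    | .R s t => .inr (.inl (s, t))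
    | .P s => .inl (if s then 2 else 3)
    | .E n s => .inr (.inr (n, s))
    | .M s => .inl (if s then 4 else 5)
  apply Finite.of_injective g
  intro x y h
  cases x with
  | bot => cases y with
    | P s => cases s <;> simp [g] at h
    | M s => cases s <;> simp [g] at h
    | _ => simp_all [g]
  | top => cases y with
    | P s => cases s <;> simp [g] at h
    | M s => cases s <;> simp [g] at h
    | _ => simp_all [g]
  | R s t => cases y with
    | P s => cases s <;> simp [g] at h
    | M s => cases s <;> simp [g] at h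
    | _ => simp_all [g]
  | P s => cases s <;> cases y with
    | P s => cases s <;> simp_all [g]
    | M s => cases s <;> simp_all [g]
    | _ => simp_all [g]
  | E n s => cases y with
    | P s => cases s <;> simp [g] at h
    | M s => cases s <;> simp [g] at h
    | _ => simp_all [g]
  | M s => cases s <;> cases y with
    | P s => cases s <;> simp_all [g]
    | M s => cases s <;> simp_all [g]
    | _ => simp_all [g]

instance : Finite Kap := by
  let g : Kap → Fin 7 := fun r => match r with
    | .L1 => 0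
    | .G1 => 1
    | .L => 2
    | .G => 3
    | .S => 4
    | .X => 5
    | .N => 6
  apply Finite.of_injective g
  intro x y h
  cases x <;> cases y <;> simp_all [g]

instance : Finite Dat := by
  let g : Dat → Row × (Bool × Bool) × (Gp × Gp) × (Kap × Kap) × (Bool × Bool × Bool × Bool) :=
    fun d => (d.row, (d.a, d.b), (d.A, d.B), (d.c, d.g), (d.fr, d.hb, d.fb, d.hl))
  apply Finite.of_injective g
  intro x y h
  cases x; cases y
  simp only [g, Prod.mk.injEq] at h
  obtain ⟨h1, ⟨h2, h3⟩, ⟨h4, h5⟩, ⟨h6, h7⟩, h8, h9, h10, h11⟩ := h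
  subst h1 h2 h3 h4 h5 h6 h7 h8 h9 h10 h11
  rfl

instance : Nonempty Dat := ⟨⟨.bot, false, false, 0, 0, .N, .N, false, false, false, false⟩⟩

end Run7.h687.Full
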