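import Pool.Agent.Run7.h687.Full.Gen

set_option autoImplicit false

namespace Run7.h687.Full
open Run7.h687.Lamp

lemma nx_rl1 {a b : Row} (h : Nx a b) (ha : a.rl = true) : b.isP = true ∧ b.rl = false := by
  cases h <;> simp_all [Row.rl, Row.isP]

lemma nx_rl2 {a b : Row} (h : Nx a b) (ha : a.isP = true) : b.rl = false := by
  cases h <;> simp_all [Row.rl, Row.isP]

lemma tch_bound {S : RowSys} (C : RCfg S) (L U : Option (ℤ × K)) (h0 h1 : ℤ) (fW : K) :
    ∃ B, ∀ l u g, Tch h0 h1 fW l u g → C.FinHole L U l u g → -B ≤ l ∧ u ≤ B := by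
  obtain ⟨B, hB⟩ := fin_bound (fin_win (h0 - 1) h1 h0 h1 fW)
    (fun p B => ∀ l u, l ≤ p.1 → p.1 < u → C.FinHole L U l u p.2 → -B ≤ l ∧ u ≤ B)
    (fun p B B' hBB H l u a b c => by have := H l u a b c; omega)
    (by
      rintro ⟨h, g⟩ -
      by_cases hex : ∃ l u, l ≤ h ∧ h < u ∧ C.FinHole L U l u g
      · obtain ⟨l, u, a, b, c⟩ := hex
        refine ⟨|l| + |u|, fun l' u' a' b' c' => ?_⟩
        obtain ⟨e1, e2⟩ := C.finHole_uniq c c' a b a' b'
        have a1 := neg_abs_le l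
        have a2 := le_abs_self u
        have a3 := abs_nonneg l
        have a4 := abs_nonneg u
        omega
      · exact ⟨0, fun l' u' a' b' c' => absurd ⟨l', u', a', b', c'⟩ hex⟩)
  refine ⟨B, ?_⟩
  rintro l u g ⟨h, g', a, b, c, d, e, f⟩ hF
  exact hB (h, g') ⟨a, b, c⟩ l u d e (C.finHole_inv hF f.symm)

lemma two_dvd_tw {M : ℕ} (h : 1 ≤ M) : (2 : ℤ) ∣ tw M := by
  have := tw_dvd h
  rwa [tw_one] at this

/-- Extraction, root with a bottom. -/
theorem e0U {x : Cfg} (hx : Rules x) {l0 : ℤ} {f0 : K}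
    (root : ∀ g, (∀ i < l0, g i = f0 i) → (x.up l0 g).row = .bot ∧ ∀ U, (toR x hx).UT l0 g U)
    {w : ℤ} (hw : l0 < w) : ∃ U0, ∀ u, U0 ≤ u → ∃ z, CP l0 u f0 z ∧
      (∀ h g, l0 ≤ h → h ≤ w → Off l0 w g f0 → z.up h g = x.up h g) ∧
      (∀ h g, l0 < h → h ≤ w → Off l0 w g f0 → z.dn h g = x.dn h g) := by
  set C := toR x hx with hC
  set R := C.rgn (some (l0, f0)) none with hR
  have hin : R.In l0 f0 := by
    rcases C.plU (betaC hx) root l0 f0 le_rfl (fun _ _ => rfl) with h | ⟨lo, hi, a, b, -⟩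
    · exact h
    · omega
  obtain ⟨n, H, n0, rbot, lv, hI, hbot⟩ := ix_U (hx := hx) hin
  have S := (wsOf R n H).str_up hI hbot
  have realU : ∀ h, l0 ≤ h → ∃ q, h < q ∧ (rr R q).rl = true := by
    intro h hh
    obtain ⟨q, a, b, c, d⟩ := idx_above (lv h hh)
    refine ⟨q, a, ?_⟩
    rcases c with c | c | c
    · exact c
    · exact absurd c (rr_lv_ne_top (lv q (by omega)))
    · exact absurd c (rr_lv_ne_bot d)
  have hty : ∀ h s t, l0 ≤ h → rr R h = .R s t → tyOf R n (n h) = ty0 (n h) := by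
    intro h s t hh he
    have hne : l0 < h := by
      rcases eq_or_lt_of_le hh with h5 | h5
      · rw [← h5, rbot] at he; simp at he
      · exact h5
    have hidx : (rr R h).idx := Or.inl (by rw [he]; rfl)
    have hk : 0 < n h := by have := H.lt hne hidx; omega
    obtain ⟨b, hb⟩ := Ex.exists (show n h ≠ 0 by omega)
    have hle := Int.le_of_dvd hk hb.1
    have hp := tw_pos b
    have h1 := S.ty b (n h) ((hI _).mpr (by omega)) ((hI _).mpr (by omega)) (by simpa using hb)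
    have h2 := ty0_iff hb
    simp only [sub_zero] at h1
    have h3 : (wsOf R n H).ty (n h) = tyOf R n (n h) := rfl
    rw [h3] at h1
    rw [Bool.eq_iff_iff, h1, h2]
  obtain ⟨q1, hq1, rq1⟩ := realU w hw.le
  obtain ⟨B, hB⟩ := tch_bound C (some (l0, f0)) none l0 (q1 + 1) f0
  obtain ⟨Hh, hH1, rH⟩ := realU (max B (q1 + 2) + 2) (by
    have := le_max_right B (q1 + 2)
    omega)
  have hHB : B < Hh ∧ q1 + 2 < Hh := by
    have := le_max_right B (q1 + 2)
    have := le_max_left B (q1 + 2)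
    omega
  have Lvl : ∀ h, l0 ≤ h → Lv R h := lv
  have m0 : 0 < n Hh := by
    have := H.lt (show l0 < Hh by omega) (Or.inl rH)
    omega
  have SX := segX (hx := hx) H (J := l0) (Hh := Hh) (N := 0) (by omega) (fun h a _ => lv h a)
    (by simp) (fun h s t a b e => by rw [add_zero]; exact hty h s t a e)
  refine ⟨Hh + 21 * n Hh + 12, fun hi hhi => ?_⟩
  obtain ⟨M, M1, M2, M3, M4⟩ := exM (m := n Hh) (D := hi - Hh) (by omega) (by omega)
  obtain ⟨r2, n2, S2, b1, b2, b3, b4⟩ := segT (m := tw M - n Hh) (p := Hh) (q := hi) (i := n Hh)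
    (by omega) (by rw [add_sub_cancel]; exact two_dvd_tw M1) M3 M4
  obtain ⟨r, n', SS, c1, c2⟩ := seg_cat SX S2 (by
    rw [b1]
    have := SX.real (h := Hh) (by omega) le_rfl rH
    rw [this, add_zero]) (by rw [b2, add_zero])
  have rows : ∀ h, l0 ≤ h → h ≤ Hh → r h = rr R h ∧ n' h = n h + 0 := fun h _ b => c1 h b
  have F : Frm l0 hi r n' M := by
    refine ⟨SS, ?_, ?_, ?_, ?_, M1⟩
    · rw [(c1 l0 (by omega)).1]; exact rbot
    · rw [(c2 hi (by omega)).1]; exact b3
    · rw [(c1 l0 (by omega)).2, n0, add_zero]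
    · rw [(c2 hi (by omega)).2, b4]; ring
  have p1 : (rr R (q1 + 1)).isP = true ∧ (rr R (q1 + 1)).rl = false :=
    nx_rl1 (rr_nx (lv q1 (by omega))) rq1
  have p2 : (rr R (q1 + 1 + 1)).rl = false := nx_rl2 (rr_nx (lv (q1 + 1) (by omega))) p1.1
  have G : GOK hx (some (l0, f0)) none l0 hi r n' n 0 M l0 Hh l0 (q1 + 1) f0 0 0
      (fun _ _ => False) (fun _ _ => False) := by
    refine ⟨F, le_rfl, by omega, by omega, Or.inl rfl, Or.inr ⟨by omega, ?_, ?_⟩, rows,
      fun h _ b => b, fun h a _ => by omega, le_rfl, by omega, ?_, fun _ _ h => h.elim,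
      fun _ _ h => h.elim, fun _ _ h => h.elim, fun _ _ h => h.elim, ?_⟩
    · rw [(rows _ (by omega) (by omega)).1]; exact p1.2
    · rw [(rows _ (by omega) (by omega)).1]; exact p2
    · intro l u g ht hF
      have hb := hB l u g ht hF
      have hlo : l0 ≤ l - 1 := hF.2.1.1.1
      refine ⟨hlo, by omega, ?_⟩
      obtain ⟨d1, d2, d3, d4⟩ := hF.1.2 g (Off.refl _ _ _)
      obtain ⟨s, s1, s2⟩ := hole_pair H S hF.1.1 hF.2.1 hF.2.2 d1 d2 d3 d4
      exact ⟨s, s1, by simpa using s2⟩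
    · intro h g a b c d o
      rcases C.plU (betaC hx) root h g c (fun i hi' => o i (Or.inl hi')) with h5 | ⟨lo', hi', e1, e2, e3, e4⟩
      · exact Or.inl h5
      · exact Or.inr (Or.inl ⟨lo', hi', e2, e3, e4⟩)
  have W := gok_wok G
  obtain ⟨z, z1, z2, z3⟩ := core W (Z := x) (by
    rintro l u g ⟨-, h | ⟨-, h⟩ | ⟨-, h⟩⟩
    · exact cp_of_cb hx h.1
    · exact h.elim
    · exact h.elim) (fun _ _ _ _ _ _ _ => rfl) (fun _ _ _ _ _ _ _ => rfl)
  refine ⟨z, z1, fun h g a b o => z2 h g a (by omega) (by omega) (o.mono le_rfl (by omega)),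
    fun h g a b o => z3 h g a.le (by omega) a (o.mono le_rfl (by omega))⟩

/-- Extraction, root with a top. -/
theorem e0D {x : Cfg} (hx : Rules x) {l0 : ℤ} {f0 : K}
    (root : ∀ g, (∀ i ≥ l0, g i = f0 i) → (x.dn l0 g).row = .top ∧
      ∀ D, (toR x hx).DT (l0 - 1) g D)
    {w : ℤ} (hw : w < l0) : ∃ L0, ∀ l, l ≤ L0 → ∃ z, CP l l0 f0 z ∧
      (∀ h g, w ≤ h → h < l0 → Off w l0 g f0 → z.up h g = x.up h g) ∧
      (∀ h g, w ≤ h → h ≤ l0 → Off w l0 g f0 → z.dn h g = x.dn h g) := by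
  set C := toR x hx with hC
  set R := C.rgn none (some (l0, f0)) with hR
  have hin : R.In (l0 - 1) f0 := by
    rcases C.plD (betaC hx) root (l0 - 1) f0 (by omega) (fun _ _ => rfl) with h | ⟨lo, hi, a, b, c, -⟩
    · exact h
    · omega
  obtain ⟨n, H, n0, rtop, lv, hI, hbot⟩ := ix_D (hx := hx) hin
  have S := (wsOf R n H).str_dn hI hbot
  have realD : ∀ h, h < l0 → ∃ q, q < h ∧ (rr R q).rl = true := by
    intro h hh
    obtain ⟨q, a, b, c, d⟩ := idx_below (p := h) (lv (h - 1) (by omega))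
    refine ⟨q, b, ?_⟩
    rcases c with c | c | c
    · exact c
    · exact absurd c (rr_lv_ne_top d)
    · exact absurd c (rr_lv_ne_bot (lv (q - 1) (by omega)))
  obtain ⟨q0, hq0, rq0⟩ := realD (w - 1) (by omega)
  obtain ⟨B, hB⟩ := tch_bound C none (some (l0, f0)) (q0 + 2) l0 f0
  obtain ⟨J, hJ1, rJ⟩ := realD (min (-B) q0 - 2) (by
    have := min_le_right (-B) q0
    omega)
  have hJB : J < -B - 1 ∧ J < q0 - 1 := by
    have := min_le_right (-B) q0
    have := min_le_left (-B) q0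
    omega
  have m0 : n J < 0 := by
    have := H.lt (show J < l0 by omega) (Or.inr (Or.inl rtop))
    omega
  refine ⟨J + 21 * n J - 12, fun lo hlo => ?_⟩
  obtain ⟨M, M1, M2, M3, M4⟩ := exM (m := -n J) (D := J - lo) (by omega) (by omega)
  have hty : ∀ h s t, J ≤ h → h ≤ l0 → rr R h = .R s t → tyOf R n (n h) = ty0 (n h + tw M) := by
    intro h s t hh hh' he
    have hne : h < l0 := by
      rcases eq_or_lt_of_le hh' with h5 | h5
      · rw [h5, rtop] at he; simp at he
      · exact h5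
    have hk : n h < 0 := by have := H.lt hne (Or.inr (Or.inl rtop)); omega
    have hk2 : n J ≤ n h := H.mono hh
    obtain ⟨b, hb⟩ := Ex.exists (show n h ≠ 0 by omega)
    have hle : tw b ≤ -n h := Int.le_of_dvd (by omega) ((dvd_neg).mpr hb.1)
    have hp := tw_pos b
    have h1 := S.ty b (n h) ((hI _).mpr (by omega)) ((hI _).mpr (by omega)) (by simpa using hb)
    have hbM : b + 2 < M := by
      rw [← tw_lt_iff, tw_succ, tw_succ]
      omega
    have h2 := ty0_iff (hb.add_dvd (tw_dvd (show b + 1 ≤ M by omega)))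
    simp only [sub_zero] at h1
    have h3 : (wsOf R n H).ty (n h) = tyOf R n (n h) := rfl
    rw [h3] at h1
    rw [Bool.eq_iff_iff, h1, h2]
    have h4 : tw (b + 2) ∣ tw M := tw_dvd (by omega)
    constructor
    · intro h5
      have := dvd_add h5 h4
      rwa [show n h - tw b + tw M = n h + tw M - tw b by ring] at this
    · intro h5
      have := dvd_sub h5 h4
      rwa [show n h + tw M - tw b - tw M = n h - tw b by ring] at this
  have SX := segX (hx := hx) H (J := J) (Hh := l0) (N := tw M) (by omega) (fun h _ b => lv h b)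
    (two_dvd_tw M1) hty
  obtain ⟨r1, n1, S1, a1, a2, a3, a4⟩ := segB (m := tw M - -n J) (p := lo) (q := J)
    (by omega) M3 M4
  obtain ⟨r, n', SS, c1, c2⟩ := seg_cat S1 SX (by
    rw [a3]
    have := SX.real (h := J) le_rfl (by omega) rJ
    rw [this]
    congr 1; ring) (by rw [a4]; ring)
  have rows : ∀ h, J ≤ h → h ≤ l0 → r h = rr R h ∧ n' h = n h + tw M := fun h b _ => c2 h b
  have F : Frm lo l0 r n' M := by
    refine ⟨SS, ?_, ?_, ?_, ?_, M1⟩
    · rw [(c1 lo (by omega)).1]; exact a1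
    · rw [(c2 l0 (by omega)).1]; exact rtop
    · rw [(c1 lo (by omega)).2, a2]
    · rw [(c2 l0 (by omega)).2, n0, zero_add]
  have p1 : (rr R (q0 + 1)).isP = true ∧ (rr R (q0 + 1)).rl = false :=
    nx_rl1 (rr_nx (lv q0 (by omega))) rq0
  have p2 : (rr R (q0 + 1 + 1)).rl = false := nx_rl2 (rr_nx (lv (q0 + 1) (by omega))) p1.1
  have G : GOK hx none (some (l0, f0)) lo l0 r n' n (tw M) M J l0 (q0 + 2) l0 f0 0 0
      (fun _ _ => False) (fun _ _ => False) := by
    refine ⟨F, by omega, by omega, le_rfl, Or.inr ⟨by omega, ?_, ?_⟩, Or.inl rfl, rows,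
      fun h a _ => by omega, fun h _ b => b, by omega, le_rfl, ?_, fun _ _ h => h.elim,
      fun _ _ h => h.elim, fun _ _ h => h.elim, fun _ _ h => h.elim, ?_⟩
    · rw [show q0 + 2 - 1 = q0 + 1 by ring, (rows _ (by omega) (by omega)).1]; exact p1.2
    · rw [show q0 + 2 = q0 + 1 + 1 by ring, (rows _ (by omega) (by omega)).1]; exact p2
    · intro l u g ht hF
      have hb := hB l u g ht hF
      have hhi : u + 1 ≤ l0 := hF.2.2.2.1
      refine ⟨by omega, hhi, ?_⟩
      obtain ⟨d1, d2, d3, d4⟩ := hF.1.2 g (Off.refl _ _ _)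
      obtain ⟨s, s1, s2⟩ := hole_pair H S hF.1.1 hF.2.1 hF.2.2 d1 d2 d3 d4
      refine ⟨s, s1, ?_⟩
      have e1 : n (u + 1) ≤ 0 := by rw [← n0]; exact H.mono hhi
      have e2 : n J ≤ n (l - 1) := H.mono (by omega)
      have e3 : s < M := by
        rw [← tw_lt_iff]
        have := tw_pos s
        omega
      exact dvd_add (by simpa using s2) (tw_dvd e3.le)
    · intro h g a b c d o
      rcases C.plD (betaC hx) root h g d (fun i hi' => o i (Or.inr hi')) with h5 | ⟨lo', hi', e1, e2, e3, e4⟩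
      · exact Or.inl h5
      · exact Or.inr (Or.inl ⟨lo', hi', e2, e3, e4⟩)
  have W := gok_wok G
  obtain ⟨z, z1, z2, z3⟩ := core W (Z := x) (by
    rintro l u g ⟨-, h | ⟨-, h⟩ | ⟨-, h⟩⟩
    · exact cp_of_cb hx h.1
    · exact h.elim
    · exact h.elim) (fun _ _ _ _ _ _ _ => rfl) (fun _ _ _ _ _ _ _ => rfl)
  refine ⟨z, z1, fun h g a b o => z2 h g (by omega) (by omega) b (o.mono (by omega) le_rfl),
    fun h g a b o => z3 h g (by omega) (by omega) (by omega) (o.mono (by omega) le_rfl)⟩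

end Run7.h687.Full
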