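import Pool.Agent.Run7.h687.Full.EU

set_option autoImplicit false

namespace Run7.h687.Full
open Run7.h687.Lamp

section
variable {x : Cfg} {hx : Rules x}

lemma lvZ {g0 : K} {k0 : ℤ} (root : ((toR x hx).rgn none none).In k0 g0) :
    ∀ h, Lv ((toR x hx).rgn none none) h := by
  set R := (toR x hx).rgn none none with hR
  have up : ∀ h, Lv R h → Lv R (h + 1) := by
    rintro h ⟨g, hg⟩
    have := hg.2 1
    rw [RCfg.UT_succ] at this
    obtain ⟨y, ry, -⟩ := this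
    exact ⟨_, (R.reg _ _ ry).mpr (by rw [add_sub_cancel_right, R.flx']; exact hg)⟩
  have dn : ∀ h, Lv R h → Lv R (h - 1) := by
    rintro h ⟨g, hg⟩
    have := hg.1 1
    rw [RCfg.DT_succ] at this
    obtain ⟨y, ry, -⟩ := this
    exact ⟨_, (R.reg _ _ ry).mp (by rw [R.flx']; exact hg)⟩
  intro h
  by_cases hh : k0 ≤ h
  · exact zup (Q := fun h => Lv R h) ⟨g0, root⟩ (fun k _ ih => up k ih) h hh
  · exact zdn (Q := fun h => Lv R h) ⟨g0, root⟩ (fun k _ ih => by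
      have := dn (k + 1) ih
      rwa [add_sub_cancel_right] at this) h (by omega)

/-- Extraction, two-sided infinite root. -/
theorem e0Z {g0 : K} {k0 : ℤ} (root : ((toR x hx).rgn none none).In k0 g0) {w0 w1 : ℤ}
    (hw : w0 ≤ w1) (fW : K) : ∃ lo hi z, lo < w0 ∧ w1 < hi ∧ CP lo hi fW z ∧
      ∀ h g, w0 ≤ h → h ≤ w1 → Off w0 w1 g fW → z.up h g = x.up h g ∧ z.dn h g = x.dn h g := by
  classical
  set C := toR x hx with hC
  set R := C.rgn none none with hR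
  have lv : ∀ h, Lv R h := lvZ root
  obtain ⟨n, H, hI⟩ := ix_Z (hx := hx) root
  obtain ⟨ρ, S⟩ := (wsOf R n H).str_Z hI
  have hβ := betaC hx
  have realOf : ∀ q, (rr R q).idx → (rr R q).rl = true := by
    intro q c
    rcases c with c | c | c
    · exact c
    · exact absurd c (rr_lv_ne_top (lv q))
    · exact absurd c (rr_lv_ne_bot (lv (q - 1)))
  have realU : ∀ h, ∃ q, h < q ∧ (rr R q).rl = true := by
    intro h
    obtain ⟨q, a, b, c, d⟩ := idx_above (lv h)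
    exact ⟨q, a, realOf q c⟩
  have realD : ∀ h, ∃ q, q < h ∧ (rr R q).rl = true := by
    intro h
    obtain ⟨q, a, b, c, d⟩ := idx_below (p := h) (lv (h - 1))
    exact ⟨q, b, realOf q c⟩
  have hlt_of : ∀ p q, n p < n q → p < q := by
    intro p q hpq
    by_contra hc
    have := H.mono (show q ≤ p by omega)
    omega
  obtain ⟨q0, hq0, rq0⟩ := realD (w0 - 1)
  obtain ⟨q1, hq1, rq1⟩ := realU w1
  obtain ⟨h0, eh0⟩ : ∃ h0, h0 = q0 + 2 := ⟨_, rfl⟩
  obtain ⟨h1, eh1⟩ : ∃ h1, h1 = q1 + 1 := ⟨_, rfl⟩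
  obtain ⟨B, hB⟩ := tch_bound C none none h0 h1 fW
  -- uniqueness of infinite holes
  have upU : ∀ l l' g, C.UpHole l g → C.UpHole l' g → l = l' := by
    have key : ∀ l l' g, C.UpHole l g → C.UpHole l' g → ¬ l < l' := fun l l' g a b hlt =>
      C.upHole_not_DT a (show l ≤ l' - 1 by omega) (fun _ _ => rfl) (b.2.1 _)
    intro l l' g a b
    have := key l l' g a b
    have := key l' l g b a
    omega
  have dnU : ∀ u u' g, C.DnHole u g → C.DnHole u' g → u = u' := by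
    have key : ∀ u u' g, C.DnHole u g → C.DnHole u' g → ¬ u < u' := fun u u' g a b hlt =>
      C.dnHole_not_UT b hlt (fun _ _ => rfl) (a.2.2 _)
    intro u u' g a b
    have := key u u' g a b
    have := key u' u g b a
    omega
  -- patterns for infinite holes
  obtain ⟨BU, hBU⟩ := fin_bound (fin_win (h0 - 1) h1 h0 h1 fW)
    (fun p B => ∀ l, l ≤ p.1 → C.UpHole l p.2 → ∀ u, B ≤ u → ∃ z, CP l u p.2 z ∧
      (∀ h g, l ≤ h → h ≤ h1 + 1 → Off l (h1 + 1) g p.2 → z.up h g = x.up h g) ∧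
      (∀ h g, l < h → h ≤ h1 + 1 → Off l (h1 + 1) g p.2 → z.dn h g = x.dn h g))
    (fun p B B' hBB HQ l a b u hu => HQ l a b u (by omega))
    (by
      rintro ⟨h, g⟩ hp
      have hp2 : h ≤ h1 := hp.2.1
      by_cases hex : ∃ l, l ≤ h ∧ C.UpHole l g
      · obtain ⟨l, a, b⟩ := hex
        obtain ⟨U0, hU0⟩ := e0U hx (l0 := l) (f0 := g) b.1 (w := h1 + 1) (by omega)
        refine ⟨U0, fun l' a' b' u hu => ?_⟩
        have : l' = l := upU _ _ _ b' b
        subst this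
        exact hU0 u hu
      · exact ⟨0, fun l' a' b' => absurd ⟨l', a', b'⟩ hex⟩)
  obtain ⟨BD, hBD⟩ := fin_bound (fin_win (h0 - 1) h1 h0 h1 fW)
    (fun p B => ∀ u, p.1 < u → C.DnHole u p.2 → ∀ l, l ≤ -B → ∃ z, CP l u p.2 z ∧
      (∀ h g, h0 - 1 ≤ h → h < u → Off (h0 - 1) u g p.2 → z.up h g = x.up h g) ∧
      (∀ h g, h0 - 1 ≤ h → h ≤ u → Off (h0 - 1) u g p.2 → z.dn h g = x.dn h g))
    (fun p B B' hBB HQ u a b l hl => HQ u a b l (by omega))
    (by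
      rintro ⟨h, g⟩ hp
      have hp1 : h0 - 1 ≤ h := hp.1
      by_cases hex : ∃ u, h < u ∧ C.DnHole u g
      · obtain ⟨u, a, b⟩ := hex
        obtain ⟨L0, hL0⟩ := e0D hx (l0 := u) (f0 := g) b.1 (w := h0 - 1) (by omega)
        refine ⟨-L0, fun u' a' b' l hl => ?_⟩
        have : u' = u := dnU _ _ _ b' b
        subst this
        exact hL0 l (by omega)
      · exact ⟨0, fun l' a' b' => absurd ⟨l', a', b'⟩ hex⟩)
  -- the touched infinite holes
  obtain ⟨UpH, eUp⟩ : ∃ UpH : ℤ → K → Prop, UpH = fun l g => C.UpHole l g ∧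
    ∃ h g', h0 - 1 ≤ h ∧ h ≤ h1 ∧ Off h0 h1 g' fW ∧ l ≤ h ∧ ∀ i < l, g' i = g i := ⟨_, rfl⟩
  obtain ⟨DnH, eDn⟩ : ∃ DnH : ℤ → K → Prop, DnH = fun u g => C.DnHole u g ∧
    ∃ h g', h0 - 1 ≤ h ∧ h ≤ h1 ∧ Off h0 h1 g' fW ∧ h < u ∧ ∀ i ≥ u, g' i = g i := ⟨_, rfl⟩
  have up_of : ∀ l g, UpH l g → C.UpHole l g ∧ ∃ h g', h0 - 1 ≤ h ∧ h ≤ h1 ∧ Off h0 h1 g' fW ∧
      l ≤ h ∧ ∀ i < l, g' i = g i := by intro l g h; rw [eUp] at h; exact h
  have dn_of : ∀ u g, DnH u g → C.DnHole u g ∧ ∃ h g', h0 - 1 ≤ h ∧ h ≤ h1 ∧ Off h0 h1 g' fW ∧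
      h < u ∧ ∀ i ≥ u, g' i = g i := by intro l g h; rw [eDn] at h; exact h
  have of_up : ∀ l g, (C.UpHole l g ∧ ∃ h g', h0 - 1 ≤ h ∧ h ≤ h1 ∧ Off h0 h1 g' fW ∧
      l ≤ h ∧ ∀ i < l, g' i = g i) → UpH l g := by intro l g h; rw [eUp]; exact h
  have of_dn : ∀ u g, (C.DnHole u g ∧ ∃ h g', h0 - 1 ≤ h ∧ h ≤ h1 ∧ Off h0 h1 g' fW ∧
      h < u ∧ ∀ i ≥ u, g' i = g i) → DnH u g := by intro l g h; rw [eDn]; exact h
  -- anchors
  have ancU : ∀ l g, C.UpHole l g → (rr R (l - 1)).rl = true ∧ ∀ m, tw m ∣ n (l - 1) - ρ m := by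
    intro l g h
    obtain ⟨a, b⟩ := h.1 g (fun _ _ => rfl)
    refine ⟨?_, hole_up H S hI lv h.2 a b⟩
    have hP := (elem_bot (hx.e l g) a).1.row
    have hn := C.nx (l - 1) g
    rw [sub_add_cancel] at hn
    have h5 : (x.up (l - 1) g).row.rl = true := RS.nxR' _ _ hn hP
    rw [← rr_up h.2]; exact h5
  have ancD : ∀ u g, C.DnHole u g → (rr R (u + 1)).rl = true ∧ ∀ m, tw m ∣ n (u + 1) - ρ m := by
    intro u g h
    obtain ⟨a, b⟩ := h.1 g (fun _ _ => rfl)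
    refine ⟨?_, hole_dn H S hI lv h.2 a b⟩
    have hM := (elem_top (hx.e u g) a).2.row
    have h5 : (x.dn (u + 1) g).row.rl = true := RS.nxM _ _ (C.nx u g) hM
    rw [← rr_dn (R := R) (by rw [add_sub_cancel_right]; exact h.2)]; exact h5
  have ancEq : ∀ p q, (rr R p).rl = true → (rr R q).rl = true → (∀ m, tw m ∣ n p - ρ m) →
      (∀ m, tw m ∣ n q - ρ m) → p = q := by
    intro p q a b c d
    apply H.uniq (Or.inl a) (Or.inl b)
    have : n p - n q = 0 := by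
      apply tw_all_zero
      intro m
      have := dvd_sub (c m) (d m)
      rwa [show n p - ρ m - (n q - ρ m) = n p - n q by ring] at this
    omega
  obtain ⟨a, ra, aU, aD, aA⟩ : ∃ a, (rr R a).rl = true ∧ (∀ l g, UpH l g → l - 1 = a) ∧
      (∀ u g, DnH u g → u + 1 = a) ∧
      (((∃ l g, UpH l g) ∨ (∃ u g, DnH u g)) → ∀ m, tw m ∣ n a - ρ m) := by
    by_cases c1 : ∃ l g, UpH l g
    · obtain ⟨l, g, hl⟩ := c1
      obtain ⟨k1, k2⟩ := ancU l g (up_of l g hl).1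
      refine ⟨l - 1, k1, fun l' g' h' => ?_, fun u' g' h' => ?_, fun _ => k2⟩
      · obtain ⟨k3, k4⟩ := ancU l' g' (up_of l' g' h').1
        exact ancEq _ _ k3 k1 k4 k2
      · obtain ⟨k3, k4⟩ := ancD u' g' (dn_of u' g' h').1
        exact ancEq _ _ k3 k1 k4 k2
    · by_cases c2 : ∃ u g, DnH u g
      · obtain ⟨u, g, hu⟩ := c2
        obtain ⟨k1, k2⟩ := ancD u g (dn_of u g hu).1
        refine ⟨u + 1, k1, fun l' g' h' => absurd ⟨l', g', h'⟩ c1, fun u' g' h' => ?_, fun _ => k2⟩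
        obtain ⟨k3, k4⟩ := ancD u' g' (dn_of u' g' h').1
        exact ancEq _ _ k3 k1 k4 k2
      · refine ⟨q0, rq0, fun l' g' h' => absurd ⟨l', g', h'⟩ c1,
          fun u' g' h' => absurd ⟨u', g', h'⟩ c2, fun h => ?_⟩
        rcases h with h | h
        · exact absurd h c1
        · exact absurd h c2
  -- the level of the cut
  obtain ⟨T0, hT0⟩ : ∃ T0, BU + 1 ≤ T0 ∧ h1 + 2 ≤ T0 :=
    ⟨max (BU + 1) (h1 + 2), le_max_left _ _, le_max_right _ _⟩
  obtain ⟨T1, hT1⟩ : ∃ T1, T1 ≤ -BD - 1 ∧ T1 ≤ h0 - 3 :=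
    ⟨min (-BD - 1) (h0 - 3), min_le_left _ _, min_le_right _ _⟩
  obtain ⟨s, hs1, hs2⟩ : ∃ s : ℕ, n T0 - n a < tw s ∧ n a - n T1 < tw s := by
    obtain ⟨s, hs⟩ := pow_unbounded_of_one_lt (max (n T0 - n a) (n a - n T1))
      (show (1 : ℤ) < 2 by norm_num)
    exact ⟨s, lt_of_le_of_lt (le_max_left _ _) hs, lt_of_le_of_lt (le_max_right _ _) hs⟩
  have twp := tw_pos s
  obtain ⟨p, -, pi, pn⟩ := hI (n a + tw s)
  obtain ⟨p', -, pi', pn'⟩ := hI (n a - tw s)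
  have pT : T0 < p := hlt_of _ _ (by omega)
  have pT' : p' < T1 := hlt_of _ _ (by omega)
  have pa : p' < a := hlt_of _ _ (by omega)
  have pa' : a < p := hlt_of _ _ (by omega)
  obtain ⟨J, hJ1, rJ⟩ := realD (min (-B) p' - 2)
  obtain ⟨Hh, hH1, rH⟩ := realU (max B p + 2)
  have hJ : J < -B - 1 ∧ J < p' := by
    have := min_le_left (-B) p'
    have := min_le_right (-B) p'
    omega
  have hHh : B + 1 < Hh ∧ p < Hh := by
    have := le_max_left B p
    have := le_max_right B p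
    omega
  obtain ⟨N, N2, N0, Nty, Np, Na⟩ := S.embed hI (n J) (n Hh)
  have SX := segX (hx := hx) H (J := J) (Hh := Hh) (N := N) (by omega) (fun h _ _ => lv h) N2
    (fun h s t a b e => Nty (n h) (H.mono a) (H.mono b))
  obtain ⟨M, M1, M2⟩ : ∃ M : ℕ, 1 ≤ M ∧ n Hh + N < tw M := by
    obtain ⟨m, hm⟩ := pow_unbounded_of_one_lt (n Hh + N) (show (1 : ℤ) < 2 by norm_num)
    refine ⟨m + 1, by omega, ?_⟩
    have h5 : tw m < tw (m + 1) := tw_lt (by omega)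
    have h6 : n Hh + N < tw m := hm
    omega
  obtain ⟨lo, elo⟩ : ∃ lo, lo = J - 3 * (n J + N) := ⟨_, rfl⟩
  obtain ⟨hi, ehi⟩ : ∃ hi, hi = Hh + 3 * (tw M - (n Hh + N)) := ⟨_, rfl⟩
  obtain ⟨r1, n1, S1, a1, a2, a3, a4⟩ := segB (m := n J + N) (p := lo) (q := J)
    (by omega) (by omega) (by omega)
  obtain ⟨r2, n2, S2, b1, b2, b3, b4⟩ := segT (m := tw M - (n Hh + N)) (p := Hh) (q := hi)
    (i := n Hh + N) (by omega) (by rw [add_sub_cancel]; exact two_dvd_tw M1) (by omega) (by omega)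
  obtain ⟨r3, n3, S3, c1, c2⟩ := seg_cat S1 SX (by
    rw [a3]
    exact (SX.real (h := J) le_rfl (by omega) rJ).symm) (by rw [a4])
  obtain ⟨r, n', SS, d1, d2⟩ := seg_cat S3 S2 (by
    rw [b1, (c2 Hh (by omega)).1]
    exact SX.real (h := Hh) (by omega) le_rfl rH) (by rw [b2, (c2 Hh (by omega)).2])
  have rows : ∀ h, J ≤ h → h ≤ Hh → r h = rr R h ∧ n' h = n h + N := by
    intro h e1 e2
    rw [(d1 h e2).1, (d1 h e2).2]
    exact c2 h e1
  have F : Frm lo hi r n' M := by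
    refine ⟨SS, ?_, ?_, ?_, ?_, M1⟩
    · rw [(d1 lo (by omega)).1, (c1 lo (by omega)).1]; exact a1
    · rw [(d2 hi (by omega)).1]; exact b3
    · rw [(d1 lo (by omega)).2, (c1 lo (by omega)).2, a2]
    · rw [(d2 hi (by omega)).2, b4]; ring
  have p1 : (rr R (q0 + 1)).isP = true ∧ (rr R (q0 + 1)).rl = false :=
    nx_rl1 (rr_nx (lv q0)) rq0
  have p2 : (rr R (q0 + 1 + 1)).rl = false := nx_rl2 (rr_nx (lv (q0 + 1))) p1.1
  have p3 : (rr R (q1 + 1)).isP = true ∧ (rr R (q1 + 1)).rl = false :=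
    nx_rl1 (rr_nx (lv q1)) rq1
  have p4 : (rr R (q1 + 1 + 1)).rl = false := nx_rl2 (rr_nx (lv (q1 + 1))) p3.1
  have G : GOK hx none none lo hi r n' n N M J Hh h0 h1 fW (p - 1) (p' + 1) UpH DnH := by
    refine ⟨F, by omega, by omega, by omega, Or.inr ⟨by omega, ?_, ?_⟩, Or.inr ⟨by omega, ?_, ?_⟩,
      rows, fun h _ _ => by omega, fun h _ _ => by omega, by omega, by omega, ?_, ?_, ?_, ?_, ?_, ?_⟩
    · rw [show h0 - 1 = q0 + 1 by omega, (rows _ (by omega) (by omega)).1]; exact p1.2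
    · rw [show h0 = q0 + 1 + 1 by omega, (rows _ (by omega) (by omega)).1]; exact p2
    · rw [eh1, (rows _ (by omega) (by omega)).1]; exact p3.2
    · rw [eh1, (rows _ (by omega) (by omega)).1]; exact p4
    · intro l u g ht hF
      have hb := hB l u g ht hF
      refine ⟨by omega, by omega, ?_⟩
      obtain ⟨d1, d2, d3, d4⟩ := hF.1.2 g (Off.refl _ _ _)
      obtain ⟨s', s1, s2⟩ := hole_pair H S hF.1.1 hF.2.1 hF.2.2 d1 d2 d3 d4
      refine ⟨s', s1, Np _ _ (H.mono (by omega)) ?_ s2⟩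
      rw [← s1]; exact H.mono (by omega)
    · intro l g hh
      obtain ⟨k1, k, g', k2, k3, k4, k5, k6⟩ := up_of l g hh
      have ha := aU l g hh
      obtain ⟨b1, b2⟩ := k1.1 g (fun _ _ => rfl)
      refine ⟨by omega, k1.2, b1, ?_, ?_, s, ?_, ?_⟩
      · intro k' g'' c1 c2 c3
        exact C.upHole_not_DT k1 c1 c2 (c3.1 _)
      · intro g'' c1
        exact of_up l g'' ⟨C.upHole_inv hβ k1 c1, k, g', k2, k3, k4, k5,
          fun i hi' => by rw [k6 i hi', c1 i hi']⟩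
      · rw [sub_add_cancel, pn, ha]
      · rw [ha]
        refine Na _ _ (H.mono (by omega)) (H.mono (by omega)) (aA (Or.inl ⟨l, g, hh⟩)) ?_
        have e1 := H.mono (show p ≤ Hh by omega)
        have e2 := H.mono (show J ≤ a by omega)
        omega
    · intro l g hh
      refine ⟨by omega, by omega, ?_⟩
      rw [sub_add_cancel]
      exact realOf p pi
    · intro u g hh
      obtain ⟨k1, k, g', k2, k3, k4, k5, k6⟩ := dn_of u g hh
      have ha := aD u g hh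
      obtain ⟨b1, b2⟩ := k1.1 g (fun _ _ => rfl)
      refine ⟨by omega, k1.2, b1, ?_, ?_, s, ?_, ?_⟩
      · intro k' g'' c1 c2 c3
        exact C.dnHole_not_UT k1 c1 c2 (c3.2 _)
      · intro g'' c1
        exact of_dn u g'' ⟨C.dnHole_inv hβ k1 c1, k, g', k2, k3, k4, k5,
          fun i hi' => by rw [k6 i hi', c1 i hi']⟩
      · rw [add_sub_cancel_right, pn', ha]; ring
      · rw [add_sub_cancel_right, pn']
        have e1 := H.mono (show p ≤ Hh by omega)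
        have e2 := H.mono (show J ≤ a by omega)
        have e3 := Na (n a) s e2 (H.mono (by omega)) (aA (Or.inr ⟨u, g, hh⟩)) (by omega)
        have e4 := dvd_sub e3 (dvd_refl (tw s))
        rwa [show n a + N - tw s = n a - tw s + N by ring] at e4
    · intro u g hh
      refine ⟨by omega, by omega, ?_⟩
      rw [add_sub_cancel_right]
      exact realOf p' pi'
    · intro h g a b _ _ o
      rcases C.plZ hβ root h g with h5 | ⟨lo', hi', e2, e3, e4⟩ | ⟨lo', e2, e3⟩ | ⟨hi', e2, e3⟩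
      · exact Or.inl h5
      · exact Or.inr (Or.inl ⟨lo', hi', e2, e3, e4⟩)
      · exact Or.inr (Or.inr (Or.inl ⟨lo', e2, of_up lo' g ⟨e3, h, g, a, b, o, e2, fun _ _ => rfl⟩⟩))
      · exact Or.inr (Or.inr (Or.inr ⟨hi', e2, of_dn hi' g ⟨e3, h, g, a, b, o, e2, fun _ _ => rfl⟩⟩))
  have W := gok_wok G
  obtain ⟨Z, Z1, Z2, Z3⟩ := merge W.hols x (fun h g => h0 ≤ h ∧ h ≤ h1 ∧ Off h0 h1 g fW) (by
    rintro l u g ⟨⟨k, g', t1, t2, t3, t4, t5, t6⟩, h | ⟨hu, h⟩ | ⟨hl, h⟩⟩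
    · exact ⟨x, cp_of_cb hx h.1, fun _ _ _ _ _ _ => rfl, fun _ _ _ _ _ _ => rfl⟩
    · have hU := C.upHole_inv hβ (up_of l g h).1 (g := g') (fun i hi' => t6 i (Or.inl hi'))
      obtain ⟨z, z1, z2, z3⟩ := hBU (k, g') ⟨t1, t2, t3⟩ l t4 hU u (by omega)
      have hoff : ∀ g'', Off l u g'' g → Off h0 h1 g'' fW → Off l (h1 + 1) g'' g' := by
        intro g'' o1 o2 i hi'
        rcases hi' with hi' | hi'
        · rw [o1 i (Or.inl hi'), t6 i (Or.inl hi')]
        · rw [o2 i (Or.inr (by omega)), t3 i (Or.inr (by omega))]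
      refine ⟨z, z1.inv t6, ?_, ?_⟩
      · rintro h' g'' b1 b2 b3 ⟨b4, b5, b6⟩
        exact z2 h' g'' b1 (by omega) (hoff g'' b3 b6)
      · rintro h' g'' b1 b2 b3 ⟨b4, b5, b6⟩
        exact z3 h' g'' b1 (by omega) (hoff g'' b3 b6)
    · have hU := C.dnHole_inv hβ (dn_of u g h).1 (g := g') (fun i hi' => t6 i (Or.inr hi'))
      obtain ⟨z, z1, z2, z3⟩ := hBD (k, g') ⟨t1, t2, t3⟩ u t5 hU l (by omega)
      have hoff : ∀ g'', Off l u g'' g → Off h0 h1 g'' fW → Off (h0 - 1) u g'' g' := by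
        intro g'' o1 o2 i hi'
        rcases hi' with hi' | hi'
        · rw [o2 i (Or.inl (by omega)), t3 i (Or.inl (by omega))]
        · rw [o1 i (Or.inr hi'), t6 i (Or.inr hi')]
      refine ⟨z, z1.inv t6, ?_, ?_⟩
      · rintro h' g'' b1 b2 b3 ⟨b4, b5, b6⟩
        exact z2 h' g'' (by omega) b2 (hoff g'' b3 b6)
      · rintro h' g'' b1 b2 b3 ⟨b4, b5, b6⟩
        exact z3 h' g'' (by omega) b2 (hoff g'' b3 b6))
  obtain ⟨z, z1, z2, z3⟩ := core W (Z := Z) Z1 (fun h g a b _ o hh => Z2 h g hh ⟨a, b, o⟩)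
    (fun h g a b _ o hh => Z3 h g hh ⟨a, b, o⟩)
  refine ⟨lo, hi, z, by omega, by omega, z1, fun h g a b o => ⟨?_, ?_⟩⟩
  · exact z2 h g (by omega) (by omega) (by omega) (o.mono (by omega) (by omega))
  · exact z3 h g (by omega) (by omega) (by omega) (o.mono (by omega) (by omega))

end

end Run7.h687.Full
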