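import Pool.Agent.Run7.h687.Full.EZ

set_option autoImplicit false

namespace Run7.h687.Full
open Run7.h687.Lamp

/-- Extraction of closed patterns. -/
theorem e0 {x : Cfg} (hx : Rules x) {w0 w1 : ℤ} (hw : w0 ≤ w1) (fW : K) :
    ∃ lo hi z, lo < w0 ∧ w1 < hi ∧ CP lo hi fW z ∧
      ∀ h g, w0 ≤ h → h ≤ w1 → Off w0 w1 g fW → z.up h g = x.up h g ∧ z.dn h g = x.dn h g := by
  set C := toR x hx with hC
  have hβ := betaC hx
  by_cases hroot : ∃ k g, (C.rgn none none).In k g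
  · obtain ⟨k, g, hk⟩ := hroot
    exact e0Z (hx := hx) hk hw fW
  · have fin : ∀ h f, ∃ D U, C.DT h f D ∧ ¬ C.DT h f (D + 1) ∧ C.UT h f U ∧ ¬ C.UT h f (U + 1) := by
      intro h f
      rcases C.DT_tri h f with hd | ⟨D, hd1, hd2⟩
      · rcases C.UT_tri h f with hu | ⟨U, hu1, hu2⟩
        · exact absurd ⟨h, f, hd, hu⟩ hroot
        · exfalso
          have hb := C.top_of hu1 hu2 hd f (fun _ _ => rfl)
          exact hroot ⟨_, f, hβ.2 _ _ hb.1 (by
            rw [show h + 1 + (U : ℤ) - 1 = h + U by ring]; exact hb.2)⟩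
      · rcases C.UT_tri h f with hu | ⟨U, hu1, hu2⟩
        · exfalso
          have hb := C.bottom_of hd1 hd2 hu f (fun _ _ => rfl)
          exact hroot ⟨_, f, hβ.1 _ _ hb.1 hb.2⟩
        · exact ⟨D, U, hd1, hd2, hu1, hu2⟩
    have grow : ∀ k : ℕ, ∃ lo hi, lo ≤ w0 - k ∧ w0 + k < hi ∧ C.CB lo hi fW := by
      intro k
      induction k with
      | zero =>
        obtain ⟨D, U, a, b, c, d⟩ := fin w0 fW
        exact ⟨_, _, by push_cast; omega, by push_cast; omega, C.closed_of a b c d⟩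
      | succ k ih =>
        obtain ⟨lo, hi, h1, h2, h3⟩ := ih
        obtain ⟨b1, b2, b3, b4⟩ := h3.2 fW (Off.refl _ _ _)
        have hlt := h3.1
        have hu := C.hostUp _ lo fW b1 b3
        obtain ⟨D, U, a, b, c, d⟩ := fin (lo - 1) fW
        have hU : (hi - 1 - lo).toNat + 2 ≤ U := by
          by_contra hc
          exact d (C.UT_le (by omega) hu)
        exact ⟨_, _, by push_cast; omega, by push_cast; omega, C.closed_of a b c d⟩
    obtain ⟨lo, hi, h1, h2, h3⟩ := grow (w1 - w0 + 1).toNat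
    exact ⟨lo, hi, x, by omega, by omega, cp_of_cb hx h3, fun _ _ _ _ _ => ⟨rfl, rfl⟩⟩

/-- hosts without window -/
theorem host_of {lo hi : ℤ} {r : ℤ → Row} {n : ℤ → ℤ} {M : ℕ} (F : Frm lo hi r n M)
    {a b : ℤ → K → Bool} (L : Lab lo hi r a b) {Hol : ℤ → ℤ → K → Prop} (hH : Hols lo hi r Hol)
    (ix : ∀ l u g, Hol l u g → ∃ s, n (u + 1) = n (l - 1) + tw s ∧ tw s ∣ n (l - 1))
    (b1 : ∀ l u g, Hol l u g → b l g = true) (b2 : ∀ l u g, Hol l u g → b (l - 1) g = true)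
    (a1 : ∀ l u g, Hol l u g → a u g = true) (a2 : ∀ l u g, Hol l u g → a (u + 1) g = true)
    {Z : Cfg} (hZ : ∀ l u g, Hol l u g → CP l u g Z) (f0 : K) :
    ∃ z, CP lo hi f0 z ∧ (∀ h g, InH Hol h g → z.up h g = Z.up h g) ∧
      (∀ h g, InH Hol (h - 1) g → z.dn h g = Z.dn h g) := by
  have HC : HCond ⟨lo, hi, r, n, a, b, 0, 0, Hol⟩ M := ⟨F, L, hH, ix, b1, b2, a1, a2⟩
  exact ⟨_, glue hH (HPar.host HC f0) hZ, fun h g hh => gl_up1 hh, fun h g hh => gl_dn1 hh⟩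

/-- default labels -/
noncomputable def aD (hi : ℤ) (fW : K) (h : ℤ) (f : K) : Bool :=
  if h = hi then true else decide (f h = fW h)

/-- default labels -/
noncomputable def bD (lo : ℤ) (fW : K) (h : ℤ) (f : K) : Bool :=
  if h = lo then true else decide (f (h - 1) = fW (h - 1))

lemma labD {lo hi : ℤ} (r : ℤ → Row) (fW : K) : Lab lo hi r (aD hi fW) (bD lo fW) := by
  refine ⟨?_, ?_, ?_, ?_, ?_, ?_, ?_, ?_⟩
  · intro h f f' hf
    unfold aD
    rw [hf h (le_refl h)]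
  · intro h f a b
    unfold aD
    rw [if_neg (by omega), if_neg (by omega), decide_fl]
  · intro f
    unfold aD
    rw [if_pos rfl]
  · intro h f a b _
    unfold aD
    rw [if_neg (by omega), if_neg (by omega), fl_ne (by omega)]
  · intro h f f' hf
    unfold bD
    rw [hf (h - 1) (by omega)]
  · intro h f a b
    unfold bD
    rw [if_neg (by omega), if_neg (by omega), decide_fl]
  · intro f
    unfold bD
    rw [if_pos rfl]
  · intro h f a b _
    unfold bD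
    rw [if_neg (by omega), if_neg (by omega), fl_ne (by omega)]

lemma aD_true {hi : ℤ} {fW : K} {h : ℤ} {f : K} (e : f h = fW h) : aD hi fW h f = true := by
  unfold aD
  split_ifs
  · rfl
  · exact decide_eq_true e

lemma bD_true {lo : ℤ} {fW : K} {h : ℤ} {f : K} (e : f (h - 1) = fW (h - 1)) :
    bD lo fW h f = true := by
  unfold bD
  split_ifs
  · rfl
  · exact decide_eq_true e

lemma exists_mult {t m : ℤ} (ht : 0 < t) : ∃ j, t ∣ j ∧ m ≤ j ∧ j ≤ m + t - 1 := by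
  refine ⟨t * ((m + t - 1) / t), dvd_mul_right _ _, ?_, ?_⟩
  · have := Int.lt_mul_ediv_self_add (x := m + t - 1) ht
    omega
  · exact Int.mul_ediv_self_le (ne_of_gt ht)

lemma encA (s : ℕ) {D1 D2 : ℤ} (h1 : 100 * tw s ≤ D1) (h2 : 100 * tw s ≤ D2) :
    ∃ (j : ℤ) (M : ℕ), tw s ∣ j ∧ 1 ≤ j ∧ 1 ≤ M ∧ 3 * j ≤ D1 ∧ D1 ≤ 7 * j ∧
      1 ≤ tw M - (j + tw s) ∧ 3 * (tw M - (j + tw s)) ≤ D2 ∧ D2 ≤ 7 * (tw M - (j + tw s)) := by
  have ht := tw_pos s
  obtain ⟨M, m1, m2⟩ := exists_tw (T := (D1 + D2) / 3) (by omega)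
  rw [tw_succ] at m2
  generalize hT : tw s = t at *
  generalize hM : tw M = TM at *
  obtain ⟨j, j1, j2, j3⟩ := exists_mult (t := t) (m := max ((D1 + 6) / 7) (TM - t - D2 / 3)) ht
  have hmax : (D1 + 6) / 7 ≤ j ∧ TM - t - D2 / 3 ≤ j := by
    have := le_max_left ((D1 + 6) / 7) (TM - t - D2 / 3)
    have := le_max_right ((D1 + 6) / 7) (TM - t - D2 / 3)
    omega
  have hcase : j ≤ (D1 + 6) / 7 + t - 1 ∨ j ≤ TM - t - D2 / 3 + t - 1 := by
    rcases max_choice ((D1 + 6) / 7) (TM - t - D2 / 3) with h | h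
    · left; rw [h] at j3; exact j3
    · right; rw [h] at j3; exact j3
  refine ⟨j, M, j1, by omega, ?_, ?_, by omega, ?_, ?_, ?_⟩
  · by_contra hc
    have : M = 0 := by omega
    subst this
    have : tw 0 = 1 := rfl
    omega
  · rcases hcase with h | h <;> omega
  · rcases hcase with h | h <;> omega
  · omega
  · rw [hM]
    rcases hcase with h | h <;> omega

lemma exists_s {lam : ℤ} (h : 3 ≤ lam) : ∃ s : ℕ, 3 * tw s ≤ lam ∧ lam ≤ 7 * tw s := by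
  obtain ⟨s, a, b⟩ := exists_tw (T := lam / 3) (by omega)
  rw [tw_succ] at b
  exact ⟨s, by omega, by omega⟩

lemma cast_tw (s : ℕ) : ((2 ^ s : ℕ) : ℤ) = tw s := by
  unfold tw
  push_cast
  rfl

/-- frames around a hole -/
theorem frame1 {l u : ℤ} (hlu : l < u) : ∃ N : ℤ, 1 ≤ N ∧ ∀ lo hi, lo ≤ l - N → u + N ≤ hi →
    ∃ r n M, Frm lo hi r n M ∧ (r l).isP = true ∧ (r u).isM = true ∧
      ∃ s, n (u + 1) = n (l - 1) + tw s ∧ tw s ∣ n (l - 1) := by
  obtain ⟨s, s1, s2⟩ := exists_s (lam := u - l + 2) (by omega)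
  have ht := tw_pos s
  refine ⟨100 * tw s + 2, by omega, fun lo hi h1 h2 => ?_⟩
  obtain ⟨j, M, j1, j2, j3, j4, j5, j6, j7, j8⟩ := encA s (D1 := l - 1 - lo) (D2 := hi - (u + 1))
    (by omega) (by omega)
  obtain ⟨r1, n1, S1, a1, a2, a3, a4⟩ := segB (m := j) (p := lo) (q := l - 1) j2 j4 j5
  obtain ⟨r2, n2, S2, b1, b2, b3, b4⟩ := segR (2 ^ s) (l - 1) (u + 1) j
    (by rw [cast_tw]; omega) (by rw [cast_tw]; omega)
  rw [cast_tw] at b3 b4
  obtain ⟨r3, n3, S3, c1, c2, c3, c4⟩ := segT (m := tw M - (j + tw s)) (p := u + 1) (q := hi)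
    (i := j + tw s) j6 (by rw [add_sub_cancel]; exact two_dvd_tw j3) j7 j8
  obtain ⟨r4, n4, S4, d1, d2⟩ := seg_cat S1 S2 (by rw [a3, b1]) (by rw [a4, b2])
  obtain ⟨r, n, SS, e1, e2⟩ := seg_cat S4 S3 (by
    rw [(d2 (u + 1) (by omega)).1, b3, c1]) (by rw [(d2 (u + 1) (by omega)).2, b4, c2])
  have rl1 : r (l - 1) = rR j := by
    rw [(e1 (l - 1) (by omega)).1, (d1 (l - 1) le_rfl).1, a3]
  have rl2 : r (u + 1) = rR (j + tw s) := by
    rw [(e2 (u + 1) le_rfl).1, c1]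
  have nl1 : n (l - 1) = j := by
    rw [(e1 (l - 1) (by omega)).2, (d1 (l - 1) le_rfl).2, a4]
  have nl2 : n (u + 1) = j + tw s := by
    rw [(e2 (u + 1) le_rfl).2, c2]
  refine ⟨r, n, M, ⟨SS, ?_, ?_, ?_, ?_, j3⟩, ?_, ?_, s, ?_, ?_⟩
  · rw [(e1 lo (by omega)).1, (d1 lo (by omega)).1]; exact a1
  · rw [(e2 hi (by omega)).1]; exact c3
  · rw [(e1 lo (by omega)).2, (d1 lo (by omega)).2, a2]
  · rw [(e2 hi (by omega)).2, c4]; ring
  · have h5 := SS.nx (l - 1) (by omega) (by omega)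
    rw [sub_add_cancel] at h5
    exact RS.nxR _ _ h5 (by rw [rl1]; rfl)
  · exact RS.nxM' _ _ (SS.nx u (by omega) (by omega)) (by rw [rl2]; rfl)
  · rw [nl1, nl2]
  · rw [nl1]; exact j1

/-- Closed patterns are holes of larger closed patterns. -/
theorem enc {l u : ℤ} {f0 : K} {z : Cfg} (H : CP l u f0 z) : ∃ N : ℤ, 1 ≤ N ∧ ∀ lo hi,
    lo ≤ l - N → u + N ≤ hi → ∃ z', CP lo hi f0 z' ∧
      (∀ h g, l ≤ h → h < u → Off l u g f0 → z'.up h g = z.up h g) ∧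
      (∀ h g, l < h → h ≤ u → Off l u g f0 → z'.dn h g = z.dn h g) := by
  obtain ⟨N, N1, hN⟩ := frame1 H.lt
  refine ⟨N, N1, fun lo hi h1 h2 => ?_⟩
  obtain ⟨r, n, M, F, rP, rM, s, s1, s2⟩ := hN lo hi h1 h2
  obtain ⟨Hol, eH⟩ : ∃ Hol : ℤ → ℤ → K → Prop, Hol = fun l' u' g => l' = l ∧ u' = u ∧ Off l u g f0 :=
    ⟨_, rfl⟩
  have hof : ∀ l' u' g, Hol l' u' g → l' = l ∧ u' = u ∧ Off l u g f0 := by
    intro l' u' g h; rw [eH] at h; exact h
  have hto : ∀ g, Off l u g f0 → Hol l u g := by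
    intro g h; rw [eH]; exact ⟨rfl, rfl, h⟩
  have hlt := H.lt
  have hH : Hols lo hi r Hol := by
    refine ⟨?_, ?_, ?_, ?_, ?_⟩
    · intro l' u' f g h o
      obtain ⟨rfl, rfl, h3⟩ := hof _ _ _ h
      exact hto g (o.symm.trans h3)
    · intro l1 u1 l2 u2 h g a b _ _ _ _
      obtain ⟨rfl, rfl, -⟩ := hof _ _ _ a
      obtain ⟨rfl, rfl, -⟩ := hof _ _ _ b
      exact ⟨rfl, rfl⟩
    · intro l1 u1 g a
      obtain ⟨rfl, rfl, -⟩ := hof _ _ _ a
      omega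
    · intro l1 u1 g a
      obtain ⟨rfl, rfl, -⟩ := hof _ _ _ a
      exact rP
    · intro l1 u1 g a
      obtain ⟨rfl, rfl, -⟩ := hof _ _ _ a
      exact rM
  obtain ⟨z', z1, z2, z3⟩ := host_of F (labD r f0) hH (by
      intro l1 u1 g a
      obtain ⟨rfl, rfl, -⟩ := hof _ _ _ a
      exact ⟨s, s1, s2⟩)
    (fun l1 u1 g a => by
      obtain ⟨rfl, rfl, o⟩ := hof _ _ _ a
      exact bD_true (o _ (Or.inl (by omega))))
    (fun l1 u1 g a => by
      obtain ⟨rfl, rfl, o⟩ := hof _ _ _ a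
      exact bD_true (o _ (Or.inl (by omega))))
    (fun l1 u1 g a => by
      obtain ⟨rfl, rfl, o⟩ := hof _ _ _ a
      exact aD_true (o _ (Or.inr (by omega))))
    (fun l1 u1 g a => by
      obtain ⟨rfl, rfl, o⟩ := hof _ _ _ a
      exact aD_true (o _ (Or.inr (by omega))))
    (Z := z) (fun l1 u1 g a => by
      obtain ⟨rfl, rfl, o⟩ := hof _ _ _ a
      exact H.inv o.symm) f0
  refine ⟨z', z1, fun h g a b o => z2 h g ⟨l, u, a, b, hto g o⟩,
    fun h g a b o => z3 h g ⟨l, u, by omega, by omega, hto g o⟩⟩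

/-- A closed pattern exists. -/
theorem exists_CP : ∃ lo hi z, CP lo hi (0 : K) z := by
  obtain ⟨r1, n1, S1, a1, a2, a3, a4⟩ := segB (m := 1) (p := 0) (q := 3) (by omega) (by omega) (by omega)
  obtain ⟨r2, n2, S2, b1, b2, b3, b4⟩ := segT (m := 1) (p := 3) (q := 6) (i := 1) (by omega)
    (by norm_num) (by omega) (by omega)
  obtain ⟨r, n, SS, c1, c2⟩ := seg_cat S1 S2 (by rw [a3, b1]) (by rw [a4, b2])
  have F : Frm 0 6 r n 1 := by
    refine ⟨SS, ?_, ?_, ?_, ?_, le_rfl⟩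
    · rw [(c1 0 (by omega)).1]; exact a1
    · rw [(c2 6 (by omega)).1]; exact b3
    · rw [(c1 0 (by omega)).2, a2]
    · rw [(c2 6 (by omega)).2, b4]; rfl
  obtain ⟨z, z1, -, -⟩ := host_of F (labD r 0) (Hol := fun _ _ _ => False)
    ⟨fun _ _ _ _ h _ => h.elim, fun _ _ _ _ _ _ h => h.elim, fun _ _ _ h => h.elim,
      fun _ _ _ h => h.elim, fun _ _ _ h => h.elim⟩ (fun _ _ _ h => h.elim)
    (fun _ _ _ h => h.elim) (fun _ _ _ h => h.elim) (fun _ _ _ h => h.elim)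
    (fun _ _ _ h => h.elim) (Z := Classical.arbitrary Cfg) (fun _ _ _ h => h.elim) 0
  exact ⟨0, 6, z, z1⟩

end Run7.h687.Full
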