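import Pool.Agent.Run7.h687.Full.Host

set_option autoImplicit false

namespace Run7.h687.Full
open Run7.h687.Lamp

/-- the standard real row -/
noncomputable def rR (i : ℤ) : Row := .R (decide ((2 : ℤ) ∣ i)) (ty0 i)

lemma rR_par (i : ℤ) : (rR i).par = true ↔ (2 : ℤ) ∣ i := by
  show decide _ = true ↔ _
  exact decide_eq_true_iff

lemma rR_idx (i : ℤ) : (rR i).idx := Or.inl rfl

lemma not_idx_P (s : Bool) : ¬ (Row.P s).idx := by
  rintro (h | h | h)
  · simp [Row.rl] at h
  · simp at h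
  · simp at h

lemma not_idx_M (s : Bool) : ¬ (Row.M s).idx := by
  rintro (h | h | h)
  · simp [Row.rl] at h
  · simp at h
  · simp at h

lemma not_idx_E (k : Fin 5) (s : Bool) : ¬ (Row.E k s).idx := by
  rintro (h | h | h)
  · simp [Row.rl] at h
  · simp at h
  · simp at h

/-- numbering of the `E` rows -/
def eF (k : ℤ) : Fin 5 := Fin.ofNat 5 k.toNat

lemma eF_succ {k : ℤ} (h1 : 0 ≤ k) (h2 : k < 4) : (eF (k + 1)).val = (eF k).val + 1 := by
  unfold eF
  simp only [Fin.ofNat]
  have e1 : (k + 1).toNat = k.toNat + 1 := by omega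
  rw [e1]
  omega

lemma eF_zero : eF 0 = 0 := rfl

theorem gapR (p q i : ℤ) (h1 : 3 ≤ q - p) (h2 : q - p ≤ 7) : ∃ r n, Seg p q r n ∧ r p = rR i ∧
    n p = i ∧ r q = rR (i + 1) ∧ n q = i + 1 := by
  obtain ⟨s, hs⟩ : ∃ s : Bool, s = decide ((2 : ℤ) ∣ i) := ⟨_, rfl⟩
  have hs1 : s = true ↔ (2 : ℤ) ∣ i := by rw [hs]; exact decide_eq_true_iff
  have hs2 : decide ((2 : ℤ) ∣ i + 1) = !s := by
    rw [hs]
    by_cases h : (2 : ℤ) ∣ i
    · rw [decide_eq_true h, decide_eq_false (by omega)]; rfl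
    · rw [decide_eq_false h, decide_eq_true (by omega)]; rfl
  let r : ℤ → Row := fun h => if h = p then rR i else if h = q then rR (i + 1)
    else if h = p + 1 then .P s else if h = q - 1 then .M s else .E (eF (h - p - 2)) s
  let n : ℤ → ℤ := fun h => if h = q then i + 1 else i
  have rp : r p = rR i := if_pos rfl
  have rq : r q = rR (i + 1) := by
    simp only [r]; rw [if_neg (by omega), if_pos trivial]
  have rP : r (p + 1) = .P s := by
    simp only [r]; rw [if_neg (by omega), if_neg (by omega), if_pos trivial]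
  have rM : ∀ h, h = q - 1 → r h = .M s := by
    intro h hh
    simp only [r]; rw [if_neg (by omega), if_neg (by omega), if_neg (by omega), if_pos hh]
  have rE : ∀ h, p + 1 < h → h < q - 1 → r h = .E (eF (h - p - 2)) s := by
    intro h a b
    simp only [r]; rw [if_neg (by omega), if_neg (by omega), if_neg (by omega), if_neg (by omega)]
  have nq : n q = i + 1 := if_pos rfl
  have nn : ∀ h, h ≠ q → n h = i := fun h hh => if_neg hh
  have cases : ∀ h, p ≤ h → h ≤ q → h = p ∨ h = p + 1 ∨ (p + 1 < h ∧ h < q - 1) ∨ h = q - 1 ∨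
      h = q := by intro h a b; omega
  refine ⟨r, n, ⟨by omega, ?_, ?_, ?_, ?_⟩, rp, nn p (by omega), rq, nq⟩
  · intro h a b
    rcases cases h a b.le with c | c | c | c | c
    · rw [c, rp, rP, hs]; exact .rp _ _
    · rw [c, rP]
      by_cases d : p + 1 + 1 = q - 1
      · rw [rM _ d]; exact .pm _
      · rw [rE _ (by omega) (by omega), show p + 1 + 1 - p - 2 = 0 by ring, eF_zero]; exact .pe _
    · rw [rE h c.1 c.2]
      by_cases d : h + 1 = q - 1
      · rw [rM _ d]; exact .em _ _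
      · rw [rE _ (by omega) (by omega)]
        apply Nx.ee
        rw [show h + 1 - p - 2 = (h - p - 2) + 1 by ring]
        exact eF_succ (by omega) (by omega)
    · rw [rM h c, show h + 1 = q by omega, rq]
      unfold rR
      rw [hs2]
      exact .mr _ _
    · omega
  · intro h a b
    by_cases d : h + 1 = q
    · left
      rw [d, nq, nn h (by omega), rq]
      exact ⟨rfl, rR_idx _⟩
    · right
      rw [nn (h + 1) d, nn h (by omega)]
      refine ⟨rfl, ?_⟩
      rcases cases (h + 1) (by omega) (by omega) with c | c | c | c | c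
      · omega
      · rw [c, rP]; exact not_idx_P _
      · rw [rE _ c.1 c.2]; exact not_idx_E _ _
      · rw [rM _ c]; exact not_idx_M _
      · exact absurd c d
  · intro h a b
    rcases cases h a b with c | c | c | c | c
    · rw [c, rp, nn p (by omega)]; exact rR_par i
    · rw [c, rP, nn _ (by omega)]; exact hs1
    · rw [rE h c.1 c.2, nn _ (by omega)]; exact hs1
    · rw [rM h c, nn _ (by omega)]; exact hs1
    · rw [c, rq, nq]; exact rR_par _
  · intro h s' t' a b e
    rcases cases h a b with c | c | c | c | c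
    · rw [c, rp] at e
      rw [c, nn p (by omega)]
      unfold rR at e
      simp only [Row.R.injEq] at e
      exact e.2.symm
    · rw [c, rP] at e; simp at e
    · rw [rE h c.1 c.2] at e; simp at e
    · rw [rM h c] at e; simp at e
    · rw [c, rq] at e
      rw [c, nq]
      unfold rR at e
      simp only [Row.R.injEq] at e
      exact e.2.symm

theorem gapB (p q : ℤ) (h1 : 3 ≤ q - p) (h2 : q - p ≤ 7) : ∃ r n, Seg p q r n ∧ r p = .bot ∧
    n p = 0 ∧ r q = rR 1 ∧ n q = 1 := by
  let r : ℤ → Row := fun h => if h = p then .bot else if h = q then rR 1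
    else if h = q - 1 then .M true else .E (eF (h - p - 1)) true
  let n : ℤ → ℤ := fun h => if h = q then 1 else 0
  have rp : r p = .bot := if_pos rfl
  have rq : r q = rR 1 := by
    simp only [r]; rw [if_neg (by omega), if_pos trivial]
  have rM : ∀ h, h = q - 1 → r h = .M true := by
    intro h hh
    simp only [r]; rw [if_neg (by omega), if_neg (by omega), if_pos hh]
  have rE : ∀ h, p < h → h < q - 1 → r h = .E (eF (h - p - 1)) true := by
    intro h a b
    simp only [r]; rw [if_neg (by omega), if_neg (by omega), if_neg (by omega)]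
  have nq : n q = 1 := if_pos rfl
  have nn : ∀ h, h ≠ q → n h = 0 := fun h hh => if_neg hh
  have cases : ∀ h, p ≤ h → h ≤ q → h = p ∨ (p < h ∧ h < q - 1) ∨ h = q - 1 ∨
      h = q := by intro h a b; omega
  refine ⟨r, n, ⟨by omega, ?_, ?_, ?_, ?_⟩, rp, nn p (by omega), rq, nq⟩
  · intro h a b
    rcases cases h a b.le with c | c | c | c
    · rw [c, rp, rE _ (by omega) (by omega), show p + 1 - p - 1 = 0 by ring, eF_zero]; exact .b0
    · rw [rE h c.1 c.2]
      by_cases d : h + 1 = q - 1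
      · rw [rM _ d]; exact .em _ _
      · rw [rE _ (by omega) (by omega)]
        apply Nx.ee
        rw [show h + 1 - p - 1 = (h - p - 1) + 1 by ring]
        exact eF_succ (by omega) (by omega)
    · rw [rM h c, show h + 1 = q by omega, rq]
      unfold rR
      rw [show decide ((2 : ℤ) ∣ 1) = !true by decide]
      exact .mr _ _
    · omega
  · intro h a b
    by_cases d : h + 1 = q
    · left
      rw [d, nq, nn h (by omega), rq]
      exact ⟨rfl, rR_idx _⟩
    · right
      rw [nn (h + 1) d, nn h (by omega)]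
      refine ⟨rfl, ?_⟩
      rcases cases (h + 1) (by omega) (by omega) with c | c | c | c
      · omega
      · rw [rE _ c.1 c.2]; exact not_idx_E _ _
      · rw [rM _ c]; exact not_idx_M _
      · exact absurd c d
  · intro h a b
    rcases cases h a b with c | c | c | c
    · rw [c, rp, nn p (by omega)]; simp [Row.par]
    · rw [rE h c.1 c.2, nn _ (by omega)]; simp [Row.par]
    · rw [rM h c, nn _ (by omega)]; simp [Row.par]
    · rw [c, rq, nq]; exact rR_par _
  · intro h s' t' a b e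
    rcases cases h a b with c | c | c | c
    · rw [c, rp] at e; simp at e
    · rw [rE h c.1 c.2] at e; simp at e
    · rw [rM h c] at e; simp at e
    · rw [c, rq] at e
      rw [c, nq]
      unfold rR at e
      simp only [Row.R.injEq] at e
      exact e.2.symm

theorem gapT (p q i : ℤ) (hi : ¬ (2 : ℤ) ∣ i) (h1 : 3 ≤ q - p) (h2 : q - p ≤ 7) :
    ∃ r n, Seg p q r n ∧ r p = rR i ∧ n p = i ∧ r q = .top ∧ n q = i + 1 := by
  have hs : decide ((2 : ℤ) ∣ i) = false := decide_eq_false hi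
  let r : ℤ → Row := fun h => if h = p then rR i else if h = q then .top
    else if h = p + 1 then .P false else .E (eF (h - p - 2)) false
  let n : ℤ → ℤ := fun h => if h = q then i + 1 else i
  have rp : r p = rR i := if_pos rfl
  have rq : r q = .top := by
    simp only [r]; rw [if_neg (by omega), if_pos trivial]
  have rP : r (p + 1) = .P false := by
    simp only [r]; rw [if_neg (by omega), if_neg (by omega), if_pos trivial]
  have rE : ∀ h, p + 1 < h → h < q → r h = .E (eF (h - p - 2)) false := by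
    intro h a b
    simp only [r]; rw [if_neg (by omega), if_neg (by omega), if_neg (by omega)]
  have nq : n q = i + 1 := if_pos rfl
  have nn : ∀ h, h ≠ q → n h = i := fun h hh => if_neg hh
  have cases : ∀ h, p ≤ h → h ≤ q → h = p ∨ h = p + 1 ∨ (p + 1 < h ∧ h < q) ∨
      h = q := by intro h a b; omega
  refine ⟨r, n, ⟨by omega, ?_, ?_, ?_, ?_⟩, rp, nn p (by omega), rq, nq⟩
  · intro h a b
    rcases cases h a b.le with c | c | c | c
    · rw [c, rp, rP]
      unfold rR
      rw [hs]; exact .rp _ _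
    · rw [c, rP, rE _ (by omega) (by omega), show p + 1 + 1 - p - 2 = 0 by ring, eF_zero]
      exact .pe _
    · rw [rE h c.1 c.2]
      by_cases d : h + 1 = q
      · rw [d, rq]; exact .et _
      · rw [rE _ (by omega) (by omega)]
        apply Nx.ee
        rw [show h + 1 - p - 2 = (h - p - 2) + 1 by ring]
        exact eF_succ (by omega) (by omega)
    · omega
  · intro h a b
    by_cases d : h + 1 = q
    · left
      rw [d, nq, nn h (by omega), rq]
      exact ⟨rfl, Or.inr (Or.inl rfl)⟩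
    · right
      rw [nn (h + 1) d, nn h (by omega)]
      refine ⟨rfl, ?_⟩
      rcases cases (h + 1) (by omega) (by omega) with c | c | c | c
      · omega
      · rw [c, rP]; exact not_idx_P _
      · rw [rE _ c.1 c.2]; exact not_idx_E _ _
      · exact absurd c d
  · intro h a b
    rcases cases h a b with c | c | c | c
    · rw [c, rp, nn p (by omega)]; exact rR_par i
    · rw [c, rP, nn _ (by omega)]; simp [Row.par, hi]
    · rw [rE h c.1 c.2, nn _ (by omega)]; simp [Row.par, hi]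
    · rw [c, rq, nq]
      simp only [Row.par, true_iff]
      omega
  · intro h s' t' a b e
    rcases cases h a b with c | c | c | c
    · rw [c, rp] at e
      rw [c, nn p (by omega)]
      unfold rR at e
      simp only [Row.R.injEq] at e
      exact e.2.symm
    · rw [c, rP] at e; simp at e
    · rw [rE h c.1 c.2] at e; simp at e
    · rw [c, rq] at e; simp at e

/-- concatenation -/
theorem seg_cat {p q s : ℤ} {r r' : ℤ → Row} {n n' : ℤ → ℤ} (H : Seg p q r n) (H' : Seg q s r' n')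
    (hr : r q = r' q) (hn : n q = n' q) : ∃ r'' n'', Seg p s r'' n'' ∧
    (∀ h, h ≤ q → r'' h = r h ∧ n'' h = n h) ∧ (∀ h, q ≤ h → r'' h = r' h ∧ n'' h = n' h) := by
  let r'' : ℤ → Row := fun h => if h ≤ q then r h else r' h
  let n'' : ℤ → ℤ := fun h => if h ≤ q then n h else n' h
  have e1 : ∀ h, h ≤ q → r'' h = r h ∧ n'' h = n h := fun h hh => ⟨if_pos hh, if_pos hh⟩
  have e2 : ∀ h, q ≤ h → r'' h = r' h ∧ n'' h = n' h := by
    intro h hh
    rcases eq_or_lt_of_le hh with h3 | h3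
    · rw [← h3]
      exact ⟨by rw [(e1 q le_rfl).1, hr], by rw [(e1 q le_rfl).2, hn]⟩
    · exact ⟨if_neg (by omega), if_neg (by omega)⟩
  refine ⟨r'', n'', ⟨H.le.trans H'.le, ?_, ?_, ?_, ?_⟩, e1, e2⟩
  · intro h a b
    by_cases c : h < q
    · rw [(e1 h (by omega)).1, (e1 (h + 1) (by omega)).1]; exact H.nx h a c
    · rw [(e2 h (by omega)).1, (e2 (h + 1) (by omega)).1]; exact H'.nx h (by omega) b
  · intro h a b
    by_cases c : h < q
    · rw [(e1 h (by omega)).2, (e1 (h + 1) (by omega)).1, (e1 (h + 1) (by omega)).2]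
      exact H.st h a c
    · rw [(e2 h (by omega)).2, (e2 (h + 1) (by omega)).1, (e2 (h + 1) (by omega)).2]
      exact H'.st h (by omega) b
  · intro h a b
    by_cases c : h ≤ q
    · rw [(e1 h c).1, (e1 h c).2]; exact H.par h a c
    · rw [(e2 h (by omega)).1, (e2 h (by omega)).2]; exact H'.par h (by omega) b
  · intro h s' t' a b e
    by_cases c : h ≤ q
    · rw [(e1 h c).1] at e
      rw [(e1 h c).2]; exact H.ty h s' t' a c e
    · rw [(e2 h (by omega)).1] at e
      rw [(e2 h (by omega)).2]; exact H'.ty h s' t' (by omega) b e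

lemma seg_pt (p i : ℤ) : Seg p p (fun _ => rR i) (fun _ => i) := by
  refine ⟨le_rfl, fun h a b => by omega, fun h a b => by omega, fun h _ _ => rR_par i, ?_⟩
  intro h s t _ _ e
  unfold rR at e
  simp only [Row.R.injEq] at e
  exact e.2.symm

theorem segR (m : ℕ) : ∀ (p q i : ℤ), 3 * (m : ℤ) ≤ q - p → q - p ≤ 7 * m →
    ∃ r n, Seg p q r n ∧ r p = rR i ∧ n p = i ∧ r q = rR (i + m) ∧ n q = i + m := by
  induction m with
  | zero =>
    intro p q i h1 h2
    have : q = p := by push_cast at h1 h2; omega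
    subst this
    exact ⟨_, _, seg_pt q i, rfl, rfl, by simp, by simp⟩
  | succ m ih =>
    intro p q i h1 h2
    push_cast at h1 h2
    obtain ⟨g, g1, g2, g3, g4⟩ : ∃ g : ℤ, 3 ≤ g ∧ g ≤ 7 ∧ 3 * (m : ℤ) ≤ q - (p + g) ∧
        q - (p + g) ≤ 7 * m := by
      by_cases hc : q - p - 3 ≤ 7 * m
      · exact ⟨3, by omega, by omega, by omega, by omega⟩
      · exact ⟨q - p - 7 * m, by omega, by omega, by omega, by omega⟩
    obtain ⟨r1, n1, S1, a1, a2, a3, a4⟩ := gapR p (p + g) i (by omega) (by omega)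
    obtain ⟨r2, n2, S2, b1, b2, b3, b4⟩ := ih (p + g) q (i + 1) g3 g4
    obtain ⟨r, n, S, c1, c2⟩ := seg_cat S1 S2 (by rw [a3, b1]) (by rw [a4, b2])
    refine ⟨r, n, S, ?_, ?_, ?_, ?_⟩
    · rw [(c1 p (by omega)).1, a1]
    · rw [(c1 p (by omega)).2, a2]
    · rw [(c2 q S2.le).1, b3]; congr 1; push_cast; ring
    · rw [(c2 q S2.le).2, b4]; push_cast; ring

theorem segB {m p q : ℤ} (hm : 1 ≤ m) (h1 : 3 * m ≤ q - p) (h2 : q - p ≤ 7 * m) :
    ∃ r n, Seg p q r n ∧ r p = .bot ∧ n p = 0 ∧ r q = rR m ∧ n q = m := by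
  obtain ⟨k, hk⟩ : ∃ k : ℕ, m = 1 + k := ⟨(m - 1).toNat, by omega⟩
  obtain ⟨g, g1, g2, g3, g4⟩ : ∃ g : ℤ, 3 ≤ g ∧ g ≤ 7 ∧ 3 * (k : ℤ) ≤ q - (p + g) ∧
      q - (p + g) ≤ 7 * k := by
    by_cases hc : q - p - 3 ≤ 7 * k
    · exact ⟨3, by omega, by omega, by omega, by omega⟩
    · exact ⟨q - p - 7 * k, by omega, by omega, by omega, by omega⟩
  obtain ⟨r1, n1, S1, a1, a2, a3, a4⟩ := gapB p (p + g) (by omega) (by omega)
  obtain ⟨r2, n2, S2, b1, b2, b3, b4⟩ := segR k (p + g) q 1 g3 g4
  obtain ⟨r, n, S, c1, c2⟩ := seg_cat S1 S2 (by rw [a3, b1]) (by rw [a4, b2])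
  refine ⟨r, n, S, ?_, ?_, ?_, ?_⟩
  · rw [(c1 p (by omega)).1, a1]
  · rw [(c1 p (by omega)).2, a2]
  · rw [(c2 q S2.le).1, b3, hk]
  · rw [(c2 q S2.le).2, b4, hk]

theorem segT {m p q i : ℤ} (hm : 1 ≤ m) (he : (2 : ℤ) ∣ i + m) (h1 : 3 * m ≤ q - p)
    (h2 : q - p ≤ 7 * m) :
    ∃ r n, Seg p q r n ∧ r p = rR i ∧ n p = i ∧ r q = .top ∧ n q = i + m := by
  obtain ⟨k, hk⟩ : ∃ k : ℕ, m = 1 + k := ⟨(m - 1).toNat, by omega⟩
  obtain ⟨g, g1, g2, g3, g4⟩ : ∃ g : ℤ, 3 ≤ g ∧ g ≤ 7 ∧ 3 * (k : ℤ) ≤ q - g - p ∧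
      q - g - p ≤ 7 * k := by
    by_cases hc : q - p - 3 ≤ 7 * k
    · exact ⟨3, by omega, by omega, by omega, by omega⟩
    · exact ⟨q - p - 7 * k, by omega, by omega, by omega, by omega⟩
  obtain ⟨r1, n1, S1, a1, a2, a3, a4⟩ := segR k p (q - g) i g3 g4
  obtain ⟨r2, n2, S2, b1, b2, b3, b4⟩ := gapT (q - g) q (i + k) (by omega) (by omega) (by omega)
  obtain ⟨r, n, S, c1, c2⟩ := seg_cat S1 S2 (by rw [a3, b1]) (by rw [a4, b2])
  refine ⟨r, n, S, ?_, ?_, ?_, ?_⟩
  · rw [(c1 p S1.le).1, a1]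
  · rw [(c1 p S1.le).2, a2]
  · rw [(c2 q (by omega)).1, b3]
  · rw [(c2 q (by omega)).2, b4, hk]; ring

lemma Seg.real {p q : ℤ} {r : ℤ → Row} {n : ℤ → ℤ} (H : Seg p q r n) {h : ℤ} (h1 : p ≤ h)
    (h2 : h ≤ q) (h3 : (r h).rl = true) : r h = rR (n h) := by
  cases hr : r h with
  | R s t =>
    have e1 := H.ty h s t h1 h2 hr
    have e2 := H.par h h1 h2
    rw [hr] at e2
    unfold rR
    rw [e1]
    congr 1
    by_cases hd : (2 : ℤ) ∣ n h
    · rw [decide_eq_true hd]; exact e2.mpr hd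
    · rw [decide_eq_false hd]
      cases s
      · rfl
      · exact absurd (e2.mp rfl) hd
  | _ => rw [hr] at h3; simp [Row.rl] at h3

lemma exists_tw {T : ℤ} (hT : 1 ≤ T) : ∃ M : ℕ, tw M ≤ T ∧ T < tw (M + 1) := by
  have hex : ∃ M : ℕ, T < tw M := by
    obtain ⟨n, hn⟩ := pow_unbounded_of_one_lt T (show (1 : ℤ) < 2 by norm_num)
    exact ⟨n, hn⟩
  have h1 := Nat.find_spec hex
  have h2 : Nat.find hex ≠ 0 := by
    intro h0
    rw [h0] at h1
    have : tw 0 = 1 := rfl
    omega
  obtain ⟨M, hM⟩ := Nat.exists_eq_succ_of_ne_zero h2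
  refine ⟨M, ?_, ?_⟩
  · by_contra hc
    exact Nat.find_min hex (show M < Nat.find hex by omega) (by omega)
  · rw [hM] at h1; exact h1

lemma exM {m D : ℤ} (hm : 0 ≤ m) (hD : 21 * m + 12 ≤ D) : ∃ M : ℕ, 1 ≤ M ∧ 4 * m < tw M ∧
    3 * (tw M - m) ≤ D ∧ D ≤ 7 * (tw M - m) := by
  obtain ⟨M, h1, h2⟩ := exists_tw (T := (D + 3 * m) / 3) (by omega)
  rw [tw_succ] at h2
  have hM : 1 ≤ M := by
    by_contra hc
    have : M = 0 := by omega
    subst this
    have : tw 0 = 1 := rfl
    omega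
  exact ⟨M, hM, by omega, by omega, by omega⟩

end Run7.h687.Full
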