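import Pool.Agent.Run7.h687.Full.Pat
import Pool.Agent.Run7.h687.Full.Cases

set_option autoImplicit false

namespace Run7.h687.Full
open Run7.h687.Lamp

instance : Nonempty Cfg := ⟨⟨fun _ _ => Classical.arbitrary Dat, fun _ _ => Classical.arbitrary Dat⟩⟩

lemma CP.congr {l u : ℤ} {f : K} {z z' : Cfg} (H : CP l u f z)
    (hu : ∀ h g, l ≤ h → h < u → Off l u g f → z'.up h g = z.up h g)
    (hd : ∀ h g, l < h → h ≤ u → Off l u g f → z'.dn h g = z.dn h g) : CP l u f z' := by
  refine ⟨H.lt, ?_, ?_, ?_, ?_, ?_, ?_⟩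
  · intro h g a b o
    have o' : Off l u (fl h g) f := Off.fl a b o
    unfold Cfg.T
    rw [hu h g a b o, hu h _ a b o', hd (h + 1) g (by omega) (by omega) o,
      hd (h + 1) _ (by omega) (by omega) o']
    exact H.t h g a b o
  · intro h g a b o
    rw [hu h g a.le b o, hd h g a b.le o]
    exact H.e h g a b o
  · intro h g a b o
    have o' : Off l u (fl (h + 1) g) f := Off.fl (by omega) b o
    rw [hu h g a (by omega) o, hu h _ a (by omega) o']
    exact H.pm h g a b o
  · intro h g a b o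
    have o' : Off l u (fl (h - 2) g) f := Off.fl a (by omega) o
    rw [hd h g (by omega) b o, hd h _ (by omega) b o']
    exact H.pp h g a b o
  · intro g o
    rw [hu l g le_rfl H.lt o]
    exact H.bt g o
  · intro g o
    rw [hd u g H.lt le_rfl o]
    exact H.tp g o

lemma CP.inv {l u : ℤ} {f f' : K} {z : Cfg} (H : CP l u f z) (o : Off l u f f') : CP l u f' z :=
  ⟨H.lt, fun h g a b c => H.t h g a b (c.trans o.symm), fun h g a b c => H.e h g a b (c.trans o.symm),
    fun h g a b c => H.pm h g a b (c.trans o.symm), fun h g a b c => H.pp h g a b (c.trans o.symm),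
    fun g c => H.bt g (c.trans o.symm), fun g c => H.tp g (c.trans o.symm)⟩

open Classical in
/-- canonical representative of a class -/
noncomputable def rep (l u : ℤ) (f : K) : K := f.filter (fun i => i < l ∨ u ≤ i)

open Classical in
lemma rep_off (l u : ℤ) (f : K) : Off l u (rep l u f) f := by
  intro i hi
  exact Finsupp.filter_apply_pos _ _ hi

open Classical in
lemma rep_eq {l u : ℤ} {f g : K} (o : Off l u f g) : rep l u f = rep l u g := by
  ext i
  by_cases hi : i < l ∨ u ≤ i
  · unfold rep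
    rw [Finsupp.filter_apply_pos (fun i => i < l ∨ u ≤ i) f hi,
      Finsupp.filter_apply_pos (fun i => i < l ∨ u ≤ i) g hi]
    exact o i hi
  · unfold rep
    rw [Finsupp.filter_apply_neg (fun i => i < l ∨ u ≤ i) f hi,
      Finsupp.filter_apply_neg (fun i => i < l ∨ u ≤ i) g hi]

open Classical in
theorem merge {lo hi : ℤ} {r : ℤ → Row} {Hol : ℤ → ℤ → K → Prop} (hH : Hols lo hi r Hol) (x : Cfg)
    (W : ℤ → K → Prop)
    (hex : ∀ l u g, Hol l u g → ∃ Z, CP l u g Z ∧
      (∀ h g', l ≤ h → h < u → Off l u g' g → W h g' → Z.up h g' = x.up h g') ∧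
      (∀ h g', l < h → h ≤ u → Off l u g' g → W h g' → Z.dn h g' = x.dn h g')) :
    ∃ Z, (∀ l u g, Hol l u g → CP l u g Z) ∧ (∀ h g, InH Hol h g → W h g → Z.up h g = x.up h g) ∧
      (∀ h g, InH Hol (h - 1) g → W h g → Z.dn h g = x.dn h g) := by
  choose! F hF using hex
  let Z : Cfg :=
    { up := fun h f => if H : InH Hol h f then
        (F H.choose H.choose_spec.choose (rep H.choose H.choose_spec.choose f)).up h f
        else Classical.arbitrary Dat
      dn := fun h f => if H : InH Hol (h - 1) f then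
        (F H.choose H.choose_spec.choose (rep H.choose H.choose_spec.choose f)).dn h f
        else Classical.arbitrary Dat }
  have kU : ∀ l u g h f, Hol l u g → l ≤ h → h < u → Off l u f g →
      Z.up h f = (F l u (rep l u g)).up h f := by
    intro l u g h f hh a b o
    have hf : Hol l u f := hH.inv _ _ _ _ hh o.symm
    have H : InH Hol h f := ⟨l, u, a, b, hf⟩
    show (if H : InH Hol h f then _ else _) = _
    rw [dif_pos H]
    obtain ⟨c1, c2, c3⟩ := H.choose_spec.choose_spec
    obtain ⟨e1, e2⟩ := hH.uniq _ _ _ _ h f c3 hf c1 c2 a b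
    have gen : ∀ l' u', l' = l → u' = u →
        (F l' u' (rep l' u' f)).up h f = (F l u (rep l u g)).up h f := by
      rintro _ _ rfl rfl; rw [rep_eq o]
    exact gen _ _ e1 e2
  have kD : ∀ l u g h f, Hol l u g → l < h → h ≤ u → Off l u f g →
      Z.dn h f = (F l u (rep l u g)).dn h f := by
    intro l u g h f hh a b o
    have hf : Hol l u f := hH.inv _ _ _ _ hh o.symm
    have H : InH Hol (h - 1) f := ⟨l, u, by omega, by omega, hf⟩
    show (if H : InH Hol (h - 1) f then _ else _) = _
    rw [dif_pos H]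
    obtain ⟨c1, c2, c3⟩ := H.choose_spec.choose_spec
    obtain ⟨e1, e2⟩ := hH.uniq _ _ _ _ (h - 1) f c3 hf c1 c2 (by omega) (by omega)
    have gen : ∀ l' u', l' = l → u' = u →
        (F l' u' (rep l' u' f)).dn h f = (F l u (rep l u g)).dn h f := by
      rintro _ _ rfl rfl; rw [rep_eq o]
    exact gen _ _ e1 e2
  have hrep : ∀ l u g, Hol l u g → Hol l u (rep l u g) := fun l u g hh =>
    hH.inv _ _ _ _ hh (rep_off l u g).symm
  refine ⟨Z, ?_, ?_, ?_⟩
  · intro l u g hh
    have h1 := (hF l u _ (hrep l u g hh)).1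
    refine (h1.inv (rep_off l u g)).congr ?_ ?_
    · intro h f a b o
      exact kU l u g h f hh a b o
    · intro h f a b o
      exact kD l u g h f hh a b o
  · rintro h g ⟨l, u, a, b, hh⟩ hW
    rw [kU l u g h g hh a b (Off.refl _ _ _)]
    exact (hF l u _ (hrep l u g hh)).2.1 h g a b (rep_off l u g).symm hW
  · rintro h g ⟨l, u, a, b, hh⟩ hW
    rw [kD l u g h g hh (by omega) (by omega) (Off.refl _ _ _)]
    exact (hF l u _ (hrep l u g hh)).2.2 h g (by omega) (by omega) (rep_off l u g).symm hW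

/-- closed bricks of a configuration are closed patterns -/
lemma cp_of_cb {x : Cfg} (hx : Rules x) {lo hi : ℤ} {f : K} (H : (toR x hx).CB lo hi f) :
    CP lo hi f x := by
  refine ⟨H.1, fun h g _ _ _ => hx.t h g, fun h g _ _ _ => hx.e h g, fun h g _ _ _ => hx.pm h g,
    fun h g _ _ _ => hx.pp h g, ?_, ?_⟩
  · intro g o
    exact (elem_bot (hx.e lo g) (H.2 g o.symm).1).2
  · intro g o
    exact (elem_top (hx.e hi g) (H.2 g o.symm).2.1).1

lemma fin_bound {α : Type*} {s : Set α} (hs : s.Finite) (Q : α → ℤ → Prop)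
    (mono : ∀ a B B', B ≤ B' → Q a B → Q a B') (h : ∀ a ∈ s, ∃ B, Q a B) :
    ∃ B, ∀ a ∈ s, Q a B := by
  induction s, hs using Set.Finite.induction_on with
  | empty => exact ⟨0, fun a ha => absurd ha (Set.notMem_empty a)⟩
  | insert _ _ ih =>
    rename_i a s _ _
    obtain ⟨B, hB⟩ := ih (fun a ha => h a (Set.mem_insert_of_mem _ ha))
    obtain ⟨B', hB'⟩ := h a (Set.mem_insert _ _)
    refine ⟨max B B', fun c hc => ?_⟩
    rcases Set.mem_insert_iff.mp hc with h1 | h1
    · subst h1; exact mono _ _ _ (le_max_right _ _) hB'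
    · exact mono _ _ _ (le_max_left _ _) (hB c h1)

lemma fin_win (a b c d : ℤ) (fW : K) : {p : ℤ × K | a ≤ p.1 ∧ p.1 ≤ b ∧ Off c d p.2 fW}.Finite := by
  obtain ⟨N, hN0, hN⟩ := exists_bound fW 0
  apply Set.Finite.subset (finite_box (N + |a| + |b| + |c| + |d|))
  rintro ⟨h, g⟩ ⟨h1, h2, h3⟩
  have a1 := neg_abs_le a
  have a2 := le_abs_self b
  have a3 := abs_nonneg a
  have a4 := abs_nonneg b
  have a5 := abs_nonneg c
  have a6 := abs_nonneg d
  have a7 := neg_abs_le c
  have a8 := le_abs_self d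
  have a9 := le_abs_self a
  have a10 := neg_abs_le b
  simp only at h1 h2 h3
  refine ⟨by simp only; omega, by simp only; omega, fun i hi => ?_⟩
  simp only at hi
  by_cases hi' : i < c ∨ d ≤ i
  · rw [h3 i hi'] at hi
    have : ¬ (i < -N ∨ N ≤ i) := fun h4 => hi (hN i h4)
    omega
  · omega

end Run7.h687.Full
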