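import Pool.Agent.Run7.h687.Full.Core2
import Pool.Agent.Run7.h687.Full.Pat2
import Pool.Agent.Run7.h687.Full.Frame

set_option autoImplicit false

namespace Run7.h687.Full
open Run7.h687.Lamp

/-- holes touching the window -/
def Tch (h0 h1 : ℤ) (fW : K) (l u : ℤ) (g : K) : Prop :=
  ∃ h g', h0 - 1 ≤ h ∧ h ≤ h1 ∧ Off h0 h1 g' fW ∧ l ≤ h ∧ h < u ∧ Off l u g' g

section
variable {x : Cfg} (hx : Rules x)

/-- the holes of the transplanted host -/
def GH (L U : Option (ℤ × K)) (h0 h1 : ℤ) (fW : K) (us ls : ℤ) (UpH DnH : ℤ → K → Prop)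
    (l u : ℤ) (g : K) : Prop :=
  Tch h0 h1 fW l u g ∧ ((toR x hx).FinHole L U l u g ∨ (u = us ∧ UpH l g) ∨ (l = ls ∧ DnH u g))

/-- inputs -/
structure GOK (L U : Option (ℤ × K)) (lo hi : ℤ) (r : ℤ → Row) (n' n : ℤ → ℤ) (N : ℤ) (M : ℕ)
    (J Hh h0 h1 : ℤ) (fW : K) (us ls : ℤ) (UpH DnH : ℤ → K → Prop) : Prop where
  frm : Frm lo hi r n' M
  l0 : lo ≤ h0
  l01 : h0 < h1
  l1 : h1 ≤ hi
  cL : h0 = lo ∨ (lo < h0 - 1 ∧ (r (h0 - 1)).rl = false ∧ (r h0).rl = false)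
  cU : h1 = hi ∨ (h1 + 1 < hi ∧ (r h1).rl = false ∧ (r (h1 + 1)).rl = false)
  rows : ∀ h, J ≤ h → h ≤ Hh → r h = rr ((toR x hx).rgn L U) h ∧ n' h = n h + N
  hJ : ∀ h, h0 - 1 ≤ h → lo ≤ h → J ≤ h
  hH : ∀ h, h ≤ h1 + 1 → h ≤ hi → h ≤ Hh
  lJ : lo ≤ J
  lH : Hh ≤ hi
  fin : ∀ l u g, Tch h0 h1 fW l u g → (toR x hx).FinHole L U l u g → J ≤ l - 1 ∧ u + 1 ≤ Hh ∧
    ∃ s, n (u + 1) = n (l - 1) + tw s ∧ tw s ∣ n (l - 1) + N
  up1 : ∀ l g, UpH l g → J ≤ l - 1 ∧ ((toR x hx).rgn L U).In (l - 1) g ∧ (x.up l g).row = .bot ∧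
    (∀ k g', l ≤ k → (∀ i < l, g' i = g i) → ¬ ((toR x hx).rgn L U).In k g') ∧
    (∀ g', (∀ i < l, g' i = g i) → UpH l g') ∧
    ∃ s, n (us + 1) = n (l - 1) + tw s ∧ tw s ∣ n (l - 1) + N
  us1 : ∀ l g, UpH l g → h1 < us ∧ us + 1 ≤ Hh ∧ (rr ((toR x hx).rgn L U) (us + 1)).rl = true
  dn1 : ∀ u g, DnH u g → u + 1 ≤ Hh ∧ ((toR x hx).rgn L U).In u g ∧ (x.dn u g).row = .top ∧
    (∀ k g', k < u → (∀ i ≥ u, g' i = g i) → ¬ ((toR x hx).rgn L U).In k g') ∧
    (∀ g', (∀ i ≥ u, g' i = g i) → DnH u g') ∧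
    ∃ s, n (u + 1) = n (ls - 1) + tw s ∧ tw s ∣ n (ls - 1) + N
  ls1 : ∀ u g, DnH u g → ls < h0 - 1 ∧ J ≤ ls - 1 ∧ (rr ((toR x hx).rgn L U) (ls - 1)).rl = true
  status : ∀ h g, h0 - 1 ≤ h → h ≤ h1 → lo ≤ h → h < hi → Off h0 h1 g fW →
    ((toR x hx).rgn L U).In h g ∨ (∃ l u, l ≤ h ∧ h < u ∧ (toR x hx).FinHole L U l u g) ∨
    (∃ l, l ≤ h ∧ UpH l g) ∨ ∃ u, h < u ∧ DnH u g

variable {hx}
variable {L U : Option (ℤ × K)} {lo hi : ℤ} {r : ℤ → Row} {n' n : ℤ → ℤ} {N : ℤ} {M : ℕ}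
    {J Hh h0 h1 : ℤ} {fW : K} {us ls : ℤ} {UpH DnH : ℤ → K → Prop}

theorem gok_wok (O : GOK hx L U lo hi r n' n N M J Hh h0 h1 fW us ls UpH DnH) :
    WOK ((toR x hx).rgn L U) lo hi r n' M h0 h1 fW (GH hx L U h0 h1 fW us ls UpH DnH) := by
  set C := toR x hx with hC
  set R := C.rgn L U with hR
  have l0 := O.l0
  have l01 := O.l01
  have l1 := O.l1
  have lJ := O.lJ
  have lH := O.lH
  have hsg := O.frm.seg
  -- basic facts on holes
  have inside : ∀ l u g, GH hx L U h0 h1 fW us ls UpH DnH l u g → ∀ k, l ≤ k → k < u → ¬ R.In k g := by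
    rintro l u g ⟨-, h | ⟨h2, h⟩ | ⟨h2, h⟩⟩ k a b
    · exact C.not_in_cb h (Off.refl _ _ _) a b
    · exact (O.up1 l g h).2.2.2.1 k g a (fun _ _ => rfl)
    · exact (O.dn1 u g h).2.2.2.1 k g b (fun _ _ => rfl)
  have lowB : ∀ l u g, GH hx L U h0 h1 fW us ls UpH DnH l u g →
      (R.In (l - 1) g ∧ (x.up l g).row = .bot ∧ J ≤ l - 1) ∨ (l = ls ∧ DnH u g) := by
    rintro l u g ⟨ht, h | ⟨h2, h⟩ | ⟨h2, h⟩⟩
    · left; exact ⟨h.2.1, (h.1.2 g (Off.refl _ _ _)).1, (O.fin l u g ht h).1⟩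
    · left; exact ⟨(O.up1 l g h).2.1, (O.up1 l g h).2.2.1, (O.up1 l g h).1⟩
    · right; exact ⟨h2, h⟩
  have uppB : ∀ l u g, GH hx L U h0 h1 fW us ls UpH DnH l u g →
      (R.In u g ∧ (x.dn u g).row = .top ∧ u + 1 ≤ Hh) ∨ (u = us ∧ UpH l g) := by
    rintro l u g ⟨ht, h | ⟨h2, h⟩ | ⟨h2, h⟩⟩
    · left; exact ⟨h.2.2, (h.1.2 g (Off.refl _ _ _)).2.1, (O.fin l u g ht h).2.1⟩
    · right; exact ⟨h2, h⟩
    · left; exact ⟨(O.dn1 u g h).2.1, (O.dn1 u g h).2.2.1, (O.dn1 u g h).1⟩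
  have lt : ∀ l u g, GH hx L U h0 h1 fW us ls UpH DnH l u g → lo < l ∧ l < u ∧ u < hi := by
    rintro l u g H
    obtain ⟨h, g', t1, t2, t3, t4, t5, t6⟩ := H.1
    have b1 : lo < l := by
      rcases lowB l u g H with ⟨-, -, c⟩ | ⟨c, d⟩
      · omega
      · have := O.ls1 u g d; omega
    have b2 : u < hi := by
      rcases uppB l u g H with ⟨-, -, c⟩ | ⟨c, d⟩
      · omega
      · have := O.us1 l g d; omega
    exact ⟨b1, by omega, b2⟩
  have hols : Hols lo hi r (GH hx L U h0 h1 fW us ls UpH DnH) := by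
    refine ⟨?_, ?_, lt, ?_, ?_⟩
    · rintro l u f g ⟨⟨h, g', t1, t2, t3, t4, t5, t6⟩, h2⟩ o
      refine ⟨⟨h, g', t1, t2, t3, t4, t5, t6.trans o⟩, ?_⟩
      rcases h2 with h2 | ⟨h3, h2⟩ | ⟨h3, h2⟩
      · left; exact C.finHole_inv h2 o
      · right; left
        exact ⟨h3, (O.up1 l f h2).2.2.2.2.1 g (fun i hi' => (o i (Or.inl hi')).symm)⟩
      · right; right
        exact ⟨h3, (O.dn1 u f h2).2.2.2.2.1 g (fun i hi' => (o i (Or.inr hi')).symm)⟩
    · have keyl : ∀ l u l' u' h g, GH hx L U h0 h1 fW us ls UpH DnH l u g →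
          GH hx L U h0 h1 fW us ls UpH DnH l' u' g → l ≤ h → h < u → l' ≤ h → h < u' → ¬ l < l' := by
        intro l u l' u' h g H H' a1 a2 b1 b2 hlt
        rcases lowB l' u' g H' with ⟨c, -⟩ | ⟨c, d⟩
        · exact inside l u g H (l' - 1) (by omega) (by omega) c
        · rcases lowB l u g H with ⟨e, -⟩ | ⟨e, -⟩
          · exact (O.dn1 u' g d).2.2.2.1 (l - 1) g (by omega) (fun _ _ => rfl) e
          · omega
      have keyu : ∀ l u l' u' h g, GH hx L U h0 h1 fW us ls UpH DnH l u g →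
          GH hx L U h0 h1 fW us ls UpH DnH l' u' g → l ≤ h → h < u → l' ≤ h → h < u' → ¬ u < u' := by
        intro l u l' u' h g H H' a1 a2 b1 b2 hlt
        rcases uppB l u g H with ⟨c, -⟩ | ⟨c, d⟩
        · exact inside l' u' g H' u (by omega) (by omega) c
        · rcases uppB l' u' g H' with ⟨e, -⟩ | ⟨e, -⟩
          · exact (O.up1 l g d).2.2.2.1 u' g (by omega) (fun _ _ => rfl) e
          · omega
      intro l u l' u' h g H H' a1 a2 b1 b2
      have e1 := keyl l u l' u' h g H H' a1 a2 b1 b2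
      have e2 := keyl l' u' l u h g H' H b1 b2 a1 a2
      have e3 := keyu l u l' u' h g H H' a1 a2 b1 b2
      have e4 := keyu l' u' l u h g H' H b1 b2 a1 a2
      omega
    · intro l u g H
      have hlt := lt l u g H
      rcases lowB l u g H with ⟨c1, c2, c3⟩ | ⟨c, d⟩
      · have hP := (elem_bot (hx.e l g) c2).1.row
        have hle : l ≤ Hh := by
          rcases uppB l u g H with ⟨-, -, c⟩ | ⟨c, d⟩
          · omega
          · have := O.us1 l g d; omega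
        rw [rr_dn c1, ← (O.rows l (by omega) hle).1] at hP
        exact hP
      · obtain ⟨d1, d2, d3⟩ := O.ls1 u g d
        have hle : ls - 1 ≤ Hh := by
          have := O.hH (h0) (by omega) (by omega)
          omega
        rw [← (O.rows (ls - 1) d2 hle).1] at d3
        have h5 := hsg.nx (ls - 1) (by omega) (by omega)
        rw [sub_add_cancel] at h5
        rw [c]
        exact RS.nxR _ _ h5 d3
    · intro l u g H
      have hlt := lt l u g H
      rcases uppB l u g H with ⟨c1, c2, c3⟩ | ⟨c, d⟩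
      · have hM := (elem_top (hx.e u g) c2).2.row
        have hle : J ≤ u := by
          rcases lowB l u g H with ⟨-, -, c⟩ | ⟨c, d⟩
          · omega
          · have := O.ls1 u g d; omega
        rw [rr_up c1, ← (O.rows u hle (by omega)).1] at hM
        exact hM
      · obtain ⟨d1, d2, d3⟩ := O.us1 l g d
        have hle : J ≤ us + 1 := by
          have := O.hJ h1 (by omega) (by omega)
          omega
        rw [← (O.rows (us + 1) hle d2).1] at d3
        rw [c]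
        exact RS.nxM' _ _ (hsg.nx us (by omega) (by omega)) d3
  refine ⟨O.frm, l0, l01, l1, ?_, O.cL, O.cU, hols, ?_, ?_, ?_, ?_⟩
  · intro h a b c d _
    exact (O.rows h (O.hJ h a c) (O.hH h b d)).1
  · rintro l u g H
    have hlt := lt l u g H
    have bJ : J ≤ l - 1 := by
      rcases lowB l u g H with ⟨-, -, c⟩ | ⟨c, d⟩
      · exact c
      · have := O.ls1 u g d; omega
    have bH : u + 1 ≤ Hh := by
      rcases uppB l u g H with ⟨-, -, c⟩ | ⟨c, d⟩
      · exact c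
      · have := O.us1 l g d; omega
    have key : ∃ s, n (u + 1) = n (l - 1) + tw s ∧ tw s ∣ n (l - 1) + N := by
      obtain ⟨ht, h | ⟨h2, h⟩ | ⟨h2, h⟩⟩ := H
      · exact (O.fin l u g ht h).2.2
      · rw [h2]; exact (O.up1 l g h).2.2.2.2.2
      · rw [h2]; exact (O.dn1 u g h).2.2.2.2.2
    obtain ⟨s, s1, s2⟩ := key
    refine ⟨s, ?_, ?_⟩
    · rw [(O.rows (u + 1) (by omega) bH).2, (O.rows (l - 1) bJ (by omega)).2, s1]; ring
    · rw [(O.rows (l - 1) bJ (by omega)).2]; exact s2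
  · intro l u g H
    have hlt := lt l u g H
    obtain ⟨h, g', t1, t2, t3, t4, t5, t6⟩ := H.1
    by_cases hl : l < h0
    · left
      exact ⟨hl, fun i hi' => by rw [← t6 i (Or.inl hi'), t3 i (Or.inl (by omega))]⟩
    · right
      rcases lowB l u g H with ⟨c1, c2, c3⟩ | ⟨c, d⟩
      · refine ⟨?_, by omega, c1, c2⟩
        by_contra hc
        have hl0 : l = h0 := by omega
        have hP := (elem_bot (hx.e l g) c2).1.row
        have hn := C.nx (l - 1) g
        rw [sub_add_cancel] at hn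
        have h5 : (x.up (l - 1) g).row.rl = true := RS.nxR' _ _ hn hP
        have hle : l - 1 ≤ Hh := by
          have := O.hH h0 (by omega) (by omega)
          omega
        rw [rr_up c1, ← (O.rows (l - 1) c3 hle).1] at h5
        rcases O.cL with e | e
        · omega
        · rw [hl0, e.2.1] at h5; exact absurd h5 (by decide)
      · have := O.ls1 u g d; omega
  · intro l u g H
    have hlt := lt l u g H
    obtain ⟨h, g', t1, t2, t3, t4, t5, t6⟩ := H.1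
    by_cases hl : h1 < u
    · left
      exact ⟨hl, fun i hi' => by rw [← t6 i (Or.inr hi'), t3 i (Or.inr (by omega))]⟩
    · right
      rcases uppB l u g H with ⟨c1, c2, c3⟩ | ⟨c, d⟩
      · refine ⟨by omega, ?_, c1, c2⟩
        by_contra hc
        have hl0 : u = h1 := by omega
        have hM := (elem_top (hx.e u g) c2).2.row
        have h5 : (x.dn (u + 1) g).row.rl = true := RS.nxM _ _ (C.nx u g) hM
        have hle : J ≤ u + 1 := by
          have := O.hJ h1 (by omega) (by omega)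
          omega
        rw [rr_dn (by rw [add_sub_cancel_right]; exact c1), ← (O.rows (u + 1) hle c3).1] at h5
        rcases O.cU with e | e
        · omega
        · rw [hl0, e.2.2] at h5; exact absurd h5 (by decide)
      · have := O.us1 l g d; omega
  · intro h g a b c d o hn
    rcases O.status h g a b c d o with h5 | ⟨l, u, h6, h7, h8⟩ | ⟨l, h6, h7⟩ | ⟨u, h6, h7⟩
    · exact h5
    · exact absurd ⟨l, u, h6, h7, ⟨⟨h, g, a, b, o, h6, h7, Off.refl _ _ _⟩, Or.inl h8⟩⟩ hn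
    · have hus := (O.us1 l g h7).1
      exact absurd ⟨l, us, h6, by omega,
        ⟨⟨h, g, a, b, o, h6, by omega, Off.refl _ _ _⟩, Or.inr (Or.inl ⟨rfl, h7⟩)⟩⟩ hn
    · have hls := (O.ls1 u g h7).1
      exact absurd ⟨ls, u, by omega, h6,
        ⟨⟨h, g, a, b, o, by omega, h6, Off.refl _ _ _⟩, Or.inr (Or.inr ⟨rfl, h7⟩)⟩⟩ hn

end

section
variable {x : Cfg} {hx : Rules x} {L U : Option (ℤ × K)} {n : ℤ → ℤ}

/-- the copied segment -/
lemma segX (H : IxF ((toR x hx).rgn L U) n) {J Hh N : ℤ} (hJH : J < Hh)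
    (hlv : ∀ h, J ≤ h → h < Hh → Lv ((toR x hx).rgn L U) h) (hN : (2 : ℤ) ∣ N)
    (hty : ∀ h s t, J ≤ h → h ≤ Hh → rr ((toR x hx).rgn L U) h = .R s t →
      tyOf ((toR x hx).rgn L U) n (n h) = ty0 (n h + N)) :
    Seg J Hh (rr ((toR x hx).rgn L U)) (fun h => n h + N) := by
  have hdm : ∀ h, J ≤ h → h ≤ Hh → Dm ((toR x hx).rgn L U) h := by
    intro h a b
    rcases eq_or_lt_of_le b with c | c
    · right; exact hlv _ (by omega) (by omega)
    · left; exact hlv h a c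
  refine ⟨hJH.le, fun h a b => rr_nx (hlv h a b), ?_, ?_, ?_⟩
  · intro h a b
    rcases H.st h with c | c
    · left; exact ⟨by rw [c.1]; ring, c.2⟩
    · right; exact ⟨by rw [c.1], c.2⟩
  · intro h a b
    rw [H.par h (hdm h a b)]
    omega
  · intro h s t a b e
    rw [← hty h s t a b e, H.ty (hdm h a b) e]

end

end Run7.h687.Full
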