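import Pool.Agent.Run7.h687.Full.Pat

set_option autoImplicit false

namespace Run7.h687.Full
open Run7.h687.Lamp

/-- segments of frames -/
structure Seg (p q : ℤ) (r : ℤ → Row) (n : ℤ → ℤ) : Prop where
  le : p ≤ q
  nx : ∀ h, p ≤ h → h < q → Nx (r h) (r (h + 1))
  st : ∀ h, p ≤ h → h < q → (n (h + 1) = n h + 1 ∧ (r (h + 1)).idx) ∨
    (n (h + 1) = n h ∧ ¬ (r (h + 1)).idx)
  par : ∀ h, p ≤ h → h ≤ q → ((r h).par = true ↔ (2 : ℤ) ∣ n h)
  ty : ∀ h s t, p ≤ h → h ≤ q → r h = .R s t → t = ty0 (n h)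

/-- frames -/
structure Frm (lo hi : ℤ) (r : ℤ → Row) (n : ℤ → ℤ) (M : ℕ) : Prop where
  seg : Seg lo hi r n
  bot : r lo = .bot
  top : r hi = .top
  n0 : n lo = 0
  n1 : n hi = tw M
  M1 : 1 ≤ M

lemma zup {Q : ℤ → Prop} {lo : ℤ} (h0 : Q lo) (hs : ∀ h, lo ≤ h → Q h → Q (h + 1)) :
    ∀ h, lo ≤ h → Q h := by
  intro h hh
  obtain ⟨k, rfl⟩ : ∃ k : ℕ, h = lo + k := ⟨(h - lo).toNat, by omega⟩
  clear hh
  induction k with
  | zero => simpa using h0
  | succ k ih =>
    push_cast
    rw [← add_assoc]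
    exact hs _ (by omega) ih

lemma zdn {Q : ℤ → Prop} {hi : ℤ} (h0 : Q hi) (hs : ∀ h, h < hi → Q (h + 1) → Q h) :
    ∀ h, h ≤ hi → Q h := by
  intro h hh
  obtain ⟨k, rfl⟩ : ∃ k : ℕ, h = hi - k := ⟨(hi - h).toNat, by omega⟩
  clear hh
  induction k with
  | zero => simpa using h0
  | succ k ih =>
    apply hs _ (by push_cast; omega)
    have e : hi - ((k + 1 : ℕ) : ℤ) + 1 = hi - k := by push_cast; ring
    rw [e]; exact ih

section seg
variable {p q : ℤ} {r : ℤ → Row} {n : ℤ → ℤ} (H : Seg p q r n)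
include H

lemma Seg.mono {h h' : ℤ} (h1 : p ≤ h) (h2 : h ≤ h') (h3 : h' ≤ q) : n h ≤ n h' := by
  revert h3
  refine zup (Q := fun h' => h' ≤ q → n h ≤ n h') (lo := h) (fun _ => le_rfl) ?_ h' h2
  intro k hk ih hq
  have := ih (by omega)
  rcases H.st k (by omega) (by omega) with h4 | h4 <;> omega

lemma Seg.lt {h h' : ℤ} (h1 : p ≤ h) (h2 : h < h') (h3 : h' ≤ q) (h4 : (r h').idx) :
    n h < n h' := by
  have e1 := H.mono h1 (show h ≤ h' - 1 by omega) (by omega)
  have e2 := H.st (h' - 1) (by omega) (by omega)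
  rw [sub_add_cancel] at e2
  rcases e2 with e2 | e2
  · omega
  · exact absurd h4 e2.2

lemma Seg.ne_bot {h : ℤ} (h1 : p < h) (h2 : h ≤ q) : r h ≠ .bot := by
  have := (H.nx (h - 1) (by omega) (by omega)).ne_bot
  rwa [sub_add_cancel] at this

lemma Seg.ne_top {h : ℤ} (h1 : p ≤ h) (h2 : h < q) : r h ≠ .top := by
  intro h3
  have := H.nx h h1 h2
  rw [h3] at this
  cases this

end seg

/-- conditions on labels -/
structure Lab (lo hi : ℤ) (r : ℤ → Row) (a b : ℤ → K → Bool) : Prop where
  a_dep : ∀ h f f', (∀ i ≥ h, f i = f' i) → a h f = a h f'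
  a_fl : ∀ h f, lo ≤ h → h < hi → a h (fl h f) = !a h f
  a_hi : ∀ f, a hi f = true
  a_M : ∀ h f, lo ≤ h → h < hi → (r h).isM = true → a h (fl (h + 1) f) = a h f
  b_dep : ∀ h f f', (∀ i < h, f i = f' i) → b h f = b h f'
  b_fl : ∀ h f, lo < h → h ≤ hi → b h (fl (h - 1) f) = !b h f
  b_lo : ∀ f, b lo f = true
  b_P : ∀ h f, lo < h → h ≤ hi → (r h).isP = true → b h (fl (h - 2) f) = b h f

/-- host parameters -/
structure HPar where
  lo : ℤ
  hi : ℤ
  r : ℤ → Row
  n : ℤ → ℤ
  a : ℤ → K → Bool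
  b : ℤ → K → Bool
  A0 : Gp
  B0 : Gp
  Hol : ℤ → ℤ → K → Prop

/-- conditions on host parameters -/
structure HCond (P : HPar) (M : ℕ) : Prop where
  frm : Frm P.lo P.hi P.r P.n M
  lab : Lab P.lo P.hi P.r P.a P.b
  hols : Hols P.lo P.hi P.r P.Hol
  ix : ∀ l u g, P.Hol l u g → ∃ s, P.n (u + 1) = P.n (l - 1) + tw s ∧ tw s ∣ P.n (l - 1)
  b1 : ∀ l u g, P.Hol l u g → P.b l g = true
  b2 : ∀ l u g, P.Hol l u g → P.b (l - 1) g = true
  a1 : ∀ l u g, P.Hol l u g → P.a u g = true
  a2 : ∀ l u g, P.Hol l u g → P.a (u + 1) g = true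

namespace HPar
variable (P : HPar)

/-- start -/
def stN : ℕ → K → ℤ
  | 0, _ => P.lo
  | (k + 1), f => if P.b (P.lo + k + 1) f then P.lo + k + 1 else stN k f

/-- start -/
def st (h : ℤ) (f : K) : ℤ := P.stN (h - P.lo).toNat f

/-- end -/
def enN : ℕ → K → ℤ
  | 0, _ => P.hi
  | (k + 1), f => if P.a (P.hi - k - 1) f then P.hi - k - 1 else enN k f

/-- end -/
def en (h : ℤ) (f : K) : ℤ := P.enN (P.hi - h).toNat f

/-- potential -/
noncomputable def AN : ℕ → K → Gp
  | 0, _ => P.A0
  | (k + 1), f => AN k f + if P.a (P.hi - k - 1) f then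
      sgl (k1 (P.r (P.hi - k - 1)) (P.r (P.hi - k - 1 + 1))) else 0

/-- potential -/
noncomputable def A (h : ℤ) (f : K) : Gp := P.AN (P.hi - h).toNat f

/-- potential -/
noncomputable def BN : ℕ → K → Gp
  | 0, _ => P.B0
  | (k + 1), f => BN k f + if P.b (P.lo + k + 1) f then
      sgl (k2 (P.r (P.lo + k)) (P.r (P.lo + k + 1))) else 0

/-- potential -/
noncomputable def B (h : ℤ) (f : K) : Gp := P.BN (h - P.lo).toNat f

lemma st_lo (f : K) : P.st P.lo f = P.lo := by
  unfold st
  rw [sub_self]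
  rfl

lemma st_step {h : ℤ} (hh : P.lo ≤ h) (f : K) :
    P.st (h + 1) f = if P.b (h + 1) f then h + 1 else P.st h f := by
  unfold st
  rw [show (h + 1 - P.lo).toNat = (h - P.lo).toNat + 1 by omega]
  show (if P.b (P.lo + ((h - P.lo).toNat : ℤ) + 1) f then P.lo + ((h - P.lo).toNat : ℤ) + 1 else _) = _
  rw [show P.lo + ((h - P.lo).toNat : ℤ) + 1 = h + 1 by omega]

lemma en_hi (f : K) : P.en P.hi f = P.hi := by
  unfold en
  rw [sub_self]
  rfl

lemma en_step {h : ℤ} (hh : h < P.hi) (f : K) :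
    P.en h f = if P.a h f then h else P.en (h + 1) f := by
  unfold en
  rw [show (P.hi - h).toNat = (P.hi - (h + 1)).toNat + 1 by omega]
  show (if P.a (P.hi - ((P.hi - (h + 1)).toNat : ℤ) - 1) f then
    P.hi - ((P.hi - (h + 1)).toNat : ℤ) - 1 else _) = _
  rw [show P.hi - ((P.hi - (h + 1)).toNat : ℤ) - 1 = h by omega]

lemma A_hi (f : K) : P.A P.hi f = P.A0 := by
  unfold A
  rw [sub_self]
  rfl

lemma A_step {h : ℤ} (hh : h < P.hi) (f : K) :
    P.A h f = P.A (h + 1) f + if P.a h f then sgl (k1 (P.r h) (P.r (h + 1))) else 0 := by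
  unfold A
  rw [show (P.hi - h).toNat = (P.hi - (h + 1)).toNat + 1 by omega]
  show _ + (if P.a (P.hi - ((P.hi - (h + 1)).toNat : ℤ) - 1) f then
    sgl (k1 (P.r (P.hi - ((P.hi - (h + 1)).toNat : ℤ) - 1))
      (P.r (P.hi - ((P.hi - (h + 1)).toNat : ℤ) - 1 + 1))) else 0) = _
  rw [show P.hi - ((P.hi - (h + 1)).toNat : ℤ) - 1 = h by omega]

lemma B_lo (f : K) : P.B P.lo f = P.B0 := by
  unfold B
  rw [sub_self]
  rfl

lemma B_step {h : ℤ} (hh : P.lo ≤ h) (f : K) :
    P.B (h + 1) f = P.B h f + if P.b (h + 1) f then sgl (k2 (P.r h) (P.r (h + 1))) else 0 := by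
  unfold B
  rw [show (h + 1 - P.lo).toNat = (h - P.lo).toNat + 1 by omega]
  show _ + (if P.b (P.lo + ((h - P.lo).toNat : ℤ) + 1) f then
    sgl (k2 (P.r (P.lo + ((h - P.lo).toNat : ℤ))) (P.r (P.lo + ((h - P.lo).toNat : ℤ) + 1))) else 0) = _
  rw [show P.lo + ((h - P.lo).toNat : ℤ) = h by omega]

open Classical in
/-- contents -/
noncomputable def cont (p q : ℤ) : Kap :=
  if (P.r p).idx ∧ (P.r q).idx ∧ p < q then ka (P.n p) (P.n q) else .N

/-- wires starting next to hole bottoms -/
def HB (h : ℤ) (f : K) : Prop := ∃ u, h ≤ u ∧ P.Hol (P.st h f + 1) u (fl (P.st h f) f)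

open Classical in
/-- the canonical host -/
noncomputable def cfg : Cfg where
  up h f := ⟨P.r h, P.a h f, P.b h f, P.A h f, P.B h f, P.cont (P.st h f) (P.en h f),
    P.cont h (P.en h f), decide ((P.r (P.st h f)).idx ∧ P.n h = P.n (P.st h f)),
    decide (P.HB h f), decide (P.st h f = P.lo), decide (∃ l, P.Hol l h f)⟩
  dn h f := ⟨P.r h, P.a h f, P.b h f, P.A h f, P.B h f, P.cont (P.st h f) (P.en h f),
    P.cont h (P.en h f), decide ((P.r (P.st h f)).idx ∧ P.n (h - 1) = P.n (P.st h f)),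
    decide (P.HB h f), decide (P.st h f = P.lo), decide (∃ u, P.Hol h u f)⟩

variable {P}

section lab
variable {M : ℕ} (C : HCond P M)
include C

lemma st_spec {h : ℤ} (hh : P.lo ≤ h) : ∀ f, P.lo ≤ P.st h f ∧ P.st h f ≤ h ∧
    P.b (P.st h f) f = true ∧ ∀ i, P.st h f < i → i ≤ h → P.b i f = false := by
  refine zup (Q := fun h => ∀ f, P.lo ≤ P.st h f ∧ P.st h f ≤ h ∧
    P.b (P.st h f) f = true ∧ ∀ i, P.st h f < i → i ≤ h → P.b i f = false) ?_ ?_ h hh
  · intro f
    rw [P.st_lo]
    exact ⟨le_rfl, le_rfl, C.lab.b_lo f, fun i h1 h2 => by omega⟩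
  · intro k hk ih f
    obtain ⟨a1, a2, a3, a4⟩ := ih f
    rw [P.st_step hk]
    by_cases hb : P.b (k + 1) f = true
    · rw [if_pos hb]
      exact ⟨by omega, le_rfl, hb, fun i h1 h2 => by omega⟩
    · rw [if_neg hb]
      refine ⟨a1, by omega, a3, fun i h1 h2 => ?_⟩
      rcases eq_or_lt_of_le h2 with h3 | h3
      · subst h3; simpa using hb
      · exact a4 i h1 (by omega)

lemma st_dep {h : ℤ} (hh : P.lo ≤ h) : ∀ f f' : K, (∀ i < h, f i = f' i) → P.st h f = P.st h f' := by
  refine zup (Q := fun h => ∀ f f' : K, (∀ i < h, f i = f' i) → P.st h f = P.st h f') ?_ ?_ h hh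
  · intro f f' _
    rw [P.st_lo, P.st_lo]
  · intro k hk ih f f' hf
    rw [P.st_step hk, P.st_step hk, C.lab.b_dep (k + 1) f f' hf, ih f f' (fun i hi => hf i (by omega))]

lemma en_spec {h : ℤ} (hh : h ≤ P.hi) : ∀ f, h ≤ P.en h f ∧ P.en h f ≤ P.hi ∧
    P.a (P.en h f) f = true ∧ ∀ i, h ≤ i → i < P.en h f → P.a i f = false := by
  refine zdn (Q := fun h => ∀ f, h ≤ P.en h f ∧ P.en h f ≤ P.hi ∧
    P.a (P.en h f) f = true ∧ ∀ i, h ≤ i → i < P.en h f → P.a i f = false) ?_ ?_ h hh
  · intro f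
    rw [P.en_hi]
    exact ⟨le_rfl, le_rfl, C.lab.a_hi f, fun i h1 h2 => by omega⟩
  · intro k hk ih f
    obtain ⟨a1, a2, a3, a4⟩ := ih f
    rw [P.en_step hk]
    by_cases hb : P.a k f = true
    · rw [if_pos hb]
      exact ⟨le_rfl, by omega, hb, fun i h1 h2 => by omega⟩
    · rw [if_neg hb]
      refine ⟨by omega, a2, a3, fun i h1 h2 => ?_⟩
      rcases eq_or_lt_of_le h1 with h3 | h3
      · subst h3; simpa using hb
      · exact a4 i (by omega) h2

lemma en_dep {h : ℤ} (hh : h ≤ P.hi) : ∀ f f' : K, (∀ i ≥ h, f i = f' i) → P.en h f = P.en h f' := by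
  refine zdn (Q := fun h => ∀ f f' : K, (∀ i ≥ h, f i = f' i) → P.en h f = P.en h f') ?_ ?_ h hh
  · intro f f' _
    rw [P.en_hi, P.en_hi]
  · intro k hk ih f f' hf
    rw [P.en_step hk, P.en_step hk, C.lab.a_dep k f f' hf, ih f f' (fun i hi => hf i (by omega))]

lemma A_dep {h : ℤ} (hh : h ≤ P.hi) : ∀ f f' : K, (∀ i ≥ h, f i = f' i) → P.A h f = P.A h f' := by
  refine zdn (Q := fun h => ∀ f f' : K, (∀ i ≥ h, f i = f' i) → P.A h f = P.A h f') ?_ ?_ h hh
  · intro f f' _
    rw [P.A_hi, P.A_hi]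
  · intro k hk ih f f' hf
    rw [P.A_step hk, P.A_step hk, C.lab.a_dep k f f' hf, ih f f' (fun i hi => hf i (by omega))]

lemma B_dep {h : ℤ} (hh : P.lo ≤ h) : ∀ f f' : K, (∀ i < h, f i = f' i) → P.B h f = P.B h f' := by
  refine zup (Q := fun h => ∀ f f' : K, (∀ i < h, f i = f' i) → P.B h f = P.B h f') ?_ ?_ h hh
  · intro f f' _
    rw [P.B_lo, P.B_lo]
  · intro k hk ih f f' hf
    rw [P.B_step hk, P.B_step hk, C.lab.b_dep (k + 1) f f' hf, ih f f' (fun i hi => hf i (by omega))]

lemma hol_rl1 {l u : ℤ} {g : K} (H : P.Hol l u g) : (P.r (l - 1)).rl = true := by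
  have h1 := C.hols.lt l u g H
  have h2 := C.hols.rP l u g H
  have h3 := C.frm.seg.nx (l - 1) (by omega) (by omega)
  rw [sub_add_cancel] at h3
  exact RS.nxR' _ _ h3 h2

lemma hol_rl2 {l u : ℤ} {g : K} (H : P.Hol l u g) : (P.r (u + 1)).rl = true := by
  have h1 := C.hols.lt l u g H
  have h2 := C.hols.rM l u g H
  exact RS.nxM _ _ (C.frm.seg.nx u (by omega) (by omega)) h2

/-- the rigid part -/
lemma rg {h : ℤ} (h1 : P.lo ≤ h) (h2 : h < P.hi) (f : K) :
    Rg (P.cfg.up h f) (P.cfg.up h (fl h f)) (P.cfg.dn (h + 1) f) (P.cfg.dn (h + 1) (fl h f)) := by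
  have d1 : ∀ i ≥ h + 1, (fl h f) i = f i := fun i hi => fl_ne (by omega) f
  have d2 : ∀ i < h, (fl h f) i = f i := fun i hi => fl_ne (by omega) f
  have eb : P.b h (fl h f) = P.b h f := C.lab.b_dep h _ _ d2
  have ea : P.a (h + 1) (fl h f) = P.a (h + 1) f := C.lab.a_dep (h + 1) _ _ d1
  have eB : P.B h (fl h f) = P.B h f := B_dep C h1 _ _ d2
  have eA : P.A (h + 1) (fl h f) = P.A (h + 1) f := A_dep C (by omega) _ _ d1
  have b2 : P.b (h + 1) (fl h f) = !P.b (h + 1) f := by
    have := C.lab.b_fl (h + 1) f (by omega) (by omega)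
    rwa [add_sub_cancel_right] at this
  refine ⟨rfl, rfl, C.frm.seg.nx h h1 h2, C.lab.a_fl h f h1 h2, eb, eB, b2, ea, eA, P.A_step h2 f,
    ?_, P.B_step h1 f, ?_⟩
  · show P.A h (fl h f) = P.A (h + 1) f + _
    rw [P.A_step h2, eA]
    rfl
  · show P.B (h + 1) (fl h f) = P.B h f + _
    rw [P.B_step h1, eB]
    rfl

open Classical in
/-- the wire rule -/
lemma wr {h : ℤ} (h1 : P.lo ≤ h) (h2 : h < P.hi) {e0 t0 : K} (het : t0 = e0 ∨ t0 = fl h e0)
    (ha : P.a h e0 = false) (hb : P.b (h + 1) t0 = false) :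
    Wr (P.cfg.up h e0) (P.cfg.up h (fl h e0)) (P.cfg.dn (h + 1) t0) (P.cfg.dn (h + 1) (fl h t0)) := by
  have L := C.lab
  have hsg := C.frm.seg
  have dlt : ∀ i < h, t0 i = e0 i := by
    intro i hi
    rcases het with rfl | rfl
    · rfl
    · exact fl_ne (by omega) _
  have dge : ∀ i ≥ h + 1, t0 i = e0 i := by
    intro i hi
    rcases het with rfl | rfl
    · rfl
    · exact fl_ne (by omega) _
  have f1 : ∀ i < h, (fl h t0) i = e0 i := fun i hi => by rw [fl_ne (by omega), dlt i hi]
  have f2 : ∀ i ≥ h + 1, (fl h t0) i = t0 i := fun i hi => fl_ne (by omega) _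
  have f3 : ∀ i < h, (fl h e0) i = e0 i := fun i hi => fl_ne (by omega) _
  -- start and end
  have est : P.st (h + 1) t0 = P.st h e0 := by
    rw [P.st_step h1, if_neg (by rw [hb]; simp)]
    exact st_dep C h1 _ _ dlt
  have een : P.en h e0 = P.en (h + 1) t0 := by
    rw [P.en_step h2, if_neg (by rw [ha]; simp)]
    exact (en_dep C (by omega) _ _ dge).symm
  have est1 : P.st h (fl h e0) = P.st h e0 := st_dep C h1 _ _ f3
  have ha1 : P.a h (fl h e0) = true := by rw [L.a_fl h e0 h1 h2, ha]; rfl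
  have een1 : P.en h (fl h e0) = h := by rw [P.en_step h2, if_pos ha1]
  have hb1 : P.b (h + 1) (fl h t0) = true := by
    have := L.b_fl (h + 1) t0 (by omega) (by omega)
    rw [add_sub_cancel_right] at this
    rw [this, hb]; rfl
  have est2 : P.st (h + 1) (fl h t0) = h + 1 := by rw [P.st_step h1, if_pos hb1]
  have een2 : P.en (h + 1) (fl h t0) = P.en (h + 1) t0 := en_dep C (by omega) _ _ f2
  obtain ⟨s1, s2, s3, s4⟩ := st_spec C h1 e0
  obtain ⟨e1, e2, e3, e4⟩ := en_spec C (show h + 1 ≤ P.hi by omega) t0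
  have hnb : ∀ i, P.lo < i → i ≤ P.hi → P.r i ≠ .bot := fun i a1 a2 => hsg.ne_bot a1 a2
  have hidx : ∀ i, P.r i ≠ .bot → P.r i ≠ .top → (P.r i).rl = false → ¬ (P.r i).idx := by
    intro i a1 a2 a3 a4
    rcases a4 with a4 | a4 | a4
    · rw [a3] at a4; exact absurd a4 (by decide)
    · exact a2 a4
    · exact a1 a4
  -- the mark of hole bottoms
  have hbt : P.b h e0 = true → (P.HB (h + 1) t0 ↔ ∃ u, P.Hol (h + 1) u (fl h t0)) := by
    intro hbe
    have hs : P.st h e0 = h := by
      by_contra hc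
      have := s4 h (by omega) le_rfl
      rw [hbe] at this; exact absurd this (by decide)
    unfold HB
    rw [est, hs]
    constructor
    · rintro ⟨u, -, hu⟩; exact ⟨u, hu⟩
    · rintro ⟨u, hu⟩
      have := (C.hols.lt _ _ _ hu).2.1
      exact ⟨u, by omega, hu⟩
  have hbe0 : P.HB h e0 → P.b h e0 = true → (P.r h).rl = true := by
    rintro ⟨u, -, hu⟩ hbe
    have hs : P.st h e0 = h := by
      by_contra hc
      have := s4 h (by omega) le_rfl
      rw [hbe] at this; exact absurd this (by decide)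
    rw [hs] at hu
    have := hol_rl1 C hu
    rwa [add_sub_cancel_right] at this
  refine ⟨?_, ?_, ?_, ?_, ?_, ?_, ?_, ?_, ?_, ?_, ?_⟩
  · show P.cont (P.st (h + 1) t0) (P.en (h + 1) t0) = P.cont (P.st h e0) (P.en h e0)
    rw [est, een]
  · show decide _ = decide _
    rw [est]
  · show decide _ = decide _
    rw [est, add_sub_cancel_right]
  · show decide (P.HB (h + 1) t0) = if P.b h e0 = true ∧ ((P.r h).rl = true ∨ P.r h = .bot) then
      decide (∃ u, P.Hol (h + 1) u (fl h t0)) else decide (P.HB h e0)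
    by_cases hbe : P.b h e0 = true
    · by_cases hr : (P.r h).rl = true ∨ P.r h = .bot
      · rw [if_pos ⟨hbe, hr⟩]
        exact decide_eq_decide.mpr (hbt hbe)
      · rw [if_neg (fun hh => hr hh.2)]
        apply decide_eq_decide.mpr
        constructor
        · intro hh
          exfalso
          obtain ⟨u, hu⟩ := (hbt hbe).mp hh
          have := hol_rl1 C hu
          rw [add_sub_cancel_right] at this
          exact hr (Or.inl this)
        · intro hh
          exfalso
          exact hr (Or.inl (hbe0 hh hbe))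
    · rw [if_neg (fun hh => hbe hh.1)]
      apply decide_eq_decide.mpr
      have hsl : P.st h e0 < h := by
        rcases eq_or_lt_of_le s2 with h5 | h5
        · rw [h5] at s3; exact absurd s3 hbe
        · exact h5
      unfold HB
      rw [est]
      set p := P.st h e0 with hp
      have hoff : ∀ u, h < u → Off (p + 1) u (fl p t0) (fl p e0) := by
        intro u hu
        intro i hi
        by_cases hip : i = p
        · subst hip; rw [fl_same, fl_same, dlt _ (by omega)]
        · rw [fl_ne hip, fl_ne hip]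
          rcases hi with hi | hi
          · exact dlt i (by omega)
          · exact dge i (by omega)
      constructor
      · rintro ⟨u, hu1, hu2⟩
        exact ⟨u, by omega, C.hols.inv _ _ _ _ hu2 (hoff u (by omega))⟩
      · rintro ⟨u, hu1, hu2⟩
        rcases eq_or_lt_of_le hu1 with h5 | h5
        · exfalso
          subst h5
          have h6 := C.a1 _ _ _ hu2
          rw [L.a_dep h (fl p e0) e0 (fun i hi => fl_ne (by omega) _), ha] at h6
          exact absurd h6 (by decide)
        · exact ⟨u, by omega, C.hols.inv _ _ _ _ hu2 (hoff u h5).symm⟩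
  · intro hh
    have hh' : ∃ u, P.Hol (h + 1) u (fl h t0) := of_decide_eq_true hh
    obtain ⟨u, hu⟩ := hh'
    have a1 := C.b2 _ _ _ hu
    have a2 := hol_rl1 C hu
    rw [add_sub_cancel_right] at a1 a2
    rw [L.b_dep h _ e0 f1] at a1
    exact ⟨a1, a2⟩
  · intro hh
    have hh' : ∃ l, P.Hol l h (fl h e0) := of_decide_eq_true hh
    obtain ⟨l, hl⟩ := hh'
    have a1 := C.a2 _ _ _ hl
    rw [L.a_dep (h + 1) (fl h e0) t0 (fun i hi => by rw [fl_ne (by omega), dge i hi])] at a1
    exact a1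
  · intro _
    show P.cont (h + 1) (P.en (h + 1) t0) = P.cont (P.st (h + 1) (fl h t0)) (P.en (h + 1) (fl h t0))
    rw [est2, een2]
  · intro s t hst hbe
    have hst' : P.r h = .R s t := hst
    have hbe' : P.b h e0 = false := hbe
    show Imp t (P.cont (P.st h e0) (P.en h e0)) (P.cont (P.st h (fl h e0)) (P.en h (fl h e0)))
      (P.cont h (P.en h e0))
    rw [est1, een1, een]
    have hsl : P.st h e0 < h := by
      rcases eq_or_lt_of_le s2 with h5 | h5
      · rw [h5, hbe'] at s3; exact absurd s3 (by decide)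
      · exact h5
    have hi : (P.r h).idx := Or.inl (by rw [hst']; rfl)
    have htyp := hsg.ty h s t h1 h2.le hst'
    subst htyp
    unfold cont
    by_cases c1 : (P.r (P.st h e0)).idx
    · by_cases c2 : (P.r (P.en (h + 1) t0)).idx
      · rw [if_pos ⟨c1, c2, by omega⟩, if_pos ⟨c1, hi, hsl⟩, if_pos ⟨hi, c2, by omega⟩]
        exact imp_ka
      · rw [if_neg (fun hh => c2 hh.2.1), if_pos ⟨c1, hi, hsl⟩, if_neg (fun hh => c2 hh.2.1)]
        refine ⟨?_, ?_, ?_, ?_, ?_⟩ <;> simp [Kap.isL, Kap.isG]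
    · rw [if_neg (fun hh => c1 hh.1), if_neg (fun hh => c1 hh.1)]
      refine ⟨?_, ?_, ?_, ?_, ?_⟩ <;> simp [Kap.isL, Kap.isG]
  · intro s t hst hae
    have hst' : P.r (h + 1) = .R s t := hst
    have hae' : P.a (h + 1) t0 = true := hae
    have hlt : h + 1 < P.hi := by
      rcases eq_or_lt_of_le (show h + 1 ≤ P.hi by omega) with h5 | h5
      · rw [h5, C.frm.top] at hst'; exact absurd hst' (by simp)
      · exact h5
    have hen : P.en (h + 1) t0 = h + 1 := by rw [P.en_step hlt, if_pos hae']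
    have hi : (P.r (h + 1)).idx := Or.inl (by rw [hst']; rfl)
    have hc : (P.cfg.dn (h + 1) t0).c = P.cont (P.st h e0) (h + 1) := by
      show P.cont (P.st (h + 1) t0) (P.en (h + 1) t0) = _
      rw [est, hen]
    have hn1 : P.n (h + 1) = P.n h + 1 := by
      rcases hsg.st h h1 h2 with h5 | h5
      · exact h5.1
      · exact absurd hi h5.2
    rw [hc]
    refine ⟨?_, ?_, ?_, ?_⟩
    · intro hfr
      have hfr' : (P.r (P.st (h + 1) t0)).idx ∧ P.n (h + 1 - 1) = P.n (P.st (h + 1) t0) :=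
        of_decide_eq_true hfr
      rw [est, add_sub_cancel_right] at hfr'
      unfold cont
      rw [if_pos ⟨hfr'.1, hi, by omega⟩, ← hfr'.2, hn1]
      have hp := hsg.par (h + 1) (by omega) (by omega)
      rw [hst', hn1] at hp
      cases s
      · rw [if_neg (by simp), ka_G1]
        refine ⟨rfl, ?_⟩
        have : ¬ (2 : ℤ) ∣ P.n h + 1 := fun h5 => by simpa [Row.par] using hp.mpr h5
        omega
      · rw [if_pos rfl, ka_L1]
        refine ⟨rfl, ?_⟩
        have := hp.mp rfl
        omega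
    · intro hhb
      have hhb' : P.HB (h + 1) t0 := of_decide_eq_true hhb
      obtain ⟨u, hu1, hu2⟩ := hhb'
      rw [est] at hu2
      by_contra hL
      have hL' : (P.cont (P.st h e0) (h + 1)).isL = true := by simpa using hL
      unfold cont at hL'
      by_cases c1 : (P.r (P.st h e0)).idx ∧ (P.r (h + 1)).idx ∧ P.st h e0 < h + 1
      · rw [if_pos c1, ka_isL] at hL'
        obtain ⟨b', hb', hE⟩ := hL'
        obtain ⟨s', hs1, hs2⟩ := C.ix _ _ _ hu2
        rw [add_sub_cancel_right] at hs1 hs2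
        have hltu := C.hols.lt _ _ _ hu2
        have h6 : P.n (h + 1) ≤ P.n u := hsg.mono (by omega) hu1 (by omega)
        have h7 : P.n u < P.n (u + 1) := hsg.lt (by omega) (by omega) (by omega)
          (Or.inl (hol_rl2 C hu2))
        have h8 : b' < s' := tw_lt_iff.mp (by omega)
        exact hE.2 ((tw_dvd (show b' + 1 ≤ s' by omega)).trans hs2)
      · rw [if_neg c1] at hL'
        simp [Kap.isL] at hL'
    · intro hfb
      have hfb' : P.st (h + 1) t0 = P.lo := of_decide_eq_true hfb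
      rw [est] at hfb'
      rw [hfb']
      by_contra hL
      have hL' : (P.cont P.lo (h + 1)).isL = true := by simpa using hL
      unfold cont at hL'
      by_cases c1 : (P.r P.lo).idx ∧ (P.r (h + 1)).idx ∧ P.lo < h + 1
      · rw [if_pos c1, ka_isL] at hL'
        obtain ⟨b', hb', hE⟩ := hL'
        rw [C.frm.n0] at hE
        exact hE.2 (dvd_zero _)
      · rw [if_neg c1] at hL'
        simp [Kap.isL] at hL'
    · intro hhl
      have hhl' : ∃ l, P.Hol l h (fl h e0) := of_decide_eq_true hhl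
      obtain ⟨l, hl⟩ := hhl'
      have hltl := C.hols.lt _ _ _ hl
      have hbl := C.b1 _ _ _ hl
      rw [L.b_dep l (fl h e0) e0 (fun i hi' => fl_ne (by omega) _)] at hbl
      have hge : l ≤ P.st h e0 := by
        by_contra hc
        have := s4 l (by omega) (by omega)
        rw [hbl] at this; exact absurd this (by decide)
      refine ⟨?_, ?_⟩
      · show decide (P.st (h + 1) t0 = P.lo) = false
        rw [est]
        apply decide_eq_false
        omega
      · by_contra hL
        have hL' : (P.cont (P.st h e0) (h + 1)).isG = true := by simpa using hL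
        unfold cont at hL'
        by_cases c1 : (P.r (P.st h e0)).idx ∧ (P.r (h + 1)).idx ∧ P.st h e0 < h + 1
        · rw [if_pos c1, ka_isG] at hL'
          obtain ⟨b', hb', hE⟩ := hL'
          obtain ⟨s', hs1, hs2⟩ := C.ix _ _ _ hl
          have h6 : P.n (l - 1) < P.n (P.st h e0) := hsg.lt (by omega) (by omega) (by omega) c1.1
          have h8 : b' < s' := tw_lt_iff.mp (by omega)
          have h9 : tw (b' + 1) ∣ P.n (h + 1) := by
            rw [hs1]
            exact dvd_add ((tw_dvd (by omega)).trans hs2) (tw_dvd (by omega))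
          rw [hb'] at h9
          have h10 := dvd_sub h9 hE
          rw [add_sub_cancel_left, tw_dvd_iff] at h10
          omega
        · rw [if_neg c1] at hL'
          simp [Kap.isG] at hL'
  · intro htop
    have htop' : P.r (h + 1) = .top := htop
    have hhi : h + 1 = P.hi := by
      by_contra hc
      exact hsg.ne_top (show P.lo ≤ h + 1 by omega) (by omega) htop'
    have hen : P.en (h + 1) t0 = h + 1 := by rw [hhi]; exact P.en_hi _
    have hi : (P.r (h + 1)).idx := Or.inr (Or.inl htop')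
    have hc : (P.cfg.dn (h + 1) t0).c = P.cont (P.st h e0) (h + 1) := by
      show P.cont (P.st (h + 1) t0) (P.en (h + 1) t0) = _
      rw [est, hen]
    have hn1 : P.n (h + 1) = P.n h + 1 := by
      rcases hsg.st h h1 h2 with h5 | h5
      · exact h5.1
      · exact absurd hi h5.2
    have hn2 : P.n (h + 1) = tw M := by rw [hhi]; exact C.frm.n1
    rw [hc]
    refine ⟨?_, ?_, ?_, ?_⟩
    · show P.a (h + 1) t0 = true
      rw [hhi]; exact L.a_hi _
    · intro hfr
      have hfr' : (P.r (P.st (h + 1) t0)).idx ∧ P.n (h + 1 - 1) = P.n (P.st (h + 1) t0) :=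
        of_decide_eq_true hfr
      rw [est, add_sub_cancel_right] at hfr'
      unfold cont
      rw [if_pos ⟨hfr'.1, hi, by omega⟩, ← hfr'.2, hn1, ka_L1]
      refine ⟨rfl, ?_⟩
      have h5 : (2 : ℤ) ∣ tw M := by
        have := tw_dvd C.frm.M1
        rwa [tw_one] at this
      omega
    · show decide (P.HB (h + 1) t0) = false
      apply decide_eq_false
      rintro ⟨u, hu1, hu2⟩
      have := (C.hols.lt _ _ _ hu2).2.2
      omega
    · by_cases hlo : P.st h e0 = P.lo
      · left
        show decide (P.st (h + 1) t0 = P.lo) = true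
        rw [est]
        exact decide_eq_true hlo
      · right
        by_contra hL
        have hL' : (P.cont (P.st h e0) (h + 1)).isG = true := by simpa using hL
        unfold cont at hL'
        by_cases c1 : (P.r (P.st h e0)).idx ∧ (P.r (h + 1)).idx ∧ P.st h e0 < h + 1
        · rw [if_pos c1, ka_isG] at hL'
          obtain ⟨b', hb', hE⟩ := hL'
          have h6 : P.n P.lo < P.n (P.st h e0) := hsg.lt le_rfl (by omega) (by omega) c1.1
          rw [C.frm.n0] at h6
          have h8 : b' < M := tw_lt_iff.mp (by omega)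
          have h9 : tw (b' + 1) ∣ P.n (h + 1) := by rw [hn2]; exact tw_dvd (by omega)
          rw [hb'] at h9
          have h10 := dvd_sub h9 hE
          rw [add_sub_cancel_left, tw_dvd_iff] at h10
          omega
        · rw [if_neg c1] at hL'
          simp [Kap.isG] at hL'
  · intro hbot
    have hbot' : P.r h = .bot := hbot
    have : h = P.lo := by
      by_contra hc
      exact hnb h (by omega) (by omega) hbot'
    subst this
    exact L.b_lo e0

end lab
end HPar

/-- assembling the tetrahedral rule -/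
lemma tet_of {x : Cfg} {h : ℤ} {f : K}
    (hR : Rg (x.up h f) (x.up h (fl h f)) (x.dn (h + 1) f) (x.dn (h + 1) (fl h f)))
    (hW : ∀ e0 t0, (e0 = f ∨ e0 = fl h f) → (t0 = f ∨ t0 = fl h f) → (x.up h e0).a = false →
      (x.dn (h + 1) t0).b = false → Wr (x.up h e0) (x.up h (fl h e0)) (x.dn (h + 1) t0)
        (x.dn (h + 1) (fl h t0))) : x.T h f := by
  refine ⟨hR, ?_⟩
  have ha1 := hR.a1
  have hb2 := hR.b2
  by_cases ha : (x.up h f).a = true
  · rw [if_pos ha, if_pos ha]
    have ha' : (x.up h (fl h f)).a = false := by rw [ha1, ha]; rfl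
    by_cases hb : (x.dn (h + 1) f).b = true
    · rw [if_pos hb, if_pos hb]
      have hb' : (x.dn (h + 1) (fl h f)).b = false := by rw [hb2, hb]; rfl
      have := hW (fl h f) (fl h f) (Or.inr rfl) (Or.inr rfl) ha' hb'
      rwa [fl_fl] at this
    · rw [if_neg hb, if_neg hb]
      have hb' : (x.dn (h + 1) f).b = false := by simpa using hb
      have := hW (fl h f) f (Or.inr rfl) (Or.inl rfl) ha' hb'
      rwa [fl_fl] at this
  · rw [if_neg ha, if_neg ha]
    have ha' : (x.up h f).a = false := by simpa using ha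
    by_cases hb : (x.dn (h + 1) f).b = true
    · rw [if_pos hb, if_pos hb]
      have hb' : (x.dn (h + 1) (fl h f)).b = false := by rw [hb2, hb]; rfl
      have := hW f (fl h f) (Or.inl rfl) (Or.inr rfl) ha' hb'
      rwa [fl_fl] at this
    · rw [if_neg hb, if_neg hb]
      have hb' : (x.dn (h + 1) f).b = false := by simpa using hb
      exact hW f f (Or.inl rfl) (Or.inl rfl) ha' hb'

theorem HPar.t {P : HPar} {M : ℕ} (C : HCond P M) {h : ℤ} (h1 : P.lo ≤ h) (h2 : h < P.hi) (f : K) :
    P.cfg.T h f := by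
  apply tet_of (HPar.rg C h1 h2 f)
  intro e0 t0 he ht ha hb
  refine HPar.wr C h1 h2 ?_ ha hb
  rcases he with rfl | rfl <;> rcases ht with rfl | rfl
  · left; rfl
  · right; rfl
  · right; rw [fl_fl]
  · left; rfl

open Classical in
/-- the canonical host is a host -/
theorem HPar.host {P : HPar} {M : ℕ} (C : HCond P M) (f0 : K) :
    HostOK P.lo P.hi f0 P.r P.Hol P.cfg := by
  have L := C.lab
  have hsg := C.frm.seg
  have hlt : P.lo < P.hi := by
    have h1 := hsg.le
    rcases eq_or_lt_of_le h1 with h2 | h2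
    · have h3 := C.frm.top
      rw [← h2, C.frm.bot] at h3
      exact absurd h3 (by simp)
    · exact h2
  refine ⟨hlt, hsg.nx, fun h g h1 h2 _ _ => HPar.t C h1 h2 g, ?_, ?_, ?_, ?_, ?_,
    fun _ _ _ _ _ _ => rfl, fun _ _ _ _ _ _ => rfl, ?_, ?_⟩
  · intro h g h1 h2 _ k1 k2
    obtain ⟨s1, s2, s3, s4⟩ := HPar.st_spec C h1.le g
    refine ⟨rfl, hsg.ne_bot h1 h2.le, hsg.ne_top h1.le h2, rfl, rfl, rfl, rfl, rfl, rfl, ?_, ?_,
      ?_, ?_⟩
    · show decide _ = false
      apply decide_eq_false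
      rintro ⟨u, hu⟩
      exact k2 ⟨h, u, le_rfl, (C.hols.lt _ _ _ hu).2.1, hu⟩
    · show decide _ = false
      apply decide_eq_false
      rintro ⟨l, hl⟩
      have := (C.hols.lt _ _ _ hl).2.1
      exact k1 ⟨l, h, by omega, by omega, hl⟩
    · intro hb
      have hb' : P.b h g = false := hb
      have hsl : P.st h g < h := by
        rcases eq_or_lt_of_le s2 with h5 | h5
        · rw [h5, hb'] at s3; exact absurd s3 (by decide)
        · exact h5
      refine ⟨rfl, rfl, ?_⟩
      show decide ((P.r (P.st h g)).idx ∧ P.n h = P.n (P.st h g)) =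
        (decide ((P.r (P.st h g)).idx ∧ P.n (h - 1) = P.n (P.st h g)) && !(P.r h).rl)
      have hst := hsg.st (h - 1) (by omega) (by omega)
      rw [sub_add_cancel] at hst
      have hm := hsg.mono (show P.lo ≤ P.st h g by omega) (show P.st h g ≤ h - 1 by omega)
        (show h - 1 ≤ P.hi by omega)
      by_cases hr : (P.r h).rl = true
      · rw [hr]
        simp only [Bool.not_true, Bool.and_false]
        apply decide_eq_false
        rintro ⟨-, h6⟩
        rcases hst with h5 | h5
        · omega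
        · exact h5.2 (Or.inl hr)
      · have hr' : (P.r h).rl = false := by simpa using hr
        rw [hr']
        simp only [Bool.not_false, Bool.and_true]
        have hni : ¬ (P.r h).idx := by
          rintro (h6 | h6 | h6)
          · exact hr h6
          · exact hsg.ne_top h1.le h2 h6
          · exact hsg.ne_bot h1 h2.le h6
        rcases hst with h5 | h5
        · exact absurd h5.2 hni
        · rw [h5.1]
    · intro hb hr
      have hb' : P.b h g = true := hb
      have hr' : (P.r h).rl = true := hr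
      have hs : P.st h g = h := by
        by_contra hc
        have := s4 h (by omega) le_rfl
        rw [hb'] at this; exact absurd this (by decide)
      refine ⟨?_, ?_⟩
      · show decide ((P.r (P.st h g)).idx ∧ P.n h = P.n (P.st h g)) = true
        rw [hs]
        exact decide_eq_true ⟨Or.inl hr', rfl⟩
      · show decide (P.st h g = P.lo) = false
        apply decide_eq_false
        omega
  · intro h g h1 h2 _ k1 k2
    obtain ⟨l, u, a1, a2, a3⟩ := k2
    have : l = h := by
      by_contra hc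
      exact k1 ⟨l, u, by omega, by omega, a3⟩
    subst this
    exact ⟨decide_eq_true ⟨u, a3⟩, C.hols.rP _ _ _ a3, C.b1 _ _ _ a3⟩
  · intro h g h1 h2 _ k1 k2
    obtain ⟨l, u, a1, a2, a3⟩ := k1
    have : u = h := by
      by_contra hc
      exact k2 ⟨l, u, by omega, by omega, a3⟩
    subst this
    exact ⟨decide_eq_true ⟨l, a3⟩, C.hols.rM _ _ _ a3, C.a1 _ _ _ a3⟩
  · intro h g h1 h2 _ _ _ hM
    exact L.a_M h g h1 (by omega) hM
  · intro h g h1 h2 _ _ _ hP
    exact L.b_P h g (by omega) h2 hP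
  · intro g _
    refine ⟨C.frm.bot, L.b_lo g, ?_, ?_, ?_⟩
    · show decide ((P.r (P.st P.lo g)).idx ∧ P.n P.lo = P.n (P.st P.lo g)) = true
      rw [P.st_lo]
      exact decide_eq_true ⟨Or.inr (Or.inr C.frm.bot), rfl⟩
    · show decide (P.st P.lo g = P.lo) = true
      exact decide_eq_true (P.st_lo g)
    · show decide _ = false
      apply decide_eq_false
      rintro ⟨l, hl⟩
      have := C.hols.lt _ _ _ hl
      omega
  · intro g _
    exact ⟨C.frm.top, L.a_hi g⟩

end Run7.h687.Full
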