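import Pool.Agent.Run7.h687.Full.Wires2

set_option autoImplicit false

namespace Run7.h687.Full
open Run7.h687.Lamp

/-- rows carrying an index -/
def Row.idx (r : Row) : Prop := r.rl = true ∨ r = .top ∨ r = .bot

/-- parity symbol -/
def Row.par : Row → Bool
  | .bot => true
  | .top => true
  | .R s _ => s
  | .P s => s
  | .E _ s => s
  | .M s => s

/-- stage -/
def Row.stg : Row → ℕ
  | .bot => 1
  | .top => 8
  | .R _ _ => 0
  | .P _ => 1
  | .E n _ => 2 + n
  | .M _ => 7

open Classical in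
lemma Nx.par {a b : Row} (h : Nx a b) : b.par = (a.par ^^ decide b.idx) := by
  cases h <;> simp [Row.par, Row.idx, Row.rl]

lemma Nx.stg {a b : Row} (h : Nx a b) (hb : b.rl = false) : a.stg < b.stg := by
  cases h with
  | b0 => simp [Row.stg]
  | pe s => simp [Row.stg]
  | pm s => simp [Row.stg]
  | ee n m s h => simp [Row.stg, h]
  | em n s => simp only [Row.stg]; omega
  | et n => simp only [Row.stg]; omega
  | mr s t => simp [Row.rl] at hb
  | rp s t => simp [Row.stg]

lemma Nx.ne_bot {a b : Row} (h : Nx a b) : b ≠ .bot := by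
  cases h <;> simp

lemma stg_le {a : Row} (h : ¬ a.idx) : a.stg ≤ 7 := by
  cases a with
  | top => exact absurd (Or.inr (Or.inl rfl)) h
  | bot => simp [Row.stg]
  | R s t => simp [Row.stg]
  | P s => simp [Row.stg]
  | E n s => simp only [Row.stg]; omega
  | M s => simp [Row.stg]

lemma stg_zero {a : Row} (h : a.stg = 0) : a.rl = true := by
  cases a with
  | R s t => rfl
  | _ => simp [Row.stg] at h

open Classical in
/-- counting functions -/
lemma exists_count (P : ℤ → Prop) (b0 v : ℤ) : ∃ n : ℤ → ℤ, n b0 = v ∧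
    ∀ h, n (h + 1) = n h + if P (h + 1) then 1 else 0 := by
  refine ⟨fun h => v + (((Finset.Ioc b0 h).filter P).card : ℤ) -
    (((Finset.Ioc h b0).filter P).card : ℤ), by simp, fun h => ?_⟩
  simp only
  by_cases hh : b0 ≤ h
  · have e1 : Finset.Ioc b0 (h + 1) = insert (h + 1) (Finset.Ioc b0 h) := by
      ext i; simp only [Finset.mem_Ioc, Finset.mem_insert]; omega
    have e2 : Finset.Ioc (h + 1) b0 = ∅ := by
      ext i; simp only [Finset.mem_Ioc, Finset.notMem_empty, iff_false]; omega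
    have e3 : Finset.Ioc h b0 = ∅ := by
      ext i; simp only [Finset.mem_Ioc, Finset.notMem_empty, iff_false]; omega
    rw [e1, e2, e3, Finset.filter_insert]
    by_cases hP : P (h + 1)
    · rw [if_pos hP, if_pos hP, Finset.card_insert_of_notMem (by simp)]
      push_cast; simp; ring
    · rw [if_neg hP, if_neg hP]; simp
  · have e1 : Finset.Ioc h b0 = insert (h + 1) (Finset.Ioc (h + 1) b0) := by
      ext i; simp only [Finset.mem_Ioc, Finset.mem_insert]; omega
    have e2 : Finset.Ioc b0 (h + 1) = ∅ := by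
      ext i; simp only [Finset.mem_Ioc, Finset.notMem_empty, iff_false]; omega
    have e3 : Finset.Ioc b0 h = ∅ := by
      ext i; simp only [Finset.mem_Ioc, Finset.notMem_empty, iff_false]; omega
    rw [e1, e2, e3, Finset.filter_insert]
    by_cases hP : P (h + 1)
    · rw [if_pos hP, if_pos hP, Finset.card_insert_of_notMem (by simp)]
      push_cast; simp; ring
    · rw [if_neg hP, if_neg hP]; simp

/-- counting functions are monotone -/
lemma count_mono {n : ℤ → ℤ} {P : ℤ → Prop} [DecidablePred P]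
    (hn : ∀ h, n (h + 1) = n h + if P (h + 1) then 1 else 0) {p q : ℤ} (hpq : p ≤ q) :
    n p ≤ n q := by
  obtain ⟨k, rfl⟩ : ∃ k : ℕ, q = p + k := ⟨(q - p).toNat, by omega⟩
  clear hpq
  induction k with
  | zero => simp
  | succ k ih =>
    push_cast
    rw [← add_assoc, hn]
    split_ifs <;> omega

lemma count_ivt {n : ℤ → ℤ} {P : ℤ → Prop} [DecidablePred P]
    (hn : ∀ h, n (h + 1) = n h + if P (h + 1) then 1 else 0) {p q k : ℤ} (hpq : p ≤ q)
    (h1 : n p < k) (h2 : k ≤ n q) : ∃ h, p < h ∧ h ≤ q ∧ n h = k ∧ P h := by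
  obtain ⟨m, rfl⟩ : ∃ m : ℕ, q = p + m := ⟨(q - p).toNat, by omega⟩
  clear hpq
  induction m with
  | zero => simp at h2; omega
  | succ m ih =>
    push_cast at h2
    rw [← add_assoc] at h2
    by_cases h3 : k ≤ n (p + m)
    · obtain ⟨h, a, b, c⟩ := ih h3
      exact ⟨h, a, by push_cast; omega, c⟩
    · rw [hn] at h2
      by_cases hP : P (p + m + 1)
      · rw [if_pos hP] at h2
        refine ⟨p + m + 1, by omega, by push_cast; omega, ?_, hP⟩
        rw [hn, if_pos hP]; omega
      · rw [if_neg hP] at h2; omega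

lemma count_uniq {n : ℤ → ℤ} {P : ℤ → Prop} [DecidablePred P]
    (hn : ∀ h, n (h + 1) = n h + if P (h + 1) then 1 else 0) {p q : ℤ} (hp : P p) (hq : P q)
    (h : n p = n q) : p = q := by
  have key : ∀ p q, P q → n p = n q → ¬ p < q := by
    intro p q hq h hlt
    have h1 := hn (q - 1)
    rw [sub_add_cancel, if_pos hq] at h1
    have h2 := count_mono hn (show p ≤ q - 1 by omega)
    omega
  have h1 := key p q hq h
  have h2 := key q p hp h.symm
  omega

section
variable {x : Cfg} {hx : Rules x} (R : Rgn (toR x hx))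

/-- inhabited levels -/
def Lv (h : ℤ) : Prop := ∃ g, R.In h g

/-- heights of the region -/
def Dm (h : ℤ) : Prop := Lv R h ∨ Lv R (h - 1)

/-- rows as a concrete function -/
noncomputable def rr : ℤ → Row := R.r

variable {R}

lemma rr_up {h : ℤ} {g : K} (h1 : R.In h g) : (x.up h g).row = rr R h := R.up_row h1

lemma rr_dn {h : ℤ} {g : K} (h1 : R.In (h - 1) g) : (x.dn h g).row = rr R h := by
  have := R.dn_row h1
  rw [sub_add_cancel] at this
  exact this

lemma rr_nx {h : ℤ} (h1 : Lv R h) : Nx (rr R h) (rr R (h + 1)) := by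
  obtain ⟨g, hg⟩ := h1
  have := (toR x hx).nx h g
  have e1 := rr_up hg
  have e2 : (x.dn (h + 1) g).row = rr R (h + 1) := R.dn_row hg
  rw [← e1, ← e2]
  exact this

lemma up_ne_top (h : ℤ) (g : K) (hx : Rules x) : (x.up h g).row ≠ .top := by
  intro h1
  rcases hx.e h g with h2 | h2 | h2
  · exact h2.nt (h2.row ▸ h1)
  · rw [h2.2.row] at h1; simp at h1
  · have := h2.2.row; rw [h1] at this; simp [Row.isM] at this

lemma rr_lv_ne_top {h : ℤ} (h1 : Lv R h) : rr R h ≠ .top := by
  obtain ⟨g, hg⟩ := h1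
  rw [← rr_up hg]
  exact up_ne_top h g hx

lemma rr_lv_ne_bot {h : ℤ} (h1 : Lv R (h - 1)) : rr R h ≠ .bot := by
  have := (rr_nx h1).ne_bot
  rwa [sub_add_cancel] at this

lemma lv_up {h : ℤ} (h1 : Lv R h) (h2 : rr R (h + 1) ≠ .top) : Lv R (h + 1) := by
  obtain ⟨g, hg⟩ := h1
  obtain ⟨x', -, -, i⟩ := R.exists_up hg (by
    intro h3
    apply h2
    have e2 : (x.dn (h + 1) g).row = rr R (h + 1) := R.dn_row hg
    rw [← e2]; exact h3)
  exact ⟨_, i⟩

lemma lv_dn {h : ℤ} (h1 : Lv R h) (h2 : rr R h ≠ .bot) : Lv R (h - 1) := by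
  obtain ⟨g, hg⟩ := h1
  obtain ⟨x', -, -, i⟩ := R.exists_dn hg (by
    intro h3
    apply h2
    rw [← rr_up hg]; exact h3)
  exact ⟨_, i⟩

lemma lv_mid {p q i : ℤ} (h1 : Lv R p) (h2 : Lv R q) (h3 : p ≤ i) (h4 : i ≤ q) : Lv R i := by
  obtain ⟨g, hg⟩ := h1
  obtain ⟨g', hg'⟩ := h2
  exact R.lev p q i g g' hg hg' h3 h4

lemma dm_lv {p q : ℤ} (h1 : Dm R p) (h2 : Dm R q) (h3 : p < q) : Lv R p ∧ Lv R (q - 1) := by
  have a1 : Lv R p := by
    rcases h1 with h1 | h1
    · exact h1
    · rcases h2 with h2 | h2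
      · exact lv_mid h1 h2 (by omega) (by omega)
      · exact lv_mid h1 h2 (by omega) (by omega)
  refine ⟨a1, ?_⟩
  rcases h2 with h2 | h2
  · exact lv_mid a1 h2 (by omega) (by omega)
  · exact h2

lemma dm_mid {p q i : ℤ} (h1 : Dm R p) (h2 : Dm R q) (h3 : p ≤ i) (h4 : i ≤ q) : Dm R i := by
  rcases h1 with h1 | h1 <;> rcases h2 with h2 | h2
  · exact Or.inl (lv_mid h1 h2 h3 h4)
  · by_cases h : i = q
    · subst h; exact Or.inr h2
    · exact Or.inl (lv_mid h1 h2 h3 (by omega))
  · exact Or.inl (lv_mid h1 h2 (by omega) h4)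
  · exact Or.inr (lv_mid h1 h2 (by omega) (by omega))

/-- an indexed row above -/
lemma idx_above {p : ℤ} (h1 : Lv R p) : ∃ q, p < q ∧ q ≤ p + 8 ∧ (rr R q).idx ∧ Lv R (q - 1) := by
  by_contra hcon
  push Not at hcon
  have key : ∀ k : ℕ, k ≤ 8 → Lv R (p + k) ∧ k ≤ (rr R (p + k)).stg := by
    intro k
    induction k with
    | zero => intro _; exact ⟨by simpa using h1, Nat.zero_le _⟩
    | succ k ih =>
      intro hk
      obtain ⟨l, s⟩ := ih (by omega)
      have hidx : ¬ (rr R (p + k + 1)).idx := fun h => hcon (p + k + 1) (by omega) (by omega) h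
        (by rw [add_sub_cancel_right]; exact l)
      have l2 := lv_up l (fun h => hidx (Or.inr (Or.inl h)))
      have s2 := (rr_nx l).stg (by
        by_contra h; exact hidx (Or.inl (by simpa using h)))
      push_cast
      rw [← add_assoc]
      exact ⟨l2, by omega⟩
  obtain ⟨l, s⟩ := key 8 le_rfl
  have : (rr R (p + ((8 : ℕ) : ℤ))).stg ≤ 7 := by
    apply stg_le
    intro h
    exact hcon (p + ((8 : ℕ) : ℤ)) (by push_cast; omega) (by push_cast; omega) h
      ((key 7 (by omega)).1 |> fun h7 => by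
        have e : p + ((8 : ℕ) : ℤ) - 1 = p + ((7 : ℕ) : ℤ) := by push_cast; ring
        rw [e]; exact h7)
  omega

lemma idx_below {p : ℤ} (h1 : Lv R (p - 1)) : ∃ q, p - 8 ≤ q ∧ q < p ∧ (rr R q).idx ∧ Lv R q := by
  by_contra hcon
  push Not at hcon
  have key : ∀ k : ℕ, k ≤ 7 → Lv R (p - 1 - k) ∧ (rr R (p - 1 - k)).stg ≤ 7 - k := by
    intro k
    induction k with
    | zero =>
      intro _
      refine ⟨by simpa using h1, ?_⟩
      simp only [Nat.cast_zero, sub_zero]
      exact stg_le (fun h => hcon (p - 1) (by omega) (by omega) h h1)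
    | succ k ih =>
      intro hk
      obtain ⟨l, s⟩ := ih (by omega)
      have hidx : ¬ (rr R (p - 1 - k)).idx := fun h => hcon _ (by omega) (by omega) h l
      have l2 := lv_dn l (fun h => hidx (Or.inr (Or.inr h)))
      have s2 := (rr_nx l2).stg (by
        rw [sub_add_cancel]
        by_contra h; exact hidx (Or.inl (by simpa using h)))
      rw [sub_add_cancel] at s2
      push_cast
      rw [← sub_sub]
      exact ⟨l2, by omega⟩
  obtain ⟨l, s⟩ := key 7 le_rfl
  have := stg_zero (show (rr R (p - 1 - ((7 : ℕ) : ℤ))).stg = 0 by omega)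
  exact hcon _ (by push_cast; omega) (by push_cast; omega) (Or.inl this) l

open Classical in
/-- the type of an index -/
noncomputable def tyOf (R : Rgn (toR x hx)) (n : ℤ → ℤ) (k : ℤ) : Bool :=
  if H : ∃ t, ∃ h s, Dm R h ∧ n h = k ∧ rr R h = .R s t then H.choose else false

/-- index functions of a region -/
structure IxF (R : Rgn (toR x hx)) (n : ℤ → ℤ) : Prop where
  st : ∀ h, (n (h + 1) = n h + 1 ∧ (rr R (h + 1)).idx) ∨ (n (h + 1) = n h ∧ ¬ (rr R (h + 1)).idx)
  par : ∀ h, Dm R h → ((rr R h).par = true ↔ (2 : ℤ) ∣ n h)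

variable {n : ℤ → ℤ}

open Classical in
lemma IxF.st' (H : IxF R n) (h : ℤ) : n (h + 1) = n h + if (rr R (h + 1)).idx then 1 else 0 := by
  rcases H.st h with h1 | h1
  · rw [if_pos h1.2]; exact h1.1
  · rw [if_neg h1.2, add_zero]; exact h1.1

lemma IxF.mono (H : IxF R n) {p q : ℤ} (hpq : p ≤ q) : n p ≤ n q := by
  classical
  exact count_mono (P := fun h => (rr R h).idx) H.st' hpq

lemma IxF.ivt (H : IxF R n) {p q k : ℤ} (hpq : p ≤ q) (h1 : n p < k) (h2 : k ≤ n q) :
    ∃ h, p < h ∧ h ≤ q ∧ n h = k ∧ (rr R h).idx := by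
  classical
  exact count_ivt (P := fun h => (rr R h).idx) H.st' hpq h1 h2

lemma IxF.uniq (H : IxF R n) {p q : ℤ} (hp : (rr R p).idx) (hq : (rr R q).idx) (h : n p = n q) :
    p = q := by
  classical
  exact count_uniq (P := fun h => (rr R h).idx) H.st' hp hq h

lemma IxF.ty (H : IxF R n) {h : ℤ} {s t : Bool} (h1 : Dm R h) (h2 : rr R h = .R s t) :
    tyOf R n (n h) = t := by
  unfold tyOf
  have hex : ∃ t, ∃ h' s, Dm R h' ∧ n h' = n h ∧ rr R h' = .R s t := ⟨t, h, s, h1, rfl, h2⟩
  rw [dif_pos hex]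
  obtain ⟨h', s', a1, a2, a3⟩ := hex.choose_spec
  have : h' = h := H.uniq (Or.inl (by rw [a3]; rfl)) (Or.inl (by rw [h2]; rfl)) a2
  rw [this, h2] at a3
  simp only [Row.R.injEq] at a3
  exact a3.2.symm

lemma idx_start {p : ℤ} {g : K} (h1 : R.In p g) (h2 : (rr R p).idx) :
    (x.up p g).row.rl = true ∨ (x.up p g).row = .bot := by
  rw [rr_up h1]
  rcases h2 with h | h | h
  · exact Or.inl h
  · exact absurd h (rr_lv_ne_top ⟨g, h1⟩)
  · exact Or.inr h

lemma idx_end {q : ℤ} {g : K} (h1 : R.In (q - 1) g) (h2 : (rr R q).idx) :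
    (x.dn q g).row.rl = true ∨ (x.dn q g).row = .top := by
  rw [rr_dn h1]
  rcases h2 with h | h | h
  · exact Or.inl h
  · exact Or.inr h
  · exact absurd h (rr_lv_ne_bot ⟨g, h1⟩)

lemma wire_In_end {p q : ℤ} {z : ℤ → K} (W : Wire hx R p q z) (hpq : p < q) :
    R.In (q - 1) (z q) := by
  have h3 := W.In (q - 1) (by omega) (by omega)
  have h4 := (W.w (q - 1) (by omega) (by omega)).1
  rw [sub_add_cancel] at h4
  rcases h4 with h4 | h4
  · rw [h4]; exact h3
  · rw [h4, R.fl']; exact h3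

/-- the wire system of a region -/
noncomputable def wsOf (R : Rgn (toR x hx)) (n : ℤ → ℤ) (H : IxF R n) : WS where
  I k := ∃ p, Dm R p ∧ (rr R p).idx ∧ n p = k
  ordc := by
    rintro a b k ⟨p, p1, p2, p3⟩ ⟨q, q1, q2, q3⟩ hak hkb
    by_cases h : a = k
    · exact ⟨p, p1, p2, by omega⟩
    · have hpq : p ≤ q := by
        by_contra hc
        have := H.mono (show q ≤ p by omega)
        omega
      obtain ⟨h', a1, a2, a3, a4⟩ := H.ivt hpq (k := k) (by omega) (by omega)
      exact ⟨h', dm_mid p1 q1 a1.le a2, a4, a3⟩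
  ty := tyOf R n
  W j i c := ∃ p q z, p < q ∧ Dm R p ∧ Dm R q ∧ (rr R p).idx ∧ (rr R q).idx ∧ n p = j ∧ n q = i ∧
    Wire hx R p q z ∧ (x.dn q (z q)).c = c
  ne := by
    rintro j i ⟨p, p1, p2, p3⟩ ⟨q, q1, q2, q3⟩ hji
    have hpq : p < q := by
      by_contra hc
      have := H.mono (show q ≤ p by omega)
      omega
    obtain ⟨⟨g, hg⟩, ⟨g0, hg0⟩⟩ := dm_lv p1 q1 hpq
    obtain ⟨g1, a1, a2, a3, a4⟩ := exists_start hg (idx_start hg p2)
    obtain ⟨z, W, -⟩ := wire_ex hpq a1 hg0 a2 (idx_start a1 p2) (idx_end hg0 q2)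
    exact ⟨_, p, q, z, hpq, p1, q1, p2, q2, p3, q3, W, rfl⟩
  tri := by
    rintro j k i c - - hjk hki ⟨p, q, z, hpq, p1, q1, p2, q2, p3, q3, W, hc⟩
    obtain ⟨h, a1, a2, a3, a4⟩ := H.ivt hpq.le (k := k) (by omega) (by omega)
    have a2' : h < q := by
      rcases eq_or_lt_of_le a2 with h5 | h5
      · subst h5; omega
      · exact h5
    have ih := W.In h a1.le a2'
    have hd : Dm R h := dm_mid p1 q1 a1.le a2
    have hreal : (x.up h (z h)).row.rl = true := by
      rcases idx_start ih a4 with h5 | h5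
      · exact h5
      · exfalso
        have l : Lv R (h - 1) := ⟨_, W.In (h - 1) (by omega) (by omega)⟩
        exact rr_lv_ne_bot l (by rw [← rr_up ih]; exact h5)
    obtain ⟨s, t, hst⟩ := rl_iff hreal
    have hrow : rr R h = .R s t := by rw [← rr_up ih]; exact hst
    obtain ⟨zE, zS, WE, WS', himp⟩ := wire_tri W a1 a2' (idx_start (W.In p le_rfl hpq) p2)
      (idx_end (wire_In_end W hpq) q2) hst
    refine ⟨_, _, ⟨p, h, zE, a1, p1, hd, p2, a4, p3, a3, WE, rfl⟩,
      ⟨h, q, zS, a2', hd, q1, a4, q2, a3, q3, WS', rfl⟩, ?_⟩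
    rw [← a3, H.ty hd hrow, ← hc]
    exact himp
  adj := by
    rintro j c - - ⟨p, q, z, hpq, p1, q1, p2, q2, p3, q3, W, hc⟩
    have hnr : ∀ i, p < i → i < q → (x.dn i (z i)).row.rl = false := by
      intro i h1 h2
      by_contra h3
      have h3' : (x.dn i (z i)).row.rl = true := by simpa using h3
      have hrow := (wp_reg W.w h1 h2).row
      have hidx : (rr R i).idx := by
        rw [← rr_up (W.In i h1.le h2), hrow]; exact Or.inl h3'
      have e1 : n i = n (i - 1) + 1 := by
        rcases H.st (i - 1) with h | h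
        · rw [sub_add_cancel] at h; exact h.1
        · rw [sub_add_cancel] at h; exact absurd hidx h.2
      have e2 : n q = n (q - 1) + 1 := by
        rcases H.st (q - 1) with h | h
        · rw [sub_add_cancel] at h; exact h.1
        · rw [sub_add_cancel] at h; exact absurd q2 h.2
      have e3 := H.mono (show p ≤ i - 1 by omega)
      have e4 := H.mono (show i ≤ q - 1 by omega)
      omega
    have hadj := wire_adj W hpq (idx_start (W.In p le_rfl hpq) p2) hnr
    have hpar := H.par q q1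
    rw [q3] at hpar
    have hrowq := rr_dn (wire_In_end W hpq)
    rcases idx_end (wire_In_end W hpq) q2 with h5 | h5
    · obtain ⟨s, t, hst⟩ := rl_iff h5
      rw [← hc, hadj.1 s t hst]
      rw [← hrowq, hst] at hpar
      cases s
      · rw [if_neg (by simp), if_neg (fun h => by simpa [Row.par] using hpar.mpr h)]
      · rw [if_pos rfl, if_pos (hpar.mp rfl)]
    · rw [← hc, hadj.2 h5]
      rw [← hrowq, h5] at hpar
      rw [if_pos (hpar.mp rfl)]

end

end Run7.h687.Full
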