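import Pool.Agent.Run7.h687.Full.Enc

set_option autoImplicit false

namespace Run7.h687.Full
open Run7.h687.Lamp

/-- closed patterns with a given base -/
structure CPs (f0 : K) where
  lo : ℤ
  hi : ℤ
  z : Cfg
  cp : CP lo hi f0 z

/-- extension relation -/
structure Ext {f0 : K} (s t : CPs f0) : Prop where
  lo : t.lo ≤ s.lo
  hi : s.hi ≤ t.hi
  up : ∀ h g, s.lo ≤ h → h < s.hi → Off s.lo s.hi g f0 → t.z.up h g = s.z.up h g
  dn : ∀ h g, s.lo < h → h ≤ s.hi → Off s.lo s.hi g f0 → t.z.dn h g = s.z.dn h g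

lemma Ext.refl {f0 : K} (s : CPs f0) : Ext s s :=
  ⟨le_rfl, le_rfl, fun _ _ _ _ _ => rfl, fun _ _ _ _ _ => rfl⟩

lemma Ext.trans {f0 : K} {s t v : CPs f0} (a : Ext s t) (b : Ext t v) : Ext s v := by
  have a1 := a.lo
  have a2 := a.hi
  refine ⟨b.lo.trans a.lo, a.hi.trans b.hi, ?_, ?_⟩
  · intro h g c d o
    rw [b.up h g (by omega) (by omega) (o.mono a.lo a.hi), a.up h g c d o]
  · intro h g c d o
    rw [b.dn h g (by omega) (by omega) (o.mono a.lo a.hi), a.dn h g c d o]

/-- Closed patterns extend to configurations. -/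
theorem extend {lo hi : ℤ} {f0 : K} {z0 : Cfg} (H : CP lo hi f0 z0) : ∃ z, Rules z ∧
    (∀ h g, lo ≤ h → h < hi → Off lo hi g f0 → z.up h g = z0.up h g) ∧
    (∀ h g, lo < h → h ≤ hi → Off lo hi g f0 → z.dn h g = z0.dn h g) := by
  classical
  have hnext : ∀ s : CPs f0, ∃ t : CPs f0, Ext s t ∧ t.lo ≤ s.lo - 1 ∧ s.hi + 1 ≤ t.hi := by
    intro s
    obtain ⟨N, N1, hN⟩ := enc s.cp
    obtain ⟨z', z1, z2, z3⟩ := hN (s.lo - N) (s.hi + N) le_rfl le_rfl
    exact ⟨⟨_, _, z', z1⟩, ⟨by simp only; omega, by simp only; omega, z2, z3⟩, by simp only; omega,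
      by simp only; omega⟩
  choose nx nx1 nx2 nx3 using hnext
  let sq : ℕ → CPs f0 := fun n => Nat.rec ⟨lo, hi, z0, H⟩ (fun _ s => nx s) n
  have sq0 : sq 0 = ⟨lo, hi, z0, H⟩ := rfl
  have sqs : ∀ n, sq (n + 1) = nx (sq n) := fun n => rfl
  have ext : ∀ n k, Ext (sq n) (sq (n + k)) := by
    intro n k
    induction k with
    | zero => exact Ext.refl _
    | succ k ih => exact ih.trans (nx1 _)
  have ext' : ∀ n m, n ≤ m → Ext (sq n) (sq m) := by
    intro n m h
    obtain ⟨k, rfl⟩ := Nat.exists_eq_add_of_le h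
    exact ext n k
  have size : ∀ n : ℕ, (sq n).lo ≤ lo - n ∧ hi + n ≤ (sq n).hi := by
    intro n
    induction n with
    | zero => rw [sq0]; simp
    | succ n ih =>
      have h1 := nx2 (sq n)
      have h2 := nx3 (sq n)
      rw [sqs]
      push_cast
      omega
  let IN : ℕ → ℤ → K → Prop := fun n h g =>
    (sq n).lo + 2 < h ∧ h + 2 < (sq n).hi ∧ Off (sq n).lo (sq n).hi g f0
  have exIN : ∀ h g, ∃ n, IN n h g := by
    intro h g
    obtain ⟨B, B0, hB⟩ := exists_bound g f0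
    obtain ⟨n, hn⟩ : ∃ n : ℕ, B + |h| + |lo| + |hi| + 3 ≤ n :=
      ⟨(B + |h| + |lo| + |hi| + 3).toNat, by omega⟩
    have h1 := neg_abs_le h
    have h2 := le_abs_self h
    have h3 := neg_abs_le lo
    have h4 := le_abs_self lo
    have h5 := neg_abs_le hi
    have h6 := le_abs_self hi
    have h7 := abs_nonneg hi
    have h8 := abs_nonneg lo
    have h9 := abs_nonneg h
    obtain ⟨s1, s2⟩ := size n
    refine ⟨n, by omega, by omega, fun i hi' => hB i (by omega)⟩
  -- weak membership is enough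
  let IW : ℕ → ℤ → K → Prop := fun n h g =>
    (sq n).lo < h ∧ h < (sq n).hi ∧ Off (sq n).lo (sq n).hi g f0
  choose ind hind using exIN
  let z : Cfg := ⟨fun h g => (sq (ind h g)).z.up h g, fun h g => (sq (ind h g)).z.dn h g⟩
  have key : ∀ n h g, IW n h g → z.up h g = (sq n).z.up h g ∧ z.dn h g = (sq n).z.dn h g := by
    rintro n h g ⟨a1, a2, a3⟩
    obtain ⟨b1, b2, b3⟩ := hind h g
    rcases le_total n (ind h g) with hle | hle
    · have e := ext' _ _ hle
      exact ⟨e.up h g a1.le a2 a3, e.dn h g a1 a2.le a3⟩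
    · have e := ext' _ _ hle
      exact ⟨(e.up h g (by omega) (by omega) b3).symm, (e.dn h g (by omega) (by omega) b3).symm⟩
  refine ⟨z, ⟨?_, ?_, ?_, ?_⟩, ?_, ?_⟩
  · intro h g
    obtain ⟨b1, b2, b3⟩ := hind h g
    set n := ind h g
    have o' : Off (sq n).lo (sq n).hi (fl h g) f0 := Off.fl (by omega) (by omega) b3
    unfold Cfg.T
    rw [(key n h g ⟨by omega, by omega, b3⟩).1, (key n h (fl h g) ⟨by omega, by omega, o'⟩).1,
      (key n (h + 1) g ⟨by omega, by omega, b3⟩).2, (key n (h + 1) (fl h g) ⟨by omega, by omega, o'⟩).2]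
    exact (sq n).cp.t h g (by omega) (by omega) b3
  · intro h g
    obtain ⟨b1, b2, b3⟩ := hind h g
    set n := ind h g
    rw [(key n h g ⟨by omega, by omega, b3⟩).1, (key n h g ⟨by omega, by omega, b3⟩).2]
    exact (sq n).cp.e h g (by omega) (by omega) b3
  · intro h g
    obtain ⟨b1, b2, b3⟩ := hind h g
    set n := ind h g
    have o' : Off (sq n).lo (sq n).hi (fl (h + 1) g) f0 := Off.fl (by omega) (by omega) b3
    rw [(key n h g ⟨by omega, by omega, b3⟩).1, (key n h (fl (h + 1) g) ⟨by omega, by omega, o'⟩).1]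
    exact (sq n).cp.pm h g (by omega) (by omega) b3
  · intro h g
    obtain ⟨b1, b2, b3⟩ := hind h g
    set n := ind h g
    have o' : Off (sq n).lo (sq n).hi (fl (h - 2) g) f0 := Off.fl (by omega) (by omega) b3
    rw [(key n h g ⟨by omega, by omega, b3⟩).2, (key n h (fl (h - 2) g) ⟨by omega, by omega, o'⟩).2]
    exact (sq n).cp.pp h g (by omega) (by omega) b3
  · intro h g a b o
    have e1 := ext' 0 1 (by omega)
    have s1 := nx2 (sq 0)
    have s2 := nx3 (sq 0)
    rw [← sqs, sq0] at s1 s2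
    simp only at s1 s2
    have s1' : (sq 1).lo ≤ lo - 1 := s1
    have s2' : hi + 1 ≤ (sq 1).hi := s2
    rw [(key 1 h g ⟨by omega, by omega, o.mono (by omega) (by omega)⟩).1]
    exact e1.up h g a b o
  · intro h g a b o
    have e1 := ext' 0 1 (by omega)
    have s1 := nx2 (sq 0)
    have s2 := nx3 (sq 0)
    rw [← sqs, sq0] at s1 s2
    simp only at s1 s2
    have s1' : (sq 1).lo ≤ lo - 1 := s1
    have s2' : hi + 1 ≤ (sq 1).hi := s2
    rw [(key 1 h g ⟨by omega, by omega, o.mono (by omega) (by omega)⟩).2]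
    exact e1.dn h g a b o

theorem exists_rules : ∃ z, Rules z := by
  obtain ⟨lo, hi, z, H⟩ := exists_CP
  obtain ⟨z', h, -, -⟩ := extend H
  exact ⟨z', h⟩

end Run7.h687.Full
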