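import Pool.Agent.Run7.h687.Full.Two

set_option autoImplicit false

namespace Run7.h687.Full
open Run7.h687.Lamp

/-- translation of lamp configurations -/
noncomputable def tf (q : ℤ × K) (g : K) : K := q.2 + sh q.1 g

/-- translated configuration -/
noncomputable def trC (q : ℤ × K) (z : Cfg) : Cfg where
  up h g := z.up (lm (li q) (h, g)).1 (lm (li q) (h, g)).2
  dn h g := z.dn (lm (li q) (h, g)).1 (lm (li q) (h, g)).2

lemma lm_tf (q : ℤ × K) (h : ℤ) (g : K) : lm q (h, g) = (h + q.1, tf q g) := by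
  unfold lm tf
  rw [add_comm]

lemma li_tf (q : ℤ × K) (h : ℤ) (g : K) : lm (li q) (h + q.1, tf q g) = (h, g) := by
  rw [← lm_tf, ← lm_assoc, li_lm, zero_lm]

lemma trC_up (q : ℤ × K) (z : Cfg) (h : ℤ) (g : K) : (trC q z).up (h + q.1) (tf q g) = z.up h g := by
  show z.up _ _ = _
  rw [li_tf]

lemma trC_dn (q : ℤ × K) (z : Cfg) (h : ℤ) (g : K) : (trC q z).dn (h + q.1) (tf q g) = z.dn h g := by
  show z.dn _ _ = _
  rw [li_tf]

lemma tf_fl (q : ℤ × K) (i : ℤ) (g : K) : fl (i + q.1) (tf q g) = tf q (fl i g) := by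
  unfold tf
  rw [sh_fl]
  unfold fl
  rw [add_assoc]

lemma tf_apply (q : ℤ × K) (g : K) (i : ℤ) : tf q g (i + q.1) = q.2 (i + q.1) + g i := by
  unfold tf
  rw [Finsupp.add_apply, sh_apply, add_sub_cancel_right]

lemma tf_surj (q : ℤ × K) (g : K) : ∃ g', g = tf q g' := by
  refine ⟨(lm (li q) (0, g)).2, ?_⟩
  have h1 : lm q (lm (li q) (0, g)) = (0, g) := by rw [← lm_assoc, lm_li, zero_lm]
  exact (congrArg Prod.snd h1).symm

lemma off_tf {q : ℤ × K} {l u : ℤ} {g f : K} :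
    Off (l + q.1) (u + q.1) (tf q g) (tf q f) ↔ Off l u g f := by
  constructor
  · intro o i hi
    have h1 := o (i + q.1) (by omega)
    rw [tf_apply, tf_apply] at h1
    exact add_left_cancel h1
  · intro o i hi
    obtain ⟨j, rfl⟩ : ∃ j, i = j + q.1 := ⟨i - q.1, by ring⟩
    rw [tf_apply, tf_apply, o j (by omega)]

lemma CP.tr {l u : ℤ} {f : K} {z : Cfg} (H : CP l u f z) (q : ℤ × K) :
    CP (l + q.1) (u + q.1) (tf q f) (trC q z) := by
  refine ⟨by have := H.lt; omega, ?_, ?_, ?_, ?_, ?_, ?_⟩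
  · intro h g a b o
    obtain ⟨g, rfl⟩ := tf_surj q g
    obtain ⟨h, rfl⟩ : ∃ h', h = h' + q.1 := ⟨h - q.1, by ring⟩
    have := H.t h g (by omega) (by omega) (off_tf.mp o)
    unfold Cfg.T at this ⊢
    rw [tf_fl, trC_up, trC_up, show h + q.1 + 1 = h + 1 + q.1 by ring, trC_dn, trC_dn]
    exact this
  · intro h g a b o
    obtain ⟨g, rfl⟩ := tf_surj q g
    obtain ⟨h, rfl⟩ : ∃ h', h = h' + q.1 := ⟨h - q.1, by ring⟩
    rw [trC_up, trC_dn]
    exact H.e h g (by omega) (by omega) (off_tf.mp o)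
  · intro h g a b o
    obtain ⟨g, rfl⟩ := tf_surj q g
    obtain ⟨h, rfl⟩ : ∃ h', h = h' + q.1 := ⟨h - q.1, by ring⟩
    rw [show h + q.1 + 1 = h + 1 + q.1 by ring, tf_fl, trC_up, trC_up]
    exact H.pm h g (by omega) (by omega) (off_tf.mp o)
  · intro h g a b o
    obtain ⟨g, rfl⟩ := tf_surj q g
    obtain ⟨h, rfl⟩ : ∃ h', h = h' + q.1 := ⟨h - q.1, by ring⟩
    rw [show h + q.1 - 2 = h - 2 + q.1 by ring, tf_fl, trC_dn, trC_dn]
    exact H.pp h g (by omega) (by omega) (off_tf.mp o)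
  · intro g o
    obtain ⟨g, rfl⟩ := tf_surj q g
    rw [trC_up]
    exact H.bt g (off_tf.mp o)
  · intro g o
    obtain ⟨g, rfl⟩ := tf_surj q g
    rw [trC_dn]
    exact H.tp g (off_tf.mp o)

/-- Mixing for configurations -/
theorem mixC {x y : Cfg} (hx : Rules x) (hy : Rules y) (r : ℕ) :
    ∃ C : Set (ℤ × K), C.Finite ∧ ∀ q, q ∉ C → ∃ z, Rules z ∧
      (∀ n f, Win r n f → z.up n f = x.up n f ∧ z.dn n f = x.dn n f) ∧
      (∀ n f, Win r n f → z.up (n + q.1) (tf q f) = y.up n f ∧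
        z.dn (n + q.1) (tf q f) = y.dn n f) := by
  classical
  obtain ⟨l1, u1, z1, a1, b1, H1, c1⟩ := e0 hx (show -(r : ℤ) ≤ r by omega) 0
  obtain ⟨l2, u2, z2, a2, b2, H2, c2⟩ := e0 hy (show -(r : ℤ) ≤ r by omega) 0
  obtain ⟨N1, N1', hN1⟩ := enc H1
  obtain ⟨N2, N2', hN2⟩ := enc H2
  obtain ⟨kA, kA4, hA⟩ := two1 (d1 := u1 - l1) (d2 := u2 - l2) (by omega) (by omega)
  obtain ⟨kB, kB4, hB⟩ := two1 (d1 := u2 - l2) (d2 := u1 - l1) (by omega) (by omega)
  obtain ⟨D, hD⟩ : ∃ D, D = |l1| + |u1| + |l2| + |u2| + kA + kB := ⟨_, rfl⟩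
  have w1 := abs_nonneg l1
  have w2 := abs_nonneg l2
  have w3 := abs_nonneg u1
  have w4 := abs_nonneg u2
  have w5 := neg_abs_le l1
  have w6 := neg_abs_le l2
  have w7 := le_abs_self u1
  have w8 := le_abs_self u2
  obtain ⟨A, eA⟩ : ∃ A, A = 2 * D + N1 + N2 + 10 := ⟨_, rfl⟩
  -- transport of the conclusions
  have win : ∀ n f, Win r n f → -(r : ℤ) ≤ n ∧ n ≤ r ∧ Off (-(r : ℤ)) r f 0 := by
    rintro n f ⟨h1, h2, h3, h4⟩
    refine ⟨h1, h2, fun i hi => ?_⟩
    rcases hi with hi | hi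
    · exact h3 i hi
    · exact h4 i hi
  refine ⟨_, finite_box (3 * A), fun q hq => ?_⟩
  have fin1 : ∀ z L U, Agr L U 0 z z1 → L ≤ l1 → u1 ≤ U →
      ∀ n f, Win r n f → z.up n f = x.up n f ∧ z.dn n f = x.dn n f := by
    intro z L U h hL hU n f hw
    obtain ⟨p1, p2, p3⟩ := win n f hw
    obtain ⟨q1, q2⟩ := c1 n f p1 p2 p3
    rw [h.up n f (by omega) (by omega) (p3.mono (by omega) (by omega)), q1,
      h.dn n f (by omega) (by omega) (p3.mono (by omega) (by omega)), q2]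
    exact ⟨rfl, rfl⟩
  have fin2 : ∀ z L U, Agr (L + q.1) (U + q.1) (tf q 0) z (trC q z2) → L ≤ l2 → u2 ≤ U →
      ∀ n f, Win r n f → z.up (n + q.1) (tf q f) = y.up n f ∧
        z.dn (n + q.1) (tf q f) = y.dn n f := by
    intro z L U h hL hU n f hw
    obtain ⟨p1, p2, p3⟩ := win n f hw
    obtain ⟨q1, q2⟩ := c2 n f p1 p2 p3
    rw [h.up _ _ (by omega) (by omega) (off_tf.mpr (p3.mono (by omega) (by omega))), trC_up, q1,
      h.dn _ _ (by omega) (by omega) (off_tf.mpr (p3.mono (by omega) (by omega))), trC_dn, q2]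
    exact ⟨rfl, rfl⟩
  by_cases k1 : u1 + kA ≤ l2 + q.1
  · obtain ⟨z, hz, g1, g2⟩ := hA l1 u1 (l2 + q.1) (u2 + q.1) 0 (tf q 0) z1 (trC q z2) rfl
      (by ring) k1 H1 (H2.tr q)
    exact ⟨z, hz, fin1 z _ _ g1 le_rfl le_rfl, fin2 z _ _ g2 le_rfl le_rfl⟩
  by_cases k2 : u2 + q.1 + kB ≤ l1
  · obtain ⟨z, hz, g1, g2⟩ := hB (l2 + q.1) (u2 + q.1) l1 u1 (tf q 0) 0 (trC q z2) z1 (by ring)
      rfl k2 (H2.tr q) H1
    exact ⟨z, hz, fin1 z _ _ g2 le_rfl le_rfl, fin2 z _ _ g1 le_rfl le_rfl⟩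
  have hq1 : -D ≤ q.1 ∧ q.1 ≤ D := by constructor <;> omega
  have t0 : tf q 0 = q.2 := by unfold tf; rw [sh_zero, add_zero]
  have hex : ∃ i, q.2 i ≠ 0 ∧ (i < -(3 * A) ∨ 3 * A < i) := by
    by_contra hcon
    push Not at hcon
    apply hq
    refine ⟨by omega, by omega, fun i hi => ?_⟩
    have := hcon i hi
    omega
  obtain ⟨i, hi, hi'⟩ := hex
  have hne : q.2.support.Nonempty := ⟨i, Finsupp.mem_support_iff.mpr hi⟩
  obtain ⟨s, es⟩ : ∃ s, s = q.2.support.min' hne := ⟨_, rfl⟩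
  obtain ⟨t, et⟩ : ∃ t, t = q.2.support.max' hne := ⟨_, rfl⟩
  have s1 : q.2 s ≠ 0 := by
    rw [es]; exact Finsupp.mem_support_iff.mp (Finset.min'_mem _ hne)
  have t1 : q.2 t ≠ 0 := by
    rw [et]; exact Finsupp.mem_support_iff.mp (Finset.max'_mem _ hne)
  have s2 : ∀ j, q.2 j ≠ 0 → s ≤ j := by
    intro j hj; rw [es]; exact Finset.min'_le _ _ (Finsupp.mem_support_iff.mpr hj)
  have t2 : ∀ j, q.2 j ≠ 0 → j ≤ t := by
    intro j hj; rw [et]; exact Finset.le_max' _ _ (Finsupp.mem_support_iff.mpr hj)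
  have si := s2 i hi
  have ti := t2 i hi
  have st := s2 t t1
  obtain ⟨a, b, ha1, hb1, ha, hb, hab⟩ : ∃ a b, a ≤ -A ∧ A ≤ b ∧ (a ≤ s ∨ s + 4 ≤ a) ∧
      (t < b ∨ b ≤ t - 3) ∧ (s < a ∨ b ≤ t) := by
    rcases hi' with hi' | hi'
    · by_cases h : t = A ∨ t = A + 1 ∨ t = A + 2
      · exact ⟨-A, A + 3, by omega, by omega, by omega, by omega, by omega⟩
      · exact ⟨-A, A, by omega, by omega, by omega, by omega, by omega⟩
    · by_cases h : s = -A - 1 ∨ s = -A - 2 ∨ s = -A - 3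
      · exact ⟨-A - 3, A, by omega, by omega, by omega, by omega, by omega⟩
      · exact ⟨-A, A, by omega, by omega, by omega, by omega, by omega⟩
  obtain ⟨z1', P1, d1, e1⟩ := hN1 a b (by omega) (by omega)
  obtain ⟨z2', P2, d2, e2⟩ := hN2 (a - q.1) (b - q.1) (by omega) (by omega)
  have P2' := P2.tr q
  rw [sub_add_cancel, sub_add_cancel, t0] at P2'
  obtain ⟨z, hz, g1, g2⟩ := two2 (f1 := 0) (f2 := q.2) (s := s) (t := t) P1 P2' (by
      intro j hj
      by_contra h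
      have := s2 j (fun h' => h (by rw [h']; rfl))
      omega) (fun h => s1 (by rw [← h]; rfl)) (by
      intro j hj
      by_contra h
      have := t2 j (fun h' => h (by rw [h']; rfl))
      omega) (fun h => t1 (by rw [← h]; rfl)) ha hb (by
      intro o
      rcases hab with h | h
      · exact s1 (by rw [← o s (Or.inl h)]; rfl)
      · exact t1 (by rw [← o t (Or.inr h)]; rfl))
  refine ⟨z, hz, ?_, ?_⟩
  · refine fin1 z l1 u1 ⟨fun h g p1 p2 o => ?_, fun h g p1 p2 o => ?_⟩ le_rfl le_rfl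
    · rw [g1.up h g (by omega) (by omega) (o.mono (by omega) (by omega)), d1 h g p1 p2 o]
    · rw [g1.dn h g (by omega) (by omega) (o.mono (by omega) (by omega)), e1 h g p1 p2 o]
  · refine fin2 z l2 u2 ⟨fun h g p1 p2 o => ?_, fun h g p1 p2 o => ?_⟩ le_rfl le_rfl
    · obtain ⟨g, rfl⟩ := tf_surj q g
      obtain ⟨h, rfl⟩ : ∃ h', h = h' + q.1 := ⟨h - q.1, by ring⟩
      have o' := off_tf.mp o
      rw [g2.up _ _ (by omega) (by omega) (by rw [← t0]; exact o.mono (by omega) (by omega)),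
        trC_up, trC_up, d2 h g (by omega) (by omega) o']
    · obtain ⟨g, rfl⟩ := tf_surj q g
      obtain ⟨h, rfl⟩ : ∃ h', h = h' + q.1 := ⟨h - q.1, by ring⟩
      have o' := off_tf.mp o
      rw [g2.dn _ _ (by omega) (by omega) (by rw [← t0]; exact o.mono (by omega) (by omega)),
        trC_dn, trC_dn, e2 h g (by omega) (by omega) o']

/-- non-uniform mixing -/
def Mixing2 {Q : Type*} (X : Set ((ℤ × K) → Q)) : Prop :=
  ∀ x ∈ X, ∀ y ∈ X, ∀ W : Finset (ℤ × K), ∃ C : Set (ℤ × K), C.Finite ∧ ∀ q, q ∉ C →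
    ∃ z ∈ X, (∀ p ∈ W, z p = x p) ∧ ∀ p ∈ W, z (lm q p) = y p

theorem SX_mixing : Mixing2 SX.X := by
  intro x hx y hy W
  rw [mem_SX] at hx hy
  obtain ⟨r, hr⟩ := exists_win W
  obtain ⟨C, hC, h⟩ := mixC hx hy r
  refine ⟨C, hC, fun q hq => ?_⟩
  obtain ⟨z, hz, h1, h2⟩ := h q hq
  refine ⟨ofCfg z, (mem_SX _).mpr (by rw [toCfg_ofCfg]; exact hz), fun p hp => ?_, fun p hp => ?_⟩
  · obtain ⟨e1, e2⟩ := h1 p.1 p.2 (hr p hp)
    exact Prod.ext e2 e1
  · obtain ⟨e1, e2⟩ := h2 p.1 p.2 (hr p hp)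
    have e3 : lm q p = (p.1 + q.1, tf q p.2) := lm_tf q p.1 p.2
    rw [e3]
    exact Prod.ext e2 e1

lemma Mixing.two {Q : Type*} {X : Set ((ℤ × K) → Q)} (h : Mixing X) : Mixing2 X := by
  intro x hx y hy W
  obtain ⟨C, hC, h⟩ := h W
  exact ⟨C, hC, fun q hq => h q hq x hx y hy⟩

lemma prod_mixing2 {Q1 Q2 : Type*} {S1 : Sft Q1} {S2 : Sft Q2} (h1 : Mixing2 S1.X)
    (h2 : Mixing2 S2.X) : Mixing2 (S1.prod S2).X := by
  intro x hx y hy W
  rw [Sft.mem_prod] at hx hy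
  obtain ⟨C1, hC1, h1⟩ := h1 _ hx.1 _ hy.1 W
  obtain ⟨C2, hC2, h2⟩ := h2 _ hx.2 _ hy.2 W
  refine ⟨C1 ∪ C2, hC1.union hC2, fun q hq => ?_⟩
  obtain ⟨z1, hz1, a1, b1⟩ := h1 q (fun h => hq (Or.inl h))
  obtain ⟨z2, hz2, a2, b2⟩ := h2 q (fun h => hq (Or.inr h))
  refine ⟨fun p => (z1 p, z2 p), (Sft.mem_prod S1 S2 _).mpr ⟨hz1, hz2⟩, fun p hp => ?_,
    fun p hp => ?_⟩
  · exact Prod.ext (a1 p hp) (a2 p hp)
  · exact Prod.ext (b1 p hp) (b2 p hp)

section
variable (G : Subgroup (Equiv.Perm (ℤ × (ℤ →₀ ZMod 2)))) (hG : G = Subgroup.closure {tP, sP})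

include hG in
/-- Transport of a subshift of finite type on positions to the group `G`. -/
theorem to_group2 {Q : Type} [Finite Q] [Nonempty Q] (S : Sft Q)
    (hne : S.X.Nonempty) (hmix : Mixing2 S.X)
    (hfree : ∀ z ∈ S.X, ∀ q, (∀ p, z (lm q p) = z p) → q = (0, 0)) :
    ∃ k : ℕ, ∃ F : Finset G, ∃ P : Set (F → Fin k),
      (∃ x : G → Fin k, ∀ g : G, (fun h : F => x (g * (h : G))) ∈ P) ∧
      (∀ x : G → Fin k, (∀ g : G, (fun h : F => x (g * (h : G))) ∈ P) →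
        ∀ g : G, (∀ h : G, x (g⁻¹ * h) = x h) → g = 1) ∧
      (∀ x y : G → Fin k,
        (∀ g : G, (fun h : F => x (g * (h : G))) ∈ P) →
        (∀ g : G, (fun h : F => y (g * (h : G))) ∈ P) →
        ∀ W : Finset G, ∃ C : Finset G, ∀ g : G, g ∉ C →
          ∃ z : G → Fin k, (∀ g' : G, (fun h : F => z (g' * (h : G))) ∈ P) ∧
            (∀ h ∈ W, z h = x h) ∧ (∀ h ∈ W, z (g⁻¹ * h) = y h)) := by
  classical
  obtain ⟨k, ⟨e⟩⟩ := Finite.exists_equiv_fin Q
  let pe : G ≃ ℤ × K := Equiv.ofBijective (pos G) ⟨pos_inj G hG, pos_surj G hG⟩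
  have hpe : ∀ g : G, pe g = pos G g := fun g => rfl
  have hpm : ∀ g h : G, pe (g * h) = lm (pe g) (pe h) := fun g h => pos_mul G hG g h
  have hps : ∀ (g : G) (p : ℤ × K), g * pe.symm p = pe.symm (lm (pe g) p) := by
    intro g p
    apply pe.injective
    rw [hpm, Equiv.apply_symm_apply, Equiv.apply_symm_apply]
  let q0 : Q := Classical.arbitrary Q
  let F : Finset G := S.F0.image pe.symm
  let P : Set (F → Fin k) := {pat | S.loc (fun p =>
    if h : pe.symm p ∈ F then e.symm (pat ⟨pe.symm p, h⟩) else q0)}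
  -- translation between the two pictures
  have hX : ∀ x : G → Fin k, (∀ g : G, (fun h : F => x (g * (h : G))) ∈ P) ↔
      (fun p => e.symm (x (pe.symm p))) ∈ S.X := by
    intro x
    have hloc : ∀ g : G, (fun h : F => x (g * (h : G))) ∈ P ↔
        S.loc (fun p => e.symm (x (pe.symm (lm (pe g) p)))) := by
      intro g
      have hagree : ∀ p ∈ S.F0,
          (if h : pe.symm p ∈ F then e.symm (x (g * pe.symm p)) else q0) =
            e.symm (x (pe.symm (lm (pe g) p))) := by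
        intro p hp
        have : pe.symm p ∈ F := Finset.mem_image_of_mem _ hp
        rw [dif_pos this, hps]
      constructor
      · intro h
        exact S.loc_congr _ _ hagree h
      · intro h
        exact S.loc_congr _ _ (fun p hp => (hagree p hp).symm) h
    constructor
    · intro h q
      have := (hloc (pe.symm q)).mp (h _)
      rw [Equiv.apply_symm_apply] at this
      exact this
    · intro h g
      exact (hloc g).mpr (h (pe g))
  have hback : ∀ z : (ℤ × K) → Q, z ∈ S.X →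
      ∀ g : G, (fun h : F => (fun g => e (z (pe g))) (g * (h : G))) ∈ P := by
    intro z hz
    refine (hX (fun g => e (z (pe g)))).mpr ?_
    have : (fun p => e.symm (e (z (pe (pe.symm p))))) = z := by
      funext p
      rw [Equiv.symm_apply_apply, Equiv.apply_symm_apply]
    rw [this]
    exact hz
  refine ⟨k, F, P, ?_, ?_, ?_⟩
  · obtain ⟨z, hz⟩ := hne
    exact ⟨fun g => e (z (pe g)), hback z hz⟩
  · intro x hx g hg
    rw [hX] at hx
    have h0 : pe g⁻¹ = (0, 0) := by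
      apply hfree _ hx
      intro p
      have h1 := hg (pe.symm p)
      have h2 : g⁻¹ * pe.symm p = pe.symm (lm (pe g⁻¹) p) := hps _ _
      rw [h2] at h1
      show e.symm (x (pe.symm (lm (pe g⁻¹) p))) = e.symm (x (pe.symm p))
      rw [h1]
    have h4 : pe 1 = (0, 0) := by
      rw [hpe]; unfold pos
      rw [inv_one]
      rfl
    have h5 : g⁻¹ = 1 := pe.injective (by rw [h0, h4])
    exact inv_eq_one.mp h5
  · intro x y hx hy W
    rw [hX] at hx hy
    obtain ⟨C, hC, h⟩ := hmix _ hx _ hy (W.image pe)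
    have hCfin : {g : G | pe g⁻¹ ∈ C}.Finite := by
      have : Function.Injective (fun g : G => pe g⁻¹) := fun a b hab =>
        inv_injective (pe.injective hab)
      exact hC.preimage this.injOn
    refine ⟨hCfin.toFinset, fun g hg => ?_⟩
    have hg' : pe g⁻¹ ∉ C := fun h' => hg (by rw [Set.Finite.mem_toFinset]; exact h')
    obtain ⟨z, hz, h1, h2⟩ := h _ hg'
    refine ⟨fun g => e (z (pe g)), hback z hz, fun w hw => ?_, fun w hw => ?_⟩
    · have := h1 (pe w) (Finset.mem_image_of_mem _ hw)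
      simp only
      rw [this, Equiv.symm_apply_apply, Equiv.apply_symm_apply]
    · have := h2 (pe w) (Finset.mem_image_of_mem _ hw)
      simp only
      rw [hpm, this, Equiv.symm_apply_apply, Equiv.apply_symm_apply]

end

end Run7.h687.Full
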