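import Pool.Agent.Run7.h687.Full.Host

set_option autoImplicit false

namespace Run7.h687.Full
open Run7.h687.Lamp

open Classical in
/-- match the digit `i` -/
noncomputable def gs (i : ℤ) (fW f : K) : K := if f i = fW i then f else fl i f

lemma zmod2_ne {a b : ZMod 2} (h : a ≠ b) : a + 1 = b := by
  revert a b; decide

lemma gs_same (i : ℤ) (fW f : K) : (gs i fW f) i = fW i := by
  unfold gs
  split_ifs with h
  · exact h
  · rw [fl_same]; exact zmod2_ne h

lemma gs_ne {i j : ℤ} (hj : j ≠ i) (fW f : K) : (gs i fW f) j = f j := by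
  unfold gs
  split_ifs with h
  · rfl
  · exact fl_ne hj f

lemma gs_cases (i : ℤ) (fW f : K) : f = gs i fW f ∨ f = fl i (gs i fW f) := by
  unfold gs
  split_ifs with h
  · left; rfl
  · right; rw [fl_fl]

lemma gs_self {i : ℤ} {fW f : K} (h : f i = fW i) : gs i fW f = f := if_pos h

lemma gs_fl (i : ℤ) (fW f : K) : gs i fW (fl i f) = gs i fW f := by
  ext j
  by_cases hj : j = i
  · subst hj; rw [gs_same, gs_same]
  · rw [gs_ne hj, gs_ne hj, fl_ne hj]

lemma Rg_congr {p q r s p' q' r' s' : Dat} (h : Rg p q r s) (h1 : rd p' = rd p) (h2 : rd q' = rd q)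
    (h3 : rd r' = rd r) (h4 : rd s' = rd s) : Rg p' q' r' s' := by
  have row : ∀ {a b : Dat}, rd a = rd b → a.row = b.row := fun h => congrArg RD.row h
  have ea : ∀ {a b : Dat}, rd a = rd b → a.a = b.a := fun h => congrArg RD.a h
  have eb : ∀ {a b : Dat}, rd a = rd b → a.b = b.b := fun h => congrArg RD.b h
  have eA : ∀ {a b : Dat}, rd a = rd b → a.A = b.A := fun h => congrArg RD.A h
  have eB : ∀ {a b : Dat}, rd a = rd b → a.B = b.B := fun h => congrArg RD.B h
  obtain ⟨c1, c2, c3, c4, c5, c6, c7, c8, c9, c10, c11, c12, c13⟩ := h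
  refine ⟨?_, ?_, ?_, ?_, ?_, ?_, ?_, ?_, ?_, ?_, ?_, ?_, ?_⟩
  · rw [row h2, row h1, c1]
  · rw [row h4, row h3, c2]
  · rw [row h1, row h3]; exact c3
  · rw [ea h2, ea h1, c4]
  · rw [eb h2, eb h1, c5]
  · rw [eB h2, eB h1, c6]
  · rw [eb h4, eb h3, c7]
  · rw [ea h4, ea h3, c8]
  · rw [eA h4, eA h3, c9]
  · rw [eA h1, eA h3, ea h1, row h1, row h3]; exact c10
  · rw [eA h2, eA h3, ea h2, row h1, row h3]; exact c11
  · rw [eB h3, eB h1, eb h3, row h1, row h3]; exact c12
  · rw [eB h4, eB h1, eb h4, row h1, row h3]; exact c13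

lemma Wr.mod {e0 e1 t0 t1 e1' t1' : Dat} (W : Wr e0 e1 t0 t1) (h1 : e1'.hl = e1.hl)
    (h2 : e0.row.rl = true → e1'.c = e1.c) (h3 : t1'.hl = t1.hl)
    (h4 : t0.row.rl = true → t1'.c = t1.c) : Wr e0 e1' t0 t1' := by
  obtain ⟨c, fb, fr, hb, hl1, hl2, g, imp, fin1, fin2, bb⟩ := W
  refine ⟨c, fb, fr, ?_, ?_, ?_, ?_, ?_, ?_, fin2, bb⟩
  · rw [h3]; exact hb
  · rw [h3]; exact hl1
  · rw [h1]; exact hl2
  · intro hh; rw [h4 hh]; exact g hh
  · intro s t hs; rw [h2 (by rw [hs]; rfl)]; exact imp s t hs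
  · rw [h1]; exact fin1

lemma Wr.any {e0 e1 t0 t1 : Dat} (hr0 : e0.row.rl = false) (hb0 : e0.row ≠ .bot)
    (hr1 : t0.row.rl = false) (ht : t0.row ≠ .top) (c : t0.c = e0.c) (fb : t0.fb = e0.fb)
    (fr : t0.fr = e0.fr) (hb : t0.hb = e0.hb) (hl1 : t1.hl = false)
    (hl2 : e1.hl = true → t0.a = true) : Wr e0 e1 t0 t1 := by
  refine ⟨c, fb, fr, ?_, ?_, hl2, ?_, ?_, ?_, ?_, ?_⟩
  · rw [if_neg, hb]
    rintro ⟨-, h | h⟩
    · rw [hr0] at h; exact absurd h (by decide)
    · exact hb0 h
  · intro h; rw [hl1] at h; exact absurd h (by decide)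
  · intro h; rw [hr1] at h; exact absurd h (by decide)
  · intro s t h; rw [h] at hr0; simp [Row.rl] at hr0
  · intro s t h; rw [h] at hr1; simp [Row.rl] at hr1
  · intro h; exact absurd h ht
  · intro h; exact absurd h hb0

section
variable (x H : Cfg) (h0 h1 : ℤ) (fW : K)

/-- window elements -/
def Full (h : ℤ) (f : K) : Prop := h0 ≤ h ∧ h ≤ h1 ∧ Off h0 h1 f fW

/-- elements just below the window, on wires into the window -/
def LowP (h : ℤ) (f : K) : Prop := h = h0 - 1 ∧ Off h0 h1 (gs (h0 - 1) fW f) fW ∧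
  (H.up h f).a = false ∧ (x.dn h0 (gs (h0 - 1) fW f)).b = false

/-- elements just above the window, on wires out of the window -/
def HighP (h : ℤ) (f : K) : Prop := h = h1 + 1 ∧ Off h0 h1 (gs h1 fW f) fW ∧
  (H.dn h f).b = false ∧ (x.up h1 (gs h1 fW f)).a = false

open Classical in
/-- the override -/
noncomputable def ov : Cfg where
  up h f := if Full h0 h1 fW h f then x.up h f
    else if LowP x H h0 h1 fW h f then
      { H.up h f with
        c := (x.up h0 (gs (h0 - 1) fW f)).c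
        fr := (x.up h0 (gs (h0 - 1) fW f)).fr
        hb := (x.up h0 (gs (h0 - 1) fW f)).hb
        fb := (x.up h0 (gs (h0 - 1) fW f)).fb }
    else if HighP x H h0 h1 fW h f then
      { H.up h f with
        c := (x.up h1 (gs h1 fW f)).c
        fr := (x.up h1 (gs h1 fW f)).fr
        hb := (x.up h1 (gs h1 fW f)).hb
        fb := (x.up h1 (gs h1 fW f)).fb }
    else H.up h f
  dn h f := if Full h0 h1 fW h f then x.dn h f
    else if LowP x H h0 h1 fW h f then
      { H.dn h f with
        c := (x.up h0 (gs (h0 - 1) fW f)).c }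
    else if HighP x H h0 h1 fW h f then
      { H.dn h f with
        c := (x.up h1 (gs h1 fW f)).c
        fr := (x.up h1 (gs h1 fW f)).fr
        hb := (x.up h1 (gs h1 fW f)).hb
        fb := (x.up h1 (gs h1 fW f)).fb }
    else H.dn h f

/-- conditions for the override -/
structure OvOK (lo hi : ℤ) (f0 : K) (r : ℤ → Row) (Hol : ℤ → ℤ → K → Prop) : Prop where
  hO : HostOK lo hi f0 r Hol H
  hx : Rules x
  hH : Hols lo hi r Hol
  l0 : lo ≤ h0
  l01 : h0 < h1
  l1 : h1 ≤ hi
  rb : ∀ h, lo < h → h ≤ hi → r h ≠ .bot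
  rt : ∀ h, lo ≤ h → h < hi → r h ≠ .top
  cL : h0 = lo ∨ (lo < h0 - 1 ∧ (r (h0 - 1)).rl = false ∧ (r h0).rl = false)
  cU : h1 = hi ∨ (h1 + 1 < hi ∧ (r h1).rl = false ∧ (r (h1 + 1)).rl = false)
  rd1 : ∀ h g, h0 ≤ h → h ≤ h1 → h < hi → Off h0 h1 g fW → ¬ InH Hol h g →
    rd (x.up h g) = rd (H.up h g)
  rd2 : ∀ h g, h0 ≤ h → h ≤ h1 → lo < h → Off h0 h1 g fW → ¬ InH Hol (h - 1) g →
    rd (x.dn h g) = rd (H.dn h g)
  reg0 : h0 ≠ lo → ∀ g, Off h0 h1 g fW → ¬ InH Hol (h0 - 1) g → ElR (x.dn h0 g) (x.up h0 g)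
  reg1 : h1 ≠ hi → ∀ g, Off h0 h1 g fW → ¬ InH Hol h1 g → ElR (x.dn h1 g) (x.up h1 g)
  bl : h0 ≠ lo → ∀ g, Off h0 h1 (gs (h0 - 1) fW g) fW → (H.dn (h0 - 1) g).b = true
  au : h1 ≠ hi → ∀ g, Off h0 h1 (gs h1 fW g) fW → (H.up (h1 + 1) g).a = true
  e : ∀ h g, h0 ≤ h → h ≤ h1 → lo < h → h < hi → Off h0 h1 g fW → ¬ InH Hol (h - 1) g →
    ¬ InH Hol h g → ElR (x.dn h g) (x.up h g)
  hb : ∀ h g, h0 ≤ h → h ≤ h1 → lo < h → h < hi → Off h0 h1 g fW → ¬ InH Hol (h - 1) g →
    InH Hol h g → HBd (x.dn h g)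
  ht : ∀ h g, h0 ≤ h → h ≤ h1 → lo < h → h < hi → Off h0 h1 g fW → InH Hol (h - 1) g →
    ¬ InH Hol h g → HTu (x.up h g)
  bt : h0 = lo → ∀ g, Off h0 h1 g fW → HBu (x.up h0 g)
  tp : h1 = hi → ∀ g, Off h0 h1 g fW → HTd (x.dn h1 g)

variable {x H h0 h1 fW}

lemma ov_up_full {h : ℤ} {f : K} (hf : Full h0 h1 fW h f) : (ov x H h0 h1 fW).up h f = x.up h f :=
  if_pos hf

lemma ov_dn_full {h : ℤ} {f : K} (hf : Full h0 h1 fW h f) : (ov x H h0 h1 fW).dn h f = x.dn h f :=
  if_pos hf

lemma ov_up_none {h : ℤ} {f : K} (h1' : ¬ Full h0 h1 fW h f) (h2 : ¬ LowP x H h0 h1 fW h f)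
    (h3 : ¬ HighP x H h0 h1 fW h f) : (ov x H h0 h1 fW).up h f = H.up h f := by
  unfold ov
  simp only
  rw [if_neg h1', if_neg h2, if_neg h3]

lemma ov_dn_none {h : ℤ} {f : K} (h1' : ¬ Full h0 h1 fW h f) (h2 : ¬ LowP x H h0 h1 fW h f)
    (h3 : ¬ HighP x H h0 h1 fW h f) : (ov x H h0 h1 fW).dn h f = H.dn h f := by
  unfold ov
  simp only
  rw [if_neg h1', if_neg h2, if_neg h3]

lemma LowP_not_full {h : ℤ} {f : K} (hl : LowP x H h0 h1 fW h f) : ¬ Full h0 h1 fW h f := by
  intro hf
  have := hl.1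
  have := hf.1
  omega

lemma HighP_not_full {h : ℤ} {f : K} (hl : HighP x H h0 h1 fW h f) : ¬ Full h0 h1 fW h f := by
  intro hf
  have := hl.1
  have := hf.2.1
  omega

lemma HighP_not_low {h : ℤ} {f : K} (h01 : h0 < h1) (hl : HighP x H h0 h1 fW h f) :
    ¬ LowP x H h0 h1 fW h f := by
  intro hf
  have := hl.1
  have := hf.1
  omega

section
variable {lo hi : ℤ} {f0 : K} {r : ℤ → Row} {Hol : ℤ → ℤ → K → Prop}
variable (O : OvOK x H h0 h1 fW lo hi f0 r Hol)
include O

lemma ov_rd_up {h : ℤ} {g : K} (hh : h < hi) (hn : ¬ InH Hol h g) :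
    rd ((ov x H h0 h1 fW).up h g) = rd (H.up h g) := by
  by_cases c1 : Full h0 h1 fW h g
  · rw [ov_up_full c1]
    exact O.rd1 h g c1.1 c1.2.1 hh c1.2.2 hn
  · unfold ov
    simp only
    rw [if_neg c1]
    split_ifs <;> rfl

lemma ov_rd_dn {h : ℤ} {g : K} (hh : lo < h) (hn : ¬ InH Hol (h - 1) g) :
    rd ((ov x H h0 h1 fW).dn h g) = rd (H.dn h g) := by
  by_cases c1 : Full h0 h1 fW h g
  · rw [ov_dn_full c1]
    exact O.rd2 h g c1.1 c1.2.1 hh c1.2.2 hn
  · unfold ov
    simp only
    rw [if_neg c1]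
    split_ifs <;> rfl

lemma ov_rg {h : ℤ} {g : K} (h1' : lo ≤ h) (h2 : h < hi) (off : Off lo hi g f0)
    (hn : ¬ InH Hol h g) : Rg ((ov x H h0 h1 fW).up h g) ((ov x H h0 h1 fW).up h (fl h g))
      ((ov x H h0 h1 fW).dn (h + 1) g) ((ov x H h0 h1 fW).dn (h + 1) (fl h g)) := by
  have hn' : ¬ InH Hol h (fl h g) := fun h3 => hn ((InH_fl O.hH h g).mp h3)
  exact Rg_congr (O.hO.t h g h1' h2 off hn).1 (ov_rd_up O h2 hn) (ov_rd_up O h2 hn')
    (ov_rd_dn O (by omega) (by rw [add_sub_cancel_right]; exact hn))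
    (ov_rd_dn O (by omega) (by rw [add_sub_cancel_right]; exact hn'))

/-- the lower boundary -/
lemma ov_low {g : K} (hne : h0 ≠ lo) (off : Off lo hi g f0) (hg : Off h0 h1 g fW)
    (hn : ¬ InH Hol (h0 - 1) g) : (ov x H h0 h1 fW).T (h0 - 1) g := by
  obtain ⟨c1, c2, c3⟩ : lo < h0 - 1 ∧ (r (h0 - 1)).rl = false ∧ (r h0).rl = false := by
    rcases O.cL with h | h
    · exact absurd h hne
    · exact h
  have l01 := O.l01
  have l1 := O.l1
  have e0' : h0 - 1 + 1 = h0 := by ring
  have hn' : ¬ InH Hol (h0 - 1) (fl (h0 - 1) g) := fun h3 => hn ((InH_fl O.hH _ g).mp h3)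
  have off' : Off lo hi (fl (h0 - 1) g) f0 := Off.fl (by omega) (by omega) off
  have hgg : gs (h0 - 1) fW g = g := gs_self (hg _ (Or.inl (by omega)))
  have hgf : gs (h0 - 1) fW (fl (h0 - 1) g) = g := by rw [gs_fl, hgg]
  have nf : ¬ Full h0 h1 fW h0 (fl (h0 - 1) g) := by
    rintro ⟨-, -, h4⟩
    have h5 := h4 (h0 - 1) (Or.inl (by omega))
    rw [fl_same, ← hg (h0 - 1) (Or.inl (by omega))] at h5
    exact absurd h5 (by generalize g (h0 - 1) = y; revert y; decide)
  have hT := O.hO.t (h0 - 1) g (by omega) (by omega) off hn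
  apply tet_of (ov_rg O (by omega) (by omega) off hn)
  intro e0 t0 he ht ha hb
  rw [e0'] at hb ⊢
  have hTe : H.T (h0 - 1) e0 := by
    rcases he with rfl | rfl
    · exact hT
    · exact T_fl hT
  have hne0 : ¬ InH Hol (h0 - 1) e0 := by rcases he with rfl | rfl <;> assumption
  have hnt0 : ¬ InH Hol (h0 - 1) t0 := by rcases ht with rfl | rfl <;> assumption
  have hne1 : ¬ InH Hol (h0 - 1) (fl (h0 - 1) e0) := fun h3 => hne0 ((InH_fl O.hH _ _).mp h3)
  have offe : Off lo hi e0 f0 := by rcases he with rfl | rfl <;> assumption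
  have offt : Off lo hi t0 f0 := by rcases ht with rfl | rfl <;> assumption
  have rde := ov_rd_up O (show h0 - 1 < hi by omega) hne0
  have rdt := ov_rd_dn O (show lo < h0 by omega) hnt0
  have haH : (H.up (h0 - 1) e0).a = false := by
    rw [← ha]; exact (congrArg RD.a rde).symm
  have hbH : (H.dn h0 t0).b = false := by
    rw [← hb]; exact (congrArg RD.b rdt).symm
  have hge : gs (h0 - 1) fW e0 = g := by rcases he with rfl | rfl <;> assumption
  have het : t0 = e0 ∨ t0 = fl (h0 - 1) e0 := by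
    rcases he with rfl | rfl <;> rcases ht with rfl | rfl
    · left; rfl
    · right; rfl
    · right; rw [fl_fl]
    · left; rfl
  have W := wr_of_T (g := t0) hTe het haH (by rw [e0']; exact hbH)
  rw [e0'] at W
  have hrow1 : (H.up (h0 - 1) e0).row = r (h0 - 1) := O.hO.row1 _ _ (by omega) (by omega) offe hne0
  have hrow2 : (H.dn h0 t0).row = r h0 := O.hO.row2 _ _ (by omega) (by omega) offt hnt0
  have a1 : ((ov x H h0 h1 fW).up (h0 - 1) e0).row = r (h0 - 1) := by
    rw [← hrow1]; exact congrArg RD.row rde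
  have a2 : ((ov x H h0 h1 fW).dn h0 t0).row = r h0 := by
    rw [← hrow2]; exact congrArg RD.row rdt
  -- `e1` is not modified
  have he1 : (ov x H h0 h1 fW).up (h0 - 1) (fl (h0 - 1) e0) = H.up (h0 - 1) (fl (h0 - 1) e0) := by
    apply ov_up_none
    · intro h4; have := h4.1; omega
    · intro h4
      have h5 := h4.2.2.1
      rw [hTe.1.a1, haH] at h5
      exact absurd h5 (by decide)
    · intro h4; have := h4.1; omega
  have hl1H : (H.dn h0 (fl (h0 - 1) t0)).hl = false := by
    by_contra h4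
    have h5 := (W.hl1 (by simpa using h4)).2
    rw [hrow1, c2] at h5
    exact absurd h5 (by decide)
  have hElx := O.reg0 hne g hg hn
  rcases ht with rfl | rfl
  · -- `t0` in the window
    have hft : Full h0 h1 fW h0 t0 := ⟨le_rfl, l01.le, hg⟩
    have hbx : (x.dn h0 t0).b = false := by rw [ov_dn_full hft] at hb; exact hb
    have hL : LowP x H h0 h1 fW (h0 - 1) e0 := ⟨rfl, by rw [hge]; exact hg, haH, by rw [hge]; exact hbx⟩
    have heo : (ov x H h0 h1 fW).up (h0 - 1) e0 = { H.up (h0 - 1) e0 with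
        c := (x.up h0 t0).c
        fr := (x.up h0 t0).fr
        hb := (x.up h0 t0).hb
        fb := (x.up h0 t0).fb } := by
      unfold ov
      simp only
      rw [if_neg (LowP_not_full hL), if_pos hL, hge]
    have hto : (ov x H h0 h1 fW).dn h0 t0 = x.dn h0 t0 := ov_dn_full hft
    have ht1 : (ov x H h0 h1 fW).dn h0 (fl (h0 - 1) t0) = H.dn h0 (fl (h0 - 1) t0) := by
      apply ov_dn_none nf
      · intro h4; have := h4.1; omega
      · intro h4; have := h4.1; omega
    have hxr : (x.dn h0 t0).row = r h0 := by rw [← a2, hto]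
    obtain ⟨w1, w2, w3⟩ := hElx.w0 hbx
    apply Wr.any
    · rw [a1]; exact c2
    · rw [a1]; exact O.rb _ (by omega) (by omega)
    · rw [a2]; exact c3
    · rw [a2]; exact O.rt _ (by omega) (by omega)
    · rw [heo, hto]; exact hElx.c.symm
    · rw [heo, hto]; exact w2.symm
    · rw [heo, hto]
      show (x.dn h0 t0).fr = (x.up h0 t0).fr
      rw [w3, hxr, c3]; simp
    · rw [heo, hto]; exact w1.symm
    · rw [ht1]; exact hl1H
    · rw [he1]
      intro h4
      have h5 := W.hl2 h4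
      have h6 : ((ov x H h0 h1 fW).dn h0 t0).a = (H.dn h0 t0).a := congrArg RD.a rdt
      rw [h6]; exact h5
  · -- `t0` not in the window
    have hto : (ov x H h0 h1 fW).dn h0 (fl (h0 - 1) g) = H.dn h0 (fl (h0 - 1) g) := by
      apply ov_dn_none nf
      · intro h4; have := h4.1; omega
      · intro h4; have := h4.1; omega
    have hft : Full h0 h1 fW h0 g := ⟨le_rfl, l01.le, hg⟩
    have ht1 : (ov x H h0 h1 fW).dn h0 (fl (h0 - 1) (fl (h0 - 1) g)) = x.dn h0 g := by
      rw [fl_fl]; exact ov_dn_full hft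
    have hbx : (x.dn h0 g).b = true := by
      have h5 := O.rd2 h0 g le_rfl l01.le (by omega) hg hn
      have h6 : (x.dn h0 g).b = (H.dn h0 g).b := congrArg RD.b h5
      have h7 := hT.1.b2
      rw [e0', hbH] at h7
      rw [h6]
      revert h7
      cases (H.dn h0 g).b <;> simp
    have heo : (ov x H h0 h1 fW).up (h0 - 1) e0 = H.up (h0 - 1) e0 := by
      apply ov_up_none
      · intro h4; have := h4.1; omega
      · intro h4
        have h5 := h4.2.2.2
        rw [hge, hbx] at h5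
        exact absurd h5 (by decide)
      · intro h4; have := h4.1; omega
    apply Wr.any
    · rw [a1]; exact c2
    · rw [a1]; exact O.rb _ (by omega) (by omega)
    · rw [a2]; exact c3
    · rw [a2]; exact O.rt _ (by omega) (by omega)
    · rw [heo, hto]; exact W.c
    · rw [heo, hto]; exact W.fb
    · rw [heo, hto]; exact W.fr
    · rw [heo, hto]
      have := W.hb
      rw [if_neg] at this
      · exact this
      · rintro ⟨-, h4 | h4⟩
        · rw [hrow1, c2] at h4; exact absurd h4 (by decide)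
        · rw [hrow1] at h4; exact O.rb _ (by omega) (by omega) h4
    · rw [ht1]; exact hElx.hl1
    · rw [he1, hto]; exact W.hl2

/-- the upper boundary -/
lemma ov_high {g : K} (hne : h1 ≠ hi) (off : Off lo hi g f0) (hg : Off h0 h1 g fW)
    (hn : ¬ InH Hol h1 g) : (ov x H h0 h1 fW).T h1 g := by
  obtain ⟨c1, c2, c3⟩ : h1 + 1 < hi ∧ (r h1).rl = false ∧ (r (h1 + 1)).rl = false := by
    rcases O.cU with h | h
    · exact absurd h hne
    · exact h
  have l0 := O.l0
  have l01 := O.l01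
  have hn' : ¬ InH Hol h1 (fl h1 g) := fun h3 => hn ((InH_fl O.hH _ g).mp h3)
  have off' : Off lo hi (fl h1 g) f0 := Off.fl (by omega) (by omega) off
  have hgg : gs h1 fW g = g := gs_self (hg _ (Or.inr le_rfl))
  have hgf : gs h1 fW (fl h1 g) = g := by rw [gs_fl, hgg]
  have nf : ¬ Full h0 h1 fW h1 (fl h1 g) := by
    rintro ⟨-, -, h4⟩
    have h5 := h4 h1 (Or.inr le_rfl)
    rw [fl_same, ← hg h1 (Or.inr le_rfl)] at h5
    exact absurd h5 (by generalize g h1 = y; revert y; decide)
  have hT := O.hO.t h1 g (by omega) (by omega) off hn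
  apply tet_of (ov_rg O (by omega) (by omega) off hn)
  intro e0 t0 he ht ha hb
  have hTe : H.T h1 e0 := by
    rcases he with rfl | rfl
    · exact hT
    · exact T_fl hT
  have hne0 : ¬ InH Hol h1 e0 := by rcases he with rfl | rfl <;> assumption
  have hnt0 : ¬ InH Hol h1 t0 := by rcases ht with rfl | rfl <;> assumption
  have offe : Off lo hi e0 f0 := by rcases he with rfl | rfl <;> assumption
  have offt : Off lo hi t0 f0 := by rcases ht with rfl | rfl <;> assumption
  have rde := ov_rd_up O (show h1 < hi by omega) hne0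
  have rdt := ov_rd_dn O (h := h1 + 1) (show lo < h1 + 1 by omega)
    (by rw [add_sub_cancel_right]; exact hnt0)
  have haH : (H.up h1 e0).a = false := by
    rw [← ha]; exact (congrArg RD.a rde).symm
  have hbH : (H.dn (h1 + 1) t0).b = false := by
    rw [← hb]; exact (congrArg RD.b rdt).symm
  have hgt : gs h1 fW t0 = g := by rcases ht with rfl | rfl <;> assumption
  have het : t0 = e0 ∨ t0 = fl h1 e0 := by
    rcases he with rfl | rfl <;> rcases ht with rfl | rfl
    · left; rfl
    · right; rfl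
    · right; rw [fl_fl]
    · left; rfl
  have W := wr_of_T (g := t0) hTe het haH hbH
  have hrow1 : (H.up h1 e0).row = r h1 := O.hO.row1 _ _ (by omega) (by omega) offe hne0
  have hrow2 : (H.dn (h1 + 1) t0).row = r (h1 + 1) :=
    O.hO.row2 _ _ (by omega) (by omega) offt (by rw [add_sub_cancel_right]; exact hnt0)
  have a1 : ((ov x H h0 h1 fW).up h1 e0).row = r h1 := by
    rw [← hrow1]; exact congrArg RD.row rde
  have a2 : ((ov x H h0 h1 fW).dn (h1 + 1) t0).row = r (h1 + 1) := by
    rw [← hrow2]; exact congrArg RD.row rdt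
  -- `t1` is not modified
  have ht1 : (ov x H h0 h1 fW).dn (h1 + 1) (fl h1 t0) = H.dn (h1 + 1) (fl h1 t0) := by
    apply ov_dn_none
    · intro h4; have := h4.2.1; omega
    · intro h4; have := h4.1; omega
    · intro h4
      have h5 := h4.2.2.1
      have hTt : H.T h1 t0 := by
        rcases het with rfl | rfl
        · exact hTe
        · exact T_fl hTe
      rw [hTt.1.b2, hbH] at h5
      exact absurd h5 (by decide)
  have hl1H : (H.dn (h1 + 1) (fl h1 t0)).hl = false := by
    by_contra h4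
    have h5 := (W.hl1 (by simpa using h4)).2
    rw [hrow1, c2] at h5
    exact absurd h5 (by decide)
  have hElx := O.reg1 hne g hg hn
  rcases he with rfl | rfl
  · -- `e0` in the window
    have hft : Full h0 h1 fW h1 e0 := ⟨l01.le, le_rfl, hg⟩
    have hax : (x.up h1 e0).a = false := by rw [ov_up_full hft] at ha; exact ha
    have hL : HighP x H h0 h1 fW (h1 + 1) t0 :=
      ⟨rfl, by rw [hgt]; exact hg, hbH, by rw [hgt]; exact hax⟩
    have hto : (ov x H h0 h1 fW).dn (h1 + 1) t0 = { H.dn (h1 + 1) t0 with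
        c := (x.up h1 e0).c
        fr := (x.up h1 e0).fr
        hb := (x.up h1 e0).hb
        fb := (x.up h1 e0).fb } := by
      unfold ov
      simp only
      rw [if_neg (HighP_not_full hL), if_neg (HighP_not_low l01 hL), if_pos hL, hgt]
    have heo : (ov x H h0 h1 fW).up h1 e0 = x.up h1 e0 := ov_up_full hft
    have he1 : (ov x H h0 h1 fW).up h1 (fl h1 e0) = H.up h1 (fl h1 e0) := by
      apply ov_up_none nf
      · intro h4; have := h4.1; omega
      · intro h4; have := h4.1; omega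
    apply Wr.any
    · rw [a1]; exact c2
    · rw [a1]; exact O.rb _ (by omega) (by omega)
    · rw [a2]; exact c3
    · rw [a2]; exact O.rt _ (by omega) (by omega)
    · rw [heo, hto]
    · rw [heo, hto]
    · rw [heo, hto]
    · rw [heo, hto]
    · rw [ht1]; exact hl1H
    · rw [he1]
      intro h4
      have h5 := W.hl2 h4
      have h6 : ((ov x H h0 h1 fW).dn (h1 + 1) t0).a = (H.dn (h1 + 1) t0).a := congrArg RD.a rdt
      rw [h6]; exact h5
  · -- `e0` not in the window
    have heo : (ov x H h0 h1 fW).up h1 (fl h1 g) = H.up h1 (fl h1 g) := by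
      apply ov_up_none nf
      · intro h4; have := h4.1; omega
      · intro h4; have := h4.1; omega
    have hft : Full h0 h1 fW h1 g := ⟨l01.le, le_rfl, hg⟩
    have he1 : (ov x H h0 h1 fW).up h1 (fl h1 (fl h1 g)) = x.up h1 g := by
      rw [fl_fl]; exact ov_up_full hft
    have hax : (x.up h1 g).a = true := by
      have h5 := O.rd1 h1 g l01.le le_rfl (by omega) hg hn
      have h6 : (x.up h1 g).a = (H.up h1 g).a := congrArg RD.a h5
      have h7 := hT.1.a1
      rw [haH] at h7
      rw [h6]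
      revert h7
      cases (H.up h1 g).a <;> simp
    have hto : (ov x H h0 h1 fW).dn (h1 + 1) t0 = H.dn (h1 + 1) t0 := by
      apply ov_dn_none
      · intro h4; have := h4.2.1; omega
      · intro h4; have := h4.1; omega
      · intro h4
        have h5 := h4.2.2.2
        rw [hgt, hax] at h5
        exact absurd h5 (by decide)
    apply Wr.any
    · rw [a1]; exact c2
    · rw [a1]; exact O.rb _ (by omega) (by omega)
    · rw [a2]; exact c3
    · rw [a2]; exact O.rt _ (by omega) (by omega)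
    · rw [heo, hto]; exact W.c
    · rw [heo, hto]; exact W.fb
    · rw [heo, hto]; exact W.fr
    · rw [heo, hto]
      have := W.hb
      rw [if_neg] at this
      · exact this
      · rintro ⟨-, h4 | h4⟩
        · rw [hrow1, c2] at h4; exact absurd h4 (by decide)
        · rw [hrow1] at h4; exact O.rb _ (by omega) (by omega) h4
    · rw [ht1]; exact hl1H
    · rw [he1, hto]
      intro h4
      rw [hElx.hl2] at h4
      exact absurd h4 (by decide)

/-- all tetrahedra -/
lemma ov_t {h : ℤ} {g : K} (hlo : lo ≤ h) (hhi : h < hi) (off : Off lo hi g f0)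
    (hn : ¬ InH Hol h g) : (ov x H h0 h1 fW).T h g := by
  have l0 := O.l0
  have l01 := O.l01
  have l1 := O.l1
  by_cases q1 : h0 ≤ h ∧ h < h1 ∧ Off h0 h1 g fW
  · obtain ⟨b1, b2, b3⟩ := q1
    have b4 : Off h0 h1 (fl h g) fW := Off.fl b1 b2 b3
    unfold Cfg.T
    rw [ov_up_full ⟨b1, b2.le, b3⟩, ov_up_full ⟨b1, b2.le, b4⟩,
      ov_dn_full ⟨by omega, by omega, b3⟩, ov_dn_full ⟨by omega, by omega, b4⟩]
    exact O.hx.t h g
  by_cases q2 : h = h0 - 1 ∧ Off h0 h1 (gs (h0 - 1) fW g) fW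
  · obtain ⟨rfl, b3⟩ := q2
    have hne : h0 ≠ lo := by omega
    rcases gs_cases (h0 - 1) fW g with hg | hg
    · rw [← hg] at b3
      exact ov_low O hne off b3 hn
    · set g' := gs (h0 - 1) fW g with hg'
      have hn2 : ¬ InH Hol (h0 - 1) g' := fun h3 => hn (by
        rw [hg]; exact (InH_fl O.hH _ _).mpr h3)
      have off2 : Off lo hi g' f0 := by
        have : g' = fl (h0 - 1) g := by rw [hg, fl_fl]
        rw [this]
        exact Off.fl hlo hhi off
      rw [hg]
      exact T_fl (ov_low O hne off2 b3 hn2)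
  by_cases q3 : h = h1 ∧ Off h0 h1 (gs h1 fW g) fW
  · obtain ⟨rfl, b3⟩ := q3
    have hne : h ≠ hi := by omega
    rcases gs_cases h fW g with hg | hg
    · rw [← hg] at b3
      exact ov_high O hne off b3 hn
    · set g' := gs h fW g with hg'
      have hn2 : ¬ InH Hol h g' := fun h3 => hn (by
        rw [hg]; exact (InH_fl O.hH _ _).mpr h3)
      have off2 : Off lo hi g' f0 := by
        have : g' = fl h g := by rw [hg, fl_fl]
        rw [this]
        exact Off.fl hlo hhi off
      rw [hg]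
      exact T_fl (ov_high O hne off2 b3 hn2)
  -- the remaining cases
  have hT := O.hO.t h g hlo hhi off hn
  apply tet_of (ov_rg O hlo hhi off hn)
  intro e0 t0 he ht ha hb
  have hTe : H.T h e0 := by
    rcases he with rfl | rfl
    · exact hT
    · exact T_fl hT
  have hn' : ¬ InH Hol h (fl h g) := fun h3 => hn ((InH_fl O.hH _ g).mp h3)
  have off' : Off lo hi (fl h g) f0 := Off.fl hlo hhi off
  have hne0 : ¬ InH Hol h e0 := by rcases he with rfl | rfl <;> assumption
  have hnt0 : ¬ InH Hol h t0 := by rcases ht with rfl | rfl <;> assumption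
  have offe : Off lo hi e0 f0 := by rcases he with rfl | rfl <;> assumption
  have offt : Off lo hi t0 f0 := by rcases ht with rfl | rfl <;> assumption
  have rde := ov_rd_up O hhi hne0
  have rdt := ov_rd_dn O (h := h + 1) (show lo < h + 1 by omega)
    (by rw [add_sub_cancel_right]; exact hnt0)
  have haH : (H.up h e0).a = false := by
    rw [← ha]; exact (congrArg RD.a rde).symm
  have hbH : (H.dn (h + 1) t0).b = false := by
    rw [← hb]; exact (congrArg RD.b rdt).symm
  have het : t0 = e0 ∨ t0 = fl h e0 := by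
    rcases he with rfl | rfl <;> rcases ht with rfl | rfl
    · left; rfl
    · right; rfl
    · right; rw [fl_fl]
    · left; rfl
  have W := wr_of_T (g := t0) hTe het haH hbH
  have hrow1 : (H.up h e0).row = r h := O.hO.row1 _ _ hlo hhi offe hne0
  have hrow2 : (H.dn (h + 1) t0).row = r (h + 1) :=
    O.hO.row2 _ _ (by omega) (by omega) offt (by rw [add_sub_cancel_right]; exact hnt0)
  -- elements of this tetrahedron are not in the window, except for harmless changes
  have gsx : ∀ (e : K), (e = g ∨ e = fl h g) → Off h0 h1 (gs h fW e) fW →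
      Off h0 h1 (gs h fW g) fW := by
    rintro e (rfl | rfl) hoff
    · exact hoff
    · rwa [gs_fl] at hoff
  have memfl : ∀ e : K, (e = g ∨ e = fl h g) → (fl h e = g ∨ fl h e = fl h g) := by
    rintro e (rfl | rfl)
    · right; rfl
    · left; rw [fl_fl]
  have nfull : ∀ e : K, (e = g ∨ e = fl h g) → h0 ≤ h → h < h1 → ¬ Off h0 h1 e fW := by
    rintro e (rfl | rfl) b1 b2 hoff
    · exact q1 ⟨b1, b2, hoff⟩
    · apply q1
      refine ⟨b1, b2, ?_⟩
      have := Off.fl b1 b2 hoff
      rwa [fl_fl] at this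
  have nU : ∀ e : K, (e = g ∨ e = fl h g) → ¬ Full h0 h1 fW h e := by
    rintro e hmem ⟨b1, b2, b3⟩
    rcases eq_or_lt_of_le b2 with b4 | b4
    · apply q3
      refine ⟨b4, ?_⟩
      subst b4
      apply gsx e hmem
      rw [gs_self (b3 h (Or.inr le_rfl))]
      exact b3
    · exact nfull e hmem b1 b4 b3
  have nUL : ∀ e : K, (e = g ∨ e = fl h g) → ¬ LowP x H h0 h1 fW h e := by
    rintro e hmem ⟨b1, b2, -⟩
    apply q2
    refine ⟨b1, ?_⟩
    subst b1
    exact gsx e hmem b2
  have nD : ∀ e : K, (e = g ∨ e = fl h g) → ¬ Full h0 h1 fW (h + 1) e := by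
    rintro e hmem ⟨b1, b2, b3⟩
    by_cases b4 : h0 ≤ h
    · exact nfull e hmem b4 (by omega) b3
    · have b5 : h = h0 - 1 := by omega
      apply q2
      refine ⟨b5, ?_⟩
      subst b5
      apply gsx e hmem
      rw [gs_self (b3 _ (Or.inl (by omega)))]
      exact b3
  have nDH : ∀ e : K, (e = g ∨ e = fl h g) → ¬ HighP x H h0 h1 fW (h + 1) e := by
    rintro e hmem ⟨b1, b2, -⟩
    have b4 : h = h1 := by omega
    apply q3
    refine ⟨b4, ?_⟩
    subst b4
    exact gsx e hmem b2
  -- `e0` is unchanged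
  have heo : (ov x H h0 h1 fW).up h e0 = H.up h e0 := by
    apply ov_up_none (nU e0 he) (nUL e0 he)
    rintro ⟨b1, b2, -⟩
    subst b1
    have := O.au (by omega) e0 b2
    rw [haH] at this
    exact absurd this (by decide)
  have hto : (ov x H h0 h1 fW).dn (h + 1) t0 = H.dn (h + 1) t0 := by
    refine ov_dn_none (nD t0 ht) ?_ (nDH t0 ht)
    rintro ⟨b1, b2, -⟩
    have b3 := O.bl (by omega) t0 b2
    rw [← b1, hbH] at b3
    exact absurd b3 (by decide)
  rw [heo, hto]
  apply W.mod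
  · -- `e1`
    unfold ov
    simp only
    rw [if_neg (nU _ (memfl e0 he)), if_neg (nUL _ (memfl e0 he))]
    split_ifs <;> rfl
  · intro hr
    rw [hrow1] at hr
    rw [ov_up_none (nU _ (memfl e0 he)) (nUL _ (memfl e0 he))]
    rintro ⟨b1, -⟩
    rcases O.cU with c | c
    · omega
    · rw [b1, c.2.2] at hr
      exact absurd hr (by decide)
  · unfold ov
    simp only
    rw [if_neg (nD _ (memfl t0 ht))]
    split_ifs <;> rfl
  · intro hr
    rw [hrow2] at hr
    rw [ov_dn_none (nD _ (memfl t0 ht)) _ (nDH _ (memfl t0 ht))]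
    rintro ⟨b1, -⟩
    rcases O.cL with c | c
    · omega
    · rw [b1, c.2.1] at hr
      exact absurd hr (by decide)

theorem ov_host : HostOK lo hi f0 r Hol (ov x H h0 h1 fW) := by
  have l0 := O.l0
  have l01 := O.l01
  have l1 := O.l1
  have hO := O.hO
  refine ⟨hO.lt, hO.nx, fun h g a1 a2 a3 a4 => ov_t O a1 a2 a3 a4, ?_, ?_, ?_, ?_, ?_, ?_, ?_, ?_, ?_⟩
  · intro h g a1 a2 a3 a4 a5
    have hE := hO.e h g a1 a2 a3 a4 a5
    by_cases c1 : Full h0 h1 fW h g
    · rw [ov_up_full c1, ov_dn_full c1]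
      exact O.e h g c1.1 c1.2.1 a1 a2 c1.2.2 a4 a5
    have hrow : (H.dn h g).row = r h := hO.row2 h g a1 a2.le a3 a4
    by_cases c2 : LowP x H h0 h1 fW h g
    · unfold ov
      simp only
      rw [if_neg c1, if_neg c1, if_pos c2, if_pos c2]
      obtain ⟨b1, b2, b3, b4⟩ := c2
      subst b1
      have hbt := O.bl (by omega) g b2
      refine ⟨hE.row, hE.nb, hE.nt, hE.a, hE.b, hE.A, hE.B, rfl, hE.g, hE.hl1, hE.hl2, ?_, ?_⟩
      · intro hb
        have hb' : (H.dn (h0 - 1) g).b = false := hb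
        rw [hbt] at hb'; exact absurd hb' (by decide)
      · intro _ hr
        have hr' : (H.dn (h0 - 1) g).row.rl = true := hr
        rw [hrow] at hr'
        rcases O.cL with c | c
        · omega
        · rw [c.2.1] at hr'; exact absurd hr' (by decide)
    by_cases c3 : HighP x H h0 h1 fW h g
    · unfold ov
      simp only
      rw [if_neg c1, if_neg c1, if_neg c2, if_neg c2, if_pos c3, if_pos c3]
      obtain ⟨b1, b2, b3, b4⟩ := c3
      subst b1
      have hrr : (H.dn (h1 + 1) g).row.rl = false := by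
        rw [hrow]
        rcases O.cU with c | c
        · omega
        · exact c.2.2
      refine ⟨hE.row, hE.nb, hE.nt, hE.a, hE.b, hE.A, hE.B, rfl, hE.g, hE.hl1, hE.hl2, ?_, ?_⟩
      · intro _
        refine ⟨rfl, rfl, ?_⟩
        show (x.up h1 (gs h1 fW g)).fr = ((x.up h1 (gs h1 fW g)).fr && !(H.dn (h1 + 1) g).row.rl)
        rw [hrr]; simp
      · intro hb
        have hb' : (H.dn (h1 + 1) g).b = true := hb
        rw [b3] at hb'; exact absurd hb' (by decide)
    rw [ov_up_none c1 c2 c3, ov_dn_none c1 c2 c3]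
    exact hE
  · intro h g a1 a2 a3 a4 a5
    have hE := hO.hb h g a1 a2 a3 a4 a5
    by_cases c1 : Full h0 h1 fW h g
    · rw [ov_dn_full c1]
      exact O.hb h g c1.1 c1.2.1 a1 a2 c1.2.2 a4 a5
    · unfold ov
      simp only
      rw [if_neg c1]
      split_ifs
      · exact ⟨hE.hl, hE.row, hE.b⟩
      · exact ⟨hE.hl, hE.row, hE.b⟩
      · exact hE
  · intro h g a1 a2 a3 a4 a5
    have hE := hO.ht h g a1 a2 a3 a4 a5
    by_cases c1 : Full h0 h1 fW h g
    · rw [ov_up_full c1]
      exact O.ht h g c1.1 c1.2.1 a1 a2 c1.2.2 a4 a5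
    · unfold ov
      simp only
      rw [if_neg c1]
      split_ifs
      · exact ⟨hE.hl, hE.row, hE.a⟩
      · exact ⟨hE.hl, hE.row, hE.a⟩
      · exact hE
  · intro h g a1 a2 a3 a4 a5
    have e1 := ov_rd_up O (show h < hi by omega) a4
    have e2 := ov_rd_up O (show h < hi by omega) a5
    have hP := hO.pm h g a1 a2 a3 a4 a5
    intro hM
    have r1 : ((ov x H h0 h1 fW).up h g).row = (H.up h g).row := congrArg RD.row e1
    have r2 : ((ov x H h0 h1 fW).up h g).a = (H.up h g).a := congrArg RD.a e1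
    have r3 : ((ov x H h0 h1 fW).up h (fl (h + 1) g)).a = (H.up h (fl (h + 1) g)).a :=
      congrArg RD.a e2
    rw [r2, r3]
    rw [r1] at hM
    exact hP hM
  · intro h g a1 a2 a3 a4 a5
    have e1 := ov_rd_dn O (show lo < h by omega) a4
    have e2 := ov_rd_dn O (show lo < h by omega) a5
    have hP := hO.pp h g a1 a2 a3 a4 a5
    intro hM
    have r1 : ((ov x H h0 h1 fW).dn h g).row = (H.dn h g).row := congrArg RD.row e1
    have r2 : ((ov x H h0 h1 fW).dn h g).b = (H.dn h g).b := congrArg RD.b e1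
    have r3 : ((ov x H h0 h1 fW).dn h (fl (h - 2) g)).b = (H.dn h (fl (h - 2) g)).b :=
      congrArg RD.b e2
    rw [r2, r3]
    rw [r1] at hM
    exact hP hM
  · intro h g a1 a2 a3 a4
    have e1 := ov_rd_up O a2 a4
    have r1 : ((ov x H h0 h1 fW).up h g).row = (H.up h g).row := congrArg RD.row e1
    rw [r1]
    exact hO.row1 h g a1 a2 a3 a4
  · intro h g a1 a2 a3 a4
    have e1 := ov_rd_dn O a1 a4
    have r1 : ((ov x H h0 h1 fW).dn h g).row = (H.dn h g).row := congrArg RD.row e1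
    rw [r1]
    exact hO.row2 h g a1 a2 a3 a4
  · intro g off
    by_cases c1 : Full h0 h1 fW lo g
    · rw [ov_up_full c1]
      have h5 : h0 = lo := by have := c1.1; omega
      have := O.bt h5 g c1.2.2
      rwa [h5] at this
    · rw [ov_up_none c1]
      · exact hO.bt g off
      · rintro ⟨b1, -⟩
        rcases O.cL with c | c <;> omega
      · rintro ⟨b1, -⟩
        omega
  · intro g off
    by_cases c1 : Full h0 h1 fW hi g
    · rw [ov_dn_full c1]
      have h5 : h1 = hi := by have := c1.2.1; omega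
      have := O.tp h5 g c1.2.2
      rwa [h5] at this
    · rw [ov_dn_none c1]
      · exact hO.tp g off
      · rintro ⟨b1, -⟩
        omega
      · rintro ⟨b1, -⟩
        rcases O.cU with c | c <;> omega

end

end

end Run7.h687.Full
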