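import Pool.Agent.Run7.h687.Full.Beta

set_option autoImplicit false

namespace Run7.h687.Full
open Run7.h687.Lamp

namespace RCfg
variable {S : RowSys} (C : RCfg S)

lemma DT_tri (h : ℤ) (f : K) : (∀ D, C.DT h f D) ∨ ∃ D, C.DT h f D ∧ ¬ C.DT h f (D + 1) := by
  by_contra hcon
  push Not at hcon
  obtain ⟨⟨D0, hD0⟩, h2⟩ := hcon
  apply hD0
  clear hD0
  induction D0 with
  | zero => trivial
  | succ D ih => exact h2 D ih

lemma UT_tri (h : ℤ) (f : K) : (∀ D, C.UT h f D) ∨ ∃ D, C.UT h f D ∧ ¬ C.UT h f (D + 1) := by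
  by_contra hcon
  push Not at hcon
  obtain ⟨⟨D0, hD0⟩, h2⟩ := hcon
  apply hD0
  clear hD0
  induction D0 with
  | zero => trivial
  | succ D ih => exact h2 D ih

/-- closed bricks -/
def CB (lo hi : ℤ) (f : K) : Prop := lo < hi ∧ ∀ g, Off lo hi f g → S.bt (C.up lo g).row ∧
  S.tp (C.dn hi g).row ∧ C.UT lo g (hi - 1 - lo).toNat ∧ C.DT (hi - 1) g (hi - 1 - lo).toNat

lemma closed_of {h : ℤ} {f : K} {D U : ℕ} (d : C.DT h f D) (d' : ¬ C.DT h f (D + 1))
    (u : C.UT h f U) (u' : ¬ C.UT h f (U + 1)) : C.CB (h - D) (h + 1 + U) f := by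
  refine ⟨by omega, fun g off => ?_⟩
  obtain ⟨g0, a1, a2, a3⟩ := C.down D U h f d u
  obtain ⟨g1, b1, b2, b3⟩ := C.upw U D h f u d
  have hb : S.bt (C.up (h - D) g0).row := by
    by_contra hc
    exact d' ((a3 1).mp (C.DT_one hc))
  have ht : S.tp (C.dn (h + U + 1) g1).row := by
    by_contra hc
    exact u' ((b3 1).mp (C.UT_one hc))
  have e1 : (h + 1 + (U : ℤ) - 1 - (h - D)).toNat = D + U := by omega
  have e2 : h + 1 + (U : ℤ) - 1 = h + U := by ring
  have e3 : h + 1 + (U : ℤ) = h + U + 1 := by ring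
  rw [e1, e2]
  obtain ⟨c1, c2⟩ := C.bAll (D + U) (h - D) g0 hb a2 g (by
    intro i hi
    rw [a1 i (by omega)]
    exact off i (by push_cast at hi; omega))
  obtain ⟨c3, c4⟩ := C.tAll (D + U) (h + U) g1 ht (by rw [add_comm D U]; exact b2) g (by
    intro i hi
    rw [b1 i (by push_cast at hi; omega)]
    exact off i (by push_cast at hi; omega))
  rw [e3]
  exact ⟨c1, c3, c2, c4⟩

lemma bottom_of {h : ℤ} {f : K} {D : ℕ} (d : C.DT h f D) (d' : ¬ C.DT h f (D + 1))
    (u : ∀ U, C.UT h f U) : ∀ g, (∀ i < h - D, g i = f i) → S.bt (C.up (h - D) g).row ∧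
      ∀ U, C.UT (h - D) g U := by
  intro g hg
  obtain ⟨N, hN0, hN⟩ := exists_bound f g
  have key : ∀ U : ℕ, S.bt (C.up (h - D) g).row ∧ C.UT (h - D) g U := by
    intro U
    set V : ℕ := U + (N - (h - D)).toNat + D with hV
    obtain ⟨g0, a1, a2, a3⟩ := C.down D V h f d (u V)
    have hb : S.bt (C.up (h - D) g0).row := by
      by_contra hc
      exact d' ((a3 1).mp (C.DT_one hc))
    obtain ⟨c1, c2⟩ := C.bAll (D + V) (h - D) g0 hb a2 g (by
      intro i hi
      rcases hi with hi | hi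
      · rw [a1 i (by omega), hg i hi]
      · push_cast at hi
        rw [a1 i (by omega), hN i (by omega)])
    exact ⟨c1, C.UT_le (by omega) c2⟩
  exact ⟨(key 0).1, fun U => (key U).2⟩

lemma top_of {h : ℤ} {f : K} {U : ℕ} (u : C.UT h f U) (u' : ¬ C.UT h f (U + 1))
    (d : ∀ D, C.DT h f D) : ∀ g, (∀ i ≥ h + 1 + U, g i = f i) → S.tp (C.dn (h + 1 + U) g).row ∧
      ∀ D, C.DT (h + U) g D := by
  intro g hg
  obtain ⟨N, hN0, hN⟩ := exists_bound f g
  have key : ∀ D : ℕ, S.tp (C.dn (h + 1 + U) g).row ∧ C.DT (h + U) g D := by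
    intro D
    set V : ℕ := D + (h + N).toNat + U with hV
    obtain ⟨g0, a1, a2, a3⟩ := C.upw U V h f u (d V)
    have hb : S.tp (C.dn (h + U + 1) g0).row := by
      by_contra hc
      exact u' ((a3 1).mp (C.UT_one hc))
    obtain ⟨c1, c2⟩ := C.tAll (U + V) (h + U) g0 hb a2 g (by
      intro i hi
      rcases hi with hi | hi
      · push_cast at hi
        rw [a1 i (by omega), hN i (by omega)]
      · rw [a1 i (by omega), hg i (by omega)])
    rw [show h + 1 + (U : ℤ) = h + U + 1 by ring]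
    exact ⟨c1, C.DT_le (by omega) c2⟩
  exact ⟨(key 0).1, fun U => (key U).2⟩

lemma cb_not_DT {lo hi h : ℤ} {f f0 : K} (H : C.CB lo hi f) (h1 : lo ≤ h) (h2 : h < hi)
    (off : Off lo hi f f0) : ¬ C.DT h f0 ((h - lo).toNat + 1) := by
  intro d
  obtain ⟨g, a1, a2, a3⟩ := C.down (h - lo).toNat 0 h f0 (C.DT_le (by omega) d) trivial
  have h3 := C.nb_of_DT ((a3 1).mpr d)
  rw [show h - ((h - lo).toNat : ℤ) = lo by omega] at h3 a1
  exact h3 (H.2 g (off.trans (a1.mono le_rfl (by omega)).symm)).1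

lemma cb_not_UT {lo hi h : ℤ} {f f0 : K} (H : C.CB lo hi f) (h1 : lo ≤ h) (h2 : h < hi)
    (off : Off lo hi f f0) : ¬ C.UT h f0 ((hi - 1 - h).toNat + 1) := by
  intro d
  obtain ⟨g, a1, a2, a3⟩ := C.upw (hi - 1 - h).toNat 0 h f0 (C.UT_le (by omega) d) trivial
  have h3 := C.nt_of_UT ((a3 1).mpr d)
  rw [show h + ((hi - 1 - h).toNat : ℤ) = hi - 1 by omega] at a1 h3
  rw [sub_add_cancel] at h3
  exact h3 (H.2 g (off.trans (a1.mono h1 (by omega)).symm)).2.1

/-- the two hosts of a closed brick are coextensive -/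
lemma coex2 {lo hi : ℤ} {f : K} (H : C.CB lo hi f) (L U : Option (ℤ × K)) :
    (C.LoOK L (lo - 1) f ↔ C.LoOK L hi f) ∧ (C.UpOK U (lo - 1) f ↔ C.UpOK U hi f) := by
  obtain ⟨hlh, H'⟩ := H
  obtain ⟨hb, ht, hu, hd⟩ := H' f (Off.refl _ _ _)
  set d : ℕ := (hi - 1 - lo).toNat with hdd
  have u1 := C.hostUp d lo f hb hu
  have d1 := C.hostDn d (hi - 1) f (by rw [sub_add_cancel]; exact ht) hd
  rw [sub_add_cancel] at d1
  have kd : ∀ k, C.DT hi f (d + 2 + k) ↔ C.DT (lo - 1) f k := by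
    intro k
    obtain ⟨g, a1, a2, a3⟩ := C.down (d + 2) 0 hi f d1 trivial
    have e : hi - ((d + 2 : ℕ) : ℤ) = lo - 1 := by push_cast; omega
    rw [e] at a1 a2 a3
    rw [← a3 k]
    have off : Off (lo - 1) (lo - 1 + 1 + ((d + 2 : ℕ) : ℤ)) g f := by
      refine a1.mono le_rfl (by push_cast; omega)
    exact ⟨fun h => C.ext off (C.UT_le (by omega) a2) u1 h,
      fun h => C.ext off.symm u1 (C.UT_le (by omega) a2) h⟩
  have ku : ∀ k, C.UT (lo - 1) f (d + 2 + k) ↔ C.UT hi f k := by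
    intro k
    obtain ⟨g, a1, a2, a3⟩ := C.upw (d + 2) 0 (lo - 1) f u1 trivial
    have e : lo - 1 + ((d + 2 : ℕ) : ℤ) = hi := by push_cast; omega
    rw [e] at a1 a2 a3
    rw [← a3 k]
    have off : Off (hi - ((d + 2 : ℕ) : ℤ)) (hi + 1) g f := by
      refine a1.mono (by push_cast; omega) (by omega)
    exact ⟨fun h => C.ext' off (C.DT_le (by omega) a2) d1 h,
      fun h => C.ext' off.symm d1 (C.DT_le (by omega) a2) h⟩
  have hL : C.LoOK L (lo - 1) f ↔ C.LoOK L hi f := by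
    cases L with
    | none =>
      simp only [LoOK]
      exact ⟨fun h D => C.DT_le (by omega) ((kd D).mpr (h D)), fun h D => (kd D).mp (h _)⟩
    | some p =>
      obtain ⟨l, f0⟩ := p
      simp only [LoOK]
      constructor
      · rintro ⟨b1, b2, b3, b4⟩
        have e : (hi - l).toNat = d + 2 + (lo - 1 - l).toNat := by omega
        rw [e, add_assoc (d + 2), kd, kd]
        exact ⟨by omega, b2, b3, b4⟩
      · rintro ⟨b1, b2, b3, b4⟩
        have hle : l ≤ lo - 1 := by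
          by_contra hc
          exact b3 (C.DT_le (by omega) d1)
        have e : (hi - l).toNat = d + 2 + (lo - 1 - l).toNat := by omega
        rw [e, add_assoc (d + 2), kd] at b3
        rw [e, kd] at b2
        exact ⟨hle, b2, b3, b4⟩
  have hU : C.UpOK U (lo - 1) f ↔ C.UpOK U hi f := by
    cases U with
    | none =>
      simp only [UpOK]
      exact ⟨fun h D => (ku D).mp (h _), fun h D => C.UT_le (by omega) ((ku D).mpr (h D))⟩
    | some p =>
      obtain ⟨l, f0⟩ := p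
      simp only [UpOK]
      constructor
      · rintro ⟨b1, b2, b3, b4⟩
        have hle : hi + 1 ≤ l := by
          by_contra hc
          exact b3 (C.UT_le (by omega) u1)
        have e : (l - 1 - (lo - 1)).toNat = d + 2 + (l - 1 - hi).toNat := by omega
        rw [e, add_assoc (d + 2), ku] at b3
        rw [e, ku] at b2
        exact ⟨hle, b2, b3, b4⟩
      · rintro ⟨b1, b2, b3, b4⟩
        have e : (l - 1 - (lo - 1)).toNat = d + 2 + (l - 1 - hi).toNat := by omega
        rw [e, add_assoc (d + 2), ku, ku]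
        exact ⟨by omega, b2, b3, b4⟩
  exact ⟨hL, hU⟩

/-- the two hosts of a closed brick are coextensive -/
lemma coex {lo hi : ℤ} {f : K} (H : C.CB lo hi f) (L U : Option (ℤ × K)) :
    (C.rgn L U).In (lo - 1) f ↔ (C.rgn L U).In hi f := by
  obtain ⟨hL, hU⟩ := C.coex2 H L U
  show (C.LoOK L (lo - 1) f ∧ C.UpOK U (lo - 1) f) ↔ (C.LoOK L hi f ∧ C.UpOK U hi f)
  rw [hL, hU]

/-- finite holes of a region -/
def FinHole (L U : Option (ℤ × K)) (lo hi : ℤ) (f : K) : Prop :=
  C.CB lo hi f ∧ (C.rgn L U).In (lo - 1) f ∧ (C.rgn L U).In hi f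

/-- infinite upward holes -/
def UpHole (lo : ℤ) (f : K) : Prop :=
  (∀ g, (∀ i < lo, g i = f i) → S.bt (C.up lo g).row ∧ ∀ U, C.UT lo g U) ∧
    (C.rgn none none).In (lo - 1) f

/-- infinite downward holes -/
def DnHole (hi : ℤ) (f : K) : Prop :=
  (∀ g, (∀ i ≥ hi, g i = f i) → S.tp (C.dn hi g).row ∧ ∀ D, C.DT (hi - 1) g D) ∧
    (C.rgn none none).In hi f

/-- half-infinite regions have both-infinite hosts -/
def Beta : Prop := (∀ lo f, S.bt (C.up lo f).row → (∀ U, C.UT lo f U) →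
    (C.rgn none none).In (lo - 1) f) ∧
  ∀ hi f, S.tp (C.dn hi f).row → (∀ D, C.DT (hi - 1) f D) → (C.rgn none none).In hi f

theorem plZ (hβ : C.Beta) {h0 : ℤ} {f0 : K} (T0 : (C.rgn none none).In h0 f0) (h : ℤ) (f : K) :
    (C.rgn none none).In h f ∨ (∃ lo hi, lo ≤ h ∧ h < hi ∧ C.FinHole none none lo hi f) ∨
    (∃ lo, lo ≤ h ∧ C.UpHole lo f) ∨ ∃ hi, h < hi ∧ C.DnHole hi f := by
  -- the half-infinite cases
  have caseU : ∀ (h' : ℤ) (D : ℕ), h' - D ≤ h → C.DT h' f D → ¬ C.DT h' f (D + 1) →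
      (∀ U, C.UT h' f U) → ∃ lo, lo ≤ h ∧ C.UpHole lo f := by
    intro h' D hle d d' u
    have hb := C.bottom_of d d' u
    exact ⟨h' - D, hle, hb, hβ.1 _ _ (hb f (fun _ _ => rfl)).1 (hb f (fun _ _ => rfl)).2⟩
  have caseD : ∀ (h' : ℤ) (U : ℕ), h < h' + 1 + U → C.UT h' f U → ¬ C.UT h' f (U + 1) →
      (∀ D, C.DT h' f D) → ∃ hi, h < hi ∧ C.DnHole hi f := by
    intro h' U hle u u' d
    have hb := C.top_of u u' d
    have e : h' + 1 + (U : ℤ) - 1 = h' + U := by ring
    refine ⟨h' + 1 + U, hle, ?_, ?_⟩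
    · rw [e]; exact hb
    · exact hβ.2 _ _ (hb f (fun _ _ => rfl)).1 (by rw [e]; exact (hb f (fun _ _ => rfl)).2)
  obtain ⟨N, hN0, hN⟩ := exists_bound f f0
  set M : ℤ := N + |h0| + 1 with hM
  have habs1 := neg_abs_le h0
  have habs2 := le_abs_self h0
  have finite_case : ∀ (k : ℕ) (lo hi : ℤ), C.CB lo hi f → lo ≤ h → h < hi →
      (lo + M).toNat + (M - hi).toNat ≤ k →
      (C.rgn none none).In h f ∨ (∃ lo hi, lo ≤ h ∧ h < hi ∧ C.FinHole none none lo hi f) ∨
      (∃ lo, lo ≤ h ∧ C.UpHole lo f) ∨ ∃ hi, h < hi ∧ C.DnHole hi f := by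
    intro k
    induction k with
    | zero =>
      intro lo hi hcb h1 h2 hk
      exfalso
      exact C.cb_not_DT hcb (h := h0) (f0 := f0) (by omega) (by omega)
        (fun i hi' => hN i (by omega)) (T0.1 _)
    | succ k ih =>
      intro lo hi hcb h1 h2 hk
      by_cases hM0 : lo ≤ -M ∧ M ≤ hi
      · exfalso
        exact C.cb_not_DT hcb (h := h0) (f0 := f0) (by omega) (by omega)
          (fun i hi' => hN i (by omega)) (T0.1 _)
      obtain ⟨hlh, hcb'⟩ := hcb
      obtain ⟨b1, b2, b3, b4⟩ := hcb' f (Off.refl _ _ _)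
      have hu := C.hostUp _ lo f b1 b3
      rcases C.DT_tri (lo - 1) f with hd | ⟨D, hd1, hd2⟩
      · rcases C.UT_tri (lo - 1) f with hu' | ⟨U, hu1, hu2⟩
        · right; left
          refine ⟨lo, hi, h1, h2, ⟨hlh, hcb'⟩, ⟨hd, hu'⟩, ?_⟩
          exact (C.coex ⟨hlh, hcb'⟩ none none).mp ⟨hd, hu'⟩
        · right; right; right
          have hU : (hi - 1 - lo).toNat + 2 ≤ U := by
            by_contra hc
            exact hu2 (C.UT_le (by omega) hu)
          exact caseD (lo - 1) U (by omega) hu1 hu2 hd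
      · rcases C.UT_tri (lo - 1) f with hu' | ⟨U, hu1, hu2⟩
        · right; right; left
          exact caseU (lo - 1) D (by omega) hd1 hd2 hu'
        · have hU : (hi - 1 - lo).toNat + 2 ≤ U := by
            by_contra hc
            exact hu2 (C.UT_le (by omega) hu)
          have hcl := C.closed_of hd1 hd2 hu1 hu2
          exact ih _ _ hcl (by omega) (by omega) (by omega)
  rcases C.DT_tri h f with hd | ⟨D, hd1, hd2⟩
  · rcases C.UT_tri h f with hu | ⟨U, hu1, hu2⟩
    · exact Or.inl ⟨hd, hu⟩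
    · right; right; right
      exact caseD h U (by omega) hu1 hu2 hd
  · rcases C.UT_tri h f with hu | ⟨U, hu1, hu2⟩
    · right; right; left
      exact caseU h D (by omega) hd1 hd2 hu
    · exact finite_case _ _ _ (C.closed_of hd1 hd2 hu1 hu2) (by omega) (by omega) le_rfl

theorem plU (hβ : C.Beta) {l0 : ℤ} {f0 : K}
    (hroot : ∀ g, (∀ i < l0, g i = f0 i) → S.bt (C.up l0 g).row ∧ ∀ U, C.UT l0 g U)
    (h : ℤ) (f : K) (hh : l0 ≤ h) (hf : ∀ i < l0, f i = f0 i) :
    (C.rgn (some (l0, f0)) none).In h f ∨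
      ∃ lo hi, l0 < lo ∧ lo ≤ h ∧ h < hi ∧ C.FinHole (some (l0, f0)) none lo hi f := by
  have bound : ∀ h' : ℤ, l0 ≤ h' → ¬ C.DT h' f ((h' - l0).toNat + 1) := by
    intro h' hh' d
    obtain ⟨g, a1, a2, a3⟩ := C.down (h' - l0).toNat 0 h' f (C.DT_le (by omega) d) trivial
    have h3 := C.nb_of_DT ((a3 1).mpr d)
    rw [show h' - ((h' - l0).toNat : ℤ) = l0 by omega] at h3 a1
    exact h3 (hroot g (fun i hi => by rw [a1 i (Or.inl hi), hf i hi])).1
  have caseU : ∀ (h' : ℤ) (D : ℕ), l0 ≤ h' → C.DT h' f D → ¬ C.DT h' f (D + 1) →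
      (∀ U, C.UT h' f U) → (C.rgn (some (l0, f0)) none).In h' f := by
    intro h' D hle d d' u
    have hD : D ≤ (h' - l0).toNat := by
      by_contra hc
      exact bound h' hle (C.DT_le (by omega) d)
    have hb := C.bottom_of d d' u
    by_cases heq : D = (h' - l0).toNat
    · subst heq
      exact ⟨⟨hle, d, d', hf⟩, u⟩
    · exfalso
      have := (hβ.1 _ _ (hb f (fun _ _ => rfl)).1 (hb f (fun _ _ => rfl)).2).1
      exact bound _ (by omega) (this _)
  have finite_case : ∀ (k : ℕ) (lo hi : ℤ), C.CB lo hi f → l0 ≤ lo → lo ≤ h → h < hi →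
      (lo - l0).toNat ≤ k → ∃ lo hi, l0 < lo ∧ lo ≤ h ∧ h < hi ∧
        C.FinHole (some (l0, f0)) none lo hi f := by
    intro k
    induction k with
    | zero =>
      intro lo hi hcb h0 h1 h2 hk
      exfalso
      have : lo = l0 := by omega
      subst this
      exact C.cb_not_UT hcb le_rfl (by omega) (Off.refl _ _ _) ((hroot f hf).2 _)
    | succ k ih =>
      intro lo hi hcb h0 h1 h2 hk
      by_cases heq : lo = l0
      · exfalso
        subst heq
        exact C.cb_not_UT hcb le_rfl (by omega) (Off.refl _ _ _) ((hroot f hf).2 _)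
      obtain ⟨hlh, hcb'⟩ := hcb
      obtain ⟨b1, b2, b3, b4⟩ := hcb' f (Off.refl _ _ _)
      have hu := C.hostUp _ lo f b1 b3
      rcases C.DT_tri (lo - 1) f with hd | ⟨D, hd1, hd2⟩
      · exact absurd (hd _) (bound (lo - 1) (by omega))
      · have hD : D ≤ (lo - 1 - l0).toNat := by
          by_contra hc
          exact bound (lo - 1) (by omega) (C.DT_le (by omega) hd1)
        rcases C.UT_tri (lo - 1) f with hu' | ⟨U, hu1, hu2⟩
        · have hin := caseU (lo - 1) D (by omega) hd1 hd2 hu'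
          exact ⟨lo, hi, by omega, h1, h2, ⟨hlh, hcb'⟩, hin, (C.coex ⟨hlh, hcb'⟩ _ _).mp hin⟩
        · have hU : (hi - 1 - lo).toNat + 2 ≤ U := by
            by_contra hc
            exact hu2 (C.UT_le (by omega) hu)
          exact ih _ _ (C.closed_of hd1 hd2 hu1 hu2) (by omega) (by omega) (by omega) (by omega)
  rcases C.DT_tri h f with hd | ⟨D, hd1, hd2⟩
  · exact absurd (hd _) (bound h hh)
  · have hD : D ≤ (h - l0).toNat := by
      by_contra hc
      exact bound h hh (C.DT_le (by omega) hd1)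
    rcases C.UT_tri h f with hu | ⟨U, hu1, hu2⟩
    · exact Or.inl (caseU h D hh hd1 hd2 hu)
    · right
      exact finite_case _ _ _ (C.closed_of hd1 hd2 hu1 hu2) (by omega) (by omega) (by omega) le_rfl

theorem plD (hβ : C.Beta) {l0 : ℤ} {f0 : K}
    (hroot : ∀ g, (∀ i ≥ l0, g i = f0 i) → S.tp (C.dn l0 g).row ∧ ∀ D, C.DT (l0 - 1) g D)
    (h : ℤ) (f : K) (hh : h < l0) (hf : ∀ i ≥ l0, f i = f0 i) :
    (C.rgn none (some (l0, f0))).In h f ∨
      ∃ lo hi, hi < l0 ∧ lo ≤ h ∧ h < hi ∧ C.FinHole none (some (l0, f0)) lo hi f := by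
  have bound : ∀ h' : ℤ, h' < l0 → ¬ C.UT h' f ((l0 - 1 - h').toNat + 1) := by
    intro h' hh' d
    obtain ⟨g, a1, a2, a3⟩ := C.upw (l0 - 1 - h').toNat 0 h' f (C.UT_le (by omega) d) trivial
    have h3 := C.nt_of_UT ((a3 1).mpr d)
    rw [show h' + ((l0 - 1 - h').toNat : ℤ) = l0 - 1 by omega] at h3 a1
    rw [sub_add_cancel] at h3
    exact h3 (hroot g (fun i hi => by rw [a1 i (Or.inr (by omega)), hf i hi])).1
  have caseD : ∀ (h' : ℤ) (U : ℕ), h' < l0 → C.UT h' f U → ¬ C.UT h' f (U + 1) →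
      (∀ D, C.DT h' f D) → (C.rgn none (some (l0, f0))).In h' f := by
    intro h' U hle u u' d
    have hD : U ≤ (l0 - 1 - h').toNat := by
      by_contra hc
      exact bound h' hle (C.UT_le (by omega) u)
    have hb := C.top_of u u' d
    by_cases heq : U = (l0 - 1 - h').toNat
    · subst heq
      exact ⟨d, ⟨by omega, u, u', hf⟩⟩
    · exfalso
      have e : h' + 1 + (U : ℤ) - 1 = h' + U := by ring
      have := (hβ.2 _ _ (hb f (fun _ _ => rfl)).1 (by rw [e]; exact (hb f (fun _ _ => rfl)).2)).2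
      exact bound _ (by omega) (this _)
  have finite_case : ∀ (k : ℕ) (lo hi : ℤ), C.CB lo hi f → hi ≤ l0 → lo ≤ h → h < hi →
      (l0 - hi).toNat ≤ k → ∃ lo hi, hi < l0 ∧ lo ≤ h ∧ h < hi ∧
        C.FinHole none (some (l0, f0)) lo hi f := by
    intro k
    induction k with
    | zero =>
      intro lo hi hcb h0 h1 h2 hk
      exfalso
      have : hi = l0 := by omega
      subst this
      exact C.cb_not_DT hcb (show lo ≤ hi - 1 by omega) (by omega) (Off.refl _ _ _)
        ((hroot f hf).2 _)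
    | succ k ih =>
      intro lo hi hcb h0 h1 h2 hk
      by_cases heq : hi = l0
      · exfalso
        subst heq
        exact C.cb_not_DT hcb (show lo ≤ hi - 1 by omega) (by omega) (Off.refl _ _ _)
          ((hroot f hf).2 _)
      obtain ⟨hlh, hcb'⟩ := hcb
      obtain ⟨b1, b2, b3, b4⟩ := hcb' f (Off.refl _ _ _)
      have hd := C.hostDn _ (hi - 1) f (by rw [sub_add_cancel]; exact b2) b4
      rw [sub_add_cancel] at hd
      rcases C.UT_tri hi f with hu | ⟨U, hu1, hu2⟩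
      · exact absurd (hu _) (bound hi (by omega))
      · have hD : U ≤ (l0 - 1 - hi).toNat := by
          by_contra hc
          exact bound hi (by omega) (C.UT_le (by omega) hu1)
        rcases C.DT_tri hi f with hd' | ⟨D, hd1, hd2⟩
        · have hin := caseD hi U (by omega) hu1 hu2 hd'
          exact ⟨lo, hi, by omega, h1, h2, ⟨hlh, hcb'⟩, (C.coex ⟨hlh, hcb'⟩ _ _).mpr hin, hin⟩
        · have hU : (hi - 1 - lo).toNat + 2 ≤ D := by
            by_contra hc
            exact hd2 (C.DT_le (by omega) hd)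
          exact ih _ _ (C.closed_of hd1 hd2 hu1 hu2) (by omega) (by omega) (by omega) (by omega)
  rcases C.UT_tri h f with hu | ⟨U, hu1, hu2⟩
  · exact absurd (hu _) (bound h hh)
  · have hD : U ≤ (l0 - 1 - h).toNat := by
      by_contra hc
      exact bound h hh (C.UT_le (by omega) hu1)
    rcases C.DT_tri h f with hd | ⟨D, hd1, hd2⟩
    · exact Or.inl (caseD h U hh hu1 hu2 hd)
    · right
      exact finite_case _ _ _ (C.closed_of hd1 hd2 hu1 hu2) (by omega) (by omega) (by omega) le_rfl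

end RCfg

theorem betaC {x : Cfg} (hx : Rules x) : (toR x hx).Beta :=
  ⟨fun _ _ h1 h2 => beta h1 h2, fun _ _ h1 h2 => beta' h1 h2⟩

end Run7.h687.Full
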