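import Pool.Agent.Run7.h687.Full.PL

set_option autoImplicit false

namespace Run7.h687.Full
open Run7.h687.Lamp

namespace RCfg
variable {S : RowSys} (C : RCfg S)

lemma cb_inv {lo hi : ℤ} {f g : K} (H : C.CB lo hi f) (off : Off lo hi f g) : C.CB lo hi g :=
  ⟨H.1, fun g' o => H.2 g' (off.trans o)⟩

lemma finHole_inv {L U : Option (ℤ × K)} {lo hi : ℤ} {f g : K} (H : C.FinHole L U lo hi f)
    (off : Off lo hi f g) : C.FinHole L U lo hi g := by
  obtain ⟨cb, h1, h2⟩ := H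
  have cbg := C.cb_inv cb off
  obtain ⟨hb, ht, hu, hd⟩ := cb.2 f (Off.refl _ _ _)
  obtain ⟨hb', ht', hu', hd'⟩ := cbg.2 g (Off.refl _ _ _)
  have hlh := cb.1
  set d : ℕ := (hi - 1 - lo).toNat with hdd
  have u1 := C.hostUp d lo f hb hu
  have u1' := C.hostUp d lo g hb' hu'
  have d1 := C.hostDn d (hi - 1) f (by rw [sub_add_cancel]; exact ht) hd
  have d1' := C.hostDn d (hi - 1) g (by rw [sub_add_cancel]; exact ht') hd'
  rw [sub_add_cancel] at d1 d1'
  have kd : ∀ k, C.DT (lo - 1) f k ↔ C.DT (lo - 1) g k := by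
    intro k
    have o : Off (lo - 1) (lo - 1 + 1 + ((d + 2 : ℕ) : ℤ)) f g :=
      off.mono (by omega) (by push_cast; omega)
    exact ⟨fun h => C.ext o u1 u1' h, fun h => C.ext o.symm u1' u1 h⟩
  have ku : ∀ k, C.UT hi f k ↔ C.UT hi g k := by
    intro k
    have o : Off (hi - ((d + 2 : ℕ) : ℤ)) (hi + 1) f g :=
      off.mono (by push_cast; omega) (by omega)
    exact ⟨fun h => C.ext' o d1 d1' h, fun h => C.ext' o.symm d1' d1 h⟩
  have hL : C.LoOK L (lo - 1) g := by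
    have := h1.1
    cases L with
    | none => exact fun D => (kd D).mp (this D)
    | some p =>
      obtain ⟨l, f0⟩ := p
      obtain ⟨a1, a2, a3, a4⟩ := this
      exact ⟨a1, (kd _).mp a2, fun h => a3 ((kd _).mpr h),
        fun i hi' => by rw [← off i (by omega)]; exact a4 i hi'⟩
  have hU : C.UpOK U hi g := by
    have := h2.2
    cases U with
    | none => exact fun D => (ku D).mp (this D)
    | some p =>
      obtain ⟨l, f0⟩ := p
      obtain ⟨a1, a2, a3, a4⟩ := this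
      exact ⟨a1, (ku _).mp a2, fun h => a3 ((ku _).mpr h),
        fun i hi' => by rw [← off i (by omega)]; exact a4 i hi'⟩
  obtain ⟨c1, c2⟩ := C.coex2 cbg L U
  exact ⟨cbg, ⟨hL, c2.mpr hU⟩, ⟨c1.mp hL, hU⟩⟩

/-- region tetrahedra are not inside closed bricks which lie higher than the region's bottom -/
lemma not_in_cb {L U : Option (ℤ × K)} {lo hi h : ℤ} {f g : K} (H : C.FinHole L U lo hi f)
    (off : Off lo hi f g) (h1 : lo ≤ h) (h2 : h < hi) : ¬ (C.rgn L U).In h g := by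
  intro hin
  have hlo := H.2.1.1
  have hd := hin.1
  apply C.cb_not_DT H.1 h1 h2 off
  cases L with
  | none => exact hd _
  | some p =>
    obtain ⟨l, f0⟩ := p
    obtain ⟨a1, a2, a3, a4⟩ := hlo
    obtain ⟨b1, b2, b3, b4⟩ := hd
    exact C.DT_le (by omega) b2

lemma finHole_uniq {L U : Option (ℤ × K)} {lo hi lo' hi' h : ℤ} {g : K}
    (H : C.FinHole L U lo hi g) (H' : C.FinHole L U lo' hi' g) (h1 : lo ≤ h) (h2 : h < hi)
    (h1' : lo' ≤ h) (h2' : h < hi') : lo = lo' ∧ hi = hi' := by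
  have e1 : ¬ lo < lo' := fun hh =>
    C.not_in_cb H (Off.refl _ _ _) (show lo ≤ lo' - 1 by omega) (by omega) H'.2.1
  have e2 : ¬ lo' < lo := fun hh =>
    C.not_in_cb H' (Off.refl _ _ _) (show lo' ≤ lo - 1 by omega) (by omega) H.2.1
  have e3 : ¬ hi < hi' := fun hh =>
    C.not_in_cb H' (Off.refl _ _ _) (show lo' ≤ hi by omega) (by omega) H.2.2
  have e4 : ¬ hi' < hi := fun hh =>
    C.not_in_cb H (Off.refl _ _ _) (show lo ≤ hi' by omega) (by omega) H'.2.2
  omega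

/-- tetrahedra above an infinite hole bottom -/
lemma upHole_not_DT {lo h : ℤ} {f g : K} (H : C.UpHole lo f) (h1 : lo ≤ h)
    (off : ∀ i < lo, g i = f i) : ¬ C.DT h g ((h - lo).toNat + 1) := by
  intro d
  obtain ⟨g', a1, a2, a3⟩ := C.down (h - lo).toNat 0 h g (C.DT_le (by omega) d) trivial
  have h3 := C.nb_of_DT ((a3 1).mpr d)
  rw [show h - ((h - lo).toNat : ℤ) = lo by omega] at h3 a1
  exact h3 (H.1 g' (fun i hi => by rw [a1 i (Or.inl hi), off i hi])).1

lemma dnHole_not_UT {hi h : ℤ} {f g : K} (H : C.DnHole hi f) (h1 : h < hi)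
    (off : ∀ i ≥ hi, g i = f i) : ¬ C.UT h g ((hi - 1 - h).toNat + 1) := by
  intro d
  obtain ⟨g', a1, a2, a3⟩ := C.upw (hi - 1 - h).toNat 0 h g (C.UT_le (by omega) d) trivial
  have h3 := C.nt_of_UT ((a3 1).mpr d)
  rw [show h + ((hi - 1 - h).toNat : ℤ) = hi - 1 by omega] at h3 a1
  rw [sub_add_cancel] at h3
  exact h3 (H.1 g' (fun i hi => by rw [a1 i (Or.inr (by omega)), off i hi])).1

lemma upHole_inv (hβ : C.Beta) {lo : ℤ} {f g : K} (H : C.UpHole lo f)
    (off : ∀ i < lo, g i = f i) : C.UpHole lo g := by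
  have h := H.1 g off
  exact ⟨fun g' h' => H.1 g' (fun i hi => by rw [h' i hi, off i hi]), hβ.1 _ _ h.1 h.2⟩

lemma dnHole_inv (hβ : C.Beta) {hi : ℤ} {f g : K} (H : C.DnHole hi f)
    (off : ∀ i ≥ hi, g i = f i) : C.DnHole hi g := by
  have h := H.1 g off
  exact ⟨fun g' h' => H.1 g' (fun i hi => by rw [h' i hi, off i hi]), hβ.2 _ _ h.1 h.2⟩

end RCfg

end Run7.h687.Full
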