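import Pool.Agent.Run7.h687.Full.PL2

set_option autoImplicit false

namespace Run7.h687.Full
open Run7.h687.Lamp

/-- closed patterns -/
structure CP (lo hi : ℤ) (f0 : K) (z : Cfg) : Prop where
  lt : lo < hi
  t : ∀ h g, lo ≤ h → h < hi → Off lo hi g f0 → z.T h g
  e : ∀ h g, lo < h → h < hi → Off lo hi g f0 → Elem (z.dn h g) (z.up h g)
  pm : ∀ h g, lo ≤ h → h + 1 < hi → Off lo hi g f0 → ParM (z.up h g) (z.up h (fl (h + 1) g))
  pp : ∀ h g, lo ≤ h - 2 → h ≤ hi → Off lo hi g f0 → ParP (z.dn h g) (z.dn h (fl (h - 2) g))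
  bt : ∀ g, Off lo hi g f0 → HBu (z.up lo g)
  tp : ∀ g, Off lo hi g f0 → HTd (z.dn hi g)

/-- families of holes -/
structure Hols (lo hi : ℤ) (r : ℤ → Row) (Hol : ℤ → ℤ → K → Prop) : Prop where
  inv : ∀ l u f g, Hol l u f → Off l u f g → Hol l u g
  uniq : ∀ l u l' u' h g, Hol l u g → Hol l' u' g → l ≤ h → h < u → l' ≤ h → h < u' →
    l = l' ∧ u = u'
  lt : ∀ l u g, Hol l u g → lo < l ∧ l < u ∧ u < hi
  rP : ∀ l u g, Hol l u g → (r l).isP = true
  rM : ∀ l u g, Hol l u g → (r u).isM = true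

/-- tetrahedra in holes -/
def InH (Hol : ℤ → ℤ → K → Prop) (h : ℤ) (g : K) : Prop := ∃ l u, l ≤ h ∧ h < u ∧ Hol l u g

/-- conditions on a host -/
structure HostOK (lo hi : ℤ) (f0 : K) (r : ℤ → Row) (Hol : ℤ → ℤ → K → Prop) (H : Cfg) : Prop where
  lt : lo < hi
  nx : ∀ h, lo ≤ h → h < hi → Nx (r h) (r (h + 1))
  t : ∀ h g, lo ≤ h → h < hi → Off lo hi g f0 → ¬ InH Hol h g → H.T h g
  e : ∀ h g, lo < h → h < hi → Off lo hi g f0 → ¬ InH Hol (h - 1) g → ¬ InH Hol h g →
    ElR (H.dn h g) (H.up h g)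
  hb : ∀ h g, lo < h → h < hi → Off lo hi g f0 → ¬ InH Hol (h - 1) g → InH Hol h g →
    HBd (H.dn h g)
  ht : ∀ h g, lo < h → h < hi → Off lo hi g f0 → InH Hol (h - 1) g → ¬ InH Hol h g →
    HTu (H.up h g)
  pm : ∀ h g, lo ≤ h → h + 1 < hi → Off lo hi g f0 → ¬ InH Hol h g →
    ¬ InH Hol h (fl (h + 1) g) → ParM (H.up h g) (H.up h (fl (h + 1) g))
  pp : ∀ h g, lo ≤ h - 2 → h ≤ hi → Off lo hi g f0 → ¬ InH Hol (h - 1) g →
    ¬ InH Hol (h - 1) (fl (h - 2) g) → ParP (H.dn h g) (H.dn h (fl (h - 2) g))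
  row1 : ∀ h g, lo ≤ h → h < hi → Off lo hi g f0 → ¬ InH Hol h g → (H.up h g).row = r h
  row2 : ∀ h g, lo < h → h ≤ hi → Off lo hi g f0 → ¬ InH Hol (h - 1) g → (H.dn h g).row = r h
  bt : ∀ g, Off lo hi g f0 → HBu (H.up lo g)
  tp : ∀ g, Off lo hi g f0 → HTd (H.dn hi g)

open Classical in
/-- filling the holes -/
noncomputable def gl (Hol : ℤ → ℤ → K → Prop) (H Z : Cfg) : Cfg where
  up h f := if InH Hol h f then Z.up h f else H.up h f
  dn h f := if InH Hol (h - 1) f then Z.dn h f else H.dn h f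

section
variable {lo hi : ℤ} {f0 : K} {r : ℤ → Row} {Hol : ℤ → ℤ → K → Prop} {H Z : Cfg}

lemma InH_fl (hH : Hols lo hi r Hol) (h : ℤ) (g : K) : InH Hol h (fl h g) ↔ InH Hol h g := by
  constructor
  · rintro ⟨l, u, h1, h2, h3⟩
    refine ⟨l, u, h1, h2, ?_⟩
    exact hH.inv l u _ _ h3 (Off.fl h1 h2 (Off.refl _ _ _))
  · rintro ⟨l, u, h1, h2, h3⟩
    refine ⟨l, u, h1, h2, ?_⟩
    exact hH.inv l u _ _ h3 (Off.fl h1 h2 (Off.refl _ _ _)).symm

lemma gl_up1 {h : ℤ} {f : K} (hh : InH Hol h f) : (gl Hol H Z).up h f = Z.up h f := if_pos hh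

lemma gl_up0 {h : ℤ} {f : K} (hh : ¬ InH Hol h f) : (gl Hol H Z).up h f = H.up h f := if_neg hh

lemma gl_dn1 {h : ℤ} {f : K} (hh : InH Hol (h - 1) f) : (gl Hol H Z).dn h f = Z.dn h f := if_pos hh

lemma gl_dn0 {h : ℤ} {f : K} (hh : ¬ InH Hol (h - 1) f) : (gl Hol H Z).dn h f = H.dn h f :=
  if_neg hh

lemma CP.top_row {z : Cfg} (hz : CP lo hi f0 z) {g : K} (hg : Off lo hi g f0) :
    (z.up (hi - 1) g).row.isM = false := by
  have h1 := (hz.t (hi - 1) g (by have := hz.lt; omega) (by omega) hg).1.nx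
  rw [sub_add_cancel, (hz.tp g hg).row] at h1
  generalize (z.up (hi - 1) g).row = ρ at h1
  cases h1
  rfl

lemma CP.bot_row {z : Cfg} (hz : CP lo hi f0 z) {g : K} (hg : Off lo hi g f0) :
    (z.dn (lo + 1) g).row.isP = false := by
  have h1 := (hz.t lo g le_rfl hz.lt hg).1.nx
  rw [(hz.bt g hg).row] at h1
  generalize (z.dn (lo + 1) g).row = ρ at h1
  cases h1
  rfl

theorem glue (hH : Hols lo hi r Hol) (hO : HostOK lo hi f0 r Hol H)
    (hZ : ∀ l u g, Hol l u g → CP l u g Z) : CP lo hi f0 (gl Hol H Z) := by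
  refine ⟨hO.lt, ?_, ?_, ?_, ?_, ?_, ?_⟩
  · intro h g h1 h2 off
    unfold Cfg.T
    by_cases hh : InH Hol h g
    · have hh' := (InH_fl hH h g).mpr hh
      rw [gl_up1 hh, gl_up1 hh', gl_dn1 (by rw [add_sub_cancel_right]; exact hh),
        gl_dn1 (by rw [add_sub_cancel_right]; exact hh')]
      obtain ⟨l, u, a1, a2, a3⟩ := hh
      exact (hZ l u g a3).t h g a1 a2 (Off.refl _ _ _)
    · have hh' : ¬ InH Hol h (fl h g) := fun h3 => hh ((InH_fl hH h g).mp h3)
      rw [gl_up0 hh, gl_up0 hh', gl_dn0 (by rw [add_sub_cancel_right]; exact hh),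
        gl_dn0 (by rw [add_sub_cancel_right]; exact hh')]
      exact hO.t h g h1 h2 off hh
  · intro h g h1 h2 off
    by_cases k1 : InH Hol (h - 1) g
    · by_cases k2 : InH Hol h g
      · rw [gl_up1 k2, gl_dn1 k1]
        obtain ⟨l, u, a1, a2, a3⟩ := k1
        obtain ⟨l', u', b1, b2, b3⟩ := k2
        have key : l < h ∧ h < u := by
          by_cases c1 : h < u
          · exact ⟨by omega, c1⟩
          · exfalso
            by_cases c2 : l' ≤ h - 1
            · have := hH.uniq l u l' u' (h - 1) g a3 b3 a1 a2 c2 (by omega)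
              omega
            · have e1 := hH.rM l u g a3
              have e2 := hH.rP l' u' g b3
              rw [show u = h by omega] at e1
              rw [show l' = h by omega] at e2
              generalize r h = ρ at e1 e2
              cases ρ <;> simp_all [Row.isM, Row.isP]
        exact (hZ l u g a3).e h g key.1 key.2 (Off.refl _ _ _)
      · rw [gl_up0 k2, gl_dn1 k1]
        right; right
        refine ⟨?_, hO.ht h g h1 h2 off k1 k2⟩
        obtain ⟨l, u, a1, a2, a3⟩ := k1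
        have : u = h := by
          by_contra hc
          exact k2 ⟨l, u, by omega, by omega, a3⟩
        subst this
        exact (hZ l u g a3).tp g (Off.refl _ _ _)
    · by_cases k2 : InH Hol h g
      · rw [gl_up1 k2, gl_dn0 k1]
        right; left
        refine ⟨hO.hb h g h1 h2 off k1 k2, ?_⟩
        obtain ⟨l, u, a1, a2, a3⟩ := k2
        have : l = h := by
          by_contra hc
          exact k1 ⟨l, u, by omega, by omega, a3⟩
        subst this
        exact (hZ l u g a3).bt g (Off.refl _ _ _)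
      · rw [gl_up0 k2, gl_dn0 k1]
        left
        exact hO.e h g h1 h2 off k1 k2
  · intro h g h1 h2 off
    by_cases k1 : InH Hol h g
    · have k1' := k1
      obtain ⟨l, u, a1, a2, a3⟩ := k1
      by_cases c : h + 1 < u
      · have o : Off l u g (fl (h + 1) g) := (Off.fl (by omega) c (Off.refl _ _ _)).symm
        have k2 : InH Hol h (fl (h + 1) g) := ⟨l, u, a1, a2, hH.inv l u _ _ a3 o⟩
        rw [gl_up1 k1', gl_up1 k2]
        exact (hZ l u g a3).pm h g a1 c (Off.refl _ _ _)
      · intro hM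
        exfalso
        rw [gl_up1 k1'] at hM
        have := (hZ l u g a3).top_row (Off.refl _ _ _)
        rw [show u - 1 = h by omega, hM] at this
        exact absurd this (by decide)
    · by_cases k2 : InH Hol h (fl (h + 1) g)
      · obtain ⟨l, u, a1, a2, a3⟩ := k2
        by_cases c : h + 1 < u
        · have o : Off l u (fl (h + 1) g) g := Off.fl (by omega) c (Off.refl _ _ _)
          exact absurd ⟨l, u, a1, a2, hH.inv l u _ _ a3 o⟩ k1
        · intro hM
          exfalso
          rw [gl_up0 k1, hO.row1 h g h1 (by omega) off k1] at hM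
          have e1 := hH.rM l u _ a3
          have e2 := hO.nx h h1 (by omega)
          rw [show u = h + 1 by omega] at e1
          generalize r h = ρ at hM e2
          generalize r (h + 1) = ρ' at e1 e2
          cases e2 <;> simp_all [Row.isM]
      · rw [gl_up0 k1, gl_up0 k2]
        exact hO.pm h g h1 h2 off k1 k2
  · intro h g h1 h2 off
    by_cases k1 : InH Hol (h - 1) g
    · have k1' := k1
      obtain ⟨l, u, a1, a2, a3⟩ := k1
      by_cases c : l ≤ h - 2
      · have o : Off l u g (fl (h - 2) g) := (Off.fl c (by omega) (Off.refl _ _ _)).symm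
        have k2 : InH Hol (h - 1) (fl (h - 2) g) := ⟨l, u, a1, a2, hH.inv l u _ _ a3 o⟩
        rw [gl_dn1 k1', gl_dn1 k2]
        exact (hZ l u g a3).pp h g c (by omega) (Off.refl _ _ _)
      · intro hP
        exfalso
        rw [gl_dn1 k1'] at hP
        have := (hZ l u g a3).bot_row (Off.refl _ _ _)
        rw [show l + 1 = h by omega, hP] at this
        exact absurd this (by decide)
    · by_cases k2 : InH Hol (h - 1) (fl (h - 2) g)
      · obtain ⟨l, u, a1, a2, a3⟩ := k2
        by_cases c : l ≤ h - 2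
        · have o : Off l u (fl (h - 2) g) g := Off.fl c (by omega) (Off.refl _ _ _)
          exact absurd ⟨l, u, a1, a2, hH.inv l u _ _ a3 o⟩ k1
        · intro hP
          exfalso
          rw [gl_dn0 k1, hO.row2 h g (by omega) h2 off k1] at hP
          have e1 := hH.rP l u _ a3
          have e2 := hO.nx (h - 1) (by omega) (by omega)
          rw [show l = h - 1 by omega] at e1
          rw [sub_add_cancel] at e2
          generalize r h = ρ at hP e2
          generalize r (h - 1) = ρ' at e1 e2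
          cases e2 <;> simp_all [Row.isP]
      · rw [gl_dn0 k1, gl_dn0 k2]
        exact hO.pp h g h1 h2 off k1 k2
  · intro g off
    have hh : ¬ InH Hol lo g := by
      rintro ⟨l, u, a1, a2, a3⟩
      have := (hH.lt l u g a3).1
      omega
    rw [gl_up0 hh]
    exact hO.bt g off
  · intro g off
    have hh : ¬ InH Hol (hi - 1) g := by
      rintro ⟨l, u, a1, a2, a3⟩
      have := (hH.lt l u g a3).2.2
      omega
    rw [gl_dn0 hh]
    exact hO.tp g off

end

end Run7.h687.Full
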