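import Pool.Agent.Run7.h687.Full.Rigid6

set_option autoImplicit false

namespace Run7.h687.Full
open Run7.h687.Lamp

/-- regions -/
structure Rgn {S : RowSys} (C : RCfg S) where
  In : ℤ → K → Prop
  fl' : ∀ h g, In h (fl h g) ↔ In h g
  reg : ∀ h g, C.Reg h g → (In h g ↔ In (h - 1) g)
  core : ∀ h g g', In h g → In h g' → ∃ D U : ℕ, Off (h - D) (h + 1 + U) g g' ∧ C.DT h g D ∧
    C.DT h g' D ∧ C.UT h g U ∧ C.UT h g' U
  coreU : ∀ h g g', In h g → In h g' → (∀ i ≤ h, g i = g' i) → ∃ U : ℕ,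
    Off (h + 1) (h + 1 + U) g g' ∧ C.UT h g U ∧ C.UT h g' U
  coreD : ∀ h g g', In h g → In h g' → (∀ i ≥ h, g i = g' i) → ∃ D : ℕ,
    Off (h - D) h g g' ∧ C.DT h g D ∧ C.DT h g' D
  up1 : ∀ h g g', In h g → In (h + 1) g' → ¬ S.tp (C.dn (h + 1) g).row
  dn1 : ∀ h g g', In h g → In (h - 1) g' → ¬ S.bt (C.up h g).row
  lev : ∀ p q i g g', In p g → In q g' → p ≤ i → i ≤ q → ∃ g'', In i g''

namespace Rgn
variable {S : RowSys} {C : RCfg S} (R : Rgn C)

lemma flx' (h : ℤ) (x : Bool) (g : K) : R.In h (flx h x g) ↔ R.In h g := by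
  cases x
  · exact Iff.rfl
  · exact R.fl' h g

lemma row_eq {h : ℤ} {g g' : K} (h1 : R.In h g) (h2 : R.In h g') :
    (C.up h g).row = (C.up h g').row ∧ (C.dn (h + 1) g).row = (C.dn (h + 1) g').row := by
  obtain ⟨D, U, a1, a2, a3, a4, a5⟩ := R.core h g g' h1 h2
  exact C.rows a1 a2 a3 a4 a5

lemma b_eq {h : ℤ} {g g' : K} (h1 : R.In h g) (h2 : R.In h g') (h3 : ∀ i ≤ h, g i = g' i) :
    (C.dn (h + 1) g).b = (C.dn (h + 1) g').b ∧ (C.dn (h + 1) g).B = (C.dn (h + 1) g').B ∧
    (C.up h g).B = (C.up h g').B := by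
  obtain ⟨U, a1, a2, a3⟩ := R.coreU h g g' h1 h2 h3
  have := C.gxs a1 a2 a3
  exact ⟨this.2.1, this.2.2.1, this.2.2.2.2⟩

lemma a_eq {h : ℤ} {g g' : K} (h1 : R.In h g) (h2 : R.In h g') (h3 : ∀ i ≥ h, g i = g' i) :
    (C.up h g).a = (C.up h g').a ∧ (C.up h g).A = (C.up h g').A ∧
    (C.dn (h + 1) g).A = (C.dn (h + 1) g').A := by
  obtain ⟨U, a1, a2, a3⟩ := R.coreD h g g' h1 h2 h3
  have := C.fxs a1 a2 a3
  exact ⟨this.2.1, this.2.2.1, this.2.2.2.2⟩

open Classical in
/-- rows of the region -/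
noncomputable def r (h : ℤ) : S.ρ :=
  if H : ∃ g, R.In h g then (C.up h H.choose).row
  else if H : ∃ g, R.In (h - 1) g then (C.dn h H.choose).row
  else (C.up h 0).row

lemma up_row {h : ℤ} {g : K} (h1 : R.In h g) : (C.up h g).row = R.r h := by
  unfold r
  have H : ∃ g, R.In h g := ⟨g, h1⟩
  rw [dif_pos H]
  exact (R.row_eq h1 H.choose_spec).1

/-- a region tetrahedron with a non-`top` upper row continues -/
lemma exists_up {h : ℤ} {g : K} (h1 : R.In h g) (h2 : ¬ S.tp (C.dn (h + 1) g).row) :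
    ∃ x, (C.dn (h + 1) (flx h x g)).b = false ∧ C.Reg (h + 1) (flx h x g) ∧
      R.In (h + 1) (flx h x g) := by
  obtain ⟨x, hx⟩ := C.exists_b0 (h + 1) g
  rw [add_sub_cancel_right] at hx
  have hr := C.row2' (h + 1) g x
  rw [add_sub_cancel_right] at hr
  have r1 : C.Reg (h + 1) (flx h x g) := C.reg_of_b (by rw [hr]; exact h2) hx
  refine ⟨x, hx, r1, ?_⟩
  rw [R.reg _ _ r1, add_sub_cancel_right, R.flx']
  exact h1

lemma exists_dn {h : ℤ} {g : K} (h1 : R.In h g) (h2 : ¬ S.bt (C.up h g).row) :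
    ∃ x, (C.up h (flx h x g)).a = false ∧ C.Reg h (flx h x g) ∧ R.In (h - 1) (flx h x g) := by
  obtain ⟨x, hx⟩ := C.exists_a0 h g
  have r1 : C.Reg h (flx h x g) := C.reg_of_a (by rw [C.rowx]; exact h2) hx
  refine ⟨x, hx, r1, ?_⟩
  rw [← R.reg _ _ r1, R.flx']
  exact h1

lemma dn_row {h : ℤ} {g : K} (h1 : R.In h g) :
    (C.dn (h + 1) g).row = R.r (h + 1) := by
  have htop : S.tp (C.dn (h + 1) g).row → ∀ g', ¬ R.In (h + 1) g' :=
    fun h2 g' h3 => R.up1 h g g' h1 h3 h2
  unfold r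
  by_cases H : ∃ g, R.In (h + 1) g
  · rw [dif_pos H]
    have hnt : ¬ S.tp (C.dn (h + 1) g).row := fun h2 => htop h2 _ H.choose_spec
    obtain ⟨x, hx, r1, i1⟩ := R.exists_up h1 hnt
    have hr := C.row2' (h + 1) g x
    rw [add_sub_cancel_right] at hr
    rw [← (R.row_eq i1 H.choose_spec).1, r1.1, hr]
  · rw [dif_neg H]
    have H' : ∃ g, R.In (h + 1 - 1) g := ⟨g, by rw [add_sub_cancel_right]; exact h1⟩
    rw [dif_pos H']
    have := H'.choose_spec
    generalize H'.choose = g' at this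
    rw [add_sub_cancel_right] at this
    exact (R.row_eq h1 this).2

/-- a wire-like upward path in the region -/
structure YP (y : ℤ → K) (p q : ℤ) : Prop where
  st : ∀ i, p ≤ i → i < q → y (i + 1) = y i ∨ y (i + 1) = fl i (y i)
  b : ∀ i, p ≤ i → i < q → (C.dn (i + 1) (y (i + 1))).b = false
  In : ∀ i, p ≤ i → i < q → R.In i (y i)

variable {R} in
lemma YP.off {y : ℤ → K} {p q : ℤ} (H : R.YP y p q) : ∀ (k : ℕ) (i : ℤ), p ≤ i → i + k ≤ q →
    Off i (i + k) (y (i + k)) (y i) := by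
  intro k
  induction k with
  | zero => intro i _ _; simpa using Off.refl _ _ _
  | succ k ih =>
    intro i h1 h2
    push_cast at h2 ⊢
    have h3 := ih i h1 (by omega)
    rw [← add_assoc]
    rcases H.st (i + k) (by omega) (by omega) with h4 | h4
    · rw [h4]; exact h3.mono le_rfl (by omega)
    · rw [h4]; exact Off.fl (by omega) (by omega) (h3.mono le_rfl (by omega))

variable {R} in
lemma YP.reg {y : ℤ → K} {p q : ℤ} (H : R.YP y p q) {i : ℤ} (h1 : p < i) (h2 : i < q) :
    C.Reg i (y i) := by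
  have hb := H.b (i - 1) (by omega) (by omega)
  rw [sub_add_cancel] at hb
  rcases C.el i (y i) with h | h | h
  · exact h
  · rw [hb] at h; exact absurd h.2.1 (by decide)
  · exfalso
    -- the row below is `top`, but we are in the region above and below
    have i1 := H.In i (by omega) h2
    have i0 := H.In (i - 1) (by omega) (by omega)
    obtain ⟨D, U, a1, a2, a3, a4, a5⟩ := R.core i _ _ i1 i1
    have hd : C.DT i (y i) 1 := C.DT_one (fun h3 => (S.btM _ h3).1 h.2.1)
    -- a regular bottom of the tetrahedron above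
    obtain ⟨x, hx, r1, i2⟩ := R.exists_dn i1 (fun h3 => (S.btM _ h3).1 h.2.1)
    have hr := (R.row_eq (h := i - 1) (g := flx i x (y i)) (g' := y (i - 1)) i2 i0).2
    rw [sub_add_cancel, ← r1.1, C.rowx] at hr
    have hst := H.st (i - 1) (by omega) (by omega)
    rw [sub_add_cancel] at hst
    have hr2 : (C.dn i (y i)).row = (C.dn i (y (i - 1))).row := by
      rcases hst with h4 | h4
      · rw [h4]
      · rw [h4]
        have := C.row2 (i - 1) (y (i - 1))
        rwa [sub_add_cancel] at this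
    rw [← hr2] at hr
    rw [← hr] at h
    exact (S.tpM _ h.1).1 h.2.1

/-- Descent of a wire along a given T2-path. -/
theorem desc {y : ℤ → K} {p q : ℤ} (H : R.YP y p q) (hpq : p < q) {e : K} (he : R.In (q - 1) e)
    (het : ∀ i < q, e i = (y q) i) : ∃ z : ℤ → K, z q = e ∧ WPath C.up C.dn z p q ∧
      (∀ i, p ≤ i → i < q → R.In i (z i)) ∧
      ∀ i, p ≤ i → i ≤ q → (Off i q (z i) e ∧ ∀ j < i, (z i) j = (y i) j) := by
  set x := C.cx q e with hx
  have hz : ∀ k : ℕ, p ≤ q - k - 1 → R.In (q - k - 1) (x k) ∧ R.In (q - k - 1) (x (k + 1)) := by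
    intro k
    induction k with
    | zero =>
      intro _
      simp only [Nat.cast_zero, sub_zero]
      refine ⟨he, ?_⟩
      show R.In _ (flx (q - ((0 : ℕ) : ℤ) - 1) _ _)
      simp only [Nat.cast_zero, sub_zero]
      rw [R.flx']
      exact he
    | succ k ih =>
      intro hk
      push_cast at hk ⊢
      obtain ⟨i1, i2⟩ := ih (by omega)
      have hreg : C.Reg (q - k - 1) (x (k + 1)) := by
        apply C.reg_of_a
        · have r1 := H.reg (i := q - k - 1) (by omega) (by omega)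
          have h5 := H.In (q - k - 1) (by omega) (by omega)
          rw [(R.row_eq i2 h5).1]
          exact r1.2.1
        · exact C.cx_a q e k
      have i3 : R.In (q - k - 1 - 1) (x (k + 1)) := (R.reg _ _ hreg).mp i2
      rw [show q - (k + 1 : ℤ) - 1 = q - k - 1 - 1 by ring]
      refine ⟨i3, ?_⟩
      show R.In _ (flx (q - ((k + 1 : ℕ) : ℤ) - 1) _ _)
      push_cast
      rw [show q - ((k : ℤ) + 1) - 1 = q - k - 1 - 1 by ring, R.flx']
      exact i3
  set z : ℤ → K := fun i => x (q - i).toNat with hzdef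
  have hzk : ∀ (i : ℤ) (k : ℕ), i = q - k → z i = x k := by
    intro i k hik
    rw [hzdef]
    simp only
    congr 1
    omega
  have hoff : ∀ i, p ≤ i → i ≤ q → (Off i q (z i) e ∧ ∀ j < i, (z i) j = (y i) j) := by
    intro i h1 h2
    obtain ⟨k, hk⟩ : ∃ k : ℕ, i = q - k := ⟨(q - i).toNat, by omega⟩
    have ho := C.cx_off q e k
    rw [← hk] at ho
    rw [hzk i k hk]
    refine ⟨ho, fun j hj => ?_⟩
    rw [ho j (Or.inl hj), het j (by omega)]
    have := H.off k i h1 (by omega)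
    rw [show i + k = q by omega] at this
    exact this j (Or.inl hj)
  refine ⟨z, hzk q 0 (by simp), ?_, ?_, hoff⟩
  · intro i h1 h2
    obtain ⟨k, hk⟩ : ∃ k : ℕ, i = q - k - 1 := ⟨(q - i - 1).toNat, by omega⟩
    have z1 := hzk (i + 1) k (by omega)
    have z0 := hzk i (k + 1) (by push_cast; omega)
    obtain ⟨i1, i2⟩ := hz k (by omega)
    refine ⟨?_, ?_, ?_⟩
    · rw [z1, z0, hk]
      show x k = flx (q - k - 1) _ (x k) ∨ x k = fl (q - k - 1) (flx (q - k - 1) _ (x k))
      generalize (C.up (q - k - 1) (C.cx q e k)).a = c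
      cases c
      · left; rfl
      · right
        show x k = fl (q - k - 1) (fl (q - k - 1) (x k))
        rw [fl_fl]
    · rw [z0, hk]; exact C.cx_a q e k
    · have hy := H.b i h1 h2
      rw [← hy]
      have hiy : R.In i (y (i + 1)) := by
        have h5 := H.In i h1 h2
        rcases H.st i h1 h2 with h4 | h4
        · rw [h4]; exact h5
        · rw [h4, R.fl']; exact h5
      have hiz : R.In i (z (i + 1)) := by rw [z1, hk]; exact i1
      refine (R.b_eq hiz hiy ?_).1
      intro j hj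
      exact (hoff (i + 1) (by omega) (by omega)).2 j (by omega)
  · intro i h1 h2
    obtain ⟨k, hk⟩ : ∃ k : ℕ, i = q - k - 1 := ⟨(q - i - 1).toNat, by omega⟩
    rw [hzk i (k + 1) (by push_cast; omega), hk]
    exact (hz k (by omega)).2

/-- canonical upward paths stay in the region -/
theorem exists_YP {p q : ℤ} (hpq : p ≤ q) {g : K} (hg : R.In p g)
    (hnt : ∀ i g', p ≤ i → i + 1 < q → R.In i g' → ¬ S.tp (C.dn (i + 1) g').row) :
    ∃ y, y p = g ∧ R.YP y p q ∧ ∀ i, p ≤ i → i ≤ q → Off p i (y i) g := by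
  set c := C.cy p g with hc
  set y : ℤ → K := fun i => c (i - p).toNat with hy
  have hyk : ∀ (i : ℤ) (k : ℕ), i = p + k → y i = c k := by
    intro i k hik
    rw [hy]
    simp only
    congr 1
    omega
  have hin : ∀ k : ℕ, p + k < q → R.In (p + k) (c k) := by
    intro k
    induction k with
    | zero => intro _; simpa [RCfg.cy, hc] using hg
    | succ k ih =>
      intro hk
      push_cast at hk ⊢
      have i1 := ih (by omega)
      have hnt' := hnt (p + k) (c k) (by omega) (by omega) i1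
      have hrow := C.row2' (p + k + 1) (c k) (C.dn (p + k + 1) (c k)).b
      rw [add_sub_cancel_right] at hrow
      have r1 : C.Reg (p + k + 1) (c (k + 1)) := by
        refine C.reg_of_b ?_ (C.cy_b p g k)
        show ¬ S.tp (C.dn (p + k + 1) (flx (p + k) _ _)).row
        rw [hrow]; exact hnt'
      rw [← add_assoc, R.reg _ _ r1, add_sub_cancel_right]
      show R.In (p + k) (flx (p + k) _ _)
      rw [R.flx']; exact i1
  refine ⟨y, hyk p 0 (by simp), ⟨?_, ?_, ?_⟩, ?_⟩
  · intro i h1 h2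
    obtain ⟨k, hk⟩ : ∃ k : ℕ, i = p + k := ⟨(i - p).toNat, by omega⟩
    rw [hyk i k hk, hyk (i + 1) (k + 1) (by push_cast; omega), hk]
    exact flx_cases _ _ _
  · intro i h1 h2
    obtain ⟨k, hk⟩ : ∃ k : ℕ, i = p + k := ⟨(i - p).toNat, by omega⟩
    rw [hyk (i + 1) (k + 1) (by push_cast; omega), hk]
    exact C.cy_b p g k
  · intro i h1 h2
    obtain ⟨k, hk⟩ : ∃ k : ℕ, i = p + k := ⟨(i - p).toNat, by omega⟩
    rw [hyk i k hk, hk]
    exact hin k (by omega)
  · intro i h1 h2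
    obtain ⟨k, hk⟩ : ∃ k : ℕ, i = p + k := ⟨(i - p).toNat, by omega⟩
    rw [hyk i k hk, hk]
    exact C.cy_off p g k

end Rgn

end Run7.h687.Full
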