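import Pool.Agent.Run7.h687.Full.Defs

set_option autoImplicit false

namespace Run7.h687.Full
open Run7.h687.Lamp

/-- row systems -/
structure RowSys where
  ρ : Type
  Ix : Type
  dec : DecidableEq Ix
  Nx : ρ → ρ → Prop
  bt : ρ → Prop
  tp : ρ → Prop
  rl : ρ → Prop
  P : ρ → Prop
  M : ρ → Prop
  k1 : ρ → ρ → Ix
  k2 : ρ → ρ → Ix
  nxM : ∀ x y, Nx x y → M x → rl y
  nxM' : ∀ x y, Nx x y → rl y → M x
  nxR : ∀ x y, Nx x y → rl x → P y
  nxR' : ∀ x y, Nx x y → P y → rl x
  detR : ∀ x y y', Nx x y → Nx x y' → rl x → y = y'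
  detR' : ∀ x x' y, Nx x y → Nx x' y → rl y → x = x'
  k1i : ∀ x y y', ¬ M x → Nx x y → Nx x y' → k1 x y = k1 x y' → y = y'
  k1R : ∀ x y x' y', rl x → rl x' → Nx x y → Nx x' y' → k1 x y = k1 x' y' → x = x'
  k1M : ∀ x y x' y', M x → Nx x y → rl x' → Nx x' y' → k1 x y ≠ k1 x' y'
  k1MM : ∀ x y x' y', M x → M x' → k1 x y = k1 x' y'
  k2i : ∀ x x' y, ¬ P y → Nx x y → Nx x' y → k2 x y = k2 x' y → x = x'
  k2R : ∀ x y x' y', rl y → rl y' → Nx x y → Nx x' y' → k2 x y = k2 x' y' → y = y'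
  k2P : ∀ x y x' y', P y → Nx x y → rl y' → Nx x' y' → k2 x y ≠ k2 x' y'
  k2PP : ∀ x y x' y', P y → P y' → k2 x y = k2 x' y'
  btM : ∀ x, bt x → ¬ M x ∧ ¬ P x ∧ ¬ rl x ∧ ¬ tp x
  tpM : ∀ x, tp x → ¬ M x ∧ ¬ P x ∧ ¬ rl x ∧ ¬ bt x
  rlM : ∀ x, rl x → ¬ M x ∧ ¬ P x
  MP : ∀ x, M x → ¬ P x

attribute [instance] RowSys.dec

/-- mirror -/
def RowSys.mir (S : RowSys) : RowSys where
  ρ := S.ρ
  Ix := S.Ix
  dec := S.dec
  Nx x y := S.Nx y x
  bt := S.tp
  tp := S.bt
  rl := S.rl
  P := S.M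
  M := S.P
  k1 x y := S.k2 y x
  k2 x y := S.k1 y x
  nxM x y h1 h2 := S.nxR' y x h1 h2
  nxM' x y h1 h2 := S.nxR y x h1 h2
  nxR x y h1 h2 := S.nxM' y x h1 h2
  nxR' x y h1 h2 := S.nxM y x h1 h2
  detR x y y' h1 h2 h3 := S.detR' y y' x h1 h2 h3
  detR' x x' y h1 h2 h3 := S.detR y x x' h1 h2 h3
  k1i x y y' h1 h2 h3 h4 := S.k2i y y' x h1 h2 h3 h4
  k1R x y x' y' h1 h2 h3 h4 h5 := S.k2R y x y' x' h1 h2 h3 h4 h5
  k1M x y x' y' h1 h2 h3 h4 := S.k2P y x y' x' h1 h2 h3 h4
  k1MM x y x' y' h1 h2 := S.k2PP y x y' x' h1 h2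
  k2i x x' y h1 h2 h3 h4 := S.k1i y x x' h1 h2 h3 h4
  k2R x y x' y' h1 h2 h3 h4 h5 := S.k1R y x y' x' h1 h2 h3 h4 h5
  k2P x y x' y' h1 h2 h3 h4 := S.k1M y x y' x' h1 h2 h3 h4
  k2PP x y x' y' h1 h2 := S.k1MM y x y' x' h1 h2
  btM x h := ⟨(S.tpM x h).2.1, (S.tpM x h).1, (S.tpM x h).2.2.1, (S.tpM x h).2.2.2⟩
  tpM x h := ⟨(S.btM x h).2.1, (S.btM x h).1, (S.btM x h).2.2.1, (S.btM x h).2.2.2⟩
  rlM x h := ⟨(S.rlM x h).2, (S.rlM x h).1⟩
  MP x h := fun h' => S.MP x h' h

/-- rigid data -/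
@[ext] structure RD (S : RowSys) where
  row : S.ρ
  a : Bool
  b : Bool
  A : S.Ix → ZMod 3
  B : S.Ix → ZMod 3

/-- mirror of rigid data -/
def RD.sw {S : RowSys} (d : RD S) : RD S.mir := ⟨d.row, d.b, d.a, d.B, d.A⟩

/-- wire paths -/
def WPath {S : RowSys} (up dn : ℤ → K → RD S) (z : ℤ → K) (p q : ℤ) : Prop :=
  ∀ i, p ≤ i → i < q → (z (i + 1) = z i ∨ z (i + 1) = fl i (z i)) ∧
    (up i (z i)).a = false ∧ (dn (i + 1) (z (i + 1))).b = false

/-- rigid configurations -/
structure RCfg (S : RowSys) where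
  up : ℤ → K → RD S
  dn : ℤ → K → RD S
  row1 : ∀ h f, (up h (fl h f)).row = (up h f).row
  a1 : ∀ h f, (up h (fl h f)).a = !(up h f).a
  b1 : ∀ h f, (up h (fl h f)).b = (up h f).b
  B1 : ∀ h f, (up h (fl h f)).B = (up h f).B
  row2 : ∀ h f, (dn (h + 1) (fl h f)).row = (dn (h + 1) f).row
  b2 : ∀ h f, (dn (h + 1) (fl h f)).b = !(dn (h + 1) f).b
  a2 : ∀ h f, (dn (h + 1) (fl h f)).a = (dn (h + 1) f).a
  A2 : ∀ h f, (dn (h + 1) (fl h f)).A = (dn (h + 1) f).A
  nx : ∀ h f, S.Nx (up h f).row (dn (h + 1) f).row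
  A3 : ∀ h f, (up h f).A = (dn (h + 1) f).A +
    if (up h f).a then sgl (S.k1 (up h f).row (dn (h + 1) f).row) else 0
  B3 : ∀ h f, (dn (h + 1) f).B = (up h f).B +
    if (dn (h + 1) f).b then sgl (S.k2 (up h f).row (dn (h + 1) f).row) else 0
  el : ∀ h f, (up h f = dn h f ∧ ¬ S.bt (up h f).row ∧ ¬ S.tp (up h f).row) ∨
    (S.P (dn h f).row ∧ (dn h f).b = true ∧ S.bt (up h f).row) ∨
    (S.tp (dn h f).row ∧ S.M (up h f).row ∧ (up h f).a = true)
  hb : ∀ h f, S.bt (up (h + 1) f).row → (up h f).b = true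
  ht : ∀ h f, S.tp (dn h f).row → (dn (h + 1) f).a = true
  pm : ∀ h f, S.M (up h f).row → (up h (fl (h + 1) f)).a = (up h f).a
  pp : ∀ h f, S.P (dn h f).row → (dn h (fl (h - 2) f)).b = (dn h f).b
  bb : ∀ h f, S.bt (up h f).row → (up h f).b = true
  ta : ∀ h f, S.tp (dn h f).row → (dn h f).a = true
  w2 : ∀ (z : ℤ → K) (h q : ℤ), h + 1 ≤ q → WPath up dn z h q → (up h (z h)).b = true →
    S.rl (up h (z h)).row → S.bt (up (h + 1) (fl h (z (h + 1)))).row → ¬ S.tp (dn q (z q)).row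
  w3 : ∀ (z : ℤ → K) (h q : ℤ), q ≤ h - 1 → WPath up dn z q h → (dn h (z h)).a = true →
    S.rl (dn h (z h)).row → S.tp (dn (h - 1) (fl (h - 1) (z (h - 1)))).row →
    ¬ S.bt (up q (z q)).row

lemma WPath_mir {S : RowSys} {up dn : ℤ → K → RD S} {z : ℤ → K} {p q : ℤ}
    (H : WPath (fun h f => (dn (-h) (rev f)).sw) (fun h f => (up (-h) (rev f)).sw) z p q) :
    WPath up dn (fun i => rev (z (-i))) (-q) (-p) := by
  intro i h1 h2
  obtain ⟨a1, a2, a3⟩ := H (-1 - i) (by omega) (by omega)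
  have e1 : -1 - i + 1 = -i := by ring
  have e2 : -(i + 1) = -1 - i := by ring
  have e3 : -(-1 - i) = i + 1 := by ring
  simp only [e1, e3, neg_neg] at a1 a2 a3
  simp only [e2]
  refine ⟨?_, ?_, ?_⟩
  · rcases a1 with h | h
    · left; rw [h]
    · right
      rw [h, rev_fl, show -1 - (-1 - i) = i by ring, fl_fl]
  · exact a3
  · exact a2

/-- mirror of a configuration -/
noncomputable def RCfg.mir {S : RowSys} (C : RCfg S) : RCfg S.mir where
  up h f := (C.dn (-h) (rev f)).sw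
  dn h f := (C.up (-h) (rev f)).sw
  row1 h f := by
    rw [rev_fl]
    have := C.row2 (-1 - h) (rev f)
    rw [show -1 - h + 1 = -h by ring] at this
    exact this
  a1 h f := by
    rw [rev_fl]
    have := C.b2 (-1 - h) (rev f)
    rw [show -1 - h + 1 = -h by ring] at this
    exact this
  b1 h f := by
    rw [rev_fl]
    have := C.a2 (-1 - h) (rev f)
    rw [show -1 - h + 1 = -h by ring] at this
    exact this
  B1 h f := by
    rw [rev_fl]
    have := C.A2 (-1 - h) (rev f)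
    rw [show -1 - h + 1 = -h by ring] at this
    exact this
  row2 h f := by
    rw [rev_fl, show -(h + 1) = -1 - h by ring]
    exact C.row1 (-1 - h) (rev f)
  b2 h f := by
    rw [rev_fl, show -(h + 1) = -1 - h by ring]
    exact C.a1 (-1 - h) (rev f)
  a2 h f := by
    rw [rev_fl, show -(h + 1) = -1 - h by ring]
    exact C.b1 (-1 - h) (rev f)
  A2 h f := by
    rw [rev_fl, show -(h + 1) = -1 - h by ring]
    exact C.B1 (-1 - h) (rev f)
  nx h f := by
    have := C.nx (-1 - h) (rev f)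
    rw [show -1 - h + 1 = -h by ring] at this
    rw [show -(h + 1) = -1 - h by ring]
    exact this
  A3 h f := by
    have := C.B3 (-1 - h) (rev f)
    rw [show -1 - h + 1 = -h by ring] at this
    rw [show -(h + 1) = -1 - h by ring]
    exact this
  B3 h f := by
    have := C.A3 (-1 - h) (rev f)
    rw [show -1 - h + 1 = -h by ring] at this
    rw [show -(h + 1) = -1 - h by ring]
    exact this
  el h f := by
    rcases C.el (-h) (rev f) with h1 | h1 | h1
    · left
      refine ⟨by rw [h1.1], ?_, ?_⟩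
      · rw [← h1.1]; exact h1.2.2
      · rw [← h1.1]; exact h1.2.1
    · right; right
      exact ⟨h1.2.2, h1.1, h1.2.1⟩
    · right; left
      exact ⟨h1.2.1, h1.2.2, h1.1⟩
  hb h f hh := by
    have := C.ht (-1 - h) (rev f)
    rw [show -1 - h + 1 = -h by ring] at this
    rw [show -(h + 1) = -1 - h by ring] at hh
    exact this hh
  ht h f hh := by
    have := C.hb (-1 - h) (rev f)
    rw [show -1 - h + 1 = -h by ring] at this
    rw [show -(h + 1) = -1 - h by ring]
    exact this hh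
  pm h f hh := by
    have := C.pp (-h) (rev f) hh
    rw [rev_fl, show -1 - (h + 1) = -h - 2 by ring]
    exact this
  pp h f hh := by
    have := C.pm (-h) (rev f) hh
    rw [rev_fl, show -1 - (h - 2) = -h + 1 by ring]
    exact this
  bb h f hh := C.ta (-h) (rev f) hh
  ta h f hh := C.bb (-h) (rev f) hh
  w2 z h q h1 h2 h3 h4 h5 := by
    have := C.w3 (fun i => rev (z (-i))) (-h) (-q) (by omega) (WPath_mir h2)
    simp only [neg_neg] at this
    apply this h3 h4
    rw [show -(-h - 1) = h + 1 by ring, show -h - 1 = -1 - h by ring, ← rev_fl]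
    rw [show -(h + 1) = -1 - h by ring] at h5
    exact h5
  w3 z h q h1 h2 h3 h4 h5 := by
    have := C.w2 (fun i => rev (z (-i))) (-h) (-q) (by omega) (WPath_mir h2)
    simp only [neg_neg] at this
    apply this h3 h4
    rw [show -(-h + 1) = h - 1 by ring]
    have e : fl (-h) (rev (z (h - 1))) = rev (fl (h - 1) (z (h - 1))) := by
      rw [rev_fl]; congr 1; ring
    rw [e, show -h + 1 = -(h - 1) by ring]
    exact h5

section alg
variable {I : Type} [DecidableEq I]

lemma sgl_self (k : I) : sgl k k = 1 := by simp [sgl]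

lemma sgl_ne {k l : I} (h : l ≠ k) : sgl k l = 0 := by simp [sgl, Pi.single_apply, h]

lemma sgl_inj {k l : I} (h : sgl k = sgl l) : k = l := by
  by_contra hne
  have := congrFun h k
  rw [sgl_self, sgl_ne hne] at this
  exact absurd this (by decide)

lemma sgl_add_ne (k l : I) : sgl k + sgl l ≠ 0 := by
  intro h
  have := congrFun h k
  simp only [Pi.add_apply, sgl_self, Pi.zero_apply] at this
  by_cases hk : k = l
  · subst hk; rw [sgl_self] at this; exact absurd this (by decide)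
  · rw [sgl_ne hk] at this; exact absurd this (by decide)

lemma alg1 (T T' : I → ZMod 3) (k k' : I) (a a' : Bool)
    (h1 : T + (if a then sgl k else 0) = T' + (if a' then sgl k' else 0))
    (h2 : T + (if !a then sgl k else 0) = T' + (if !a' then sgl k' else 0)) :
    a = a' ∧ T = T' ∧ k = k' := by
  cases a <;> cases a' <;> simp at h1 h2
  · subst h1
    exact ⟨rfl, rfl, sgl_inj (add_left_cancel h2)⟩
  · exfalso
    apply sgl_add_ne k k'
    rw [h1] at h2
    have : T' + (sgl k + sgl k') = T' + 0 := by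
      rw [add_zero]
      calc _ = T' + sgl k' + sgl k := by abel
        _ = _ := h2
    exact add_left_cancel this
  · exfalso
    apply sgl_add_ne k k'
    rw [← h1] at h2
    have : T + (sgl k + sgl k') = T + 0 := by rw [add_zero]; rw [← add_assoc]; exact h2.symm
    exact add_left_cancel this
  · subst h2
    exact ⟨rfl, rfl, sgl_inj (add_left_cancel h1)⟩

/-- scalar of a Boolean -/
def bz (b : Bool) : ZMod 3 := if b then 1 else 0

lemma scal : ∀ (a b a' b' e e' : Bool) (dm dk dk' : ZMod 3),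
    (∀ x y : Bool, ((x ^^ a) && (y ^^ b)) = false → ((x ^^ a') && (y ^^ b')) = false →
      bz (y ^^ b) = dm + bz (y ^^ b') ∧ bz (x ^^ a) = dk + (if x ^^ a' then bz e else 0) ∧
      (if x ^^ a then bz e' else 0) = dk' + bz (x ^^ a')) → a = a' ∧ b = b' := by
  decide +kernel

lemma alg2 (T T' : I → ZMod 3) (k k' m : I) (hk : k ≠ m) (hk' : k' ≠ m) (a b a' b' : Bool)
    (H : ∀ x y : Bool, ((x ^^ a) && (y ^^ b)) = false → ((x ^^ a') && (y ^^ b')) = false →
      T + (if x ^^ a then sgl k else 0) + (if y ^^ b then sgl m else 0) =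
      T' + (if x ^^ a' then sgl k' else 0) + (if y ^^ b' then sgl m else 0)) :
    a = a' ∧ b = b' ∧ T = T' ∧ k = k' := by
  have s1 : sgl k m = 0 := sgl_ne hk.symm
  have s2 : sgl k' m = 0 := sgl_ne hk'.symm
  have s3 : sgl m k = 0 := sgl_ne hk
  have s4 : sgl m k' = 0 := sgl_ne hk'
  have s5 := sgl_self k
  have s6 := sgl_self k'
  have s7 := sgl_self m
  have e1 : sgl k' k = bz (decide (k = k')) := by
    by_cases h : k = k'
    · subst h; simp [bz, sgl_self]
    · rw [sgl_ne h]; simp [bz, h]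
  have e2 : sgl k k' = bz (decide (k = k')) := by
    by_cases h : k = k'
    · subst h; simp [bz, sgl_self]
    · rw [sgl_ne (Ne.symm h)]; simp [bz, h]
  have h1 := scal a b a' b' (decide (k = k')) (decide (k = k')) (T' m - T m) (T' k - T k)
    (T' k' - T k') (by
      intro x y c1 c2
      have hh := H x y c1 c2
      have hm := congrFun hh m
      have hkk := congrFun hh k
      have hkk' := congrFun hh k'
      simp only [Pi.add_apply] at hm hkk hkk'
      have i0 : ∀ (c : Bool) (u : I → ZMod 3) (l : I),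
          (if c then u else 0 : I → ZMod 3) l = if c then u l else 0 := by
        intro c u l; cases c <;> rfl
      simp only [i0, s1, s2, s3, s4, s5, s6, s7, e1, e2] at hm hkk hkk'
      have j0 : ∀ c : Bool, (if c then (0 : ZMod 3) else 0) = 0 := by intro c; cases c <;> rfl
      simp only [j0, add_zero] at hm hkk hkk'
      refine ⟨?_, ?_, ?_⟩
      · show (if y ^^ b then (1 : ZMod 3) else 0) = _ + if y ^^ b' then (1 : ZMod 3) else 0
        linear_combination hm
      · show (if x ^^ a then (1 : ZMod 3) else 0) = _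
        linear_combination hkk
      · show _ = _ + if x ^^ a' then (1 : ZMod 3) else 0
        linear_combination hkk')
  obtain ⟨rfl, rfl⟩ := h1
  have h2 := H a b (by simp) (by simp)
  have h3 := H (!a) b (by simp) (by simp)
  simp at h2 h3
  subst h2
  exact ⟨rfl, rfl, rfl, sgl_inj (add_left_cancel h3)⟩

end alg

end Run7.h687.Full
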