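import Pool.Agent.Run7.h687.Full.Rigid

set_option autoImplicit false

namespace Run7.h687.Full
open Run7.h687.Lamp

/-- flip or not -/
noncomputable def flx (h : ℤ) (x : Bool) (f : K) : K := if x then fl h f else f

lemma flx_cases (h : ℤ) (x : Bool) (f : K) : flx h x f = f ∨ flx h x f = fl h f := by
  cases x
  · left; rfl
  · right; rfl

lemma _root_.Run7.h687.Lamp.Off.flx {p q i : ℤ} (h1 : p ≤ i) (h2 : i < q) {f f' : K} (h : Off p q f f') (x : Bool) :
    Off p q (Run7.h687.Full.flx i x f) f' := by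
  cases x
  · exact h
  · exact h.fl h1 h2

lemma _root_.Run7.h687.Lamp.Off.symm {p q : ℤ} {f f' : K} (h : Off p q f f') : Off p q f' f := fun i hi => (h i hi).symm

lemma _root_.Run7.h687.Lamp.Off.trans {p q : ℤ} {f f' f'' : K} (h : Off p q f f') (h' : Off p q f' f'') :
    Off p q f f'' := fun i hi => (h i hi).trans (h' i hi)

lemma _root_.Run7.h687.Lamp.Off.mono {p q p' q' : ℤ} {f f' : K} (h : Off p q f f') (h1 : p' ≤ p) (h2 : q ≤ q') :
    Off p' q' f f' := fun i hi => h i (by omega)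

lemma _root_.Run7.h687.Lamp.Off.refl (p q : ℤ) (f : K) : Off p q f f := fun _ _ => rfl

lemma _root_.Run7.h687.Lamp.Off.flx2 {p q : ℤ} (i : ℤ) {f f' : K} (h : Off p q f f') (x : Bool) :
    Off p q (Run7.h687.Full.flx i x f) (Run7.h687.Full.flx i x f') := by
  cases x
  · exact h
  · intro j hj
    show fl i f j = fl i f' j
    by_cases hij : j = i
    · subst hij; rw [fl_same, fl_same, h j hj]
    · rw [fl_ne hij, fl_ne hij, h j hj]

/-- match a digit -/
lemma match_digit (i : ℤ) (f g : K) : ∃ x, (flx i x f) i = g i := by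
  by_cases h : f i = g i
  · exact ⟨false, h⟩
  · refine ⟨true, ?_⟩
    show fl i f i = g i
    rw [fl_same]
    revert h
    generalize f i = a
    generalize g i = b
    revert a b
    decide

/-- digit matching gives off on a smaller set -/
lemma _root_.Run7.h687.Lamp.Off.matched {p q : ℤ} {f g : K} (h : Off p (q + 1) f g) (e : f q = g q) : Off p q f g := by
  intro i hi
  by_cases h1 : i = q
  · subst h1; exact e
  · exact h i (by omega)

lemma _root_.Run7.h687.Lamp.Off.matched' {p q : ℤ} {f g : K} (h : Off p q f g) (e : f p = g p) : Off (p + 1) q f g := by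
  intro i hi
  by_cases h1 : i = p
  · subst h1; exact e
  · exact h i (by omega)

namespace RCfg
variable {S : RowSys} (C : RCfg S)

/-- regular elements -/
def Reg (h : ℤ) (f : K) : Prop := C.up h f = C.dn h f ∧ ¬ S.bt (C.up h f).row ∧ ¬ S.tp (C.up h f).row

/-- the tetrahedron can be followed down `D` steps -/
def DT (h : ℤ) (f : K) : ℕ → Prop
  | 0 => True
  | (D + 1) => (C.Reg h f ∧ DT (h - 1) f D) ∨ (C.Reg h (fl h f) ∧ DT (h - 1) (fl h f) D)

/-- the tetrahedron can be followed up `D` steps -/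
def UT (h : ℤ) (f : K) : ℕ → Prop
  | 0 => True
  | (D + 1) => (C.Reg (h + 1) f ∧ UT (h + 1) f D) ∨ (C.Reg (h + 1) (fl h f) ∧ UT (h + 1) (fl h f) D)

lemma DT_fl (h : ℤ) (f : K) (D : ℕ) : C.DT h (fl h f) D ↔ C.DT h f D := by
  cases D with
  | zero => exact Iff.rfl
  | succ D => simp only [DT, fl_fl]; exact or_comm

lemma UT_fl (h : ℤ) (f : K) (D : ℕ) : C.UT h (fl h f) D ↔ C.UT h f D := by
  cases D with
  | zero => exact Iff.rfl
  | succ D => simp only [UT, fl_fl]; exact or_comm

lemma DT_flx (h : ℤ) (x : Bool) (f : K) (D : ℕ) : C.DT h (flx h x f) D ↔ C.DT h f D := by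
  cases x
  · exact Iff.rfl
  · exact C.DT_fl h f D

lemma UT_flx (h : ℤ) (x : Bool) (f : K) (D : ℕ) : C.UT h (flx h x f) D ↔ C.UT h f D := by
  cases x
  · exact Iff.rfl
  · exact C.UT_fl h f D

lemma reg_mir (h : ℤ) (f : K) : C.mir.Reg (-h) (rev f) ↔ C.Reg h f := by
  unfold Reg
  show ((C.dn (- -h) (rev (rev f))).sw = (C.up (- -h) (rev (rev f))).sw ∧ ¬ S.tp (C.dn (- -h) (rev (rev f))).row ∧ ¬ S.bt (C.dn (- -h) (rev (rev f))).row) ↔ _
  rw [neg_neg, rev_rev]
  constructor
  · rintro ⟨h1, h2, h3⟩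
    have e : C.up h f = C.dn h f := by
      have g1 := congrArg (fun d : RD S.mir => d.row) h1
      have g2 := congrArg (fun d : RD S.mir => d.a) h1
      have g3 := congrArg (fun d : RD S.mir => d.b) h1
      have g4 := congrArg (fun d : RD S.mir => d.A) h1
      have g5 := congrArg (fun d : RD S.mir => d.B) h1
      ext1
      · exact g1.symm
      · exact g3.symm
      · exact g2.symm
      · exact g5.symm
      · exact g4.symm
    rw [e]
    exact ⟨rfl, h3, h2⟩
  · rintro ⟨h1, h2, h3⟩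
    rw [h1] at h2 h3
    exact ⟨by rw [h1], h3, h2⟩

lemma DT_mir (D : ℕ) : ∀ (h : ℤ) (f : K), C.mir.DT (-1 - h) (rev f) D ↔ C.UT h f D := by
  induction D with
  | zero => intro h f; exact Iff.rfl
  | succ D ih =>
    intro h f
    simp only [DT, UT]
    rw [← rev_fl, show -1 - h - 1 = -1 - (h + 1) by ring, ih, ih]
    have e : ∀ g : K, C.mir.Reg (-1 - h) (rev g) ↔ C.Reg (h + 1) g := by
      intro g
      rw [show -1 - h = -(h + 1) by ring]
      exact C.reg_mir _ _
    rw [e, e]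

lemma UT_mir (D : ℕ) : ∀ (h : ℤ) (f : K), C.mir.UT (-1 - h) (rev f) D ↔ C.DT h f D := by
  induction D with
  | zero => intro h f; exact Iff.rfl
  | succ D ih =>
    intro h f
    simp only [DT, UT]
    rw [← rev_fl, show -1 - h + 1 = -1 - (h - 1) by ring, ih, ih]
    have e : ∀ g : K, C.mir.Reg (-1 - (h - 1)) (rev g) ↔ C.Reg h g := by
      intro g
      rw [show -1 - (h - 1) = -h by ring]
      exact C.reg_mir _ _
    rw [e, e]

lemma reg_of_a {h : ℤ} {f : K} (h1 : ¬ S.bt (C.up h f).row) (h2 : (C.up h f).a = false) :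
    C.Reg h f := by
  rcases C.el h f with h3 | h3 | h3
  · exact h3
  · exact absurd h3.2.2 h1
  · rw [h2] at h3; exact absurd h3.2.2 (by decide)

lemma reg_of_M {h : ℤ} {f : K} (h1 : ¬ S.bt (C.up h f).row) (h2 : ¬ S.M (C.up h f).row) :
    C.Reg h f := by
  rcases C.el h f with h3 | h3 | h3
  · exact h3
  · exact absurd h3.2.2 h1
  · exact absurd h3.2.1 h2

lemma reg_of_b {h : ℤ} {f : K} (h1 : ¬ S.tp (C.dn h f).row) (h2 : (C.dn h f).b = false) :
    C.Reg h f := by
  rcases C.el h f with h3 | h3 | h3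
  · exact h3
  · rw [h2] at h3; exact absurd h3.2.1 (by decide)
  · exact absurd h3.1 h1

lemma reg_of_P {h : ℤ} {f : K} (h1 : ¬ S.tp (C.dn h f).row) (h2 : ¬ S.P (C.dn h f).row) :
    C.Reg h f := by
  rcases C.el h f with h3 | h3 | h3
  · exact h3
  · exact absurd h3.1 h2
  · exact absurd h3.1 h1

lemma rowx (h : ℤ) (f : K) (x : Bool) : (C.up h (flx h x f)).row = (C.up h f).row := by
  cases x
  · rfl
  · exact C.row1 h f

lemma ax (h : ℤ) (f : K) (x : Bool) : (C.up h (flx h x f)).a = (x ^^ (C.up h f).a) := by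
  cases x
  · simp [flx]
  · simp only [flx, if_true, Bool.true_xor]; exact C.a1 h f

lemma bx (h : ℤ) (f : K) (x : Bool) : (C.up h (flx h x f)).b = (C.up h f).b := by
  cases x
  · rfl
  · exact C.b1 h f

lemma Bx (h : ℤ) (f : K) (x : Bool) : (C.up h (flx h x f)).B = (C.up h f).B := by
  cases x
  · rfl
  · exact C.B1 h f

lemma row2' (h : ℤ) (f : K) (x : Bool) : (C.dn h (flx (h - 1) x f)).row = (C.dn h f).row := by
  cases x
  · rfl
  · have := C.row2 (h - 1) f
    rw [sub_add_cancel] at this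
    exact this

lemma bx2 (h : ℤ) (f : K) (x : Bool) : (C.dn h (flx (h - 1) x f)).b = (x ^^ (C.dn h f).b) := by
  cases x
  · simp [flx]
  · have := C.b2 (h - 1) f
    rw [sub_add_cancel] at this
    simp only [flx, if_true, Bool.true_xor]
    exact this

lemma ax2 (h : ℤ) (f : K) (x : Bool) : (C.dn h (flx (h - 1) x f)).a = (C.dn h f).a := by
  cases x
  · rfl
  · have := C.a2 (h - 1) f
    rw [sub_add_cancel] at this
    exact this

lemma Ax2 (h : ℤ) (f : K) (x : Bool) : (C.dn h (flx (h - 1) x f)).A = (C.dn h f).A := by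
  cases x
  · rfl
  · have := C.A2 (h - 1) f
    rw [sub_add_cancel] at this
    exact this

/-- there is a bottom with `a = false` -/
lemma exists_a0 (h : ℤ) (f : K) : ∃ x, (C.up h (flx h x f)).a = false := by
  refine ⟨(C.up h f).a, ?_⟩
  rw [C.ax]
  simp

lemma exists_b0 (h : ℤ) (f : K) : ∃ x, (C.dn h (flx (h - 1) x f)).b = false := by
  refine ⟨(C.dn h f).b, ?_⟩
  rw [C.bx2]
  simp

lemma DT_succ (h : ℤ) (f : K) (D : ℕ) :
    C.DT h f (D + 1) ↔ ∃ x, C.Reg h (flx h x f) ∧ C.DT (h - 1) (flx h x f) D := by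
  constructor
  · rintro (h1 | h1)
    · exact ⟨false, h1⟩
    · exact ⟨true, h1⟩
  · rintro ⟨x, hx⟩
    cases x
    · exact Or.inl hx
    · exact Or.inr hx

lemma UT_succ (h : ℤ) (f : K) (D : ℕ) :
    C.UT h f (D + 1) ↔ ∃ x, C.Reg (h + 1) (flx h x f) ∧ C.UT (h + 1) (flx h x f) D := by
  constructor
  · rintro (h1 | h1)
    · exact ⟨false, h1⟩
    · exact ⟨true, h1⟩
  · rintro ⟨x, hx⟩
    cases x
    · exact Or.inl hx
    · exact Or.inr hx

lemma nb_of_DT {h : ℤ} {f : K} {D : ℕ} (H : C.DT h f (D + 1)) : ¬ S.bt (C.up h f).row := by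
  rw [DT_succ] at H
  obtain ⟨x, hx, -⟩ := H
  have := hx.2.1
  rwa [C.rowx] at this

/-- rigidity statement -/
def FX (D : ℕ) : Prop := ∀ (h : ℤ) (f f' : K), Off (h - D) h f f' → C.DT h f D → C.DT h f' D →
  (S.rl (C.dn (h + 1) f).row ↔ S.rl (C.dn (h + 1) f').row) ∧
  (¬ S.rl (C.dn (h + 1) f).row → (C.dn (h + 1) f).row = (C.dn (h + 1) f').row ∧
    (C.dn (h + 1) f).A = (C.dn (h + 1) f').A ∧ (C.up h f).row = (C.up h f').row ∧
    (C.up h f).a = (C.up h f').a) ∧
  (S.rl (C.up h f).row → f (h - 1) = f' (h - 1) → (C.up (h - 1) f).a = (C.up (h - 1) f').a)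

/-- mirror rigidity statement -/
def GX (D : ℕ) : Prop := ∀ (h : ℤ) (f f' : K), Off (h + 1) (h + 1 + D) f f' → C.UT h f D →
  C.UT h f' D →
  (S.rl (C.up h f).row ↔ S.rl (C.up h f').row) ∧
  (¬ S.rl (C.up h f).row → (C.up h f).row = (C.up h f').row ∧
    (C.up h f).B = (C.up h f').B ∧ (C.dn (h + 1) f).row = (C.dn (h + 1) f').row ∧
    (C.dn (h + 1) f).b = (C.dn (h + 1) f').b) ∧
  (S.rl (C.dn (h + 1) f).row → f (h + 1) = f' (h + 1) → (C.dn (h + 2) f).b = (C.dn (h + 2) f').b)

lemma GX_of_mir {D : ℕ} (H : C.mir.FX D) : C.GX D := by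
  intro h f f' off u u'
  have e1 : -1 - h + 1 = -h := by ring
  have e2 : -1 - h - 1 = -(h + 2) := by ring
  have := H (-1 - h) (rev f) (rev f') (by
    intro i hi
    rw [rev_apply, rev_apply]
    exact off _ (by omega)) ((C.DT_mir D h f).mpr u) ((C.DT_mir D h f').mpr u')
  rw [e1, e2] at this
  obtain ⟨a1, a2, a3⟩ := this
  have r1 : ∀ g : K, (C.mir.dn (-h) (rev g)) = (C.up h g).sw := by
    intro g
    show (C.up (- -h) (rev (rev g))).sw = _
    rw [neg_neg, rev_rev]
  have r2 : ∀ g : K, (C.mir.up (-1 - h) (rev g)) = (C.dn (h + 1) g).sw := by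
    intro g
    show (C.dn (-(-1 - h)) (rev (rev g))).sw = _
    rw [show -(-1 - h) = h + 1 by ring, rev_rev]
  have r3 : ∀ g : K, (C.mir.up (-(h + 2)) (rev g)) = (C.dn (h + 2) g).sw := by
    intro g
    show (C.dn (-(-(h + 2))) (rev (rev g))).sw = _
    rw [neg_neg, rev_rev]
  rw [r1, r1] at a1 a2
  rw [r2, r2] at a2
  rw [r2, r3, r3] at a3
  refine ⟨a1, a2, fun h1 h2 => a3 h1 ?_⟩
  rw [rev_apply, rev_apply, show -1 - -(h + 2) = h + 1 by ring]
  exact h2

lemma fx_zero : C.FX 0 := by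
  intro h f f' off _ _
  have e : f = f' := by
    ext i
    exact off i (by simp; omega)
  subst e
  exact ⟨Iff.rfl, fun _ => ⟨rfl, rfl, rfl, rfl⟩, fun _ _ => rfl⟩

/-- T1-cousins go down equally. -/
lemma ext_aux (n : ℕ) (H : ∀ U ≤ n, C.GX U) : ∀ (k U : ℕ) (h : ℤ) (f f' : K), U + k ≤ n + 1 →
    Off h (h + 1 + U) f f' → C.UT h f U → C.UT h f' U → C.DT h f k → C.DT h f' k := by
  intro k
  induction k with
  | zero => intros; trivial
  | succ k ih =>
    intro U h f f' hle off uf uf' d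
    rw [DT_succ] at d
    obtain ⟨x, rx, dx⟩ := d
    have nb : ¬ S.bt (C.up h f').row := by
      intro hbt
      obtain ⟨y, hy⟩ := match_digit h f f'
      have off' : Off (h + 1) (h + 1 + U) f' (flx h y f) := by
        intro i hi
        by_cases hih : i = h
        · rw [hih]; exact hy.symm
        · cases y
          · exact (off i (by omega)).symm
          · show f' i = fl h f i
            rw [fl_ne hih]; exact (off i (by omega)).symm
      have := (H U (by omega) h f' (flx h y f) off' uf' ((C.UT_flx h y f U).mpr uf)).2.1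
        (S.btM _ hbt).2.2.1
      rw [this.1, C.rowx] at hbt
      apply rx.2.1
      rw [C.rowx]
      exact hbt
    obtain ⟨y, hy⟩ := C.exists_a0 h f'
    have ry : C.Reg h (flx h y f') := C.reg_of_a (by rw [C.rowx]; exact nb) hy
    rw [DT_succ]
    refine ⟨y, ry, ?_⟩
    apply ih (U + 1) (h - 1) (flx h x f) (flx h y f') (by omega) _ _ _ dx
    · intro i hi
      push_cast at hi
      have h1 : i ≠ h := by omega
      have h2 : f i = f' i := off i (by omega)
      have e : ∀ (x : Bool) (g : K), flx h x g i = g i := by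
        intro x g
        cases x
        · rfl
        · exact fl_ne h1 g
      rw [e, e, h2]
    · left
      rw [sub_add_cancel]
      exact ⟨rx, (C.UT_flx h x f U).mpr uf⟩
    · left
      rw [sub_add_cancel]
      exact ⟨ry, (C.UT_flx h y f' U).mpr uf'⟩

end RCfg

end Run7.h687.Full
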