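import Pool.Agent.Run7.h687.Full.Rigid2

set_option autoImplicit false

namespace Run7.h687.Full
open Run7.h687.Lamp

lemma flx_comm (i j : ℤ) (x y : Bool) (f : K) : flx i x (flx j y f) = flx j y (flx i x f) := by
  cases x <;> cases y
  · rfl
  · rfl
  · rfl
  · exact fl_comm i j f

lemma flx_flx (i : ℤ) (x y : Bool) (f : K) : flx i x (flx i y f) = flx i (x ^^ y) f := by
  cases x <;> cases y
  · rfl
  · rfl
  · rfl
  · exact fl_fl i f

lemma flx_ne {i j : ℤ} (h : j ≠ i) (x : Bool) (f : K) : (flx i x f) j = f j := by
  cases x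
  · rfl
  · exact fl_ne h f

lemma bool_a (a x : Bool) (h : (x ^^ a) = false) : x = a := by
  cases a <;> cases x <;> simp_all

namespace RCfg
variable {S : RowSys} (C : RCfg S)

theorem fx_succ (n : ℕ) (hF : ∀ D ≤ n, C.FX D) (hG : ∀ D ≤ n, C.GX D) : C.FX (n + 1) := by
  -- T1-siblings
  have ext1 : ∀ (k : ℕ) (h : ℤ) (g : K) (x : Bool), k ≤ n → C.Reg h g → C.Reg h (flx h x g) →
      C.DT (h - 1) g k → C.DT (h - 1) (flx h x g) k := by
    intro k h g x hk r1 r2 d
    cases x
    · exact d
    apply C.ext_aux n hG k 1 (h - 1) g _ (by omega) _ _ _ d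
    · intro i hi
      push_cast at hi
      exact (fl_ne (by omega) g).symm
    · left; rw [sub_add_cancel]; exact ⟨r1, trivial⟩
    · left; rw [sub_add_cancel]; exact ⟨r2, trivial⟩
  have dall : ∀ (k : ℕ) (h : ℤ) (g : K) (x : Bool), k ≤ n → C.DT h g (k + 1) →
      C.Reg h (flx h x g) → C.DT (h - 1) (flx h x g) k := by
    intro k h g x hk d r
    rw [DT_succ] at d
    obtain ⟨y, ry, dy⟩ := d
    have e : flx h x g = flx h (x ^^ y) (flx h y g) := by
      rw [flx_flx]
      cases x <;> cases y <;> rfl
    rw [e] at r ⊢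
    exact ext1 k h _ _ hk ry r dy
  have pair : ∀ (k : ℕ) (h : ℤ) (g g' : K), k ≤ n → Off (h - 1 - k) h g g' → C.Reg h g →
      C.Reg h g' → C.DT (h - 1) g k → C.DT (h - 1) g' k →
      (S.rl (C.up h g).row ↔ S.rl (C.up h g').row) ∧
      ((¬ S.rl (C.up h g).row ∨ k = 0) → (C.up h g).row = (C.up h g').row ∧
        (C.up h g).A = (C.up h g').A) := by
    intro k h g g' hk off r r' d d'
    obtain ⟨y, hy⟩ := match_digit (h - 1) g' g
    have off2 : Off (h - 1 - k) (h - 1) g (flx (h - 1) y g') := by
      intro i hi
      by_cases h1 : i = h - 1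
      · rw [h1]; exact hy.symm
      · rw [flx_ne h1]; exact off i (by omega)
    have := hF k hk (h - 1) g (flx (h - 1) y g') off2 d ((C.DT_flx _ _ _ _).mpr d')
    rw [sub_add_cancel, C.row2', C.Ax2, ← r.1, ← r'.1] at this
    refine ⟨this.1, fun hh => ?_⟩
    rcases hh with hh | hh
    · exact ⟨(this.2.1 hh).1, (this.2.1 hh).2.1⟩
    · subst hh
      have e : g = flx (h - 1) y g' := by
        ext i
        exact off2 i (by push_cast; omega)
      rw [r.1, r'.1]
      constructor
      · conv_lhs => rw [e]
        exact C.row2' h g' y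
      · conv_lhs => rw [e]
        exact C.Ax2 h g' y
  intro h f f' off df df'
  push_cast at off
  have nb := C.nb_of_DT df
  have nb' := C.nb_of_DT df'
  have offx : ∀ x : Bool, Off (h - 1 - n) h (flx h x f) (flx h x f') := by
    intro x
    have : Off (h - 1 - n) h f f' := fun i hi => off i (by omega)
    exact Off.flx2 h this x
  -- the M-claim
  have MM : ∀ f f' : K, (∀ x : Bool, Off (h - 1 - n) h (flx h x f) (flx h x f')) →
      C.DT h f (n + 1) → C.DT h f' (n + 1) → S.M (C.up h f).row → S.M (C.up h f').row := by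
    intro f f' offx df df' hM
    by_contra hM'
    have nb := C.nb_of_DT df
    have nb' := C.nb_of_DT df'
    obtain ⟨x, hx⟩ := C.exists_a0 h f
    have r : C.Reg h (flx h x f) := C.reg_of_a (by rw [C.rowx]; exact nb) hx
    have r' : C.Reg h (flx h x f') := C.reg_of_M (by rw [C.rowx]; exact nb')
      (by rw [C.rowx]; exact hM')
    have := (pair n h _ _ le_rfl (offx x) r r' (dall n h f x le_rfl df r)
      (dall n h f' x le_rfl df' r')).2 (Or.inl (by
        rw [C.rowx]; exact fun h1 => (S.rlM _ h1).1 hM))
    rw [C.rowx, C.rowx] at this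
    exact hM' (this.1 ▸ hM)
  have p1 : S.rl (C.dn (h + 1) f).row ↔ S.rl (C.dn (h + 1) f').row := by
    constructor
    · intro h1
      exact S.nxM _ _ (C.nx h f') (MM f f' offx df df' (S.nxM' _ _ (C.nx h f) h1))
    · intro h1
      exact S.nxM _ _ (C.nx h f) (MM f' f (fun x => Off.symm (offx x)) df' df
        (S.nxM' _ _ (C.nx h f') h1))
  -- the main computation
  have main : ¬ S.rl (C.dn (h + 1) f).row →
      ((C.dn (h + 1) f).row = (C.dn (h + 1) f').row ∧
      (C.dn (h + 1) f).A = (C.dn (h + 1) f').A ∧ (C.up h f).row = (C.up h f').row ∧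
      (C.up h f).a = (C.up h f').a) ∧
      (S.rl (C.up h f).row → f (h - 1) = f' (h - 1) →
        (C.up (h - 1) f).a = (C.up (h - 1) f').a) := by
    intro hnr
    have hnr' : ¬ S.rl (C.dn (h + 1) f').row := fun h1 => hnr (p1.mpr h1)
    have nM : ¬ S.M (C.up h f).row := fun h1 => hnr (S.nxM _ _ (C.nx h f) h1)
    have nM' : ¬ S.M (C.up h f').row := fun h1 => hnr' (S.nxM _ _ (C.nx h f') h1)
    have r : ∀ x, C.Reg h (flx h x f) := fun x => C.reg_of_M (by rw [C.rowx]; exact nb)
      (by rw [C.rowx]; exact nM)
    have r' : ∀ x, C.Reg h (flx h x f') := fun x => C.reg_of_M (by rw [C.rowx]; exact nb')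
      (by rw [C.rowx]; exact nM')
    have dx : ∀ x, C.DT (h - 1) (flx h x f) n := fun x => dall n h f x le_rfl df (r x)
    have dx' : ∀ x, C.DT (h - 1) (flx h x f') n := fun x => dall n h f' x le_rfl df' (r' x)
    have pr : ∀ x, _ := fun x => pair n h _ _ le_rfl (offx x) (r x) (r' x) (dx x) (dx' x)
    have hrl : S.rl (C.up h f).row ↔ S.rl (C.up h f').row := (pr false).1
    have A3 := fun x => C.A3 h (flx h x f)
    have A3' := fun x => C.A3 h (flx h x f')
    have eR : ∀ (g : K) x, (C.dn (h + 1) (flx h x g)).row = (C.dn (h + 1) g).row := by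
      intro g x; cases x
      · rfl
      · exact C.row2 h g
    have eA : ∀ (g : K) x, (C.dn (h + 1) (flx h x g)).A = (C.dn (h + 1) g).A := by
      intro g x; cases x
      · rfl
      · exact C.A2 h g
    have A4 : ∀ x, (C.up h (flx h x f)).A = (C.dn (h + 1) f).A +
        if x ^^ (C.up h f).a then sgl (S.k1 (C.up h f).row (C.dn (h + 1) f).row) else 0 := by
      intro x; rw [A3 x, C.rowx, C.ax, eR, eA]
    have A4' : ∀ x, (C.up h (flx h x f')).A = (C.dn (h + 1) f').A +
        if x ^^ (C.up h f').a then sgl (S.k1 (C.up h f').row (C.dn (h + 1) f').row) else 0 := by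
      intro x; rw [A3' x, C.rowx, C.ax, eR, eA]
    by_cases hc : ¬ S.rl (C.up h f).row ∨ n = 0
    · -- one step
      have q := fun x => (pr x).2 (by rw [C.rowx]; exact hc)
      have q0 := (q false)
      have q1 := (q true)
      have hrow : (C.up h f).row = (C.up h f').row := q0.1
      have a0 := q0.2
      have a1 := q1.2
      rw [A4 false, A4' false] at a0
      rw [A4 true, A4' true] at a1
      simp only [Bool.false_xor, Bool.true_xor] at a0 a1
      obtain ⟨b1, b2, b3⟩ := alg1 _ _ _ _ _ _ a0 a1
      rw [← hrow] at b3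
      have hrow2 := S.k1i _ _ _ nM (C.nx h f) (by rw [hrow]; exact C.nx h f') b3
      refine ⟨⟨hrow2, b2, hrow, b1⟩, fun h1 h2 => ?_⟩
      rcases hc with hc | hc
      · exact absurd h1 hc
      · subst hc
        have : f = f' := by
          ext i
          by_cases hi : i = h - 1
          · rw [hi]; exact h2
          · exact off i (by push_cast; omega)
        rw [this]
    · -- two steps
      push Not at hc
      obtain ⟨hreal, hn0⟩ := hc
      obtain ⟨k, rfl⟩ : ∃ k, n = k + 1 := ⟨n - 1, by omega⟩
      have hreal' := hrl.mp hreal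
      obtain ⟨y0, hy0⟩ := match_digit (h - 1) f' f
      set f2 := flx (h - 1) y0 f' with hf2
      -- data at height `h`
      have nx1 : ∀ (g : K), S.Nx (C.up (h - 1) g).row (C.dn h g).row := by
        intro g
        have := C.nx (h - 1) g
        rwa [sub_add_cancel] at this
      have dnf : ∀ x y, (C.dn h (flx (h - 1) y (flx h x f))).row = (C.up h f).row := by
        intro x y
        rw [C.row2', ← (r x).1, C.rowx]
      have dnf' : ∀ x y, (C.dn h (flx (h - 1) y (flx h x f2))).row = (C.up h f').row := by
        intro x y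
        rw [hf2, flx_comm h, flx_flx, C.row2', ← (r' x).1, C.rowx]
      have Mf : ∀ x y, S.M (C.up (h - 1) (flx (h - 1) y (flx h x f))).row := by
        intro x y
        apply S.nxM' _ _ (nx1 _)
        rw [dnf]; exact hreal
      have Mf' : ∀ x y, S.M (C.up (h - 1) (flx (h - 1) y (flx h x f2))).row := by
        intro x y
        apply S.nxM' _ _ (nx1 _)
        rw [dnf']; exact hreal'
      have aM : ∀ x y, (C.up (h - 1) (flx (h - 1) y (flx h x f))).a =
          (y ^^ (C.up (h - 1) f).a) := by
        intro x y
        rw [C.ax]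
        congr 1
        cases x
        · rfl
        · have := C.pm (h - 1) f (Mf false false)
          rw [sub_add_cancel] at this
          exact this
      have aM' : ∀ x y, (C.up (h - 1) (flx (h - 1) y (flx h x f2))).a =
          (y ^^ (C.up (h - 1) f2).a) := by
        intro x y
        rw [C.ax]
        congr 1
        cases x
        · rfl
        · have := C.pm (h - 1) f2 (Mf' false false)
          rw [sub_add_cancel] at this
          exact this
      set m := S.k1 (C.up (h - 1) f).row (C.up h f).row with hm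
      have val : ∀ x y, (C.up (h - 1) (flx (h - 1) y (flx h x f))).A =
          (C.dn (h + 1) f).A +
          (if x ^^ (C.up h f).a then sgl (S.k1 (C.up h f).row (C.dn (h + 1) f).row) else 0) +
          (if y ^^ (C.up (h - 1) f).a then sgl m else 0) := by
        intro x y
        have h1 := C.A3 (h - 1) (flx (h - 1) y (flx h x f))
        rw [sub_add_cancel, aM, C.Ax2, ← (r x).1, A4 x, dnf] at h1
        rw [h1, S.k1MM _ (C.up h f).row _ (C.up h f).row (Mf x y) (Mf false false)]
        rfl
      have val' : ∀ x y, (C.up (h - 1) (flx (h - 1) y (flx h x f2))).A =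
          (C.dn (h + 1) f').A +
          (if x ^^ (C.up h f').a then sgl (S.k1 (C.up h f').row (C.dn (h + 1) f').row) else 0) +
          (if y ^^ (C.up (h - 1) f2).a then sgl m else 0) := by
        intro x y
        have h1 := C.A3 (h - 1) (flx (h - 1) y (flx h x f2))
        have h2 : (C.dn h (flx (h - 1) y (flx h x f2))).A = (C.up h (flx h x f')).A := by
          rw [hf2, flx_comm h, flx_flx, C.Ax2, ← (r' x).1]
        rw [sub_add_cancel, aM', h2, A4' x, dnf'] at h1
        rw [h1, S.k1MM _ (C.up h f').row _ (C.up h f).row (Mf' x y) (Mf false false)]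
        rfl
      have aR : ∀ x y, (C.dn h (flx (h - 1) y (flx h x f))).a = (x ^^ (C.up h f).a) := by
        intro x y
        rw [C.ax2, ← (r x).1, C.ax]
      have aR' : ∀ x y, (C.dn h (flx (h - 1) y (flx h x f2))).a = (x ^^ (C.up h f').a) := by
        intro x y
        rw [hf2, flx_comm h, flx_flx, C.ax2, ← (r' x).1, C.ax]
      have regv : ∀ (g : K) (aa bb : Bool), S.M (C.up (h - 1) g).row → (C.up (h - 1) g).a = bb →
          (C.dn h g).a = aa → (aa && bb) = false → C.Reg (h - 1) g := by
        intro g aa bb hM hb ha hab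
        rcases C.el (h - 1) g with h3 | h3 | h3
        · exact h3
        · exact absurd hM (S.btM _ h3.2.2).1
        · have h4 := C.ht (h - 1) g h3.1
          rw [sub_add_cancel, ha] at h4
          rw [hb] at h3
          rw [h4, h3.2.2] at hab
          exact absurd hab (by decide)
      have offF : ∀ x y, Off (h - 1 - 1 - k) (h - 1) (flx (h - 1) y (flx h x f))
          (flx (h - 1) y (flx h x f2)) := by
        intro x y
        apply Off.flx2
        apply Off.flx2
        intro i hi
        by_cases h1 : i = h - 1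
        · rw [h1]; exact hy0.symm
        · rw [hf2, flx_ne h1]; exact off i (by push_cast at *; omega)
      have key : ∀ x y : Bool, ((x ^^ (C.up h f).a) && (y ^^ (C.up (h - 1) f).a)) = false →
          ((x ^^ (C.up h f').a) && (y ^^ (C.up (h - 1) f2).a)) = false →
          (C.up (h - 1) (flx (h - 1) y (flx h x f))).A =
            (C.up (h - 1) (flx (h - 1) y (flx h x f2))).A := by
        intro x y c1 c2
        have rv := regv _ _ _ (Mf x y) (aM x y) (aR x y) c1
        have rv' := regv _ _ _ (Mf' x y) (aM' x y) (aR' x y) c2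
        have d1 : C.DT (h - 1 - 1) (flx (h - 1) y (flx h x f)) k :=
          dall k (h - 1) _ y (by omega) (dx x) rv
        have d2 : C.DT (h - 1 - 1) (flx (h - 1) y (flx h x f2)) k := by
          apply dall k (h - 1) _ y (by omega) _ rv'
          rw [hf2, flx_comm h, C.DT_flx]
          exact dx' x
        exact ((pair k (h - 1) _ _ (by omega) (offF x y) rv rv' d1 d2).2 (Or.inl
          (fun h1 => (S.rlM _ h1).1 (Mf x y)))).2
      have hkm : S.k1 (C.up h f).row (C.dn (h + 1) f).row ≠ m := by
        intro h1
        exact S.k1M _ _ _ _ (Mf false false) (by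
          have := nx1 f
          rw [show (C.dn h f).row = (C.up h f).row from dnf false false] at this
          exact this) hreal (C.nx h f) h1.symm
      have hkm' : S.k1 (C.up h f').row (C.dn (h + 1) f').row ≠ m := by
        intro h1
        exact S.k1M _ _ _ _ (Mf false false) (by
          have := nx1 f
          rw [show (C.dn h f).row = (C.up h f).row from dnf false false] at this
          exact this) hreal' (C.nx h f') h1.symm
      obtain ⟨b1, b2, b3, b4⟩ := alg2 _ _ _ _ m hkm hkm' (C.up h f).a (C.up (h - 1) f).a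
        (C.up h f').a (C.up (h - 1) f2).a (by
          intro x y c1 c2
          rw [← val, ← val']
          exact key x y c1 c2)
      have hrow := S.k1R _ _ _ _ hreal hreal' (C.nx h f) (C.nx h f') b4
      have hrow2 := S.detR _ _ _ (C.nx h f) (by rw [hrow]; exact C.nx h f') hreal
      refine ⟨⟨hrow2, b3, hrow, b1⟩, fun _ h2 => ?_⟩
      rw [b2]
      have : f2 = f' := by
        cases y0
        · rfl
        · exfalso
          change fl (h - 1) f' (h - 1) = f (h - 1) at hy0
          rw [fl_same, ← h2] at hy0
          revert hy0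
          generalize f (h - 1) = u
          revert u
          decide
      rw [this]
  refine ⟨p1, fun hnr => (main hnr).1, fun hrl heq => ?_⟩
  exact (main (fun h1 => (S.rlM _ hrl).1 (S.nxM' _ _ (C.nx h f) h1))).2 hrl heq

theorem fx_all (n : ℕ) : ∀ (S : RowSys) (C : RCfg S), ∀ D ≤ n, C.FX D := by
  induction n with
  | zero =>
    intro S C D hD
    have : D = 0 := by omega
    subst this
    exact C.fx_zero
  | succ n ih =>
    intro S C D hD
    by_cases h : D ≤ n
    · exact ih S C D h
    · have : D = n + 1 := by omega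
      subst this
      exact C.fx_succ n (ih S C) (fun D hD => C.GX_of_mir (ih S.mir C.mir D hD))

theorem fx (D : ℕ) : C.FX D := fx_all D S C D le_rfl

theorem gx (D : ℕ) : C.GX D := C.GX_of_mir (C.mir.fx D)

/-- T1-cousins go down equally. -/
theorem ext {k U : ℕ} {h : ℤ} {f f' : K} (off : Off h (h + 1 + U) f f') (u : C.UT h f U)
    (u' : C.UT h f' U) (d : C.DT h f k) : C.DT h f' k :=
  C.ext_aux (U + k) (fun D _ => C.gx D) k U h f f' (by omega) off u u' d

/-- T2-cousins go up equally. -/
theorem ext' {k D : ℕ} {h : ℤ} {f f' : K} (off : Off (h - D) (h + 1) f f') (u : C.DT h f D)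
    (u' : C.DT h f' D) (d : C.UT h f k) : C.UT h f' k := by
  rw [← C.DT_mir] at d ⊢
  rw [← C.UT_mir] at u u'
  refine C.mir.ext (U := D) ?_ u u' d
  intro i hi
  rw [rev_apply, rev_apply]
  exact off _ (by omega)

end RCfg

end Run7.h687.Full
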