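import Pool.Agent.Run7.h687.Full.Rigid3

set_option autoImplicit false

namespace Run7.h687.Full
open Run7.h687.Lamp

namespace RCfg
variable {S : RowSys} (C : RCfg S)

lemma reg_of_rl {h : ℤ} {f : K} (H : S.rl (C.dn h f).row) : C.Reg h f :=
  C.reg_of_P (fun h1 => (S.tpM _ h1).2.2.1 H) (fun h1 => (S.rlM _ H).2 h1)

lemma reg_of_rl' {h : ℤ} {f : K} (H : S.rl (C.up h f).row) : C.Reg h f :=
  C.reg_of_M (fun h1 => (S.btM _ h1).2.2.1 H) (fun h1 => (S.rlM _ H).1 h1)

theorem fxs {D : ℕ} {h : ℤ} {f f' : K} (off : Off (h - D) h f f') (d : C.DT h f D)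
    (d' : C.DT h f' D) : (C.up h f).row = (C.up h f').row ∧ (C.up h f).a = (C.up h f').a ∧
      (C.up h f).A = (C.up h f').A ∧ (C.dn (h + 1) f).row = (C.dn (h + 1) f').row ∧
      (C.dn (h + 1) f).A = (C.dn (h + 1) f').A := by
  obtain ⟨a1, a2, a3⟩ := C.fx D h f f' off d d'
  by_cases hr : S.rl (C.dn (h + 1) f).row
  · have hr' := a1.mp hr
    have r := C.reg_of_rl hr
    have r' := C.reg_of_rl hr'
    have d1 : C.DT (h + 1) f (D + 1) := Or.inl ⟨r, by rw [add_sub_cancel_right]; exact d⟩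
    have d1' : C.DT (h + 1) f' (D + 1) := Or.inl ⟨r', by rw [add_sub_cancel_right]; exact d'⟩
    obtain ⟨b1, b2, b3⟩ := C.fx (D + 1) (h + 1) f f' (off.mono (by push_cast; omega) (by omega)) d1 d1'
    have hrr : S.rl (C.up (h + 1) f).row := by rw [r.1]; exact hr
    have hP := S.nxR _ _ (C.nx (h + 1) f) hrr
    obtain ⟨c1, c2, c3, c4⟩ := b2 (fun h1 => (S.rlM _ h1).2 hP)
    have hrow : (C.dn (h + 1) f).row = (C.dn (h + 1) f').row := by rw [← r.1, ← r'.1]; exact c3
    have hA : (C.dn (h + 1) f).A = (C.dn (h + 1) f').A := by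
      rw [← r.1, ← r'.1, C.A3 (h + 1) f, C.A3 (h + 1) f', c1, c2, c3, c4]
    have ha : (C.up h f).a = (C.up h f').a := by
      have := b3 hrr (by rw [add_sub_cancel_right]; exact off h (by omega))
      rw [add_sub_cancel_right] at this
      exact this
    have hrow2 : (C.up h f).row = (C.up h f').row :=
      S.detR' _ _ _ (C.nx h f) (by rw [hrow]; exact C.nx h f') hr
    exact ⟨hrow2, ha, by rw [C.A3 h f, C.A3 h f', hA, ha, hrow, hrow2], hrow, hA⟩
  · obtain ⟨c1, c2, c3, c4⟩ := a2 hr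
    exact ⟨c3, c4, by rw [C.A3 h f, C.A3 h f', c1, c2, c3, c4], c1, c2⟩

theorem gxs {D : ℕ} {h : ℤ} {f f' : K} (off : Off (h + 1) (h + 1 + D) f f') (d : C.UT h f D)
    (d' : C.UT h f' D) : (C.dn (h + 1) f).row = (C.dn (h + 1) f').row ∧
      (C.dn (h + 1) f).b = (C.dn (h + 1) f').b ∧
      (C.dn (h + 1) f).B = (C.dn (h + 1) f').B ∧ (C.up h f).row = (C.up h f').row ∧
      (C.up h f).B = (C.up h f').B := by
  have e1 : -1 - h + 1 = -h := by ring
  have := C.mir.fxs (D := D) (h := -1 - h) (f := rev f) (f' := rev f') (by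
    intro i hi
    rw [rev_apply, rev_apply]
    exact off _ (by omega)) ((C.DT_mir D h f).mpr d) ((C.DT_mir D h f').mpr d')
  have r1 : ∀ g : K, (C.mir.dn (-1 - h + 1) (rev g)) = (C.up h g).sw := by
    intro g
    show (C.up (-(-1 - h + 1)) (rev (rev g))).sw = _
    rw [show -(-1 - h + 1) = h by ring, rev_rev]
  have r2 : ∀ g : K, (C.mir.up (-1 - h) (rev g)) = (C.dn (h + 1) g).sw := by
    intro g
    show (C.dn (-(-1 - h)) (rev (rev g))).sw = _
    rw [show -(-1 - h) = h + 1 by ring, rev_rev]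
  simp only [r1, r2] at this
  exact this

lemma UT_le {h : ℤ} {f : K} {U V : ℕ} (hle : V ≤ U) (H : C.UT h f U) : C.UT h f V := by
  induction V generalizing U h f with
  | zero => trivial
  | succ V ih =>
    obtain ⟨U', rfl⟩ : ∃ U', U = U' + 1 := ⟨U - 1, by omega⟩
    rw [UT_succ] at H ⊢
    obtain ⟨x, r, u⟩ := H
    exact ⟨x, r, ih (by omega) u⟩

lemma DT_le {h : ℤ} {f : K} {U V : ℕ} (hle : V ≤ U) (H : C.DT h f U) : C.DT h f V := by
  induction V generalizing U h f with
  | zero => trivial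
  | succ V ih =>
    obtain ⟨U', rfl⟩ : ∃ U', U = U' + 1 := ⟨U - 1, by omega⟩
    rw [DT_succ] at H ⊢
    obtain ⟨x, r, u⟩ := H
    exact ⟨x, r, ih (by omega) u⟩

/-- a step up through a regular element -/
lemma UT_step {h : ℤ} {f : K} {U : ℕ} (r : C.Reg (h + 1) f) (u : C.UT (h + 1) f U) :
    C.UT h f (U + 1) := Or.inl ⟨r, u⟩

lemma UT_step' {h : ℤ} {f : K} {U : ℕ} (r : C.Reg h f) (u : C.UT h f U) :
    C.UT (h - 1) f (U + 1) := Or.inl (by rw [sub_add_cancel]; exact ⟨r, u⟩)

lemma DT_step {h : ℤ} {f : K} {U : ℕ} (r : C.Reg h f) (u : C.DT (h - 1) f U) :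
    C.DT h f (U + 1) := Or.inl ⟨r, u⟩

lemma DT_step' {h : ℤ} {f : K} {U : ℕ} (r : C.Reg (h + 1) f) (u : C.DT h f U) :
    C.DT (h + 1) f (U + 1) := Or.inl (by rw [add_sub_cancel_right]; exact ⟨r, u⟩)

/-- if one can go up at all, the tops are not `top` -/
lemma nt_of_UT {h : ℤ} {f : K} {D : ℕ} (H : C.UT h f (D + 1)) : ¬ S.tp (C.dn (h + 1) f).row := by
  rw [UT_succ] at H
  obtain ⟨x, hx, -⟩ := H
  have := hx.2.2
  rw [hx.1] at this
  cases x
  · exact this
  · change ¬ S.tp (C.dn (h + 1) (fl h f)).row at this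
    rwa [C.row2] at this

lemma UT_one {h : ℤ} {f : K} (H : ¬ S.tp (C.dn (h + 1) f).row) : C.UT h f 1 := by
  obtain ⟨x, hx⟩ := C.exists_b0 (h + 1) f
  rw [add_sub_cancel_right] at hx
  rw [UT_succ]
  refine ⟨x, C.reg_of_b ?_ hx, trivial⟩
  have := C.row2' (h + 1) f x
  rw [add_sub_cancel_right] at this
  rw [this]; exact H

lemma DT_one {h : ℤ} {f : K} (H : ¬ S.bt (C.up h f).row) : C.DT h f 1 := by
  obtain ⟨x, hx⟩ := C.exists_a0 h f
  rw [DT_succ]
  exact ⟨x, C.reg_of_a (by rw [C.rowx]; exact H) hx, trivial⟩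

/-- the canonical way up: tops with `b = false` -/
noncomputable def cy (h : ℤ) (f : K) : ℕ → K
  | 0 => f
  | (k + 1) => flx (h + k) (C.dn (h + k + 1) (cy h f k)).b (cy h f k)

lemma cy_b (h : ℤ) (f : K) (k : ℕ) : (C.dn (h + k + 1) (C.cy h f (k + 1))).b = false := by
  show (C.dn (h + k + 1) (flx (h + k) (C.dn (h + k + 1) (C.cy h f k)).b (C.cy h f k))).b = false
  have := C.bx2 (h + k + 1) (C.cy h f k) (C.dn (h + k + 1) (C.cy h f k)).b
  rw [add_sub_cancel_right] at this
  rw [this]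
  simp

lemma cy_off (h : ℤ) (f : K) (k : ℕ) : Off h (h + k) (C.cy h f k) f := by
  induction k with
  | zero => exact Off.refl _ _ _
  | succ k ih =>
    push_cast
    apply Off.flx (by omega) (by omega)
    exact ih.mono le_rfl (by omega)

lemma cy_reg {h : ℤ} {f : K} {U : ℕ} (u : C.UT h f U) : ∀ k ≤ U,
    C.UT (h + k) (C.cy h f k) (U - k) ∧ (0 < k → C.Reg (h + k) (C.cy h f k)) := by
  intro k
  induction k with
  | zero =>
    intro _
    refine ⟨?_, fun h1 => absurd h1 (lt_irrefl _)⟩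
    simpa [cy] using u
  | succ k ih =>
    intro hk
    obtain ⟨u1, -⟩ := ih (by omega)
    obtain ⟨V, hV⟩ : ∃ V, U - k = V + 1 := ⟨U - k - 1, by omega⟩
    rw [hV] at u1
    have hnt := C.nt_of_UT u1
    have hrow : ¬ S.tp (C.dn (h + k + 1) (C.cy h f (k + 1))).row := by
      have := C.row2' (h + k + 1) (C.cy h f k) (C.dn (h + k + 1) (C.cy h f k)).b
      rw [add_sub_cancel_right] at this
      show ¬ S.tp (C.dn (h + k + 1) (flx (h + k) _ _)).row
      rw [this]; exact hnt
    have r := C.reg_of_b hrow (C.cy_b h f k)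
    rw [UT_succ] at u1
    obtain ⟨x, rx, ux⟩ := u1
    have e : h + ((k + 1 : ℕ) : ℤ) = h + k + 1 := by push_cast; ring
    rw [e]
    refine ⟨?_, fun _ => r⟩
    have hV' : U - (k + 1) = V := by omega
    rw [hV']
    refine C.ext' (D := 1) ?_ (Or.inl ⟨rx, trivial⟩) (Or.inl ⟨r, trivial⟩) ux
    show Off _ _ _ (flx (h + k) _ _)
    refine Off.mono (p := h + k) (q := h + k + 1) ?_ (by push_cast; omega) (by omega)
    refine Off.flx (by omega) (by omega) ?_ x
    exact (Off.flx (by omega) (by omega) (Off.refl (h + k) (h + k + 1) _) _).symm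

lemma cy_match {h : ℤ} {f f' : K} {U : ℕ} (off : Off h (h + 1 + U) f f') (u : C.UT h f U)
    (u' : C.UT h f' U) : ∀ k ≤ U + 1, Off (h + k) (h + 1 + U) (C.cy h f k) (C.cy h f' k) := by
  intro k
  induction k with
  | zero => intro _; simpa [cy] using off
  | succ k ih =>
    intro hk
    have off1 := ih (by omega)
    set g := C.cy h f k with hg
    set g' := C.cy h f' k with hg'
    obtain ⟨x, hx⟩ := match_digit (h + k) g g'
    have off2 : Off (h + k + 1) (h + 1 + U) (flx (h + k) x g) g' := by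
      intro i hi
      by_cases h1 : i = h + k
      · rw [h1]; exact hx
      · rw [flx_ne h1]; exact off1 i (by omega)
    have hb := (C.gxs (D := U - k) (h := h + k) (f := flx (h + k) x g) (f' := g')
      (by
        have e : h + k + 1 + ((U - k : ℕ) : ℤ) = h + 1 + U := by omega
        rw [e]; exact off2)
      ((C.UT_flx _ _ _ _).mpr (C.cy_reg u k (by omega)).1) (C.cy_reg u' k (by omega)).1).2.1
    have hb2 : (C.dn (h + k + 1) (flx (h + k) x g)).b = (x ^^ (C.dn (h + k + 1) g).b) := by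
      have := C.bx2 (h + k + 1) g x
      rwa [add_sub_cancel_right] at this
    have e1 : C.cy h f (k + 1) = flx (h + k) (C.dn (h + k + 1) g').b (flx (h + k) x g) := by
      show flx (h + k) (C.dn (h + k + 1) g).b g = _
      rw [flx_flx, ← hb, hb2]
      congr 1
      generalize (C.dn (h + k + 1) g).b = c
      cases c <;> cases x <;> rfl
    have e2 : C.cy h f' (k + 1) = flx (h + k) (C.dn (h + k + 1) g').b g' := rfl
    rw [e1, e2]
    push_cast
    rw [← add_assoc]
    exact off2.flx2 _ _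

/-- row rigidity in a spanned brick -/
theorem rows {D U : ℕ} {h : ℤ} {f f' : K} (off : Off (h - D) (h + 1 + U) f f')
    (d : C.DT h f D) (d' : C.DT h f' D) (u : C.UT h f U) (u' : C.UT h f' U) :
    (C.up h f).row = (C.up h f').row ∧ (C.dn (h + 1) f).row = (C.dn (h + 1) f').row := by
  -- go down
  have down : ∀ (D U : ℕ) (h : ℤ) (f : K), C.DT h f D → C.UT h f U →
      ∃ g, Off (h - D) (h + 1) g f ∧ C.UT (h - D) g (D + U) ∧
        (C.up h (C.cy (h - D) g D)).row = (C.up h f).row ∧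
        (C.dn (h + 1) (C.cy (h - D) g D)).row = (C.dn (h + 1) f).row := by
    intro D U h f d u
    -- get the path down and reverse it
    have : ∃ g, Off (h - D) (h + 1) g f ∧ C.UT (h - D) g (D + U) := by
      induction D generalizing h f U with
      | zero => exact ⟨f, Off.refl _ _ _, by simpa using u⟩
      | succ D ih =>
        rw [DT_succ] at d
        obtain ⟨x, rx, dx⟩ := d
        obtain ⟨g, hg1, hg2⟩ := ih (U + 1) (h - 1) (flx h x f) dx
          (C.UT_step' rx ((C.UT_flx _ _ _ _).mpr u))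
        refine ⟨g, ?_, ?_⟩
        · refine Off.trans (hg1.mono (by push_cast; omega) (by omega)) ?_
          exact Off.flx (by push_cast; omega) (by omega) (Off.refl _ _ _) x
        · rw [show h - ((D + 1 : ℕ) : ℤ) = h - 1 - D by push_cast; ring,
            show D + 1 + U = D + (U + 1) by ring]
          exact hg2
    obtain ⟨g, hg1, hg2⟩ := this
    refine ⟨g, hg1, hg2, ?_⟩
    have hreg := C.cy_reg hg2
    -- the canonical path comes down again
    have hdt : ∀ k ≤ D, C.DT (h - D + k) (C.cy (h - D) g k) k := by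
      intro k
      induction k with
      | zero => intro _; trivial
      | succ k ih =>
        intro hk
        have h1 := ih (by omega)
        have r := (hreg (k + 1) (by omega)).2 (by omega)
        push_cast at r ⊢
        rw [← add_assoc] at r ⊢
        refine C.DT_step' r ?_
        show C.DT (h - D + k) (flx (h - D + k) _ _) k
        rw [C.DT_flx]; exact h1
    have h2 := hdt D le_rfl
    rw [sub_add_cancel] at h2
    have hoff : Off (h - D) (h + 1) (C.cy (h - D) g D) f :=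
      Off.trans ((C.cy_off (h - D) g D).mono le_rfl (by omega)) hg1
    obtain ⟨x, hx⟩ := match_digit h (C.cy (h - D) g D) f
    have hoff2 : Off (h - D) h (flx h x (C.cy (h - D) g D)) f := by
      intro i hi
      by_cases h1 : i = h
      · rw [h1]; exact hx
      · rw [flx_ne h1]; exact hoff i (by omega)
    have := C.fxs hoff2 ((C.DT_flx _ _ _ _).mpr h2) d
    rw [C.rowx] at this
    refine ⟨this.1, ?_⟩
    rw [← this.2.2.2.1]
    cases x
    · rfl
    · exact (C.row2 h _).symm
  obtain ⟨g, a1, a2, a3, a4⟩ := down D U h f d u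
  obtain ⟨g', b1, b2, b3, b4⟩ := down D U h f' d' u'
  have offg : Off (h - D) (h - D + 1 + ((D + U : ℕ) : ℤ)) g g' := by
    have e : h - D + 1 + ((D + U : ℕ) : ℤ) = h + 1 + U := by push_cast; ring
    rw [e]
    exact ((a1.mono le_rfl (by omega)).trans off).trans (b1.mono le_rfl (by omega)).symm
  have hm := C.cy_match offg a2 b2 D (by omega)
  have e : h - D + 1 + ((D + U : ℕ) : ℤ) = h + 1 + U := by push_cast; ring
  rw [e, sub_add_cancel] at hm
  obtain ⟨x, hx⟩ := match_digit h (C.cy (h - D) g D) (C.cy (h - D) g' D)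
  have hm2 : Off (h + 1) (h + 1 + U) (flx h x (C.cy (h - D) g D)) (C.cy (h - D) g' D) := by
    intro i hi
    by_cases h1 : i = h
    · rw [h1]; exact hx
    · rw [flx_ne h1]; exact hm i (by omega)
  have u1 := (C.cy_reg a2 D (by omega)).1
  have u1' := (C.cy_reg b2 D (by omega)).1
  rw [sub_add_cancel, show D + U - D = U by omega] at u1 u1'
  have := C.gxs hm2 ((C.UT_flx _ _ _ _).mpr u1) u1'
  rw [C.rowx] at this
  refine ⟨by rw [← a3, ← b3]; exact this.2.2.2.1, ?_⟩
  rw [← a4, ← b4, ← this.1]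
  cases x
  · rfl
  · exact (C.row2 h _).symm

end RCfg

end Run7.h687.Full
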