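import Pool.Agent.Run7.h687.Full.Rigid4

set_option autoImplicit false

namespace Run7.h687.Full
open Run7.h687.Lamp

namespace RCfg
variable {S : RowSys} (C : RCfg S)

/-- T1-siblings -/
lemma sib {h : ℤ} {g : K} (x : Bool) {k : ℕ} (r1 : C.Reg h g) (r2 : C.Reg h (flx h x g))
    (d : C.DT (h - 1) g k) : C.DT (h - 1) (flx h x g) k := by
  refine C.ext (U := 1) ?_ (C.UT_step' r1 trivial) (C.UT_step' r2 trivial) d
  exact (Off.flx (by omega) (by push_cast; omega) (Off.refl _ _ _) x).symm

lemma sib' {h : ℤ} {g : K} (x : Bool) {k : ℕ} (r1 : C.Reg (h + 1) g)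
    (r2 : C.Reg (h + 1) (flx h x g))
    (d : C.UT (h + 1) g k) : C.UT (h + 1) (flx h x g) k := by
  refine C.ext' (D := 1) ?_ (C.DT_step' r1 trivial) (C.DT_step' r2 trivial) d
  exact (Off.flx (by push_cast; omega) (by omega) (Off.refl _ _ _) x).symm

lemma DT_pred {h : ℤ} {g : K} {k : ℕ} (x : Bool) (d : C.DT h g (k + 1))
    (r : C.Reg h (flx h x g)) : C.DT (h - 1) (flx h x g) k := by
  rw [DT_succ] at d
  obtain ⟨y, ry, dy⟩ := d
  have e : flx h x g = flx h (x ^^ y) (flx h y g) := by
    rw [flx_flx]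
    cases x <;> cases y <;> rfl
  rw [e] at r ⊢
  exact C.sib _ ry r dy

lemma UT_pred {h : ℤ} {g : K} {k : ℕ} (x : Bool) (d : C.UT h g (k + 1))
    (r : C.Reg (h + 1) (flx h x g)) : C.UT (h + 1) (flx h x g) k := by
  rw [UT_succ] at d
  obtain ⟨y, ry, dy⟩ := d
  have e : flx h x g = flx h (x ^^ y) (flx h y g) := by
    rw [flx_flx]
    cases x <;> cases y <;> rfl
  rw [e] at r ⊢
  exact C.sib' _ ry r dy

/-- going down -/
lemma down (d : ℕ) : ∀ (U : ℕ) (h : ℤ) (f : K), C.DT h f d → C.UT h f U →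
    ∃ g, Off (h - d) (h + 1) g f ∧ C.UT (h - d) g (d + U) ∧
      ∀ k, C.DT (h - d) g k ↔ C.DT h f (d + k) := by
  induction d with
  | zero =>
    intro U h f _ u
    refine ⟨f, Off.refl _ _ _, by simpa using u, fun k => ?_⟩
    simp
  | succ d ih =>
    intro U h f hd u
    rw [DT_succ] at hd
    obtain ⟨x, rx, dx⟩ := hd
    obtain ⟨g, g1, g2, g3⟩ := ih (U + 1) (h - 1) (flx h x f) dx
      (C.UT_step' rx ((C.UT_flx _ _ _ _).mpr u))
    have e : h - ((d + 1 : ℕ) : ℤ) = h - 1 - d := by push_cast; ring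
    refine ⟨g, ?_, ?_, fun k => ?_⟩
    · refine Off.trans (g1.mono (by omega) (by omega)) ?_
      exact Off.flx (by push_cast; omega) (by omega) (Off.refl _ _ _) x
    · rw [e, show d + 1 + U = d + (U + 1) by ring]
      exact g2
    · rw [e, g3 k, show d + 1 + k = (d + k) + 1 by ring]
      constructor
      · intro h1
        rw [DT_succ]
        exact ⟨x, rx, h1⟩
      · intro h1
        exact C.DT_pred x h1 rx

/-- going up -/
lemma upw (d : ℕ) : ∀ (U : ℕ) (h : ℤ) (f : K), C.UT h f d → C.DT h f U →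
    ∃ g, Off h (h + d) g f ∧ C.DT (h + d) g (d + U) ∧
      ∀ k, C.UT (h + d) g k ↔ C.UT h f (d + k) := by
  induction d with
  | zero =>
    intro U h f _ u
    refine ⟨f, Off.refl _ _ _, by simpa using u, fun k => ?_⟩
    simp
  | succ d ih =>
    intro U h f hd u
    rw [UT_succ] at hd
    obtain ⟨x, rx, dx⟩ := hd
    obtain ⟨g, g1, g2, g3⟩ := ih (U + 1) (h + 1) (flx h x f) dx
      (C.DT_step' rx ((C.DT_flx _ _ _ _).mpr u))
    have e : h + ((d + 1 : ℕ) : ℤ) = h + 1 + d := by push_cast; ring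
    refine ⟨g, ?_, ?_, fun k => ?_⟩
    · rw [e]
      refine Off.trans (g1.mono (by omega) (by omega)) ?_
      exact Off.flx (by omega) (by omega) (Off.refl _ _ _) x
    · rw [e, show d + 1 + U = d + (U + 1) by ring]
      exact g2
    · rw [e, g3 k, show d + 1 + k = (d + k) + 1 by ring]
      constructor
      · intro h1
        rw [UT_succ]
        exact ⟨x, rx, h1⟩
      · intro h1
        exact C.UT_pred x h1 rx

/-- all bottoms of a region -/
def BA (u : ℕ) : Prop := ∀ (h : ℤ) (f : K), S.bt (C.up h f).row → C.UT h f u →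
  ∀ g, Off h (h + 1 + u) f g → S.bt (C.up h g).row ∧ C.UT h g u

/-- the host goes up further -/
def P2 (u : ℕ) : Prop := ∀ (h : ℤ) (f : K), S.bt (C.up h f).row → C.UT h f u →
  C.UT (h - 1) f (u + 2)

/-- all tops of a region -/
def TA (u : ℕ) : Prop := ∀ (h : ℤ) (f : K), S.tp (C.dn (h + 1) f).row → C.DT h f u →
  ∀ g, Off (h - u) (h + 1) f g → S.tp (C.dn (h + 1) g).row ∧ C.DT h g u

/-- the host goes down further -/
def P3 (u : ℕ) : Prop := ∀ (h : ℤ) (f : K), S.tp (C.dn (h + 1) f).row → C.DT h f u →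
  C.DT (h + 1) f (u + 2)

lemma TA_of_mir {u : ℕ} (H : C.mir.BA u) : C.TA u := by
  intro h f h1 h2 g off
  have hup : ∀ k : K, (C.mir.up (-1 - h) (rev k)) = (C.dn (h + 1) k).sw := by
    intro k
    show (C.dn (-(-1 - h)) (rev (rev k))).sw = _
    rw [show -(-1 - h) = h + 1 by ring, rev_rev]
  have := H (-1 - h) (rev f) (by rw [hup]; exact h1) ((C.UT_mir u h f).mpr h2) (rev g) (by
    intro i hi
    rw [rev_apply, rev_apply]
    exact off _ (by omega))
  rw [hup, C.UT_mir] at this
  exact this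

lemma P3_of_mir {u : ℕ} (H : C.mir.P2 u) : C.P3 u := by
  intro h f h1 h2
  have hup : ∀ k : K, (C.mir.up (-1 - h) (rev k)) = (C.dn (h + 1) k).sw := by
    intro k
    show (C.dn (-(-1 - h)) (rev (rev k))).sw = _
    rw [show -(-1 - h) = h + 1 by ring, rev_rev]
  have := H (-1 - h) (rev f) (by rw [hup]; exact h1) ((C.UT_mir u h f).mpr h2)
  rw [show -1 - h - 1 = -1 - (h + 1) by ring, C.UT_mir] at this
  exact this

lemma BA_zero : C.BA 0 := by
  intro h f h1 _ g off
  refine ⟨?_, trivial⟩
  obtain ⟨x, hx⟩ := match_digit h f g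
  have : flx h x f = g := by
    ext i
    by_cases hi : i = h
    · rw [hi]; exact hx
    · rw [flx_ne hi]; exact off i (by push_cast; omega)
  rw [← this, C.rowx]
  exact h1

lemma BA_succ (u : ℕ) (hBA : C.BA u) (hP2 : ∀ d < u, C.P2 d) (hP3 : C.P3 u) : C.BA (u + 1) := by
  intro h f hbt hu g off
  have C1 : ∀ f1, S.bt (C.up h f1).row → C.UT h f1 (u + 1) → ∀ g, Off h (h + 1 + u) f1 g →
      S.bt (C.up h g).row ∧ C.UT h g (u + 1) := by
    intro f1 b1 u1 g off1
    obtain ⟨b2, u2⟩ := hBA h f1 b1 (C.UT_le (by omega) u1) g off1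
    refine ⟨b2, ?_⟩
    obtain ⟨p, p1, p2, p3⟩ := C.upw u 0 h f1 (C.UT_le (by omega) u1) trivial
    obtain ⟨q, q1, q2, q3⟩ := C.upw u 0 h g u2 trivial
    rw [← q3 1]
    rw [← p3 1] at u1
    refine C.ext' (D := u) ?_ p2 q2 u1
    rw [add_sub_cancel_right]
    exact ((p1.mono le_rfl (by omega)).trans (off1.mono le_rfl (by omega))).trans
      (q1.mono le_rfl (by omega)).symm
  by_cases heq : f (h + 1 + u) = g (h + 1 + u)
  · exact C1 f hbt hu g (Off.matched (by
      have e : h + 1 + ((u + 1 : ℕ) : ℤ) = h + 1 + u + 1 := by push_cast; ring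
      rw [e] at off; exact off) heq)
  -- the flipped digit
  set H : ℤ := h + u + 1 with hH
  obtain ⟨p0, a1, a2, a3⟩ := C.upw u 0 h f (C.UT_le (by omega) hu) trivial
  have a4 := (a3 1).mpr hu
  rw [UT_succ] at a4
  obtain ⟨x, rx, -⟩ := a4
  set p := flx (h + u) x p0 with hp
  have hH1 : h + u = H - 1 := by omega
  have pd : C.DT (H - 1) p u := by
    rw [← hH1, hp, C.DT_flx]
    exact C.DT_le (by omega) a2
  rw [← hH] at rx
  have offp : Off h H p f := by
    rw [hp]
    exact Off.flx (by omega) (by omega) (a1.mono le_rfl (by omega)) x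
  set p' := fl H p with hp'
  -- it suffices to find g1
  suffices hg1 : ∃ g1, C.UT h g1 (u + 1) ∧ Off h H g1 p' by
    obtain ⟨g1, b1, b2⟩ := hg1
    have offg : Off h (H + 1) f g1 := by
      refine Off.trans (offp.mono le_rfl (by omega)).symm (Off.trans ?_ (b2.mono le_rfl (by omega)).symm)
      exact (Off.flx (by omega) (by omega) (Off.refl _ _ _) true).symm
    have hr := C.rows (D := 0) (U := u + 1) (h := h) (f := f) (f' := g1) (by
      refine offg.mono (by simp) (by push_cast; omega)) trivial trivial hu b1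
    refine C1 g1 (by rw [← hr.1]; exact hbt) b1 g ?_
    intro i hi
    rw [b2 i (by omega), hp']
    by_cases h1 : i = H
    · subst h1
      rw [fl_same, offp H (by omega)]
      rw [show h + 1 + (u : ℤ) = H by omega] at heq
      revert heq
      generalize f H = a
      generalize g H = b
      revert a b
      decide
    · rw [fl_ne h1, offp i (by omega)]
      exact off i (by push_cast; omega)
  have nbp : ¬ S.bt (C.up H p').row := by
    rw [hp', C.row1]; exact rx.2.1
  rcases C.el H p' with h3 | h3 | h3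
  · -- regular sibling
    have d1 : C.DT (H - 1) p' u := C.sib true rx h3 pd
    obtain ⟨g1, b1, b2, b3⟩ := C.down u 1 (H - 1) p' d1 (C.UT_step' h3 trivial)
    refine ⟨g1, ?_, ?_⟩
    · rw [show H - 1 - (u : ℤ) = h by omega] at b2; exact b2
    · exact b1.mono (by omega) (by omega)
  · exact absurd h3.2.2 nbp
  · -- hole top
    by_cases hd : C.DT (H - 1) p' u
    · exfalso
      have h4 := hP3 (H - 1) p' (by rw [sub_add_cancel]; exact h3.1) hd
      rw [sub_add_cancel, hp', C.DT_fl] at h4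
      obtain ⟨k0, c1, c2, c3⟩ := C.down (u + 1) 0 H p (C.DT_le (by omega) h4) trivial
      have h5 := (c3 1).mpr (by rw [show u + 1 + 1 = u + 2 by ring]; exact h4)
      have e : H - ((u + 1 : ℕ) : ℤ) = h := by push_cast; omega
      rw [e] at c1 c2 h5
      have hr := C.rows (D := 0) (U := u + 1) (h := h) (f := f) (f' := k0) (by
        refine Off.mono (p := h) (q := H + 1) ?_ (by simp) (by push_cast; omega)
        exact (c1.trans (offp.mono le_rfl (by omega))).symm) trivial trivial hu c2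
      exact C.nb_of_DT h5 (by rw [← hr.1]; exact hbt)
    · obtain ⟨d, hdu, hd1, hd2⟩ : ∃ d < u, C.DT (H - 1) p' d ∧ ¬ C.DT (H - 1) p' (d + 1) := by
        by_contra hcon
        push Not at hcon
        apply hd
        have : ∀ d ≤ u, C.DT (H - 1) p' d := by
          intro d
          induction d with
          | zero => intro _; trivial
          | succ d ih => intro h1; exact hcon d (by omega) (ih (by omega))
        exact this u le_rfl
      obtain ⟨k, k1, k2, k3⟩ := C.down d 0 (H - 1) p' hd1 trivial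
      have hbk : S.bt (C.up (H - 1 - d) k).row := by
        by_contra hnb
        exact hd2 ((k3 1).mp (C.DT_one hnb))
      have k4 := hP2 d hdu _ k hbk k2
      obtain ⟨l, l1, l2, l3⟩ := C.down (d + 1) 1 (H - 1) p (C.DT_le (by omega) pd)
        (C.UT_step' rx trivial)
      have l4 : C.DT (H - 1 - ((d + 1 : ℕ) : ℤ)) l (u - d - 1) := by
        rw [l3, show d + 1 + (u - d - 1) = u by omega]; exact pd
      have e1 : H - 1 - ((d + 1 : ℕ) : ℤ) = H - 1 - d - 1 := by push_cast; ring
      rw [e1] at l1 l2 l4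
      have k5 : C.DT (H - 1 - d - 1) k (u - d - 1) := by
        refine C.ext (U := d + 2) ?_ l2 k4 l4
        have e2 : H - 1 - d - 1 + 1 + ((d + 2 : ℕ) : ℤ) = H + 1 := by push_cast; ring
        rw [e2]
        refine Off.trans (l1.mono le_rfl (by omega)) (Off.trans ?_ (k1.mono (by omega) (by omega)).symm)
        exact (Off.flx (by omega) (by omega) (Off.refl _ _ _) true).symm
      obtain ⟨g1, b1, b2, b3⟩ := C.down (u - d - 1) (d + 2) _ k k5 k4
      have e3 : H - 1 - d - 1 - ((u - d - 1 : ℕ) : ℤ) = h := by omega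
      rw [e3] at b1 b2
      refine ⟨g1, ?_, ?_⟩
      · rw [show u + 1 = u - d - 1 + (d + 2) by omega]; exact b2
      · exact (b1.mono le_rfl (by omega)).trans (k1.mono (by omega) (by omega))

end RCfg

end Run7.h687.Full
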