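import Pool.Agent.Run7.h687.Full.Rigid5

set_option autoImplicit false

namespace Run7.h687.Full
open Run7.h687.Lamp

namespace RCfg
variable {S : RowSys} (C : RCfg S)

lemma cy_off2 (h : ℤ) (f : K) (k j : ℕ) : Off (h + k) (h + k + j) (C.cy h f (k + j)) (C.cy h f k) := by
  induction j with
  | zero => exact Off.refl _ _ _
  | succ j ih =>
    rw [← add_assoc]
    push_cast
    show Off _ _ (flx (h + (k + j : ℕ)) _ (C.cy h f (k + j))) _
    refine Off.flx (by push_cast; omega) (by push_cast; omega) (ih.mono le_rfl (by omega)) _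

lemma cy_UT (h : ℤ) (f : K) (j : ℕ) : ∀ v : ℕ, (∀ k ≤ v, 0 < k → C.Reg (h + k) (C.cy h f k)) →
    C.UT (h + v) (C.cy h f v) j → C.UT h f (v + j) := by
  intro v
  induction v generalizing j with
  | zero => intro _ u; simpa [cy] using u
  | succ v ih =>
    intro hr u
    rw [show v + 1 + j = v + (j + 1) by ring]
    apply ih (j + 1) (fun k hk hk0 => hr k (by omega) hk0)
    have r := hr (v + 1) le_rfl (by omega)
    rw [UT_succ]
    refine ⟨(C.dn (h + v + 1) (C.cy h f v)).b, ?_⟩
    push_cast at r u
    rw [← add_assoc] at r u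
    exact ⟨r, u⟩

/-- canonical way down from an element: bottoms with `a = false` -/
noncomputable def cx (h : ℤ) (f : K) : ℕ → K
  | 0 => f
  | (k + 1) => flx (h - k - 1) (C.up (h - k - 1) (cx h f k)).a (cx h f k)

lemma cx_a (h : ℤ) (f : K) (k : ℕ) : (C.up (h - k - 1) (C.cx h f (k + 1))).a = false := by
  show (C.up (h - k - 1) (flx (h - k - 1) _ _)).a = false
  rw [C.ax]
  simp

lemma cx_off (h : ℤ) (f : K) (k : ℕ) : Off (h - k) h (C.cx h f k) f := by
  induction k with
  | zero => exact Off.refl _ _ _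
  | succ k ih =>
    push_cast
    show Off _ _ (flx (h - k - 1) _ _) _
    apply Off.flx (by omega) (by omega)
    exact ih.mono (by omega) le_rfl

theorem P2_of_BA (u : ℕ) (hBA : C.BA u) : C.P2 u := by
  intro h f hbt hu
  by_contra hcon
  -- the hole bottom
  obtain ⟨hP, hb⟩ : S.P (C.dn h f).row ∧ (C.dn h f).b = true := by
    rcases C.el h f with h3 | h3 | h3
    · exact absurd hbt h3.2.1
    · exact ⟨h3.1, h3.2.1⟩
    · exact absurd h3.2.1 (S.btM _ hbt).1
  have hnt : ¬ S.tp (C.dn h f).row := fun h1 => (S.tpM _ h1).2.1 hP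
  have hnx := C.nx (h - 1) f
  rw [sub_add_cancel] at hnx
  have hreal := S.nxR' _ _ hnx hP
  have r0 : C.Reg (h - 1) f := C.reg_of_rl' hreal
  have hu1 : C.UT (h - 1) f 1 := C.UT_one (by rw [sub_add_cancel]; exact hnt)
  obtain ⟨v, hv1, hv2, hv3, hv4⟩ : ∃ v, 1 ≤ v ∧ v ≤ u + 1 ∧ C.UT (h - 1) f v ∧
      ¬ C.UT (h - 1) f (v + 1) := by
    by_contra hc
    push Not at hc
    apply hcon
    have : ∀ d, d ≤ u + 1 → C.UT (h - 1) f (d + 1) := by
      intro d
      induction d with
      | zero => intro _; exact hu1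
      | succ d ih => intro h1; exact hc (d + 1) (by omega) (by omega) (ih (by omega))
    exact this (u + 1) le_rfl
  set p : ℤ := h - 1 with hp
  set y := C.cy p f with hy
  have hcr := C.cy_reg hv3
  have htop : S.tp (C.dn (p + v + 1) (y v)).row := by
    by_contra hnt
    apply hv4
    apply C.cy_UT p f 1 v (fun k hk hk0 => (hcr k hk).2 hk0)
    exact C.UT_one hnt
  set H : ℤ := p + v + 1 with hH
  set zH := y (v + 1) with hzH
  have htop' : S.tp (C.dn H zH).row := by
    have := C.row2' H (y v) (C.dn H (y v)).b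
    have e : zH = flx (H - 1) (C.dn H (y v)).b (y v) := by
      rw [hzH, hH, add_sub_cancel_right]; rfl
    rw [e, this]
    exact htop
  set x := C.cx H zH with hx
  -- comparison of digits
  have hcomp : ∀ k : ℕ, k ≤ v → Off (H - k) H (x k) (y (v + 1 - k)) := by
    intro k hk
    have e1 : v + 1 = (v + 1 - k) + k := by omega
    have o1 := C.cy_off2 p f (v + 1 - k) k
    rw [← e1] at o1
    have e2 : p + ((v + 1 - k : ℕ) : ℤ) = H - k := by omega
    rw [e2, sub_add_cancel] at o1
    exact (C.cx_off H zH k).trans o1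
  have hcomp' : ∀ k : ℕ, k ≤ v → Off (H - k - 1) H (x (k + 1)) (y (v - k)) := by
    intro k hk
    have e1 : v + 1 = (v - k) + (k + 1) := by omega
    have o1 := C.cy_off2 p f (v - k) (k + 1)
    rw [← e1] at o1
    have e2 : p + ((v - k : ℕ) : ℤ) = H - k - 1 := by omega
    have e3 : H - k - 1 + ((k + 1 : ℕ) : ℤ) = H := by push_cast; ring
    rw [e2, e3] at o1
    have o2 := C.cx_off H zH (k + 1)
    rw [show H - ((k + 1 : ℕ) : ℤ) = H - k - 1 by push_cast; ring] at o2
    exact o2.trans o1
  have main : ∀ k : ℕ, k ≤ v → C.UT (H - k - 1) (x (k + 1)) k ∧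
      (k + 1 ≤ v → C.Reg (H - k - 1) (x (k + 1))) := by
    intro k
    induction k with
    | zero =>
      intro _
      refine ⟨trivial, fun h1 => ?_⟩
      have hr := C.rows (D := 0) (U := 0) (h := H - 1) (f := x 1) (f' := y v) (by
        refine (hcomp' 0 (by omega)).mono (by simp) (by push_cast; omega)) trivial trivial trivial
        trivial
      simp only [Nat.cast_zero, sub_zero]
      apply C.reg_of_a
      · rw [hr.1]
        have := (hcr v le_rfl).2 (by omega)
        rw [show p + (v : ℤ) = H - 1 by omega] at this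
        exact this.2.1
      · have := C.cx_a H zH 0
        simpa using this
    | succ k ih =>
      intro hk
      obtain ⟨u1, r1⟩ := ih (by omega)
      have r1 := r1 (by omega)
      have u2 : C.UT (H - ((k + 1 : ℕ) : ℤ) - 1) (x (k + 1)) (k + 1) := by
        have := C.UT_step' r1 u1
        rw [show H - ((k + 1 : ℕ) : ℤ) - 1 = H - k - 1 - 1 by push_cast; ring]
        exact this
      have u3 : C.UT (H - ((k + 1 : ℕ) : ℤ) - 1) (x (k + 1 + 1)) (k + 1) := by
        show C.UT _ (flx (H - ((k + 1 : ℕ) : ℤ) - 1) _ _) _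
        rw [C.UT_flx]; exact u2
      refine ⟨u3, fun h1 => ?_⟩
      have hyu := (hcr (v - (k + 1)) (by omega))
      rw [show p + ((v - (k + 1) : ℕ) : ℤ) = H - ((k + 1 : ℕ) : ℤ) - 1 by omega,
        show v - (v - (k + 1)) = k + 1 by omega] at hyu
      have hr := C.rows (D := 0) (U := k + 1) (h := H - ((k + 1 : ℕ) : ℤ) - 1)
        (f := x (k + 1 + 1)) (f' := y (v - (k + 1))) (by
        refine (hcomp' (k + 1) (by omega)).mono (by simp) (by push_cast; omega)) trivial trivial
        u3 hyu.1
      apply C.reg_of_a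
      · rw [hr.1]
        exact (hyu.2 (by omega)).2.1
      · exact C.cx_a H zH (k + 1)
  -- labels along the wire
  have hlab : ∀ k : ℕ, k ≤ v → (C.dn (H - k) (x k)).b = false := by
    intro k hk
    have hyb : (C.dn (H - k) (y (v + 1 - k))).b = false := by
      have := C.cy_b p f (v - k)
      rw [show p + ((v - k : ℕ) : ℤ) + 1 = H - k by omega, show v - k + 1 = v + 1 - k by omega] at this
      exact this
    have e4 : y (v + 1 - k) = flx (H - k - 1) (C.dn (H - k) (y (v - k))).b (y (v - k)) := by
      rw [show v + 1 - k = (v - k) + 1 by omega]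
      have e5 : p + ((v - k : ℕ) : ℤ) = H - k - 1 := by omega
      show flx (p + ((v - k : ℕ) : ℤ)) (C.dn (p + ((v - k : ℕ) : ℤ) + 1) (y (v - k))).b _ = _
      rw [e5, sub_add_cancel]
    have hyu := (hcr (v - k) (by omega)).1
    rw [show p + ((v - k : ℕ) : ℤ) = H - k - 1 by omega, show v - (v - k) = k by omega] at hyu
    have hyu' : C.UT (H - k - 1) (y (v + 1 - k)) k := by
      rw [e4, C.UT_flx]; exact hyu
    have hxu : C.UT (H - k - 1) (x k) k := by
      have := (main k hk).1
      rwa [show x (k + 1) = flx (H - k - 1) (C.up (H - k - 1) (x k)).a (x k) from rfl,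
        C.UT_flx] at this
    have := C.gxs (D := k) (h := H - k - 1) (f := x k) (f' := y (v + 1 - k)) (by
      refine (hcomp k hk).mono (by omega) (by omega)) hxu hyu'
    rw [sub_add_cancel] at this
    rw [this.2.1]
    exact hyb
  -- the wire path
  set z : ℤ → K := fun i => x (H - i).toNat with hz
  have hzk : ∀ (i : ℤ) (k : ℕ), i = H - k → z i = x k := by
    intro i k hik
    rw [hz]
    simp only
    congr 1
    omega
  have hW : WPath C.up C.dn z p H := by
    intro i hi1 hi2
    obtain ⟨k, hk⟩ : ∃ k : ℕ, i = H - k - 1 := ⟨(H - i - 1).toNat, by omega⟩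
    have z1 := hzk (i + 1) k (by omega)
    have z0 := hzk i (k + 1) (by push_cast; omega)
    rw [z1, z0]
    have hkv : k ≤ v := by omega
    refine ⟨?_, ?_, ?_⟩
    · rw [hk]
      show x k = flx (H - k - 1) _ (x k) ∨ x k = fl (H - k - 1) (flx (H - k - 1) _ (x k))
      generalize (C.up (H - k - 1) (C.cx H zH k)).a = c
      cases c
      · left; rfl
      · right
        show x k = fl (H - k - 1) (fl (H - k - 1) (x k))
        rw [fl_fl]
    · rw [hk]; exact C.cx_a H zH k
    · rw [show i + 1 = H - k by omega]; exact hlab k hkv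
  have zp := hzk p (v + 1) (by push_cast; omega)
  have zh := hzk h v (by omega)
  have up1 := (main v le_rfl).1
  rw [show H - (v : ℤ) - 1 = p by omega] at up1
  have hrowp := C.rows (D := 0) (U := v) (h := p) (f := f) (f' := x (v + 1)) (by
    have := hcomp' v le_rfl
    rw [Nat.sub_self, show H - (v : ℤ) - 1 = p by omega] at this
    exact this.symm.mono (by simp) (by omega)) trivial trivial hv3 up1
  have hreal' : S.rl (C.up p (x (v + 1))).row := by rw [← hrowp.1]; exact hreal
  have r0' : C.Reg p (x (v + 1)) := C.reg_of_rl' hreal'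
  have hbp : (C.up p (x (v + 1))).b = true := by
    have h1 := C.gxs (D := v + 1) (h := p - 1) (f := f) (f' := x (v + 1)) (by
      have := hcomp' v le_rfl
      rw [Nat.sub_self, show H - (v : ℤ) - 1 = p by omega] at this
      exact this.symm.mono (by omega) (by push_cast; omega)) (C.UT_step' r0 hv3)
      (C.UT_step' r0' up1)
    rw [sub_add_cancel] at h1
    rw [r0'.1, ← h1.2.1, ← r0.1]
    apply C.hb
    rw [hp, sub_add_cancel]; exact hbt
  have hy1 : y 1 = fl p f := by
    show flx (p + ((0 : ℕ) : ℤ)) (C.dn (p + ((0 : ℕ) : ℤ) + 1) f).b f = _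
    rw [Nat.cast_zero, add_zero, show p + 1 = h by omega, hb]
    rfl
  have hbth : S.bt (C.up h (fl p (x v))).row := by
    refine (hBA h f hbt hu _ ?_).1
    have := hcomp v le_rfl
    rw [show v + 1 - v = 1 by omega, hy1, show H - (v : ℤ) = h by omega] at this
    have h2 := Off.flx2 p this true
    have h3 : Off h H (fl p (x v)) f := by
      have e : (flx p true (fl p f)) = f := fl_fl p f
      rw [e] at h2
      exact h2
    exact h3.symm.mono le_rfl (by omega)
  refine C.w2 z p H (by omega) hW ?_ ?_ ?_ ?_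
  · rw [zp]; exact hbp
  · rw [zp]; exact hreal'
  · rw [show p + 1 = h by omega, zh]; exact hbth
  · rw [hzk H 0 (by simp)]; exact htop'

theorem BA_P2_all (n : ℕ) : ∀ (S : RowSys) (C : RCfg S), ∀ u ≤ n, C.BA u ∧ C.P2 u := by
  induction n with
  | zero =>
    intro S C u hu
    have : u = 0 := by omega
    subst this
    exact ⟨C.BA_zero, C.P2_of_BA 0 C.BA_zero⟩
  | succ n ih =>
    intro S C u hu
    by_cases h : u ≤ n
    · exact ih S C u h
    · have : u = n + 1 := by omega
      subst this
      have hBA : C.BA (n + 1) := C.BA_succ n (ih S C n le_rfl).1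
        (fun d hd => (ih S C d (by omega)).2) (C.P3_of_mir (ih S.mir C.mir n le_rfl).2)
      exact ⟨hBA, C.P2_of_BA _ hBA⟩

theorem bAll (u : ℕ) : C.BA u := (BA_P2_all u S C u le_rfl).1

theorem hostUp (u : ℕ) : C.P2 u := (BA_P2_all u S C u le_rfl).2

theorem tAll (u : ℕ) : C.TA u := C.TA_of_mir (C.mir.bAll u)

theorem hostDn (u : ℕ) : C.P3 u := C.P3_of_mir (C.mir.hostUp u)

end RCfg

end Run7.h687.Full
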