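import Pool.Agent.Run7.h687.Full.Defs

set_option autoImplicit false

namespace Run7.h687.Full

/-- powers of two -/
abbrev tw (b : ℕ) : ℤ := (2 : ℤ) ^ b

lemma tw_pos (b : ℕ) : 0 < tw b := by unfold tw; positivity

lemma tw_succ (b : ℕ) : tw (b + 1) = 2 * tw b := by unfold tw; rw [pow_succ]; ring

lemma tw_lt {a b : ℕ} (h : a < b) : tw a < tw b := by
  unfold tw
  exact pow_lt_pow_right₀ (by norm_num) h

lemma tw_lt_iff {a b : ℕ} : tw a < tw b ↔ a < b := by
  constructor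
  · intro h
    by_contra hc
    rcases Nat.lt_or_ge b a with h1 | h1
    · have := tw_lt h1; omega
    · have : a = b := by omega
      subst this; omega
  · exact tw_lt

lemma tw_inj {a b : ℕ} (h : tw a = tw b) : a = b := by
  rcases lt_trichotomy a b with h1 | h1 | h1
  · have := tw_lt h1; omega
  · exact h1
  · have := tw_lt h1; omega

lemma tw_dvd {a b : ℕ} (h : a ≤ b) : tw a ∣ tw b := pow_dvd_pow 2 h

lemma tw_dvd_iff {a b : ℕ} : tw a ∣ tw b ↔ a ≤ b := by
  constructor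
  · intro h
    have h1 := Int.le_of_dvd (tw_pos b) h
    by_contra hc
    have := tw_lt (show b < a by omega)
    omega
  · exact tw_dvd

lemma tw_add {b c d : ℕ} (h : tw c + tw d = tw b) : c = d ∧ b = c + 1 := by
  have key : ∀ c d : ℕ, tw c + tw d = tw b → ¬ c < d := by
    intro c d h hcd
    have h1 : tw (c + 1) ∣ tw d := tw_dvd (by omega)
    have h2 : c < b := by
      rw [← tw_lt_iff]
      have := tw_pos d
      omega
    have h3 : tw (c + 1) ∣ tw b := tw_dvd (by omega)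
    have h4 : tw (c + 1) ∣ tw c := by
      have := dvd_sub h3 h1
      rw [← h, add_sub_cancel_right] at this
      exact this
    rw [tw_dvd_iff] at h4
    omega
  have h1 := key c d h
  have h2 := key d c (by rw [add_comm]; exact h)
  have h3 : c = d := by omega
  subst h3
  refine ⟨rfl, ?_⟩
  apply tw_inj
  rw [tw_succ]; omega

lemma tw_three {b c : ℕ} (h : 3 * tw c = tw b) : False := by
  have : tw c + tw (c + 1) = tw b := by rw [tw_succ]; omega
  have := (tw_add this).1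
  omega

/-- exact valuation -/
def Ex (b : ℕ) (x : ℤ) : Prop := tw b ∣ x ∧ ¬ tw (b + 1) ∣ x

lemma Ex.uniq {a b : ℕ} {x : ℤ} (h : Ex a x) (h' : Ex b x) : a = b := by
  rcases lt_trichotomy a b with h1 | h1 | h1
  · exact absurd ((tw_dvd (show a + 1 ≤ b by omega)).trans h'.1) h.2
  · exact h1
  · exact absurd ((tw_dvd (show b + 1 ≤ a by omega)).trans h.1) h'.2

/-- `2^{b+1} ∣ x` implies exactness of `x + 2^b` -/
lemma Ex.of_dvd {b : ℕ} {x : ℤ} (h : tw (b + 1) ∣ x) : Ex b (x + tw b) := by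
  constructor
  · exact dvd_add ((tw_dvd (by omega)).trans h) dvd_rfl
  · intro h1
    have := dvd_sub h1 h
    rw [add_sub_cancel_left, tw_dvd_iff] at this
    omega

lemma Ex.dvd_add {b : ℕ} {x : ℤ} (h : Ex b x) : tw (b + 1) ∣ x + tw b := by
  obtain ⟨⟨y, hy⟩, h2⟩ := h
  rw [tw_succ] at h2 ⊢
  have hodd : ¬ (2 ∣ y) := by
    intro ⟨z, hz⟩
    apply h2
    exact ⟨z, by rw [hy, hz]; ring⟩
  obtain ⟨z, hz⟩ : (2 : ℤ) ∣ y + 1 := by omega
  exact ⟨z, by rw [hy]; linear_combination (tw b) * hz⟩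

lemma Ex.add_dvd {b : ℕ} {x y : ℤ} (h : Ex b x) (hy : tw (b + 1) ∣ y) : Ex b (x + y) := by
  constructor
  · exact _root_.dvd_add h.1 ((tw_dvd (by omega)).trans hy)
  · intro h1
    have := dvd_sub h1 hy
    rw [add_sub_cancel_right] at this
    exact h.2 this

lemma Ex.exists {x : ℤ} (h : x ≠ 0) : ∃ b, Ex b x := by
  by_contra hcon
  push Not at hcon
  have : ∀ b, tw b ∣ x := by
    intro b
    induction b with
    | zero => simp [tw]
    | succ b ih =>
      by_contra h1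
      exact hcon b ⟨ih, h1⟩
  obtain ⟨n, hn⟩ : ∃ n : ℕ, |x| < tw n := by
    obtain ⟨n, hn⟩ := pow_unbounded_of_one_lt (|x|) (show (1 : ℤ) < 2 by norm_num)
    exact ⟨n, hn⟩
  have h1 := Int.le_of_dvd (abs_pos.mpr h) ((dvd_abs _ _).mpr (this n))
  omega

open Classical in
/-- standard contents -/
noncomputable def ka (j i : ℤ) : Kap :=
  if i = j + 1 then (if (2 : ℤ) ∣ j then .G1 else .L1)
  else if ∃ b : ℕ, i = j + tw (b + 1) ∧ tw (b + 2) ∣ j then .G
  else if ∃ b : ℕ, i = j + tw (b + 1) ∧ tw (b + 1) ∣ j then .L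
  else if ∃ b : ℕ, i = j + tw (b + 1) ∧ tw b ∣ j then .S
  else if ∃ b : ℕ, i = j + 3 * tw b ∧ Ex b j then .X else .N

open Classical in
/-- standard type -/
noncomputable def ty0 (k : ℤ) : Bool := decide (∃ b : ℕ, tw (b + 2) ∣ k - tw b)

lemma tw_zero : tw 0 = 1 := rfl
lemma tw_one : tw 1 = 2 := rfl

lemma ka_isG {j i : ℤ} : (ka j i).isG = true ↔ ∃ b : ℕ, i = j + tw b ∧ tw (b + 1) ∣ j := by
  unfold ka
  constructor
  · intro h
    split_ifs at h with h1 h2 h3 h4 h5 h6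
    · exact ⟨0, h1, h2⟩
    · simp [Kap.isG] at h
    · obtain ⟨b, hb⟩ := h3
      exact ⟨b + 1, hb⟩
    · simp [Kap.isG] at h
    · simp [Kap.isG] at h
    · simp [Kap.isG] at h
    · simp [Kap.isG] at h
  · rintro ⟨b, hb, hb'⟩
    cases b with
    | zero =>
      rw [if_pos (by rw [hb]; simp [tw]), if_pos (by simpa [tw] using hb')]
      rfl
    | succ b =>
      have := tw_pos b
      rw [if_neg (by rw [hb, tw_succ]; omega), if_pos ⟨b, hb, hb'⟩]
      rfl

lemma ka_isL {j i : ℤ} : (ka j i).isL = true ↔ ∃ b : ℕ, i = j + tw b ∧ Ex b j := by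
  unfold ka
  constructor
  · intro h
    split_ifs at h with h1 h2 h3 h4 h5 h6
    · simp [Kap.isL] at h
    · exact ⟨0, h1, by simp [tw], by simpa [tw] using h2⟩
    · simp [Kap.isL] at h
    · obtain ⟨b, hb, hb'⟩ := h4
      refine ⟨b + 1, hb, hb', fun h5 => h3 ⟨b, hb, h5⟩⟩
    · simp [Kap.isL] at h
    · simp [Kap.isL] at h
    · simp [Kap.isL] at h
  · rintro ⟨b, hb, hb', hb''⟩
    cases b with
    | zero =>
      rw [if_pos (by rw [hb]; simp [tw]), if_neg (by simpa [tw] using hb'')]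
      rfl
    | succ b =>
      have := tw_pos b
      rw [if_neg (by rw [hb, tw_succ]; omega), if_neg, if_pos ⟨b, hb, hb'⟩]
      · rfl
      · rintro ⟨c, hc, hc'⟩
        have : c = b := by
          have := tw_inj (show tw (c + 1) = tw (b + 1) by omega)
          omega
        subst this
        exact hb'' hc'

lemma ka_S {j i : ℤ} : ka j i = .S ↔ ∃ b : ℕ, i = j + tw (b + 1) ∧ Ex b j := by
  unfold ka
  constructor
  · intro h
    split_ifs at h with h1 h2 h3 h4 h5 h6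
    obtain ⟨b, hb, hb'⟩ := h5
    exact ⟨b, hb, hb', fun h6 => h4 ⟨b, hb, h6⟩⟩
  · rintro ⟨b, hb, hb', hb''⟩
    have := tw_pos b
    have hu : ∀ c, i = j + tw (c + 1) → c = b := by
      intro c hc
      have := tw_inj (show tw (c + 1) = tw (b + 1) by omega)
      omega
    rw [if_neg (by rw [hb, tw_succ]; omega), if_neg, if_neg, if_pos ⟨b, hb, hb'⟩]
    · rintro ⟨c, hc, hc'⟩
      have := hu c hc
      subst this
      exact hb'' hc'
    · rintro ⟨c, hc, hc'⟩
      have := hu c hc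
      subst this
      exact hb'' ((tw_dvd (by omega)).trans hc')

lemma ka_X {j i : ℤ} : ka j i = .X ↔ ∃ b : ℕ, i = j + 3 * tw b ∧ Ex b j := by
  unfold ka
  constructor
  · intro h
    split_ifs at h with h1 h2 h3 h4 h5 h6
    exact h6
  · rintro ⟨b, hb, hb'⟩
    have := tw_pos b
    have hne : ∀ c, i ≠ j + tw (c + 1) := by
      intro c hc
      exact tw_three (show 3 * tw b = tw (c + 1) by omega)
    rw [if_neg (by rw [hb]; omega), if_neg (fun ⟨c, hc⟩ => hne c hc.1),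
      if_neg (fun ⟨c, hc⟩ => hne c hc.1), if_neg (fun ⟨c, hc⟩ => hne c hc.1), if_pos ⟨b, hb, hb'⟩]

lemma ka_L1 {j i : ℤ} : ka j i = .L1 ↔ i = j + 1 ∧ ¬ (2 : ℤ) ∣ j := by
  unfold ka
  constructor
  · intro h
    split_ifs at h with h1 h2 h3 h4 h5 h6
    exact ⟨h1, h2⟩
  · rintro ⟨h1, h2⟩
    rw [if_pos h1, if_neg h2]

lemma ka_G1 {j i : ℤ} : ka j i = .G1 ↔ i = j + 1 ∧ (2 : ℤ) ∣ j := by
  unfold ka
  constructor
  · intro h
    split_ifs at h with h1 h2 h3 h4 h5 h6
    exact ⟨h1, h2⟩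
  · rintro ⟨h1, h2⟩
    rw [if_pos h1, if_pos h2]

lemma ka_G {j : ℤ} {b : ℕ} (h : tw (b + 2) ∣ j) : ka j (j + tw (b + 1)) = .G := by
  unfold ka
  have := tw_pos b
  rw [if_neg (by rw [tw_succ]; omega), if_pos ⟨b, rfl, h⟩]

lemma ka_L {j : ℤ} {b : ℕ} (h : Ex (b + 1) j) : ka j (j + tw (b + 1)) = .L := by
  unfold ka
  have := tw_pos b
  rw [if_neg (by rw [tw_succ]; omega), if_neg, if_pos ⟨b, rfl, h.1⟩]
  rintro ⟨c, hc, hc'⟩
  have : c = b := by
    have := tw_inj (show tw (c + 1) = tw (b + 1) by omega)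
    omega
  subst this
  exact h.2 hc'

lemma ka_GLS {j i : ℤ} : (ka j i = .G ∨ ka j i = .L ∨ ka j i = .S) ↔
    ∃ b : ℕ, i = j + tw (b + 1) ∧ tw b ∣ j := by
  constructor
  · intro h
    unfold ka at h
    split_ifs at h with h1 h2 h3 h4 h5 h6
    · simp at h
    · simp at h
    · obtain ⟨b, hb, hb'⟩ := h3
      exact ⟨b, hb, (tw_dvd (by omega)).trans hb'⟩
    · obtain ⟨b, hb, hb'⟩ := h4
      exact ⟨b, hb, (tw_dvd (by omega)).trans hb'⟩
    · exact h5
    · simp at h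
    · simp at h
  · rintro ⟨b, hb, hb'⟩
    unfold ka
    have := tw_pos b
    rw [if_neg (by rw [hb, tw_succ]; omega)]
    split_ifs with h3 h4 h5 h6
    · left; rfl
    · right; left; rfl
    · right; right; rfl
    · exact absurd ⟨b, hb, hb'⟩ h5
    · exact absurd ⟨b, hb, hb'⟩ h5

open Classical in
lemma ty0_iff {k : ℤ} {b : ℕ} (h : Ex b k) : ty0 k = true ↔ tw (b + 2) ∣ k - tw b := by
  unfold ty0
  rw [decide_eq_true_iff]
  constructor
  · rintro ⟨c, hc⟩
    have : Ex c k := by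
      have := Ex.of_dvd ((tw_dvd (show c + 1 ≤ c + 2 by omega)).trans hc)
      rwa [sub_add_cancel] at this
    have := h.uniq this
    subst this
    exact hc
  · intro h1; exact ⟨b, h1⟩

/-- The standard contents satisfy the implications. -/
theorem imp_ka {j k i : ℤ} : Imp (ty0 k) (ka j i) (ka j k) (ka k i) := by
  refine ⟨?_, ?_, ?_, ?_, ?_⟩
  · intro h1 h2
    rw [ka_isG] at h1
    rw [ka_isL] at h2
    obtain ⟨b, rfl, hb⟩ := h1
    obtain ⟨c, rfl, hc⟩ := h2
    have e := hc.uniq (Ex.of_dvd hb)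
    subst e
    have hty := ty0_iff hc
    rw [add_sub_cancel_right] at hty
    have e2 : j + tw c + tw c = j + tw (c + 1) := by rw [tw_succ]; ring
    rw [e2]
    by_cases h3 : tw (c + 2) ∣ j
    · rw [if_pos (hty.mpr h3)]
      exact ka_G h3
    · rw [if_neg (fun h4 => h3 (hty.mp h4))]
      exact ka_L ⟨hb, h3⟩
  · intro h1 h2
    rw [ka_L1] at h1
    rw [ka_G1] at h2
    rw [ka_S]
    refine ⟨0, by rw [h2.1, h1.1]; simp [tw]; ring, by simp [tw], by simpa [tw] using h1.2⟩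
  · intro h1 h2
    rw [ka_S] at h1
    rw [ka_isL] at h2
    obtain ⟨b, rfl, hb⟩ := h1
    obtain ⟨c, rfl, hc⟩ := h2
    have e := hc.uniq (hb.add_dvd dvd_rfl)
    subst e
    rw [ka_X]
    exact ⟨c, by rw [tw_succ]; ring, hb⟩
  · intro h1 h2
    rw [ka_isG] at h1
    rw [ka_X] at h2
    obtain ⟨b, rfl, hb⟩ := h1
    obtain ⟨c, rfl, hc⟩ := h2
    have e := hc.uniq (Ex.of_dvd hb)
    subst e
    rw [ka_GLS]
    exact ⟨c + 1, by rw [tw_succ, tw_succ]; ring, hb⟩
  · intro h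
    rw [ka_GLS] at h
    obtain ⟨b, rfl, hb⟩ := h
    refine ⟨?_, ?_, ?_⟩
    · rintro ⟨h1, h2⟩
      rw [ka_isG] at h1 h2
      obtain ⟨c, rfl, hc⟩ := h1
      obtain ⟨d, hd, hd'⟩ := h2
      have e := (tw_add (show tw c + tw d = tw (b + 1) by omega)).1
      subst e
      exact (Ex.of_dvd hc).2 hd'
    · rintro ⟨h1, h2⟩
      rw [ka_isL] at h1 h2
      obtain ⟨c, rfl, hc⟩ := h1
      obtain ⟨d, hd, hd'⟩ := h2
      have e := (tw_add (show tw c + tw d = tw (b + 1) by omega)).1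
      subst e
      exact hd'.2 hc.dvd_add
    · intro h1 h2
      rw [ka_isL] at h1
      rw [ka_isG] at h2
      obtain ⟨c, rfl, hc⟩ := h1
      obtain ⟨d, hd, hd'⟩ := h2
      have e := tw_add (show tw c + tw d = tw (b + 1) by omega)
      obtain ⟨rfl, e2⟩ := e
      have : b = c := by omega
      subst this
      rw [ka_S]
      exact ⟨b, rfl, hc⟩

end Run7.h687.Full
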