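import Pool.Agent.Run7.h687.Full.Lim

set_option autoImplicit false

namespace Run7.h687.Full
open Run7.h687.Lamp

/-- frames with two holes at different heights -/
theorem frame2 {d1 d2 : ℤ} (hd1 : 1 ≤ d1) (hd2 : 1 ≤ d2) : ∃ kb : ℤ, 4 ≤ kb ∧
    ∀ l1 u1 l2 u2 B : ℤ, u1 - l1 = d1 → u2 - l2 = d2 → u1 + kb ≤ l2 → 0 ≤ B →
    ∃ lo hi r n M, lo ≤ -B ∧ B ≤ hi ∧ lo < l1 - 1 ∧ u2 + 1 < hi ∧ Frm lo hi r n M ∧
      (r l1).isP = true ∧ (r u1).isM = true ∧ (r l2).isP = true ∧ (r u2).isM = true ∧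
      (∃ s, n (u1 + 1) = n (l1 - 1) + tw s ∧ tw s ∣ n (l1 - 1)) ∧
      (∃ s, n (u2 + 1) = n (l2 - 1) + tw s ∧ tw s ∣ n (l2 - 1)) := by
  obtain ⟨s1, x1, x2⟩ := exists_s (lam := d1 + 2) (by omega)
  obtain ⟨s2, y1, y2⟩ := exists_s (lam := d2 + 2) (by omega)
  have ht1 := tw_pos s1
  have ht2 := tw_pos s2
  refine ⟨12 * tw s2 + 40, by omega, fun l1 u1 l2 u2 B e1 e2 hK hB => ?_⟩
  have habs := le_abs_self l1
  have habs' := neg_abs_le u2
  have habs0 := abs_nonneg l1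
  have habs1 := abs_nonneg u2
  obtain ⟨j1, j11, j12, -⟩ := exists_mult (t := tw s1) (m := B + |l1| + 1) ht1
  obtain ⟨j2, j21, j22, j23⟩ := exists_mult (t := tw s2)
    (m := j1 + tw s1 + (l2 - 1 - (u1 + 1) + 6) / 7) ht2
  obtain ⟨M, m1, m2⟩ : ∃ M : ℕ, 1 ≤ M ∧ j2 + tw s2 + B + |u2| + 2 < tw M := by
    obtain ⟨m, hm⟩ := pow_unbounded_of_one_lt (j2 + tw s2 + B + |u2| + 2) (show (1 : ℤ) < 2 by norm_num)
    refine ⟨m + 1, by omega, ?_⟩
    have h5 : tw m < tw (m + 1) := tw_lt (by omega)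
    have h6 : j2 + tw s2 + B + |u2| + 2 < tw m := hm
    omega
  obtain ⟨lo, elo⟩ : ∃ lo, lo = l1 - 1 - 3 * j1 := ⟨_, rfl⟩
  obtain ⟨hi, ehi⟩ : ∃ hi, hi = u2 + 1 + 3 * (tw M - (j2 + tw s2)) := ⟨_, rfl⟩
  obtain ⟨k, hk⟩ : ∃ k : ℕ, (k : ℤ) = j2 - (j1 + tw s1) := ⟨(j2 - (j1 + tw s1)).toNat, by omega⟩
  obtain ⟨r1, n1, S1, a1, a2, a3, a4⟩ := segB (m := j1) (p := lo) (q := l1 - 1) (by omega)
    (by omega) (by omega)
  obtain ⟨r2, n2, S2, b1, b2, b3, b4⟩ := segR (2 ^ s1) (l1 - 1) (u1 + 1) j1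
    (by rw [cast_tw]; omega) (by rw [cast_tw]; omega)
  rw [cast_tw] at b3 b4
  obtain ⟨r3, n3, S3, c1, c2, c3, c4⟩ := segR k (u1 + 1) (l2 - 1) (j1 + tw s1)
    (by omega) (by omega)
  rw [hk, add_sub_cancel] at c3 c4
  obtain ⟨r4, n4, S4, d1', d2', d3, d4⟩ := segR (2 ^ s2) (l2 - 1) (u2 + 1) j2
    (by rw [cast_tw]; omega) (by rw [cast_tw]; omega)
  rw [cast_tw] at d3 d4
  obtain ⟨r5, n5, S5, f1, f2, f3, f4⟩ := segT (m := tw M - (j2 + tw s2)) (p := u2 + 1) (q := hi)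
    (i := j2 + tw s2) (by omega) (by rw [add_sub_cancel]; exact two_dvd_tw m1) (by omega) (by omega)
  obtain ⟨ra, na, Sa, pa, pa'⟩ := seg_cat S1 S2 (by rw [a3, b1]) (by rw [a4, b2])
  obtain ⟨rb, nb, Sb, pb, pb'⟩ := seg_cat Sa S3 (by rw [(pa' _ (by omega)).1, b3, c1])
    (by rw [(pa' _ (by omega)).2, b4, c2])
  obtain ⟨rc, nc, Sc, pc, pc'⟩ := seg_cat Sb S4 (by rw [(pb' _ (by omega)).1, c3, d1'])
    (by rw [(pb' _ (by omega)).2, c4, d2'])
  obtain ⟨r, n, SS, pd, pd'⟩ := seg_cat Sc S5 (by rw [(pc' _ (by omega)).1, d3, f1])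
    (by rw [(pc' _ (by omega)).2, d4, f2])
  have v1 : r (l1 - 1) = rR j1 ∧ n (l1 - 1) = j1 := by
    rw [(pd _ (by omega)).1, (pd _ (by omega)).2, (pc _ (by omega)).1, (pc _ (by omega)).2,
      (pb _ (by omega)).1, (pb _ (by omega)).2, (pa _ (by omega)).1, (pa _ (by omega)).2]
    exact ⟨a3, a4⟩
  have v2 : r (u1 + 1) = rR (j1 + tw s1) ∧ n (u1 + 1) = j1 + tw s1 := by
    rw [(pd _ (by omega)).1, (pd _ (by omega)).2, (pc _ (by omega)).1, (pc _ (by omega)).2,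
      (pb _ (by omega)).1, (pb _ (by omega)).2, (pa' _ (by omega)).1, (pa' _ (by omega)).2]
    exact ⟨b3, b4⟩
  have v3 : r (l2 - 1) = rR j2 ∧ n (l2 - 1) = j2 := by
    rw [(pd _ (by omega)).1, (pd _ (by omega)).2, (pc _ (by omega)).1, (pc _ (by omega)).2,
      (pb' _ (by omega)).1, (pb' _ (by omega)).2]
    exact ⟨c3, c4⟩
  have v4 : r (u2 + 1) = rR (j2 + tw s2) ∧ n (u2 + 1) = j2 + tw s2 := by
    rw [(pd _ (by omega)).1, (pd _ (by omega)).2, (pc' _ (by omega)).1, (pc' _ (by omega)).2]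
    exact ⟨d3, d4⟩
  have isP : ∀ l, lo < l → l ≤ hi → (r (l - 1)).rl = true → (r l).isP = true := by
    intro l h1 h2 h3
    have h5 := SS.nx (l - 1) (by omega) (by omega)
    rw [sub_add_cancel] at h5
    exact RS.nxR _ _ h5 h3
  have isM : ∀ u, lo ≤ u → u < hi → (r (u + 1)).rl = true → (r u).isM = true := by
    intro u h1 h2 h3
    exact RS.nxM' _ _ (SS.nx u h1 h2) h3
  refine ⟨lo, hi, r, n, M, by omega, by omega, by omega, by omega, ⟨SS, ?_, ?_, ?_, ?_, m1⟩,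
    isP l1 (by omega) (by omega) (by rw [v1.1]; rfl), isM u1 (by omega) (by omega) (by rw [v2.1]; rfl),
    isP l2 (by omega) (by omega) (by rw [v3.1]; rfl), isM u2 (by omega) (by omega) (by rw [v4.1]; rfl),
    ⟨s1, by rw [v1.2, v2.2], by rw [v1.2]; exact j11⟩, ⟨s2, by rw [v3.2, v4.2], by rw [v3.2]; exact j21⟩⟩
  · rw [(pd _ (by omega)).1, (pc _ (by omega)).1, (pb _ (by omega)).1, (pa _ (by omega)).1]; exact a1
  · rw [(pd' _ (by omega)).1]; exact f3
  · rw [(pd _ (by omega)).2, (pc _ (by omega)).2, (pb _ (by omega)).2, (pa _ (by omega)).2, a2]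
  · rw [(pd' _ (by omega)).2, f4]; ring

open Classical in
/-- mixing two lamp configurations -/
noncomputable def mixf (c : ℤ) (f g : K) : K := f.filter (fun i => i < c) + g.filter (fun i => c ≤ i)

open Classical in
lemma mixf_lt {c i : ℤ} (f g : K) (h : i < c) : mixf c f g i = f i := by
  unfold mixf
  rw [Finsupp.add_apply, Finsupp.filter_apply_pos (fun i => i < c) f h,
    Finsupp.filter_apply_neg (fun i => c ≤ i) g (by omega), add_zero]

open Classical in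
lemma mixf_ge {c i : ℤ} (f g : K) (h : c ≤ i) : mixf c f g i = g i := by
  unfold mixf
  rw [Finsupp.add_apply, Finsupp.filter_apply_neg (fun i => i < c) f (by omega),
    Finsupp.filter_apply_pos (fun i => c ≤ i) g h, zero_add]

/-- agreement of a configuration with a pattern -/
structure Agr (l u : ℤ) (f : K) (z' z : Cfg) : Prop where
  up : ∀ h g, l ≤ h → h < u → Off l u g f → z'.up h g = z.up h g
  dn : ∀ h g, l < h → h ≤ u → Off l u g f → z'.dn h g = z.dn h g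

/-- Two patterns at different heights. -/
theorem two1 {d1 d2 : ℤ} (hd1 : 1 ≤ d1) (hd2 : 1 ≤ d2) : ∃ kb : ℤ, 4 ≤ kb ∧
    ∀ (l1 u1 l2 u2 : ℤ) (f1 f2 : K) (z1 z2 : Cfg), u1 - l1 = d1 → u2 - l2 = d2 → u1 + kb ≤ l2 →
    CP l1 u1 f1 z1 → CP l2 u2 f2 z2 → ∃ z, Rules z ∧ Agr l1 u1 f1 z z1 ∧ Agr l2 u2 f2 z z2 := by
  classical
  obtain ⟨kb, K4, hK⟩ := frame2 hd1 hd2
  refine ⟨kb, K4, fun l1 u1 l2 u2 f1 f2 z1 z2 e1 e2 h1 H1 H2 => ?_⟩
  obtain ⟨B, B0, hB⟩ := exists_bound f1 f2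
  obtain ⟨lo, hi, r, n, M, a1, a2, a3, a4, F, p1, p2, p3, p4, x1, x2⟩ :=
    hK l1 u1 l2 u2 B e1 e2 h1 B0
  obtain ⟨Hol, eH⟩ : ∃ Hol : ℤ → ℤ → K → Prop, Hol = fun l u g =>
    (l = l1 ∧ u = u1 ∧ Off l1 u1 g f1) ∨ (l = l2 ∧ u = u2 ∧ Off l2 u2 g f2) := ⟨_, rfl⟩
  have hof : ∀ l u g, Hol l u g →
      (l = l1 ∧ u = u1 ∧ Off l1 u1 g f1) ∨ (l = l2 ∧ u = u2 ∧ Off l2 u2 g f2) := by
    intro l u g h; rw [eH] at h; exact h
  have hto1 : ∀ g, Off l1 u1 g f1 → Hol l1 u1 g := by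
    intro g h; rw [eH]; exact Or.inl ⟨rfl, rfl, h⟩
  have hto2 : ∀ g, Off l2 u2 g f2 → Hol l2 u2 g := by
    intro g h; rw [eH]; exact Or.inr ⟨rfl, rfl, h⟩
  have hH : Hols lo hi r Hol := by
    refine ⟨?_, ?_, ?_, ?_, ?_⟩
    · intro l u f g h o
      rcases hof _ _ _ h with ⟨rfl, rfl, h3⟩ | ⟨rfl, rfl, h3⟩
      · exact hto1 g (o.symm.trans h3)
      · exact hto2 g (o.symm.trans h3)
    · intro l u l' u' h g a b c1 c2 c3 c4
      rcases hof _ _ _ a with ⟨rfl, rfl, -⟩ | ⟨rfl, rfl, -⟩ <;>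
        rcases hof _ _ _ b with ⟨rfl, rfl, -⟩ | ⟨rfl, rfl, -⟩
      · exact ⟨rfl, rfl⟩
      · omega
      · omega
      · exact ⟨rfl, rfl⟩
    · intro l u g a
      rcases hof _ _ _ a with ⟨rfl, rfl, -⟩ | ⟨rfl, rfl, -⟩ <;> omega
    · intro l u g a
      rcases hof _ _ _ a with ⟨rfl, rfl, -⟩ | ⟨rfl, rfl, -⟩
      · exact p1
      · exact p3
    · intro l u g a
      rcases hof _ _ _ a with ⟨rfl, rfl, -⟩ | ⟨rfl, rfl, -⟩
      · exact p2
      · exact p4
  let Z : Cfg := ⟨fun h f => if h < u1 + 1 then z1.up h f else z2.up h f,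
    fun h f => if h < u1 + 1 then z1.dn h f else z2.dn h f⟩
  have Zu1 : ∀ h f, h < u1 + 1 → Z.up h f = z1.up h f := fun h f hh => if_pos hh
  have Zd1 : ∀ h f, h < u1 + 1 → Z.dn h f = z1.dn h f := fun h f hh => if_pos hh
  have Zu2 : ∀ h f, ¬ h < u1 + 1 → Z.up h f = z2.up h f := fun h f hh => if_neg hh
  have Zd2 : ∀ h f, ¬ h < u1 + 1 → Z.dn h f = z2.dn h f := fun h f hh => if_neg hh
  set fW := mixf (u1 + 2) f1 f2 with hfW
  have w1 : ∀ i, i < u1 + 2 → fW i = f1 i := fun i hi => mixf_lt f1 f2 hi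
  have w2 : ∀ i, u1 + 2 ≤ i → fW i = f2 i := fun i hi => mixf_ge f1 f2 hi
  obtain ⟨z', y1, y2, y3⟩ := host_of F (labD r fW) hH (by
      intro l u g a
      rcases hof _ _ _ a with ⟨rfl, rfl, -⟩ | ⟨rfl, rfl, -⟩
      · exact x1
      · exact x2)
    (fun l u g a => by
      rcases hof _ _ _ a with ⟨rfl, rfl, o⟩ | ⟨rfl, rfl, o⟩
      · exact bD_true (by rw [o _ (Or.inl (by omega)), w1 _ (by omega)])
      · exact bD_true (by rw [o _ (Or.inl (by omega)), w2 _ (by omega)]))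
    (fun l u g a => by
      rcases hof _ _ _ a with ⟨rfl, rfl, o⟩ | ⟨rfl, rfl, o⟩
      · exact bD_true (by rw [o _ (Or.inl (by omega)), w1 _ (by omega)])
      · exact bD_true (by rw [o _ (Or.inl (by omega)), w2 _ (by omega)]))
    (fun l u g a => by
      rcases hof _ _ _ a with ⟨rfl, rfl, o⟩ | ⟨rfl, rfl, o⟩
      · exact aD_true (by rw [o _ (Or.inr (by omega)), w1 _ (by omega)])
      · exact aD_true (by rw [o _ (Or.inr (by omega)), w2 _ (by omega)]))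
    (fun l u g a => by
      rcases hof _ _ _ a with ⟨rfl, rfl, o⟩ | ⟨rfl, rfl, o⟩
      · exact aD_true (by rw [o _ (Or.inr (by omega)), w1 _ (by omega)])
      · exact aD_true (by rw [o _ (Or.inr (by omega)), w2 _ (by omega)]))
    (Z := Z) (fun l u g a => by
      rcases hof _ _ _ a with ⟨rfl, rfl, o⟩ | ⟨rfl, rfl, o⟩
      · exact (H1.congr (fun h g _ _ _ => Zu1 h g (by omega))
          (fun h g _ _ _ => Zd1 h g (by omega))).inv o.symm
      · exact (H2.congr (fun h g _ _ _ => Zu2 h g (by omega))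
          (fun h g _ _ _ => Zd2 h g (by omega))).inv o.symm) f1
  obtain ⟨z, z1', z2', z3'⟩ := extend y1
  have o12 : Off lo hi f2 f1 := fun i hi' => (hB i (by omega)).symm
  refine ⟨z, z1', ⟨fun h g a b o => ?_, fun h g a b o => ?_⟩, ⟨fun h g a b o => ?_, fun h g a b o => ?_⟩⟩
  · rw [z2' h g (by omega) (by omega) (o.mono (by omega) (by omega)),
      y2 h g ⟨l1, u1, a, b, hto1 g o⟩]
    exact Zu1 h g (by omega)
  · rw [z3' h g (by omega) (by omega) (o.mono (by omega) (by omega)),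
      y3 h g ⟨l1, u1, by omega, by omega, hto1 g o⟩]
    exact Zd1 h g (by omega)
  · rw [z2' h g (by omega) (by omega) ((o.mono (by omega) (by omega)).trans o12),
      y2 h g ⟨l2, u2, a, b, hto2 g o⟩]
    exact Zu2 h g (by omega)
  · rw [z3' h g (by omega) (by omega) ((o.mono (by omega) (by omega)).trans o12),
      y3 h g ⟨l2, u2, by omega, by omega, hto2 g o⟩]
    exact Zd2 h g (by omega)

open Classical in
/-- adapted labels -/
noncomputable def aS (hi t : ℤ) (f1 f2 : K) (h : ℤ) (g : K) : Bool :=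
  if h = hi then true
  else if t - 1 ≤ h then decide (g h = f1 h)
  else decide (g h = (if g t = f1 t then f1 else f2) h)

open Classical in
/-- adapted labels -/
noncomputable def bS (lo s : ℤ) (f1 f2 : K) (h : ℤ) (g : K) : Bool :=
  if h = lo then true
  else if h ≤ s + 2 then decide (g (h - 1) = f1 (h - 1))
  else decide (g (h - 1) = (if g s = f1 s then f1 else f2) (h - 1))

lemma labS {lo hi s t : ℤ} (r : ℤ → Row) (f1 f2 : K) :
    Lab lo hi r (aS hi t f1 f2) (bS lo s f1 f2) := by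
  refine ⟨?_, ?_, ?_, ?_, ?_, ?_, ?_, ?_⟩
  · intro h f f' hf
    unfold aS
    by_cases c1 : h = hi
    · rw [if_pos c1, if_pos c1]
    by_cases c2 : t - 1 ≤ h
    · rw [if_neg c1, if_neg c1, if_pos c2, if_pos c2, hf h (le_refl h)]
    · rw [if_neg c1, if_neg c1, if_neg c2, if_neg c2, hf h (le_refl h), hf t (by omega)]
  · intro h f a b
    have c1 : h ≠ hi := by omega
    unfold aS
    by_cases c2 : t - 1 ≤ h
    · rw [if_neg c1, if_neg c1, if_pos c2, if_pos c2, decide_fl]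
    · rw [if_neg c1, if_neg c1, if_neg c2, if_neg c2, decide_fl, fl_ne (by omega)]
  · intro f
    unfold aS
    rw [if_pos rfl]
  · intro h f a b _
    have c1 : h ≠ hi := by omega
    unfold aS
    by_cases c2 : t - 1 ≤ h
    · rw [if_neg c1, if_neg c1, if_pos c2, if_pos c2, fl_ne (by omega)]
    · rw [if_neg c1, if_neg c1, if_neg c2, if_neg c2, fl_ne (by omega),
        fl_ne (by omega)]
  · intro h f f' hf
    unfold bS
    by_cases c1 : h = lo
    · rw [if_pos c1, if_pos c1]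
    by_cases c2 : h ≤ s + 2
    · rw [if_neg c1, if_neg c1, if_pos c2, if_pos c2, hf (h - 1) (by omega)]
    · rw [if_neg c1, if_neg c1, if_neg c2, if_neg c2, hf (h - 1) (by omega), hf s (by omega)]
  · intro h f a b
    have c1 : h ≠ lo := by omega
    unfold bS
    by_cases c2 : h ≤ s + 2
    · rw [if_neg c1, if_neg c1, if_pos c2, if_pos c2, decide_fl]
    · rw [if_neg c1, if_neg c1, if_neg c2, if_neg c2, decide_fl, fl_ne (by omega)]
  · intro f
    unfold bS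
    rw [if_pos rfl]
  · intro h f a b _
    have c1 : h ≠ lo := by omega
    unfold bS
    by_cases c2 : h ≤ s + 2
    · rw [if_neg c1, if_neg c1, if_pos c2, if_pos c2, fl_ne (by omega)]
    · rw [if_neg c1, if_neg c1, if_neg c2, if_neg c2, fl_ne (by omega),
        fl_ne (by omega)]

lemma aS_true {hi t : ℤ} {f1 f2 : K} {h : ℤ} {g : K} (e : t - 1 ≤ h → g h = f1 h)
    (e' : h < t - 1 → (g t = f1 t ∧ g h = f1 h) ∨ (g t ≠ f1 t ∧ g h = f2 h)) :
    aS hi t f1 f2 h g = true := by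
  unfold aS
  split_ifs with c1 c2 c3
  · rfl
  · exact decide_eq_true (e c2)
  · rcases e' (by omega) with h5 | h5
    · exact decide_eq_true h5.2
    · exact absurd c3 h5.1
  · rcases e' (by omega) with h5 | h5
    · exact absurd h5.1 c3
    · exact decide_eq_true h5.2

lemma bS_true {lo s : ℤ} {f1 f2 : K} {h : ℤ} {g : K} (e : h ≤ s + 2 → g (h - 1) = f1 (h - 1))
    (e' : s + 2 < h → (g s = f1 s ∧ g (h - 1) = f1 (h - 1)) ∨ (g s ≠ f1 s ∧ g (h - 1) = f2 (h - 1))) :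
    bS lo s f1 f2 h g = true := by
  unfold bS
  split_ifs with c1 c2 c3
  · rfl
  · exact decide_eq_true (e c2)
  · rcases e' (by omega) with h5 | h5
    · exact decide_eq_true h5.2
    · exact absurd c3 h5.1
  · rcases e' (by omega) with h5 | h5
    · exact absurd h5.1 c3
    · exact decide_eq_true h5.2

/-- Two patterns at the same heights. -/
theorem two2 {l u s t : ℤ} {f1 f2 : K} {z1 z2 : Cfg} (H1 : CP l u f1 z1) (H2 : CP l u f2 z2)
    (hs1 : ∀ i < s, f1 i = f2 i) (hs2 : f1 s ≠ f2 s) (ht1 : ∀ i > t, f1 i = f2 i)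
    (ht2 : f1 t ≠ f2 t) (hl : l ≤ s ∨ s + 4 ≤ l) (hu : t < u ∨ u ≤ t - 3) (hne : ¬ Off l u f1 f2) :
    ∃ z, Rules z ∧ Agr l u f1 z z1 ∧ Agr l u f2 z z2 := by
  classical
  have hlt := H1.lt
  obtain ⟨N, N1, hN⟩ := frame1 hlt
  obtain ⟨B, B0, hB⟩ := exists_bound f1 f2
  obtain ⟨lo, elo⟩ : ∃ lo, lo = min (l - N) (-B) := ⟨_, rfl⟩
  obtain ⟨hi, ehi⟩ : ∃ hi, hi = max (u + N) B := ⟨_, rfl⟩
  have b1 : lo ≤ l - N ∧ lo ≤ -B := by rw [elo]; exact ⟨min_le_left _ _, min_le_right _ _⟩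
  have b2 : u + N ≤ hi ∧ B ≤ hi := by rw [ehi]; exact ⟨le_max_left _ _, le_max_right _ _⟩
  obtain ⟨r, n, M, F, rP, rM, s', s1, s2⟩ := hN lo hi b1.1 b2.1
  obtain ⟨Hol, eH⟩ : ∃ Hol : ℤ → ℤ → K → Prop, Hol = fun l' u' g =>
    l' = l ∧ u' = u ∧ (Off l u g f1 ∨ Off l u g f2) := ⟨_, rfl⟩
  have hof : ∀ l' u' g, Hol l' u' g → l' = l ∧ u' = u ∧ (Off l u g f1 ∨ Off l u g f2) := by
    intro l' u' g h; rw [eH] at h; exact h
  have hto : ∀ g, (Off l u g f1 ∨ Off l u g f2) → Hol l u g := by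
    intro g h; rw [eH]; exact ⟨rfl, rfl, h⟩
  have hH : Hols lo hi r Hol := by
    refine ⟨?_, ?_, ?_, ?_, ?_⟩
    · intro l' u' f g h o
      obtain ⟨rfl, rfl, h3⟩ := hof _ _ _ h
      exact hto g (h3.imp (fun h3 => o.symm.trans h3) (fun h3 => o.symm.trans h3))
    · intro l1 u1 l2 u2 h g a b _ _ _ _
      obtain ⟨rfl, rfl, -⟩ := hof _ _ _ a
      obtain ⟨rfl, rfl, -⟩ := hof _ _ _ b
      exact ⟨rfl, rfl⟩
    · intro l1 u1 g a
      obtain ⟨rfl, rfl, -⟩ := hof _ _ _ a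
      omega
    · intro l1 u1 g a
      obtain ⟨rfl, rfl, -⟩ := hof _ _ _ a
      exact rP
    · intro l1 u1 g a
      obtain ⟨rfl, rfl, -⟩ := hof _ _ _ a
      exact rM
  let Z : Cfg := ⟨fun h f => if Off l u f f1 then z1.up h f else z2.up h f,
    fun h f => if Off l u f f1 then z1.dn h f else z2.dn h f⟩
  have nOff : ∀ g, Off l u g f2 → ¬ Off l u g f1 := fun g h2 h1 => hne (h1.symm.trans h2)
  have Zu1 : ∀ h f, Off l u f f1 → Z.up h f = z1.up h f := fun h f hh => if_pos hh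
  have Zd1 : ∀ h f, Off l u f f1 → Z.dn h f = z1.dn h f := fun h f hh => if_pos hh
  have Zu2 : ∀ h f, Off l u f f2 → Z.up h f = z2.up h f := fun h f hh => if_neg (nOff f hh)
  have Zd2 : ∀ h f, Off l u f f2 → Z.dn h f = z2.dn h f := fun h f hh => if_neg (nOff f hh)
  have bb : ∀ (g : K) (h : ℤ), (h = l ∨ h = l - 1) → (Off l u g f1 ∨ Off l u g f2) →
      bS lo s f1 f2 h g = true := by
    intro g h hh o
    apply bS_true
    · intro h1
      rcases o with o | o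
      · exact o _ (Or.inl (by omega))
      · rw [o _ (Or.inl (by omega))]
        exact (hs1 _ (by omega)).symm
    · intro h1
      rcases o with o | o
      · left; exact ⟨o _ (Or.inl (by omega)), o _ (Or.inl (by omega))⟩
      · right
        refine ⟨?_, o _ (Or.inl (by omega))⟩
        rw [o _ (Or.inl (by omega))]
        exact hs2.symm
  have aa : ∀ (g : K) (h : ℤ), (h = u ∨ h = u + 1) → (Off l u g f1 ∨ Off l u g f2) →
      aS hi t f1 f2 h g = true := by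
    intro g h hh o
    apply aS_true
    · intro h1
      rcases o with o | o
      · exact o _ (Or.inr (by omega))
      · rw [o _ (Or.inr (by omega))]
        exact (ht1 _ (by omega)).symm
    · intro h1
      rcases o with o | o
      · left; exact ⟨o _ (Or.inr (by omega)), o _ (Or.inr (by omega))⟩
      · right
        refine ⟨?_, o _ (Or.inr (by omega))⟩
        rw [o _ (Or.inr (by omega))]
        exact ht2.symm
  obtain ⟨z', y1, y2, y3⟩ := host_of F (labS (s := s) (t := t) r f1 f2) hH (by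
      intro l1 u1 g a
      obtain ⟨rfl, rfl, -⟩ := hof _ _ _ a
      exact ⟨s', s1, s2⟩)
    (fun l1 u1 g a => by
      obtain ⟨rfl, rfl, o⟩ := hof _ _ _ a
      exact bb g _ (Or.inl rfl) o)
    (fun l1 u1 g a => by
      obtain ⟨rfl, rfl, o⟩ := hof _ _ _ a
      exact bb g _ (Or.inr rfl) o)
    (fun l1 u1 g a => by
      obtain ⟨rfl, rfl, o⟩ := hof _ _ _ a
      exact aa g _ (Or.inl rfl) o)
    (fun l1 u1 g a => by
      obtain ⟨rfl, rfl, o⟩ := hof _ _ _ a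
      exact aa g _ (Or.inr rfl) o)
    (Z := Z) (fun l1 u1 g a => by
      obtain ⟨rfl, rfl, o | o⟩ := hof _ _ _ a
      · exact (H1.congr (fun h g _ _ o => Zu1 h g o) (fun h g _ _ o => Zd1 h g o)).inv o.symm
      · exact (H2.congr (fun h g _ _ o => Zu2 h g o) (fun h g _ _ o => Zd2 h g o)).inv o.symm) f1
  obtain ⟨z, z1', z2', z3'⟩ := extend y1
  have o12 : Off lo hi f2 f1 := fun i hi' => (hB i (by omega)).symm
  refine ⟨z, z1', ⟨fun h g a b o => ?_, fun h g a b o => ?_⟩, ⟨fun h g a b o => ?_, fun h g a b o => ?_⟩⟩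
  · rw [z2' h g (by omega) (by omega) (o.mono (by omega) (by omega)),
      y2 h g ⟨l, u, a, b, hto g (Or.inl o)⟩]
    exact Zu1 h g o
  · rw [z3' h g (by omega) (by omega) (o.mono (by omega) (by omega)),
      y3 h g ⟨l, u, by omega, by omega, hto g (Or.inl o)⟩]
    exact Zd1 h g o
  · rw [z2' h g (by omega) (by omega) ((o.mono (by omega) (by omega)).trans o12),
      y2 h g ⟨l, u, a, b, hto g (Or.inr o)⟩]
    exact Zu2 h g o
  · rw [z3' h g (by omega) (by omega) ((o.mono (by omega) (by omega)).trans o12),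
      y3 h g ⟨l, u, by omega, by omega, hto g (Or.inr o)⟩]
    exact Zd2 h g o

end Run7.h687.Full
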