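import Pool.Agent.Run7.h687.Full.Std

set_option autoImplicit false

namespace Run7.h687.Full

/-- abstract wire systems -/
structure WS where
  I : ℤ → Prop
  ordc : ∀ a b k, I a → I b → a ≤ k → k ≤ b → I k
  ty : ℤ → Bool
  W : ℤ → ℤ → Kap → Prop
  ne : ∀ j i, I j → I i → j < i → ∃ c, W j i c
  tri : ∀ j k i c, I j → I i → j < k → k < i → W j i c →
    ∃ cE cS, W j k cE ∧ W k i cS ∧ Imp (ty k) c cE cS
  adj : ∀ j c, I j → I (j + 1) → W j (j + 1) c → c = if (2 : ℤ) ∣ j + 1 then .L1 else .G1

namespace WS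
variable (w : WS)

/-- level statement -/
structure Lev (m : ℕ) (r : ℤ) : Prop where
  G : ∀ j, w.I j → w.I (j + tw m) → tw (m + 1) ∣ j - r → ∀ c, w.W j (j + tw m) c → c.isG = true
  L : ∀ j, w.I j → w.I (j + tw m) → Ex m (j - r) → ∀ c, w.W j (j + tw m) c → c.isL = true
  S : ∀ j, w.I j → w.I (j + tw (m + 1)) → Ex m (j - r) → ∀ c, w.W j (j + tw (m + 1)) c → c = .S

lemma lev_zero : w.Lev 0 0 := by
  have e : tw 0 = 1 := rfl
  have e1 : tw 1 = 2 := rfl
  refine ⟨?_, ?_, ?_⟩
  · intro j h1 h2 h3 c hc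
    rw [e] at h2 hc
    rw [zero_add, e1, sub_zero] at h3
    have := w.adj j c h1 h2 hc
    rw [if_neg (by omega)] at this
    rw [this]; rfl
  · intro j h1 h2 h3 c hc
    rw [e] at h2 hc
    have h4 := h3.2
    rw [zero_add, e1, sub_zero] at h4
    have := w.adj j c h1 h2 hc
    rw [if_pos (by omega)] at this
    rw [this]; rfl
  · intro j h1 h2 h3 c hc
    rw [zero_add, e1] at h2 hc
    have h4 := h3.2
    rw [zero_add, e1, sub_zero] at h4
    obtain ⟨cE, cS, g1, g2, g3⟩ := w.tri j (j + 1) (j + 2) c h1 h2 (by omega) (by omega) hc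
    have i1 : w.I (j + 1) := w.ordc j (j + 2) _ h1 h2 (by omega) (by omega)
    have a1 := w.adj j cE h1 i1 g1
    rw [show j + 2 = j + 1 + 1 by ring] at g2 h2
    have a2 := w.adj (j + 1) cS i1 h2 g2
    rw [if_pos (by omega)] at a1
    rw [if_neg (by omega)] at a2
    exact g3.2.1 a1 a2

/-- contents at the next level -/
lemma lev_next {m : ℕ} {r : ℤ} (H : w.Lev m r) {j : ℤ} (h1 : w.I j) (h2 : w.I (j + tw (m + 1)))
    (h3 : tw (m + 1) ∣ j - r) {c : Kap} (hc : w.W j (j + tw (m + 1)) c) :
    c = if w.ty (j + tw m) then .G else .L := by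
  have hp := tw_pos m
  have e := tw_succ m
  obtain ⟨cE, cS, g1, g2, g3⟩ := w.tri j (j + tw m) _ c h1 h2 (by omega) (by omega) hc
  have i1 : w.I (j + tw m) := w.ordc j _ _ h1 h2 (by omega) (by omega)
  have a1 := H.G j h1 i1 h3 cE g1
  have e2 : j + tw (m + 1) = j + tw m + tw m := by omega
  rw [e2] at g2 h2
  have a2 := H.L (j + tw m) i1 h2 (by
    have := Ex.of_dvd h3
    rwa [show j - r + tw m = j + tw m - r by ring] at this) cS g2
  exact g3.1 a1 a2

lemma lev_X {m : ℕ} {r : ℤ} (H : w.Lev m r) {j : ℤ} (h1 : w.I j) (h2 : w.I (j + 3 * tw m))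
    (h3 : Ex m (j - r)) {c : Kap} (hc : w.W j (j + 3 * tw m) c) : c = .X := by
  have hp := tw_pos m
  have e := tw_succ m
  obtain ⟨cE, cS, g1, g2, g3⟩ := w.tri j (j + tw (m + 1)) _ c h1 h2 (by omega) (by omega) hc
  have i1 : w.I (j + tw (m + 1)) := w.ordc j _ _ h1 h2 (by omega) (by omega)
  have a1 := H.S j h1 i1 h3 cE g1
  have e2 : j + 3 * tw m = j + tw (m + 1) + tw m := by omega
  rw [e2] at g2 h2
  have a2 := H.L (j + tw (m + 1)) i1 h2 (by
    have := h3.add_dvd (dvd_refl (tw (m + 1)))
    rwa [show j - r + tw (m + 1) = j + tw (m + 1) - r by ring] at this) cS g2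
  exact g3.2.2.1 a1 a2

lemma lev_alt {m : ℕ} {r : ℤ} (H : w.Lev m r) {j : ℤ} (h1 : w.I j) (h2 : w.I (j + tw (m + 2)))
    (h3 : tw (m + 1) ∣ j - r) : w.ty (j + tw m) ≠ w.ty (j + tw (m + 1) + tw m) ∧
    (w.ty (j + tw m) = false → ∀ c, w.W j (j + tw (m + 2)) c → c = .S) := by
  have hp := tw_pos m
  have e := tw_succ m
  have e' := tw_succ (m + 1)
  rw [show m + 1 + 1 = m + 2 by ring] at e'
  have main : ∀ c, w.W j (j + tw (m + 2)) c → w.ty (j + tw m) ≠ w.ty (j + tw (m + 1) + tw m) ∧
      (w.ty (j + tw m) = false → c = .S) := by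
    intro c hc
    have i1 : w.I (j + tw m) := w.ordc j _ _ h1 h2 (by omega) (by omega)
    have i2 : w.I (j + tw (m + 1)) := w.ordc j _ _ h1 h2 (by omega) (by omega)
    -- first decomposition
    obtain ⟨cE, cS, g1, g2, g3⟩ := w.tri j (j + tw m) _ c h1 h2 (by omega) (by omega) hc
    have a1 := H.G j h1 i1 h3 cE g1
    have e2 : j + tw (m + 2) = j + tw m + 3 * tw m := by omega
    rw [e2] at g2
    have a2 := w.lev_X H i1 (by rw [← e2]; exact h2) (by
      have := Ex.of_dvd h3
      rwa [show j - r + tw m = j + tw m - r by ring] at this) g2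
    have hc3 := g3.2.2.2.1 a1 a2
    -- second decomposition
    obtain ⟨cE', cS', f1, f2, f3⟩ := w.tri j (j + tw (m + 1)) _ c h1 h2 (by omega) (by omega) hc
    have b1 := w.lev_next H h1 i2 h3 f1
    have e3 : j + tw (m + 2) = j + tw (m + 1) + tw (m + 1) := by omega
    rw [e3] at f2
    have b2 := w.lev_next H i2 (by rw [← e3]; exact h2) (by
      have := dvd_add h3 (dvd_refl (tw (m + 1)))
      rwa [show j - r + tw (m + 1) = j + tw (m + 1) - r by ring] at this) f2
    obtain ⟨c1, c2, c3⟩ := f3.2.2.2.2 hc3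
    rw [b1, b2] at c1 c2 c3
    generalize w.ty (j + tw m) = x at *
    generalize w.ty (j + tw (m + 1) + tw m) = y at *
    cases x <;> cases y
    · exact absurd ⟨rfl, rfl⟩ c2
    · exact ⟨by simp, fun _ => c3 rfl rfl⟩
    · exact ⟨by simp, fun h => absurd h (by simp)⟩
    · exact absurd ⟨rfl, rfl⟩ c1
  obtain ⟨c, hc⟩ := w.ne j _ h1 h2 (by have := tw_pos (m + 2); omega)
  exact ⟨(main c hc).1, fun h c' hc' => (main c' hc').2 h⟩

/-- the next level -/
theorem lev_succ {m : ℕ} {r : ℤ} (H : w.Lev m r) {j0 : ℤ} (h1 : w.I j0)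
    (h2 : w.I (j0 + tw (m + 1))) (h3 : tw (m + 1) ∣ j0 - r) {r' : ℤ}
    (hr' : r' = if w.ty (j0 + tw m) then j0 else j0 + tw (m + 1)) :
    w.Lev (m + 1) r' ∧ tw (m + 1) ∣ r' - r ∧
    (∀ k, w.I (k - tw m) → w.I (k + tw m) → Ex m (k - r) →
      (w.ty k = true ↔ tw (m + 2) ∣ k - tw m - r')) := by
  have hp := tw_pos m
  have hp1 := tw_pos (m + 1)
  have e := tw_succ m
  have e' := tw_succ (m + 1)
  rw [show m + 1 + 1 = m + 2 by ring] at e'
  -- alternation
  set t : ℤ → Bool := fun q => w.ty (j0 + tw (m + 1) * q + tw m) with ht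
  have alt : ∀ q : ℤ, w.I (j0 + tw (m + 1) * q) → w.I (j0 + tw (m + 1) * (q + 1)) →
      t q = (t 0 ^^ decide (¬ (2 : ℤ) ∣ q)) := by
    have step : ∀ q : ℤ, w.I (j0 + tw (m + 1) * q) → w.I (j0 + tw (m + 1) * (q + 2)) →
        t q ≠ t (q + 1) := by
      intro q i1 i2
      have := (w.lev_alt H (j := j0 + tw (m + 1) * q) i1 (by
        rw [show j0 + tw (m + 1) * q + tw (m + 2) = j0 + tw (m + 1) * (q + 2) by rw [e']; ring]
        exact i2) (by
        have := dvd_add h3 (Dvd.intro q (rfl : tw (m + 1) * q = _))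
        rwa [show j0 - r + tw (m + 1) * q = j0 + tw (m + 1) * q - r by ring] at this)).1
      rw [ht]
      simp only
      rw [show j0 + tw (m + 1) * (q + 1) + tw m = j0 + tw (m + 1) * q + tw (m + 1) + tw m by ring]
      exact this
    have b0 : w.I (j0 + tw (m + 1) * 0) := by simpa using h1
    have b1 : w.I (j0 + tw (m + 1) * 1) := by simpa using h2
    intro q
    induction q using Int.induction_on with
    | zero => intro _ _; simp
    | succ n ih =>
      intro i1 i2
      have i0 : w.I (j0 + tw (m + 1) * n) := by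
        refine w.ordc _ _ _ b0 i1 ?_ ?_ <;> nlinarith
      have h5 := step n i0 (by rw [show (n : ℤ) + 2 = n + 1 + 1 by ring]; exact i2)
      have h6 := ih i0 i1
      rw [h6] at h5
      have h7 : t (n + 1) = !(t 0 ^^ decide (¬ (2 : ℤ) ∣ n)) := by
        revert h5
        generalize t (n + 1) = a
        generalize (t 0 ^^ decide (¬ (2 : ℤ) ∣ n)) = b
        cases a <;> cases b <;> simp
      rw [h7]
      by_cases hd : (2 : ℤ) ∣ n
      · have : ¬ (2 : ℤ) ∣ n + 1 := by omega
        simp [hd, this]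
      · have : (2 : ℤ) ∣ n + 1 := by omega
        simp [hd, this]
    | pred n ih =>
      intro i1 i2
      rw [show -(n : ℤ) - 1 + 1 = -n by ring] at i2
      have i3 : w.I (j0 + tw (m + 1) * (-n + 1)) := by
        refine w.ordc _ _ _ i2 b1 ?_ ?_ <;> nlinarith
      have h5 := step (-n - 1) i1 (by rw [show -(n : ℤ) - 1 + 2 = -n + 1 by ring]; exact i3)
      rw [show -(n : ℤ) - 1 + 1 = -n by ring] at h5
      have h6 := ih i2 i3
      rw [h6] at h5
      have h7 : t (-n - 1) = !(t 0 ^^ decide (¬ (2 : ℤ) ∣ -n)) := by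
        revert h5
        generalize t (-n - 1) = a
        generalize (t 0 ^^ decide (¬ (2 : ℤ) ∣ -n)) = b
        cases a <;> cases b <;> simp
      rw [h7]
      by_cases hd : (2 : ℤ) ∣ -n
      · have : ¬ (2 : ℤ) ∣ -n - 1 := by omega
        simp [hd, this]
      · have : (2 : ℤ) ∣ -n - 1 := by omega
        simp [hd, this]
  -- the value of `ty` on the class
  have val : ∀ j, w.I j → w.I (j + tw (m + 1)) → tw (m + 1) ∣ j - r →
      (w.ty (j + tw m) = true ↔ tw (m + 2) ∣ j - r') := by
    intro j i1 i2 h4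
    obtain ⟨q, hq⟩ : tw (m + 1) ∣ j - j0 := by
      have := dvd_sub h4 h3
      rwa [show j - r - (j0 - r) = j - j0 by ring] at this
    have hj : j = j0 + tw (m + 1) * q := by omega
    have h5 := alt q (by rw [← hj]; exact i1) (by
      rw [mul_add, mul_one, ← add_assoc, ← hj]; exact i2)
    have ht0 : t 0 = w.ty (j0 + tw m) := by rw [ht]; simp
    have htq : t q = w.ty (j + tw m) := by rw [ht]; simp only; rw [← hj]
    rw [htq, ht0] at h5
    rw [h5, hr', e']
    have hdvd : ∀ x : ℤ, 2 * tw (m + 1) ∣ tw (m + 1) * x ↔ (2 : ℤ) ∣ x := by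
      intro x
      rw [mul_comm 2]
      exact mul_dvd_mul_iff_left (by omega)
    cases hty : w.ty (j0 + tw m)
    · simp only [Bool.false_xor, decide_eq_true_eq, Bool.false_eq_true, if_false]
      rw [show j - (j0 + tw (m + 1)) = tw (m + 1) * (q - 1) by rw [hj]; ring, hdvd]
      omega
    · simp only [Bool.true_xor, if_true, Bool.not_eq_true', decide_eq_false_iff_not, not_not]
      rw [show j - j0 = tw (m + 1) * q by rw [hj]; ring, hdvd]
  have hrr : tw (m + 1) ∣ r' - r := by
    rw [hr']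
    split_ifs
    · exact h3
    · have := dvd_add h3 (dvd_refl (tw (m + 1)))
      rwa [show j0 - r + tw (m + 1) = j0 + tw (m + 1) - r by ring] at this
  refine ⟨⟨?_, ?_, ?_⟩, hrr, ?_⟩
  · intro j i1 i2 h4 c hc
    have h5 : tw (m + 1) ∣ j - r := by
      have := dvd_add ((tw_dvd (show m + 1 ≤ m + 1 + 1 by omega)).trans h4) hrr
      rwa [show j - r' + (r' - r) = j - r by ring] at this
    have h6 := w.lev_next H i1 i2 h5 hc
    rw [if_pos ((val j i1 i2 h5).mpr h4)] at h6
    rw [h6]; rfl
  · intro j i1 i2 h4 c hc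
    have h5 : tw (m + 1) ∣ j - r := by
      have := dvd_add h4.1 hrr
      rwa [show j - r' + (r' - r) = j - r by ring] at this
    have h6 := w.lev_next H i1 i2 h5 hc
    rw [if_neg (fun h7 => h4.2 ((val j i1 i2 h5).mp h7))] at h6
    rw [h6]; rfl
  · intro j i1 i2 h4 c hc
    have h5 : tw (m + 1) ∣ j - r := by
      have := dvd_add h4.1 hrr
      rwa [show j - r' + (r' - r) = j - r by ring] at this
    have i3 : w.I (j + tw (m + 1)) := w.ordc j _ _ i1 i2 (by omega)
      (by have := tw_succ (m + 1); omega)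
    refine (w.lev_alt H i1 i2 h5).2 ?_ c hc
    have := (val j i1 i3 h5)
    by_contra h7
    exact h4.2 (this.mp (by simpa using h7))
  · intro k i1 i2 h4
    have h5 : tw (m + 1) ∣ k - tw m - r := by
      have h6 := h4.dvd_add
      have := dvd_sub h6 (dvd_refl (tw (m + 1)))
      rwa [show k - r + tw m - tw (m + 1) = k - tw m - r by omega] at this
    have := val (k - tw m) i1 (by rw [show k - tw m + tw (m + 1) = k + tw m by omega]; exact i2) h5
    rwa [sub_add_cancel] at this

/-- the standard structure -/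
structure Str (R : ℕ → ℤ) : Prop where
  R0 : R 0 = 0
  dv : ∀ m, tw (m + 1) ∣ R (m + 1) - R m
  lev : ∀ m, w.Lev m (R m)
  ty : ∀ m k, w.I (k - tw m) → w.I (k + tw m) → Ex m (k - R m) →
    (w.ty k = true ↔ tw (m + 2) ∣ k - tw m - R (m + 1))

theorem str_Z (hI : ∀ k, w.I k) : ∃ R, w.Str R := by
  classical
  have step : ∀ (m : ℕ) (r : {r : ℤ // w.Lev m r}), ∃ r' : {r : ℤ // w.Lev (m + 1) r},
      tw (m + 1) ∣ r'.1 - r.1 ∧ (∀ k, w.I (k - tw m) → w.I (k + tw m) → Ex m (k - r.1) →
      (w.ty k = true ↔ tw (m + 2) ∣ k - tw m - r'.1)) := by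
    rintro m ⟨r, hr⟩
    obtain ⟨a1, a2, a3⟩ := w.lev_succ hr (j0 := r) (hI _) (hI _) (by simp) rfl
    exact ⟨⟨_, a1⟩, a2, a3⟩
  choose nx hnx using step
  let R : (m : ℕ) → {r : ℤ // w.Lev m r} := fun m => Nat.rec ⟨0, w.lev_zero⟩ (fun m r => nx m r) m
  refine ⟨fun m => (R m).1, rfl, fun m => (hnx m (R m)).1, fun m => (R m).2, fun m => (hnx m (R m)).2⟩

theorem str_up (hI : ∀ k, w.I k ↔ 0 ≤ k) (hbot : ∀ k c, 0 < k → w.W 0 k c → c.isL = false) :
    w.Str (fun _ => 0) := by
  have key : ∀ m, w.Lev m 0 → w.ty (0 + tw m) = true := by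
    intro m H
    have i0 : w.I 0 := (hI 0).mpr le_rfl
    have i1 : w.I (0 + tw (m + 1)) := (hI _).mpr (by have := tw_pos (m + 1); omega)
    obtain ⟨c, hc⟩ := w.ne 0 _ i0 i1 (by have := tw_pos (m + 1); omega)
    have h1 := w.lev_next H i0 i1 (by simp) hc
    have h2 := hbot _ c (by have := tw_pos (m + 1); omega) hc
    by_contra h3
    rw [if_neg h3] at h1
    rw [h1] at h2
    simp [Kap.isL] at h2
  have hl : ∀ m, w.Lev m 0 ∧ (∀ k, w.I (k - tw m) → w.I (k + tw m) → Ex m (k - 0) →
      (w.ty k = true ↔ tw (m + 2) ∣ k - tw m - 0)) := by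
    intro m
    have hm : w.Lev m 0 := by
      induction m with
      | zero => exact w.lev_zero
      | succ m ih =>
        exact (w.lev_succ ih (j0 := 0) ((hI _).mpr le_rfl)
          ((hI _).mpr (by have := tw_pos (m + 1); omega)) (by simp) (by rw [if_pos (key m ih)])).1
    exact ⟨hm, (w.lev_succ hm (j0 := 0) ((hI _).mpr le_rfl)
          ((hI _).mpr (by have := tw_pos (m + 1); omega)) (by simp) (by rw [if_pos (key m hm)])).2.2⟩
  exact ⟨rfl, fun m => by simp, fun m => (hl m).1, fun m => (hl m).2⟩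

theorem str_dn (hI : ∀ k, w.I k ↔ k ≤ 0) (htop : ∀ k c, k < 0 → w.W k 0 c → c.isG = false) :
    w.Str (fun _ => 0) := by
  have key : ∀ m, w.Lev m 0 → w.ty (-tw (m + 1) + tw m) = false := by
    intro m H
    have i0 : w.I (-tw (m + 1) + tw (m + 1)) := (hI _).mpr (by omega)
    have i1 : w.I (-tw (m + 1)) := (hI _).mpr (by have := tw_pos (m + 1); omega)
    obtain ⟨c, hc⟩ := w.ne _ _ i1 i0 (by have := tw_pos (m + 1); omega)
    have h1 := w.lev_next H i1 i0 (by simp) hc
    rw [neg_add_cancel] at hc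
    have h2 := htop _ c (by have := tw_pos (m + 1); omega) hc
    by_contra h3
    rw [if_pos (by simpa using h3)] at h1
    rw [h1] at h2
    simp [Kap.isG] at h2
  have hz : ∀ m, w.Lev m 0 → (0 : ℤ) = if w.ty (-tw (m + 1) + tw m) then -tw (m + 1) else
      -tw (m + 1) + tw (m + 1) := by
    intro m H
    rw [key m H]; simp
  have hl : ∀ m, w.Lev m 0 ∧ (∀ k, w.I (k - tw m) → w.I (k + tw m) → Ex m (k - 0) →
      (w.ty k = true ↔ tw (m + 2) ∣ k - tw m - 0)) := by
    intro m
    have hm : w.Lev m 0 := by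
      induction m with
      | zero => exact w.lev_zero
      | succ m ih =>
        exact (w.lev_succ ih (j0 := -tw (m + 1)) ((hI _).mpr (by have := tw_pos (m + 1); omega))
          ((hI _).mpr (by omega)) (by simp) (hz m ih)).1
    exact ⟨hm, (w.lev_succ hm (j0 := -tw (m + 1)) ((hI _).mpr (by have := tw_pos (m + 1); omega))
          ((hI _).mpr (by omega)) (by simp) (hz m hm)).2.2⟩
  exact ⟨rfl, fun m => by simp, fun m => (hl m).1, fun m => (hl m).2⟩

namespace Str
variable {w} {R : ℕ → ℤ}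

/-- hole pairs -/
theorem hole (H : w.Str R) {j i : ℤ} (h1 : w.I j) (h2 : w.I i) (hji : j < i)
    (hL : ∀ k, j < k → k < i → ∃ c, w.W j k c ∧ c.isL = false)
    (hG : ∀ k, j < k → k < i → ∃ c, w.W k i c ∧ c.isG = false) :
    ∃ s, i = j + tw s ∧ tw s ∣ j - R s := by
  by_contra hcon
  push Not at hcon
  -- growth at `j`
  have gj : ∀ m, tw m ≤ i - j → tw m ∣ j - R m ∧ tw m ∣ i - R m := by
    intro m
    induction m with
    | zero => intro _; simp [tw]
    | succ m ih =>
      intro hm
      have hp := tw_pos m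
      have e := tw_succ m
      obtain ⟨a1, a2⟩ := ih (by omega)
      have b1 : tw (m + 1) ∣ j - R m := by
        by_contra h4
        have i3 : w.I (j + tw m) := w.ordc j i _ h1 h2 (by omega) (by omega)
        obtain ⟨c, hc, h6⟩ := hL (j + tw m) (by omega) (by omega)
        have h5 := (H.lev m).L j h1 i3 ⟨a1, h4⟩ c hc
        rw [h5] at h6; exact absurd h6 (by decide)
      have b2 : tw (m + 1) ∣ i - R m := by
        by_contra h4
        have i3 : w.I (i - tw m) := w.ordc j i _ h1 h2 (by omega) (by omega)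
        obtain ⟨c, hc, h6⟩ := hG (i - tw m) (by omega) (by omega)
        have h5 := (H.lev m).G (i - tw m) i3 (by rw [sub_add_cancel]; exact h2) (by
          have := (show Ex m (i - R m) from ⟨a2, h4⟩).dvd_add
          have := dvd_sub this (dvd_refl (tw (m + 1)))
          rwa [show i - R m + tw m - tw (m + 1) = i - tw m - R m by omega] at this) c
          (by rw [sub_add_cancel]; exact hc)
        rw [h5] at h6; exact absurd h6 (by decide)
      have d := H.dv m
      constructor
      · have := dvd_sub b1 d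
        rwa [show j - R m - (R (m + 1) - R m) = j - R (m + 1) by ring] at this
      · have := dvd_sub b2 d
        rwa [show i - R m - (R (m + 1) - R m) = i - R (m + 1) by ring] at this
  have all : ∀ m, tw m ≤ i - j → tw (m + 1) ≤ i - j := by
    intro m hm
    obtain ⟨a1, a2⟩ := gj m hm
    have hne : i ≠ j + tw m := fun h => hcon m h a1
    obtain ⟨q, hq⟩ : tw m ∣ i - j := by
      have := dvd_sub a2 a1
      rwa [show i - R m - (j - R m) = i - j by ring] at this
    have hp := tw_pos m
    rw [tw_succ]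
    have : q ≠ 1 := by
      intro h; subst h; omega
    have : 1 ≤ q := by
      by_contra h
      have : q ≤ 0 := by omega
      nlinarith
    have : 2 ≤ q := by omega
    nlinarith
  have all' : ∀ m, tw m ≤ i - j := by
    intro m
    induction m with
    | zero => have : tw 0 = 1 := rfl; omega
    | succ m ih => exact all m ih
  obtain ⟨n, hn⟩ := pow_unbounded_of_one_lt (i - j) (show (1 : ℤ) < 2 by norm_num)
  have := all' n
  unfold tw at this
  omega

/-- infinite holes upward -/
theorem infUp (H : w.Str R) {j : ℤ} (h1 : w.I j) (h2 : ∀ k, j < k → w.I k)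
    (hL : ∀ k, j < k → ∃ c, w.W j k c ∧ c.isL = false) : ∀ m, tw m ∣ j - R m := by
  intro m
  induction m with
  | zero => simp [tw]
  | succ m ih =>
    have hp := tw_pos m
    have b1 : tw (m + 1) ∣ j - R m := by
      by_contra h4
      have i3 : w.I (j + tw m) := h2 _ (by omega)
      obtain ⟨c, hc, h6⟩ := hL (j + tw m) (by omega)
      have h5 := (H.lev m).L j h1 i3 ⟨ih, h4⟩ c hc
      rw [h5] at h6; exact absurd h6 (by decide)
    have := dvd_sub b1 (H.dv m)
    rwa [show j - R m - (R (m + 1) - R m) = j - R (m + 1) by ring] at this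

/-- infinite holes downward -/
theorem infDn (H : w.Str R) {i : ℤ} (h1 : w.I i) (h2 : ∀ k, k < i → w.I k)
    (hG : ∀ k, k < i → ∃ c, w.W k i c ∧ c.isG = false) : ∀ m, tw m ∣ i - R m := by
  intro m
  induction m with
  | zero => simp [tw]
  | succ m ih =>
    have hp := tw_pos m
    have e := tw_succ m
    have b1 : tw (m + 1) ∣ i - R m := by
      by_contra h4
      have i3 : w.I (i - tw m) := h2 _ (by omega)
      obtain ⟨c, hc, h6⟩ := hG (i - tw m) (by omega)
      have h5 := (H.lev m).G (i - tw m) i3 (by rw [sub_add_cancel]; exact h1) (by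
        have := (show Ex m (i - R m) from ⟨ih, h4⟩).dvd_add
        have := dvd_sub this (dvd_refl (tw (m + 1)))
        rwa [show i - R m + tw m - tw (m + 1) = i - tw m - R m by omega] at this) c
        (by rw [sub_add_cancel]; exact hc)
      rw [h5] at h6; exact absurd h6 (by decide)
    have := dvd_sub b1 (H.dv m)
    rwa [show i - R m - (R (m + 1) - R m) = i - R (m + 1) by ring] at this

/-- aperiodicity -/
theorem aper (H : w.Str R) (hI : ∀ k, w.I k) {N : ℤ} (hN : N ≠ 0) : ∃ k, w.ty (k + N) ≠ w.ty k := by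
  by_contra hcon
  push Not at hcon
  obtain ⟨b, hb⟩ := Ex.exists hN
  have hper : ∀ k, w.ty (k + 2 * N) = w.ty k := by
    intro k
    rw [show k + 2 * N = k + N + N by ring, hcon, hcon]
  have h2N : tw (b + 1) ∣ 2 * N ∧ ¬ tw (b + 2) ∣ 2 * N := by
    have e1 := tw_succ b
    have e2 := tw_succ (b + 1)
    rw [show b + 1 + 1 = b + 2 by ring] at e2
    constructor
    · rw [e1]; exact mul_dvd_mul_left 2 hb.1
    · intro h
      rw [e2] at h
      exact hb.2 ((mul_dvd_mul_iff_left (by norm_num)).mp h)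
  set k := tw b + R (b + 1) with hk
  have h1 : Ex b (k - R b) := by
    have h1 : tw (b + 1) ∣ R (b + 1) - R b := H.dv b
    have := Ex.of_dvd h1
    rwa [show R (b + 1) - R b + tw b = k - R b by rw [hk]; ring] at this
  have h2 := (H.ty b k (hI _) (hI _) h1).mpr (by rw [hk]; simp)
  have h3 : Ex b (k + 2 * N - R b) := by
    have := h1.add_dvd h2N.1
    rwa [show k - R b + 2 * N = k + 2 * N - R b by ring] at this
  have h4 := (H.ty b (k + 2 * N) (hI _) (hI _) h3).mp (by rw [hper]; exact h2)
  apply h2N.2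
  rwa [show k + 2 * N - tw b - R (b + 1) = 2 * N by rw [hk]; ring] at h4

/-- embedding of a finite range of indices into the standard indices -/
theorem embed (H : w.Str R) (hI : ∀ k, w.I k) (n0 n1 : ℤ) : ∃ N : ℤ, (2 : ℤ) ∣ N ∧ 0 < n0 + N ∧
    (∀ k, n0 ≤ k → k ≤ n1 → w.ty k = ty0 (k + N)) ∧
    (∀ j s, n0 ≤ j → j + tw s ≤ n1 → tw s ∣ j - R s → tw s ∣ j + N) ∧
    (∀ j s, n0 ≤ j → j ≤ n1 → (∀ m, tw m ∣ j - R m) → tw s ≤ n1 - n0 → tw s ∣ j + N) := by
  obtain ⟨m, hm⟩ : ∃ m : ℕ, n1 - n0 < tw m := by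
    obtain ⟨n, hn⟩ := pow_unbounded_of_one_lt (n1 - n0) (show (1 : ℤ) < 2 by norm_num)
    exact ⟨n, hn⟩
  -- compatibility of residues
  have hR : ∀ a b : ℕ, a ≤ b → tw (a + 1) ∣ R b - R a := by
    intro a b hab
    induction b with
    | zero =>
      have : a = 0 := by omega
      subst this; simp
    | succ b ih =>
      by_cases h : a = b + 1
      · subst h; simp
      · have h1 := ih (by omega)
        have h2 := (tw_dvd (show a + 1 ≤ b + 1 by omega)).trans (H.dv b)
        have := dvd_add h1 h2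
        rwa [show R b - R a + (R (b + 1) - R b) = R (b + 1) - R a by ring] at this
  -- a general correctness statement
  have good : ∀ N : ℤ, tw (m + 2) ∣ R (m + 1) + N → ∀ k, ¬ tw (m + 1) ∣ k - R (m + 1) →
      w.ty k = ty0 (k + N) := by
    intro N hN k hk
    have hne : k - R (m + 1) ≠ 0 := fun h => hk (by rw [h]; simp)
    obtain ⟨b, hb⟩ := Ex.exists hne
    have hbm : b ≤ m := by
      by_contra h
      exact hk ((tw_dvd (show m + 1 ≤ b by omega)).trans hb.1)
    have e1 : Ex b (k - R b) := by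
      have := hb.add_dvd (hR b (m + 1) (by omega))
      rwa [show k - R (m + 1) + (R (m + 1) - R b) = k - R b by ring] at this
    have e2 : Ex b (k + N) := by
      have := hb.add_dvd ((tw_dvd (show b + 1 ≤ m + 2 by omega)).trans hN)
      rwa [show k - R (m + 1) + (R (m + 1) + N) = k + N by ring] at this
    have h1 := H.ty b k (hI _) (hI _) e1
    have h2 := ty0_iff e2
    have h3 : tw (b + 2) ∣ k - tw b - R (b + 1) ↔ tw (b + 2) ∣ k + N - tw b := by
      have h4 : tw (b + 2) ∣ R (b + 1) + N := by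
        have a1 := hR (b + 1) (m + 1) (by omega)
        have a2 := (tw_dvd (show b + 2 ≤ m + 2 by omega)).trans hN
        have := dvd_sub a2 a1
        rwa [show R (m + 1) + N - (R (m + 1) - R (b + 1)) = R (b + 1) + N by ring] at this
      constructor
      · intro h5
        have := dvd_add h5 h4
        rwa [show k - tw b - R (b + 1) + (R (b + 1) + N) = k + N - tw b by ring] at this
      · intro h5
        have := dvd_sub h5 h4
        rwa [show k + N - tw b - (R (b + 1) + N) = k - tw b - R (b + 1) by ring] at this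
    rw [Bool.eq_iff_iff, h1, h2, h3]
  by_cases hanc : ∃ k, n0 ≤ k ∧ k ≤ n1 ∧ tw (m + 1) ∣ k - R (m + 1)
  · obtain ⟨ks, k1, k2, k3⟩ := hanc
    -- choose β
    set q : ℤ := |n0| + |ks| + 1 with hq
    have hqpos : 0 < q := by positivity
    set N : ℤ := tw (m + 2) * (4 * q + if w.ty ks then 1 else 3) - ks with hN
    have hNk : tw (m + 2) ∣ N + ks := by rw [hN, sub_add_cancel]; exact dvd_mul_right _ _
    have hgood2 : ∀ k, n0 ≤ k → k ≤ n1 → k ≠ ks → w.ty k = ty0 (k + N) := by
      intro k h1 h2 h3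
      -- valuation of k - ks
      have hne : k - ks ≠ 0 := sub_ne_zero.mpr h3
      obtain ⟨b, hb⟩ := Ex.exists hne
      have hbm : b < m := by
        by_contra h
        have h4 : tw m ∣ k - ks := (tw_dvd (by omega)).trans hb.1
        have h5 := Int.le_of_dvd (abs_pos.mpr hne) ((dvd_abs _ _).mpr h4)
        have h6 : |k - ks| ≤ n1 - n0 := by
          rw [abs_le]; constructor <;> omega
        omega
      have e0 : Ex b (k - R (m + 1)) := by
        have := hb.add_dvd ((tw_dvd (show b + 1 ≤ m + 1 by omega)).trans k3)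
        rwa [show k - ks + (ks - R (m + 1)) = k - R (m + 1) by ring] at this
      have e1 : Ex b (k - R b) := by
        have := e0.add_dvd (hR b (m + 1) (by omega))
        rwa [show k - R (m + 1) + (R (m + 1) - R b) = k - R b by ring] at this
      have e2 : Ex b (k + N) := by
        have := hb.add_dvd ((tw_dvd (show b + 1 ≤ m + 2 by omega)).trans hNk)
        rwa [show k - ks + (N + ks) = k + N by ring] at this
      have h1' := H.ty b k (hI _) (hI _) e1
      have h2' := ty0_iff e2
      have h3' : tw (b + 2) ∣ k - tw b - R (b + 1) ↔ tw (b + 2) ∣ k + N - tw b := by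
        have h4 : tw (b + 2) ∣ R (b + 1) + N := by
          have a1 := hR (b + 1) (m + 1) (by omega)
          have a2 := (tw_dvd (show b + 2 ≤ m + 2 by omega)).trans hNk
          have a3 := (tw_dvd (show b + 2 ≤ m + 1 by omega)).trans k3
          have := dvd_sub (dvd_sub a2 a3) a1
          rwa [show N + ks - (ks - R (m + 1)) - (R (m + 1) - R (b + 1)) = R (b + 1) + N by ring] at this
        constructor
        · intro h5
          have := dvd_add h5 h4
          rwa [show k - tw b - R (b + 1) + (R (b + 1) + N) = k + N - tw b by ring] at this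
        · intro h5
          have := dvd_sub h5 h4
          rwa [show k + N - tw b - (R (b + 1) + N) = k - tw b - R (b + 1) by ring] at this
      rw [Bool.eq_iff_iff, h1', h2', h3']
    have hval : ks + N = tw (m + 2) * (4 * q + if w.ty ks then 1 else 3) := by rw [hN]; ring
    have hex : Ex (m + 2) (ks + N) := by
      rw [hval]
      refine ⟨dvd_mul_right _ _, ?_⟩
      rw [tw_succ (m + 2), mul_comm 2, mul_dvd_mul_iff_left (by have := tw_pos (m + 2); omega)]
      split_ifs <;> omega
    have hks : w.ty ks = ty0 (ks + N) := by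
      have h2 := ty0_iff hex
      rw [Bool.eq_iff_iff, h2, hval]
      have e4 : tw (m + 2 + 2) = tw (m + 2) * 4 := by rw [tw_succ, tw_succ]; ring
      rw [e4]
      have e5 : tw (m + 2) * (4 * q + if w.ty ks then 1 else 3) - tw (m + 2) =
          tw (m + 2) * (4 * q + (if w.ty ks then 1 else 3) - 1) := by ring
      rw [e5, mul_dvd_mul_iff_left (by have := tw_pos (m + 2); omega)]
      cases w.ty ks <;> simp <;> omega
    have hpos : 0 < n0 + N := by
      have h1 : 1 ≤ tw (m + 2) := tw_pos _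
      have h2 : (1 : ℤ) ≤ if w.ty ks then 1 else 3 := by split_ifs <;> norm_num
      have h3 : 4 * q + 1 ≤ tw (m + 2) * (4 * q + if w.ty ks then 1 else 3) := by nlinarith
      have h4 := neg_abs_le n0
      have h5 := le_abs_self ks
      rw [hN]; omega
    refine ⟨N, ?_, hpos, ?_, ?_, ?_⟩
    · -- parity
      have h1 : (2 : ℤ) ∣ N + ks := (show (2 : ℤ) ∣ tw (m + 2) by rw [tw_succ]; exact dvd_mul_right _ _).trans hNk
      have h2 : (2 : ℤ) ∣ ks - R (m + 1) :=
        (show (2 : ℤ) ∣ tw (m + 1) by rw [tw_succ]; exact dvd_mul_right _ _).trans k3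
      have h3 : (2 : ℤ) ∣ R (m + 1) - R 0 := hR 0 (m + 1) (by omega)
      rw [H.R0] at h3
      omega
    · intro k h1 h2
      by_cases h3 : k = ks
      · rw [h3]; exact hks
      · exact hgood2 k h1 h2 h3
    · intro j s h1 h2 h3
      have hs : s < m := by
        rw [← tw_lt_iff]; omega
      have a1 := (tw_dvd (show s ≤ s + 1 by omega)).trans (hR s (m + 1) (by omega))
      have a2 := (tw_dvd (show s ≤ m + 2 by omega)).trans hNk
      have a3 := (tw_dvd (show s ≤ m + 1 by omega)).trans k3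
      have := dvd_add (dvd_sub h3 a1) (dvd_sub a2 a3)
      rwa [show j - R s - (R (m + 1) - R s) + (N + ks - (ks - R (m + 1))) = j + N by ring] at this
    · intro j s h1 h2 h3 h4
      have hs : s < m := by
        rw [← tw_lt_iff]; omega
      have a0 := (tw_dvd (show s ≤ m + 1 by omega)).trans (h3 (m + 1))
      have a2 := (tw_dvd (show s ≤ m + 2 by omega)).trans hNk
      have a3 := (tw_dvd (show s ≤ m + 1 by omega)).trans k3
      have := dvd_add a0 (dvd_sub a2 a3)
      rwa [show j - R (m + 1) + (N + ks - (ks - R (m + 1))) = j + N by ring] at this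
  · push Not at hanc
    set q : ℤ := |n0| + |R (m + 1)| + 1 with hq
    have hqpos : 0 < q := by positivity
    set N : ℤ := tw (m + 2) * q - R (m + 1) with hN
    have hNr : tw (m + 2) ∣ R (m + 1) + N := by
      rw [hN, add_sub_cancel]; exact dvd_mul_right _ _
    refine ⟨N, ?_, ?_, fun k h1 h2 => good N hNr k (hanc k h1 h2), ?_, ?_⟩
    · have h1 : (2 : ℤ) ∣ R (m + 1) + N :=
        (show (2 : ℤ) ∣ tw (m + 2) by rw [tw_succ]; exact dvd_mul_right _ _).trans hNr
      have h3 : (2 : ℤ) ∣ R (m + 1) - R 0 := hR 0 (m + 1) (by omega)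
      rw [H.R0] at h3
      omega
    · have h1 : 1 ≤ tw (m + 2) := tw_pos _
      have h3 : q ≤ tw (m + 2) * q := by nlinarith
      have h4 := neg_abs_le n0
      have h5 := le_abs_self (R (m + 1))
      rw [hN]; omega
    · intro j s h1 h2 h3
      have hs : s < m := by
        rw [← tw_lt_iff]; omega
      have a1 := (tw_dvd (show s ≤ s + 1 by omega)).trans (hR s (m + 1) (by omega))
      have a2 := (tw_dvd (show s ≤ m + 2 by omega)).trans hNr
      have := dvd_add (dvd_sub h3 a1) a2
      rwa [show j - R s - (R (m + 1) - R s) + (R (m + 1) + N) = j + N by ring] at this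
    · intro j s h1 h2 h3 h4
      exact absurd (h3 (m + 1)) (hanc j h1 h2)

end Str
end WS

end Run7.h687.Full
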