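import Pool.Agent.Run7.h687.Full.Region
import Pool.Agent.Run7.h687.Full.Bridge
import Pool.Agent.Run7.h687.Full.WSys

set_option autoImplicit false

namespace Run7.h687.Full
open Run7.h687.Lamp

lemma zind {Q : ℤ → Prop} {p q : ℤ} (h0 : Q (p + 1)) (hs : ∀ i, p + 1 ≤ i → i < q → Q i → Q (i + 1)) :
    ∀ i, p + 1 ≤ i → i ≤ q → Q i := by
  intro i h1 h2
  obtain ⟨k, rfl⟩ : ∃ k : ℕ, i = p + 1 + k := ⟨(i - p - 1).toNat, by omega⟩
  clear h1
  induction k with
  | zero => simpa using h0
  | succ k ih =>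
    push_cast at h2 ⊢
    rw [← add_assoc]
    exact hs _ (by omega) (by omega) (ih (by omega))

section
variable {x : Cfg} (hx : Rules x) (R : Rgn (toR x hx))

/-- wires of a region -/
structure Wire (p q : ℤ) (z : ℤ → K) : Prop where
  w : WPath (toR x hx).up (toR x hx).dn z p q
  In : ∀ i, p ≤ i → i < q → R.In i (z i)
  b : (x.up p (z p)).b = true
  a : (x.dn q (z q)).a = true

variable {hx}
variable {R}

lemma wp_reg {p q : ℤ} {z : ℤ → K} (w : WPath (toR x hx).up (toR x hx).dn z p q) {i : ℤ}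
    (h1 : p < i) (h2 : i < q) : ElR (x.dn i (z i)) (x.up i (z i)) := by
  have a1 := (w i (by omega) h2).2.1
  have a2 := (w (i - 1) (by omega) (by omega)).2.2
  rw [sub_add_cancel] at a2
  exact elem_reg (hx.e i (z i)) a2 a1

lemma wp_wr {p q : ℤ} {z : ℤ → K} (w : WPath (toR x hx).up (toR x hx).dn z p q) {i : ℤ}
    (h1 : p ≤ i) (h2 : i < q) : Wr (x.up i (z i)) (x.up i (fl i (z i))) (x.dn (i + 1) (z (i + 1)))
      (x.dn (i + 1) (fl i (z (i + 1)))) := by
  obtain ⟨a1, a2, a3⟩ := w i h1 h2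
  exact wr_of_T (hx.t i (z i)) a1 a2 a3

lemma wp_c {p q : ℤ} {z : ℤ → K} (w : WPath (toR x hx).up (toR x hx).dn z p q) (hpq : p < q) :
    ∀ i, p + 1 ≤ i → i ≤ q → (x.dn i (z i)).c = (x.up p (z p)).c ∧
      (x.dn i (z i)).fb = (x.up p (z p)).fb ∧ (x.dn i (z i)).hb = (x.dn (p + 1) (z (p + 1))).hb := by
  apply zind
  · have := wp_wr w le_rfl hpq
    exact ⟨this.c, this.fb, rfl⟩
  · intro i h1 h2 h3
    have h4 := wp_wr w (show p ≤ i by omega) h2
    have h5 := wp_reg w (show p < i by omega) h2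
    have hb : (x.dn i (z i)).b = false := by
      have := (w (i - 1) (by omega) (by omega)).2.2
      rw [sub_add_cancel] at this
      exact this
    have hb' : (x.up i (z i)).b = false := by rw [h5.b]; exact hb
    refine ⟨by rw [h4.c, h5.c, h3.1], by rw [h4.fb, (h5.w0 hb).2.1, h3.2.1], ?_⟩
    rw [h4.hb, if_neg (by rw [hb']; simp), (h5.w0 hb).1, h3.2.2]

lemma wp_fr {p q : ℤ} {z : ℤ → K} (w : WPath (toR x hx).up (toR x hx).dn z p q) (hpq : p < q)
    (hnr : ∀ i, p < i → i < q → (x.dn i (z i)).row.rl = false) :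
    ∀ i, p + 1 ≤ i → i ≤ q → (x.dn i (z i)).fr = (x.up p (z p)).fr := by
  apply zind
  · exact (wp_wr w le_rfl hpq).fr
  · intro i h1 h2 h3
    have h4 := wp_wr w (show p ≤ i by omega) h2
    have h5 := wp_reg w (show p < i by omega) h2
    have hb : (x.dn i (z i)).b = false := by
      have := (w (i - 1) (by omega) (by omega)).2.2
      rw [sub_add_cancel] at this
      exact this
    rw [h4.fr, (h5.w0 hb).2.2, hnr i (by omega) h2, h3]
    simp

lemma reg_iff_elr {h : ℤ} {f : K} (H : (toR x hx).Reg h f) : ElR (x.dn h f) (x.up h f) := by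
  rcases hx.e h f with h1 | h1 | h1
  · exact h1
  · exact absurd h1.2.row H.2.1
  · have h2 := H.1
    have h3 : (x.up h f).row = (x.dn h f).row := congrArg RD.row h2
    have h4 := h1.2.row
    rw [h3, h1.1.row] at h4
    exact absurd h4 (by decide)

lemma start_b {p : ℤ} {g g' : K} (h1 : R.In p g) (h2 : R.In p g') (h3 : ∀ i < p, g i = g' i)
    (hr : (x.up p g).row.rl = true ∨ (x.up p g).row = .bot) (hb : (x.up p g).b = true) :
    (x.up p g').b = true := by
  have hrow : (x.up p g).row = (x.up p g').row := (R.row_eq h1 h2).1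
  rcases hr with hr | hr
  · have r1 : (toR x hx).Reg p g := (toR x hx).reg_of_rl' hr
    have r2 : (toR x hx).Reg p g' := (toR x hx).reg_of_rl' (by
      show (x.up p g').row.rl = true
      rw [← hrow]; exact hr)
    have i1 := (R.reg _ _ r1).mp h1
    have i2 := (R.reg _ _ r2).mp h2
    have := (R.b_eq i1 i2 (fun i hi => h3 i (by omega))).1
    rw [sub_add_cancel, ← r1.1, ← r2.1] at this
    have h4 : (x.up p g).b = (x.up p g').b := this
    rw [← h4]; exact hb
  · exact (toR x hx).bb p g' (by show (x.up p g').row = .bot; rw [← hrow]; exact hr)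

lemma end_a {q : ℤ} {g g' : K} (h1 : R.In (q - 1) g) (h2 : R.In (q - 1) g')
    (h3 : ∀ i ≥ q, g i = g' i)
    (hr : (x.dn q g).row.rl = true ∨ (x.dn q g).row = .top) (hb : (x.dn q g).a = true) :
    (x.dn q g').a = true := by
  have hrow : (x.dn q g).row = (x.dn q g').row := by
    have := (R.row_eq h1 h2).2
    rw [sub_add_cancel] at this
    exact this
  rcases hr with hr | hr
  · have r1 : (toR x hx).Reg q g := (toR x hx).reg_of_rl hr
    have r2 : (toR x hx).Reg q g' := (toR x hx).reg_of_rl (by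
      show (x.dn q g').row.rl = true
      rw [← hrow]; exact hr)
    have i1 := (R.reg _ _ r1).mpr h1
    have i2 := (R.reg _ _ r2).mpr h2
    have := (R.a_eq i1 i2 (fun i hi => h3 i (by omega))).1
    rw [r1.1, r2.1] at this
    have h4 : (x.dn q g).a = (x.dn q g').a := this
    rw [← h4]; exact hb
  · exact (toR x hx).ta q g' (by show (x.dn q g').row = .top; rw [← hrow]; exact hr)

lemma exists_start {p : ℤ} {g : K} (h1 : R.In p g)
    (hr : (x.up p g).row.rl = true ∨ (x.up p g).row = .bot) :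
    ∃ g1, R.In p g1 ∧ (x.up p g1).b = true ∧ Off (p - 1) p g1 g ∧
      (x.up p g1).row = (x.up p g).row := by
  by_cases hb : (x.up p g).b = true
  · exact ⟨g, h1, hb, Off.refl _ _ _, rfl⟩
  rcases hr with hr | hr
  · have r1 : (toR x hx).Reg p g := (toR x hx).reg_of_rl' hr
    have i1 := (R.reg _ _ r1).mp h1
    have e1 : (x.up p g).b = (x.dn p g).b := congrArg RD.b r1.1
    have e2 : (x.up p g).row = (x.dn p g).row := congrArg RD.row r1.1
    have hrow : (x.dn p (fl (p - 1) g)).row = (x.dn p g).row := by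
      have := (toR x hx).row2 (p - 1) g
      rw [sub_add_cancel] at this
      exact this
    have r2 : (toR x hx).Reg p (fl (p - 1) g) := (toR x hx).reg_of_rl (by
      show (x.dn p (fl (p - 1) g)).row.rl = true
      rw [hrow, ← e2]; exact hr)
    have e3 : (x.up p (fl (p - 1) g)).b = (x.dn p (fl (p - 1) g)).b := congrArg RD.b r2.1
    have e4 : (x.up p (fl (p - 1) g)).row = (x.dn p (fl (p - 1) g)).row := congrArg RD.row r2.1
    refine ⟨fl (p - 1) g, ?_, ?_, ?_, ?_⟩
    · rw [R.reg _ _ r2, R.fl']; exact i1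
    · have := (toR x hx).b2 (p - 1) g
      rw [sub_add_cancel] at this
      have h5 : (x.dn p (fl (p - 1) g)).b = !(x.dn p g).b := this
      rw [e3, h5, ← e1]
      simpa using hb
    · exact Off.fl (by omega) (by omega) (Off.refl _ _ _)
    · rw [e4, hrow, e2]
  · exact absurd ((toR x hx).bb p g hr) hb

lemma exists_end {q : ℤ} {g : K} (h1 : R.In (q - 1) g)
    (hr : (x.dn q g).row.rl = true ∨ (x.dn q g).row = .top) :
    ∃ g1, R.In (q - 1) g1 ∧ (x.dn q g1).a = true ∧ Off q (q + 1) g1 g ∧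
      (x.dn q g1).b = (x.dn q g).b ∧ (x.dn q g1).row = (x.dn q g).row := by
  by_cases hb : (x.dn q g).a = true
  · exact ⟨g, h1, hb, Off.refl _ _ _, rfl, rfl⟩
  rcases hr with hr | hr
  · have r1 : (toR x hx).Reg q g := (toR x hx).reg_of_rl hr
    have i1 := (R.reg _ _ r1).mpr h1
    have e1 : (x.up q g).a = (x.dn q g).a := congrArg RD.a r1.1
    have e2 : (x.up q g).row = (x.dn q g).row := congrArg RD.row r1.1
    have e2' : (x.up q g).b = (x.dn q g).b := congrArg RD.b r1.1
    have hrow : (x.up q (fl q g)).row = (x.up q g).row := (toR x hx).row1 q g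
    have r2 : (toR x hx).Reg q (fl q g) := (toR x hx).reg_of_rl' (by
      show (x.up q (fl q g)).row.rl = true
      rw [hrow, e2]; exact hr)
    have e3 : (x.up q (fl q g)).a = (x.dn q (fl q g)).a := congrArg RD.a r2.1
    have e4 : (x.up q (fl q g)).row = (x.dn q (fl q g)).row := congrArg RD.row r2.1
    have e5 : (x.up q (fl q g)).b = (x.dn q (fl q g)).b := congrArg RD.b r2.1
    refine ⟨fl q g, ?_, ?_, ?_, ?_, ?_⟩
    · rw [← R.reg _ _ r2, R.fl']; exact i1
    · have h5 : (x.up q (fl q g)).a = !(x.up q g).a := (toR x hx).a1 q g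
      rw [← e3, h5, e1]
      simpa using hb
    · exact Off.fl (by omega) (by omega) (Off.refl _ _ _)
    · have h5 : (x.up q (fl q g)).b = (x.up q g).b := (toR x hx).b1 q g
      rw [← e5, h5, e2']
    · rw [← e4, hrow, e2]
  · exact absurd ((toR x hx).ta q g hr) hb

lemma hnt_of {p q : ℤ} {g g0 : K} (hg : R.In p g) (hg0 : R.In (q - 1) g0) :
    ∀ i g', p ≤ i → i + 1 < q → R.In i g' → ¬ RS.tp ((toR x hx).dn (i + 1) g').row := by
  intro i g' h1 h2 h3
  obtain ⟨g'', h4⟩ := R.lev p (q - 1) (i + 1) g g0 hg hg0 (by omega) (by omega)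
  exact R.up1 i g' g'' h3 h4

/-- wires exist, with prescribed start, and T1-end prescribed up to the last digit -/
theorem wire_ex {p q : ℤ} (hpq : p < q) {g g0 : K} (hg : R.In p g) (hg0 : R.In (q - 1) g0)
    (hb : (x.up p g).b = true)
    (hrp : (x.up p g).row.rl = true ∨ (x.up p g).row = .bot)
    (hrq : (x.dn q g0).row.rl = true ∨ (x.dn q g0).row = .top) :
    ∃ z, Wire hx R p q z ∧ Off p (q + 1) (z q) g ∧ (∀ j < p, (z p) j = g j) ∧
      ∃ y1 : K, (y1 = g ∨ y1 = fl p g) ∧ (x.dn (p + 1) y1).b = false ∧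
        ∀ j < p + 1, (z (p + 1)) j = y1 j := by
  obtain ⟨y, y0, yp, yoff⟩ := R.exists_YP hpq.le hg (hnt_of hg hg0)
  have hyq : R.In (q - 1) (y q) := by
    have h1 := yp.In (q - 1) (by omega) (by omega)
    have h2 := yp.st (q - 1) (by omega) (by omega)
    rw [sub_add_cancel] at h2
    rcases h2 with h2 | h2
    · rw [h2]; exact h1
    · rw [h2, R.fl']; exact h1
  have hrow : (x.dn q (y q)).row = (x.dn q g0).row := by
    have := (R.row_eq hyq hg0).2
    rw [sub_add_cancel] at this
    exact this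
  obtain ⟨e, e1, e2, e3, e4, e5⟩ := exists_end hyq (by rw [hrow]; exact hrq)
  obtain ⟨z, z1, z2, z3, z4⟩ := R.desc yp hpq e1 (fun i hi => e3 i (Or.inl hi))
  have hzp : ∀ j < p, (z p) j = g j := by
    intro j hj
    rw [(z4 p le_rfl hpq.le).2 j hj, y0]
  refine ⟨z, ⟨z2, z3, ?_, by rw [z1]; exact e2⟩, ?_, hzp, ?_⟩
  · exact start_b hg (z3 p le_rfl hpq) (fun i hi => (hzp i hi).symm) hrp hb
  · rw [z1]
    exact (e3.mono hpq.le le_rfl).trans ((yoff q hpq.le le_rfl).mono le_rfl (by omega))
  · refine ⟨y (p + 1), ?_, yp.b p le_rfl hpq, fun j hj => (z4 (p + 1) (by omega) (by omega)).2 j hj⟩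
    have := yp.st p le_rfl hpq
    rw [y0] at this
    exact this

/-- decomposition of wires at a real row -/
theorem wire_tri {p q k : ℤ} {z : ℤ → K} (W : Wire hx R p q z) (h1 : p < k) (h2 : k < q)
    (hrp : (x.up p (z p)).row.rl = true ∨ (x.up p (z p)).row = .bot)
    (hrq : (x.dn q (z q)).row.rl = true ∨ (x.dn q (z q)).row = .top)
    {s t : Bool} (hk : (x.up k (z k)).row = .R s t) :
    ∃ zE zS, Wire hx R p k zE ∧ Wire hx R k q zS ∧
      Imp t (x.dn q (z q)).c (x.dn k (zE k)).c (x.dn q (zS q)).c := by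
  have hkr : (x.up k (z k)).row.rl = true := by rw [hk]; rfl
  have rk : (toR x hx).Reg k (z k) := (toR x hx).reg_of_rl' hkr
  have el := reg_iff_elr rk
  have ik := W.In k (by omega) h2
  have ak := (W.w k (by omega) h2).2.1
  have bk := (W.w (k - 1) (by omega) (by omega)).2.2
  rw [sub_add_cancel] at bk
  have ak' : (x.up k (z k)).a = false := ak
  have bk' : (x.dn k (z k)).b = false := bk
  have ypz : R.YP z p k := ⟨fun i a b => (W.w i a (by omega)).1, fun i a b => (W.w i a (by omega)).2.2,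
    fun i a b => W.In i a (by omega)⟩
  have ypz' : R.YP z k q := ⟨fun i a b => (W.w i (by omega) b).1, fun i a b => (W.w i (by omega) b).2.2,
    fun i a b => W.In i (by omega) b⟩
  -- E-part
  set e := fl k (z k) with he
  have rowe : (x.up k e).row = (x.up k (z k)).row := (toR x hx).row1 k (z k)
  have re : (toR x hx).Reg k e := (toR x hx).reg_of_rl' (by
    show (x.up k e).row.rl = true
    rw [rowe]; exact hkr)
  have ele := reg_iff_elr re
  have ie : R.In (k - 1) e := by
    rw [← R.reg _ _ re, he, R.fl']; exact ik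
  obtain ⟨zE, E1, E2, E3, E4⟩ := R.desc ypz h1 ie (fun i hi => by rw [he, fl_ne (by omega)])
  have aE : (x.dn k (zE k)).a = true := by
    rw [E1, ← ele.a]
    have : (x.up k e).a = !(x.up k (z k)).a := (toR x hx).a1 k (z k)
    rw [this, ak']; rfl
  have bE : (x.up p (zE p)).b = true :=
    start_b (W.In p le_rfl (by omega)) (E3 p le_rfl h1)
      (fun i hi => ((E4 p le_rfl h1.le).2 i hi).symm) hrp W.b
  -- S-part
  set g2 := fl (k - 1) (z k) with hg2
  have rowg : (x.dn k g2).row = (x.dn k (z k)).row := by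
    have := (toR x hx).row2 (k - 1) (z k)
    rw [sub_add_cancel] at this
    exact this
  have rg : (toR x hx).Reg k g2 := (toR x hx).reg_of_rl (by
    show (x.dn k g2).row.rl = true
    rw [rowg, ← el.row]; exact hkr)
  have elg := reg_iff_elr rg
  have ig : R.In k g2 := by
    rw [R.reg _ _ rg, hg2, R.fl', ← R.reg _ _ rk]; exact ik
  have bg : (x.dn k g2).b = true := by
    have := (toR x hx).b2 (k - 1) (z k)
    rw [sub_add_cancel] at this
    have h5 : (x.dn k g2).b = !(x.dn k (z k)).b := this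
    rw [h5, bk']; rfl
  obtain ⟨zS, S1, S2, S3⟩ := R.exists_YP h2.le ig (hnt_of ig (W.In (q - 1) (by omega) (by omega)))
  have hT1 : ∀ i, k ≤ i → i ≤ q → ∀ j ≥ i, (zS i) j = (z i) j := by
    intro i a b j hj
    rw [S3 i a b j (Or.inr hj)]
    have := ypz'.off (i - k).toNat k le_rfl (by omega)
    rw [show k + ((i - k).toNat : ℤ) = i by omega] at this
    rw [this j (Or.inr hj), hg2, fl_ne (by omega)]
  have wS : WPath (toR x hx).up (toR x hx).dn zS k q := by
    intro i a b
    refine ⟨S2.st i a b, ?_, S2.b i a b⟩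
    rw [(R.a_eq (S2.In i a b) (W.In i (by omega) b) (fun j hj => hT1 i a b.le j hj)).1]
    exact (W.w i (by omega) b).2.1
  have hzq : R.In (q - 1) (z q) := by
    have h3 := W.In (q - 1) (by omega) (by omega)
    have h4 := (W.w (q - 1) (by omega) (by omega)).1
    rw [sub_add_cancel] at h4
    rcases h4 with h4 | h4
    · rw [h4]; exact h3
    · rw [h4, R.fl']; exact h3
  have hzSq : R.In (q - 1) (zS q) := by
    have h3 := S2.In (q - 1) (by omega) (by omega)
    have h4 := S2.st (q - 1) (by omega) (by omega)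
    rw [sub_add_cancel] at h4
    rcases h4 with h4 | h4
    · rw [h4]; exact h3
    · rw [h4, R.fl']; exact h3
  have aS : (x.dn q (zS q)).a = true :=
    end_a hzq hzSq (fun i hi => (hT1 q (by omega) le_rfl i hi).symm) hrq W.a
  refine ⟨zE, zS, ⟨E2, E3, bE, aE⟩, ⟨wS, S2.In, ?_, aS⟩, ?_⟩
  · rw [S1, elg.b]; exact bg
  · have w1 := (wp_wr W.w (show p ≤ k by omega) h2).imp s t hk (by rw [el.b]; exact bk')
    have c0 := (wp_c W.w (by omega) q (by omega) le_rfl).1
    have c0' := (wp_c W.w (by omega) k (by omega) h2.le).1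
    have cS := (wp_c wS (by omega) q (by omega) le_rfl).1
    rw [c0, ← c0', E1, ← ele.c, cS, S1]
    rw [← el.c]
    have hg : (x.up k (z k)).g = (x.up k g2).c := by
      rw [el.g, elg.c]
      have := (wp_wr W.w (show p ≤ k - 1 by omega) (by omega)).g
      rw [sub_add_cancel] at this
      exact this (by rw [← el.row]; exact hkr)
    rw [← hg]
    exact w1

end

end Run7.h687.Full
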