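import Pool.Agent.Run7.h687.Full.Wires

set_option autoImplicit false

namespace Run7.h687.Full
open Run7.h687.Lamp

lemma rl_iff {r : Row} (h : r.rl = true) : ∃ s t, r = .R s t := by
  cases r with
  | R s t => exact ⟨s, t, rfl⟩
  | _ => simp [Row.rl] at h

lemma Rgn.go_dn {S : RowSys} {C : RCfg S} (R : Rgn C) {p q : ℤ} {g g0 : K} (hg : R.In q g)
    (hg0 : R.In p g0) (hpq : p ≤ q) : ∃ g', R.In p g' ∧ Off p (q + 1) g' g := by
  obtain ⟨k, rfl⟩ : ∃ k : ℕ, p = q - k := ⟨(q - p).toNat, by omega⟩
  clear hpq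
  induction k generalizing g0 with
  | zero => exact ⟨g, by simpa using hg, Off.refl _ _ _⟩
  | succ k ih =>
    obtain ⟨g1, h1⟩ := R.lev _ q (q - k) g0 g hg0 hg (by push_cast; omega) (by omega)
    obtain ⟨g', i1, o1⟩ := ih h1
    have hnb := R.dn1 (q - k) g' g0 i1 (by
      have : q - k - 1 = q - ((k + 1 : ℕ) : ℤ) := by push_cast; ring
      rw [this]; exact hg0)
    obtain ⟨x, -, -, i2⟩ := R.exists_dn i1 hnb
    refine ⟨flx (q - k) x g', ?_, ?_⟩
    · have : q - ((k + 1 : ℕ) : ℤ) = q - k - 1 := by push_cast; ring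
      rw [this]; exact i2
    · exact Off.flx (by push_cast; omega) (by omega) (o1.mono (by push_cast; omega) le_rfl) x

section
variable {x : Cfg} {hx : Rules x} {R : Rgn (toR x hx)}

theorem wire_adj {p q : ℤ} {z : ℤ → K} (W : Wire hx R p q z) (hpq : p < q)
    (hrp : (x.up p (z p)).row.rl = true ∨ (x.up p (z p)).row = .bot)
    (hnr : ∀ i, p < i → i < q → (x.dn i (z i)).row.rl = false) :
    (∀ s t, (x.dn q (z q)).row = .R s t → (x.dn q (z q)).c = if s then .L1 else .G1) ∧
    ((x.dn q (z q)).row = .top → (x.dn q (z q)).c = .L1) := by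
  have hfr : (x.up p (z p)).fr = true := by
    rcases hrp with h | h
    · have r := reg_iff_elr ((toR x hx).reg_of_rl' (h := p) (f := z p) h)
      exact (r.w1 (by rw [← r.b]; exact W.b) (by rw [← r.row]; exact h)).1
    · exact (elem_bot (hx.e p (z p)) h).2.fr
  have h1 := wp_fr W.w hpq hnr q (by omega) le_rfl
  rw [hfr] at h1
  have h2 := wp_wr W.w (show p ≤ q - 1 by omega) (by omega)
  rw [sub_add_cancel] at h2
  exact ⟨fun s t h3 => (h2.fin1 s t h3 W.a).1 h1, fun h3 => (h2.fin2 h3).2.1 h1⟩

theorem wire_bot {p q : ℤ} {z : ℤ → K} (W : Wire hx R p q z) (hpq : p < q)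
    (hrp : (x.up p (z p)).row = .bot) (hrq : (x.dn q (z q)).row.rl = true) :
    (x.dn q (z q)).c.isL = false := by
  have h1 := (wp_c W.w hpq q (by omega) le_rfl).2.1
  rw [(elem_bot (hx.e p (z p)) hrp).2.fb] at h1
  have h2 := wp_wr W.w (show p ≤ q - 1 by omega) (by omega)
  rw [sub_add_cancel] at h2
  obtain ⟨s, t, hst⟩ := rl_iff hrq
  exact (h2.fin1 s t hst W.a).2.2.1 h1

theorem wire_top {p q : ℤ} {z : ℤ → K} (W : Wire hx R p q z) (hpq : p < q)
    (hrp : (x.up p (z p)).row.rl = true) (hrq : (x.dn q (z q)).row = .top) :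
    (x.dn q (z q)).c.isG = false := by
  have r := reg_iff_elr ((toR x hx).reg_of_rl' (h := p) (f := z p) hrp)
  have hfb := (r.w1 (by rw [← r.b]; exact W.b) (by rw [← r.row]; exact hrp)).2
  have h1 := (wp_c W.w hpq q (by omega) le_rfl).2.1
  rw [hfb] at h1
  have h2 := wp_wr W.w (show p ≤ q - 1 by omega) (by omega)
  rw [sub_add_cancel] at h2
  rcases (h2.fin2 hrq).2.2.2 with h3 | h3
  · rw [h1] at h3; exact absurd h3 (by decide)
  · exact h3

lemma wire_off {p q : ℤ} {z : ℤ → K} (W : Wire hx R p q z) {i j : ℤ} (h1 : p ≤ i) (h2 : i ≤ j)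
    (h3 : j ≤ q) : Off i j (z j) (z i) := by
  have yp : R.YP z p q := ⟨fun i a b => (W.w i a b).1, fun i a b => (W.w i a b).2.2,
    fun i a b => W.In i a b⟩
  have := yp.off (j - i).toNat i h1 (by omega)
  rw [show i + ((j - i).toNat : ℤ) = j by omega] at this
  exact this

/-- wires above the bottom of a hole -/
theorem wire_holeL {p q : ℤ} {f' g0 : K} (host : R.In p f') (hbt : (x.up (p + 1) f').row = .bot)
    {u : ℕ} (hu : (toR x hx).UT (p + 1) f' u) (hpq : p < q) (hq : q ≤ p + 1 + u)
    (hg0 : R.In (q - 1) g0) (hrq : (x.dn q g0).row.rl = true) :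
    ∃ z, Wire hx R p q z ∧ (x.dn q (z q)).c.isL = false := by
  obtain ⟨H1, H2⟩ := elem_bot (hx.e (p + 1) f') hbt
  have hb : (x.up p f').b = true := (toR x hx).hb p f' hbt
  have hreal : (x.up p f').row.rl = true :=
    RS.nxR' _ _ ((toR x hx).nx p f') H1.row
  obtain ⟨z, W, z1, z2, y1, hy1, hy2, hy3⟩ := wire_ex hpq host hg0 hb (Or.inl hreal) (Or.inl hrq)
  refine ⟨z, W, ?_⟩
  have hy : y1 = fl p f' := by
    rcases hy1 with h | h
    · rw [h, H1.b] at hy2; exact absurd hy2 (by decide)
    · exact h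
  have hoff : Off (p + 1) (p + 1 + 1 + u) f' (fl p (z (p + 1))) := by
    intro i hi
    rcases hi with hi | hi
    · by_cases h1 : i = p
      · subst h1
        rw [fl_same, hy3 i (by omega), hy, fl_same]
        generalize f' i = a
        revert a; decide
      · rw [fl_ne h1, hy3 i hi, hy, fl_ne h1]
    · rw [fl_ne (by omega), ← wire_off W (show p ≤ p + 1 by omega) (show p + 1 ≤ q by omega)
        le_rfl i (by omega), z1 i (by omega)]
  have hbt' := ((toR x hx).bAll u (p + 1) f' hbt hu _ hoff).1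
  have hhb : (x.dn (p + 1) (z (p + 1))).hb = true := by
    have h1 := (wp_wr W.w le_rfl hpq).hb
    have hrow : (x.up p (z p)).row = (x.up p f').row := (R.row_eq (W.In p le_rfl hpq) host).1
    rw [h1, if_pos ⟨W.b, Or.inl (by rw [hrow]; exact hreal)⟩]
    exact (elem_bot (hx.e (p + 1) _) hbt').1.hl
  have h3 := (wp_c W.w hpq q (by omega) le_rfl).2.2
  rw [hhb] at h3
  have h2 := wp_wr W.w (show p ≤ q - 1 by omega) (by omega)
  rw [sub_add_cancel] at h2
  have hrow : (x.dn q (z q)).row = (x.dn q g0).row := by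
    have hzq : R.In (q - 1) (z q) := by
      have h3 := W.In (q - 1) (by omega) (by omega)
      have h4 := (W.w (q - 1) (by omega) (by omega)).1
      rw [sub_add_cancel] at h4
      rcases h4 with h4 | h4
      · rw [h4]; exact h3
      · rw [h4, R.fl']; exact h3
    have := (R.row_eq hzq hg0).2
    rw [sub_add_cancel] at this
    exact this
  obtain ⟨s, t, hst⟩ := rl_iff (show (x.dn q (z q)).row.rl = true by rw [hrow]; exact hrq)
  exact (h2.fin1 s t hst W.a).2.1 h3

/-- wires below the top of a hole -/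
theorem wire_holeG {m : ℤ} {f' g0 : K} (htp : (x.dn m f').row = .top) (host : R.In m f') {d : ℕ}
    (hd : (toR x hx).DT (m - 1) f' d) {p : ℤ} (hp : m - 1 - d < p) (hpm : p < m)
    (hg0 : R.In p g0) (hrp : (x.up p g0).row.rl = true) :
    ∃ z, Wire hx R p (m + 1) z ∧ (x.dn (m + 1) (z (m + 1))).c.isG = false := by
  obtain ⟨H1, H2⟩ := elem_top (hx.e m f') htp
  have hreal : (x.dn (m + 1) f').row.rl = true := RS.nxM _ _ ((toR x hx).nx m f') H2.row
  have ha1 : (x.dn (m + 1) f').a = true := (toR x hx).ht m f' htp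
  have e1 : (x.up m (fl m f')).a = false := by
    have : (x.up m (fl m f')).a = !(x.up m f').a := (toR x hx).a1 m f'
    rw [this, H2.a]; rfl
  have e2 : (x.up m (fl m f')).row = (x.up m f').row := (toR x hx).row1 m f'
  have r0 : (toR x hx).Reg m (fl m f') := (toR x hx).reg_of_a (by
    show ¬ (x.up m (fl m f')).row = .bot
    rw [e2]; intro h; have := H2.row; rw [h] at this; exact absurd this (by decide)) e1
  have i0 : R.In (m - 1) (fl m f') := by
    rw [← R.reg _ _ r0, R.fl']; exact host
  obtain ⟨g, ig, og⟩ := R.go_dn i0 hg0 (show p ≤ m - 1 by omega)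
  have hrowg : (x.up p g).row.rl = true := by
    have : (x.up p g).row = (x.up p g0).row := (R.row_eq ig hg0).1
    rw [this]; exact hrp
  obtain ⟨g1, j1, j2, j3, j4⟩ := exists_start ig (Or.inl hrowg)
  obtain ⟨z, W, z1, z2, -⟩ := wire_ex (show p < m + 1 by omega) j1
    (by rw [add_sub_cancel_right]; exact host) j2 (Or.inl (by rw [j4]; exact hrowg))
    (Or.inl hreal)
  refine ⟨z, W, ?_⟩
  have hzm : R.In m (z (m + 1)) := by
    have h3 := W.In m (by omega) (by omega)
    rcases (W.w m (by omega) (by omega)).1 with h4 | h4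
    · rw [h4]; exact h3
    · rw [h4, R.fl']; exact h3
  have hzrow : (x.dn (m + 1) (z (m + 1))).row = (x.dn (m + 1) f').row := (R.row_eq hzm host).2
  have far : ∀ i, (i < p - 1 ∨ m + 2 ≤ i) → (z (m + 1)) i = f' i := by
    intro i hi
    have h1 := z1 i (by omega)
    rw [h1, j3 i (by omega), og i (by omega), fl_ne (by omega)]
  have digm1 : (z (m + 1)) (m + 1) = f' (m + 1) := by
    by_contra hne
    have rz : (toR x hx).Reg (m + 1) (z (m + 1)) := (toR x hx).reg_of_rl (by
      show (x.dn (m + 1) (z (m + 1))).row.rl = true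
      rw [hzrow]; exact hreal)
    have erow : (x.up (m + 1) (fl (m + 1) (z (m + 1)))).row = (x.up (m + 1) (z (m + 1))).row :=
      (toR x hx).row1 _ _
    have e3 : (x.up (m + 1) (z (m + 1))).row = (x.dn (m + 1) (z (m + 1))).row :=
      congrArg RD.row rz.1
    have e4 : (x.up (m + 1) (z (m + 1))).a = (x.dn (m + 1) (z (m + 1))).a := congrArg RD.a rz.1
    have rz' : (toR x hx).Reg (m + 1) (fl (m + 1) (z (m + 1))) := (toR x hx).reg_of_rl' (by
      show (x.up (m + 1) _).row.rl = true
      rw [erow, e3, hzrow]; exact hreal)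
    have iz' : R.In (m + 1 - 1) (fl (m + 1) (z (m + 1))) := by
      rw [← R.reg _ _ rz', R.fl', R.reg _ _ rz, add_sub_cancel_right]
      exact hzm
    have h5 := end_a (q := m + 1) (g := f') (g' := fl (m + 1) (z (m + 1)))
      (by rw [add_sub_cancel_right]; exact host) iz' (by
        intro i hi
        by_cases h : i = m + 1
        · subst h
          rw [fl_same]
          revert hne
          generalize (z (m + 1)) (m + 1) = a
          generalize f' (m + 1) = b
          revert a b; decide
        · rw [fl_ne h]; exact (far i (by omega)).symm) (Or.inl hreal) ha1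
    have e5 : (x.up (m + 1) (fl (m + 1) (z (m + 1)))).a =
        (x.dn (m + 1) (fl (m + 1) (z (m + 1)))).a := congrArg RD.a rz'.1
    have e6 : (x.up (m + 1) (fl (m + 1) (z (m + 1)))).a = !(x.up (m + 1) (z (m + 1))).a :=
      (toR x hx).a1 _ _
    rw [← e5, e6, e4, W.a] at h5
    exact absurd h5 (by decide)
  have izm := W.In m (by omega) (by omega)
  have hzz := wire_off W (show p ≤ m by omega) (show m ≤ m + 1 by omega) le_rfl
  have digm : (z m) m ≠ f' m := by
    intro heq
    have := (R.a_eq izm host (by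
      intro i hi
      by_cases h : i = m
      · rw [h]; exact heq
      · rw [← hzz i (by omega)]
        by_cases h' : i = m + 1
        · rw [h']; exact digm1
        · exact far i (by omega))).1
    have h6 : (x.up m (z m)).a = (x.up m f').a := this
    have h7 : (x.up m (z m)).a = false := (W.w m (by omega) (by omega)).2.1
    rw [h7, H2.a] at h6
    exact absurd h6 (by decide)
  have hoff : Off (m - 1 - d) (m - 1 + 1) f' (fl m (z m)) := by
    intro i hi
    by_cases h : i = m
    · subst h
      rw [fl_same]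
      revert digm
      generalize (z i) i = a
      generalize f' i = b
      revert a b; decide
    · rw [fl_ne h, ← hzz i (by omega)]
      by_cases h' : i = m + 1
      · rw [h']; exact digm1.symm
      · exact (far i (by omega)).symm
  have htop := ((toR x hx).tAll d (m - 1) f' (by rw [sub_add_cancel]; exact htp) hd _ hoff).1
  rw [sub_add_cancel] at htop
  have h2 := wp_wr W.w (show p ≤ m by omega) (by omega)
  obtain ⟨s, t, hst⟩ := rl_iff (show (x.dn (m + 1) (z (m + 1))).row.rl = true by
    rw [hzrow]; exact hreal)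
  exact ((h2.fin1 s t hst W.a).2.2.2 (elem_top (hx.e m _) htop).2.hl).2

end

end Run7.h687.Full
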